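import Pool.Agent.Lib.BedR.SpecA

/-!
# Theorem G (MP_6f050a_an), module AL: the theorem of Andersen and Lempert, inverse form
-/

set_option autoImplicit false

open scoped Manifold ContDiff Topology
open Set Filter Metric
open Pool.Agent.Lib Pool.Agent.Lib.Bed

namespace Pool.Agent.Lib.BedR

namespace ALM

theorem isA_refl (E : Type) [NormedAddCommGroup E] [NormedSpace ℂ E] : IsA (Equiv.refl E) :=
  ⟨differentiable_id, differentiable_id⟩

theorem isA_trans {E : Type} [NormedAddCommGroup E] [NormedSpace ℂ E] {a b : E ≃ E}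
    (ha : IsA a) (hb : IsA b) : IsA (a.trans b) :=
  ⟨hb.1.comp ha.1, ha.2.comp hb.2⟩

theorem et_one {E : Type} [NormedAddCommGroup E] [NormedSpace ℂ E] (e : E → E) (z : E) :
    et e 1 z = e z := by
  simp [et]

/-- the composition of the maps `σ 0, .., σ (j - 1)` -/
def comp {E : Type} (σ : ℕ → E ≃ E) : ℕ → E ≃ E
  | 0 => Equiv.refl E
  | j + 1 => (comp σ j).trans (σ j)

theorem isA_comp {E : Type} [NormedAddCommGroup E] [NormedSpace ℂ E] {σ : ℕ → E ≃ E}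
    (hσ : ∀ j, IsA (σ j)) (j : ℕ) : IsA (comp σ j) := by
  induction j with
  | zero => exact isA_refl E
  | succ j ih => exact isA_trans ih (hσ j)

/-- an injective endomorphism has a continuous inverse -/
theorem exists_inv {E : Type} [NormedAddCommGroup E] [NormedSpace ℂ E] [FiniteDimensional ℂ E]
    (A : E →L[ℂ] E) (hA : ∀ w, A w = 0 → w = 0) :
    ∃ (A' : E ≃L[ℂ] E) (B : ℝ), 0 < B ∧ (∀ z, A' z = A z) ∧ ∀ w, ‖A'.symm w‖ ≤ B * ‖w‖ := by
  have hinj : Function.Injective (A : E →ₗ[ℂ] E) := by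
    rw [injective_iff_map_eq_zero]
    exact fun w hw => hA w hw
  refine ⟨(LinearEquiv.ofInjectiveEndo (A : E →ₗ[ℂ] E) hinj).toContinuousLinearEquiv,
    ‖((LinearEquiv.ofInjectiveEndo (A : E →ₗ[ℂ] E) hinj).toContinuousLinearEquiv.symm : E →L[ℂ] E)‖ + 1,
    by positivity, fun z => rfl, fun w => ?_⟩
  have h := ((LinearEquiv.ofInjectiveEndo (A : E →ₗ[ℂ] E) hinj).toContinuousLinearEquiv.symm :
    E →L[ℂ] E).le_opNorm w
  refine h.trans (mul_le_mul_of_nonneg_right (by linarith) (norm_nonneg _))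

/-- the last step: composition with an affine map -/
theorem last {E : Type} [NormedAddCommGroup E] [NormedSpace ℂ E] (A' : E ≃L[ℂ] E) (c : E)
    {β : E ≃ E} (hβ : IsA β) {B : ℝ} (hB : ∀ w, ‖A'.symm w‖ ≤ B * ‖w‖) :
    ∃ b : E ≃ E, IsA b ∧ ∀ u z, ‖b u - z‖ ≤ B * ‖β u - (c + A' z)‖ := by
  refine ⟨β.trans ((Equiv.subRight c).trans A'.symm.toEquiv), ⟨?_, ?_⟩, fun u z => ?_⟩
  · have h1 : Differentiable ℂ (fun w : E => A'.symm (β w - c)) :=
      A'.symm.differentiable.comp (hβ.1.sub_const c)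
    exact h1
  · have h1 : Differentiable ℂ (fun w : E => β.symm (A' w + c)) :=
      hβ.2.comp (A'.differentiable.add_const c)
    exact h1
  · have e1 : (β.trans ((Equiv.subRight c).trans A'.symm.toEquiv)) u - z =
        A'.symm (β u - (c + A' z)) := by
      have : (β.trans ((Equiv.subRight c).trans A'.symm.toEquiv)) u = A'.symm (β u - c) := rfl
      rw [this, ← sub_sub, map_sub A'.symm (β u - c) (A' z), A'.symm_apply_apply]
    rw [e1]
    exact hB _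

/-- one step -/
theorem step {E : Type} [NormedAddCommGroup E] [NormedSpace ℂ E] {s w a b q y : E} {h C₁ C₂ K δ ε : ℝ}
    (hh : 0 ≤ h) (h1 : ‖s - w + (h : ℂ) • q‖ ≤ C₁ * h ^ 2) (h2 : ‖b - a + (h : ℂ) • y‖ ≤ C₂ * h ^ 2)
    (h3 : ‖w - a‖ = δ) (h4 : ‖q - y‖ ≤ K * δ + ε) :
    ‖s - b‖ ≤ (1 + K * h) * δ + h * ε + (C₁ + C₂) * h ^ 2 := by
  have e1 : s - b = (s - w + (h : ℂ) • q) + (w - a) - (h : ℂ) • (q - y) - (b - a + (h : ℂ) • y) := by
    rw [smul_sub]
    abel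
  have e2 : ‖(h : ℂ) • (q - y)‖ ≤ h * (K * δ + ε) := by
    rw [norm_smul, Complex.norm_real, Real.norm_of_nonneg hh]
    exact mul_le_mul_of_nonneg_left h4 hh
  rw [e1]
  have e3 := norm_sub_le ((s - w + (h : ℂ) • q) + (w - a) - (h : ℂ) • (q - y)) (b - a + (h : ℂ) • y)
  have e4 := norm_sub_le ((s - w + (h : ℂ) • q) + (w - a)) ((h : ℂ) • (q - y))
  have e5 := norm_add_le (s - w + (h : ℂ) • q) (w - a)
  nlinarith

end ALM

open ALM in
theorem alP : S_Ent → S_Cfs → S_Bil → S_Yes → S_Der → S_One → S_Ste → S_Gro → S_AL := by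
  intro hEnt hCfs hBil hYes hDer hOne hSte hGro E _ _ _ hfr r e he hR ε hε
  have : ProperSpace E := FiniteDimensional.proper ℂ E
  obtain ⟨Λ, hBL⟩ := hBil E r e he
  have hΛ : 0 < Λ := hBL.1
  obtain ⟨hyd, C, hC, hy2, hy3⟩ := hYes E r e he
  obtain ⟨hr, hed, hei, hef⟩ := id he
  obtain ⟨M, hM⟩ := (isCompact_closedBall (0 : E) (r / 2)).exists_bound_of_continuousOn
    (f := e) (hed.continuousOn.mono (closedBall_subset_ball (by linarith)))
  have hM' : ∀ x ∈ ball (0 : E) (r / 2), ‖e x‖ ≤ M := fun x hx => hM x (ball_subset_closedBall hx)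
  obtain ⟨A', B, hB, hA', hAs⟩ := exists_inv (fderiv ℂ e 0) (hef 0 (mem_ball_self hr))
  set L : ℝ := C * r * Λ with hL
  have hL0 : 0 < L := by positivity
  have hexp : 0 < Real.exp L := Real.exp_pos L
  -- the number `τ`
  obtain ⟨τ, hτ, hτ2, hBCτ⟩ : ∃ τ : ℝ, 0 < τ ∧ τ ≤ 1 / 2 ∧ B * (C * τ) ≤ ε / 2 := by
    refine ⟨min (1 / 2) (ε / (2 * (B * C))), lt_min (by norm_num) (by positivity), min_le_left _ _, ?_⟩
    have h1 : min (1 / 2) (ε / (2 * (B * C))) ≤ ε / (2 * (B * C)) := min_le_right _ _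
    have h2 : B * (C * min (1 / 2) (ε / (2 * (B * C)))) ≤ B * (C * (ε / (2 * (B * C)))) := by gcongr
    refine h2.trans (le_of_eq ?_)
    field_simp
  -- the number `ε'`
  obtain ⟨ε', hε', hε1, hε2⟩ : ∃ ε' : ℝ, 0 < ε' ∧ Real.exp L * (2 * ε') < r / (8 * Λ) ∧
      B * (Real.exp L * (2 * ε')) ≤ ε / 2 := by
    refine ⟨min (r / (8 * Λ) / (4 * Real.exp L)) (ε / (4 * (B * Real.exp L))),
      lt_min (by positivity) (by positivity), ?_, ?_⟩
    · have h1 : min (r / (8 * Λ) / (4 * Real.exp L)) (ε / (4 * (B * Real.exp L))) ≤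
          r / (8 * Λ) / (4 * Real.exp L) := min_le_left _ _
      have h2 : Real.exp L * (2 * min (r / (8 * Λ) / (4 * Real.exp L)) (ε / (4 * (B * Real.exp L)))) ≤
          Real.exp L * (2 * (r / (8 * Λ) / (4 * Real.exp L))) := by gcongr
      have h3 : Real.exp L * (2 * (r / (8 * Λ) / (4 * Real.exp L))) = r / (8 * Λ) / 2 := by
        field_simp
        norm_num
      have h4 : 0 < r / (8 * Λ) := by positivity
      linarith
    · have h1 : min (r / (8 * Λ) / (4 * Real.exp L)) (ε / (4 * (B * Real.exp L))) ≤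
          ε / (4 * (B * Real.exp L)) := min_le_right _ _
      have h2 : B * (Real.exp L * (2 * min (r / (8 * Λ) / (4 * Real.exp L))
          (ε / (4 * (B * Real.exp L))))) ≤ B * (Real.exp L * (2 * (ε / (4 * (B * Real.exp L))))) := by
        gcongr
      refine h2.trans (le_of_eq ?_)
      field_simp
      norm_num
  -- the field `Q`
  obtain ⟨Q₀, hQ₀d, hQ₀⟩ := hR (yv e) hyd (ε' * τ ^ 2 / 2) (by positivity)
  obtain ⟨Q, hQS, hQ⟩ := hEnt E hfr Q₀ hQ₀d M (ε' * τ ^ 2 / 2) (by positivity)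
  have hQe : ∀ x ∈ ball (0 : E) (r / 2), ‖Q (e x) - yv e x‖ ≤ ε' * τ ^ 2 := by
    intro x hx
    have h1 := hQ (e x) (hM' x hx)
    have h2 := hQ₀ x hx
    have h3 := norm_sub_le_norm_sub_add_norm_sub (Q (e x)) (Q₀ (e x)) (yv e x)
    linarith
  have hCF : CF (fun z => - Q z) := hCfs E (-Q) (neg_mem hQS)
  obtain ⟨C₁, hC₁, hσ0⟩ := hSte E e Q M τ hCF hτ
  obtain ⟨C₂, hC₂, hD⟩ := hDer E r e he hyd τ hτ
  -- the number `n`
  obtain ⟨n, hn, hn1, hn2⟩ : ∃ n : ℕ, 0 < (n : ℝ) ∧ (1 - τ) / n ≤ τ ∧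
      (C₁ + C₂) * ((1 - τ) / n) ≤ ε' := by
    obtain ⟨n, hn⟩ := exists_nat_gt (max (1 / τ) ((C₁ + C₂) / ε'))
    have h1 : 1 / τ < n := lt_of_le_of_lt (le_max_left _ _) hn
    have h2 : (C₁ + C₂) / ε' < n := lt_of_le_of_lt (le_max_right _ _) hn
    have h3 : (0 : ℝ) < n := lt_trans (by positivity) h1
    rw [div_lt_iff₀ hτ] at h1
    rw [div_lt_iff₀ hε'] at h2
    refine ⟨n, h3, ?_, ?_⟩
    · rw [div_le_iff₀ h3]
      nlinarith
    · rw [← mul_div_assoc, div_le_iff₀ h3]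
      nlinarith
  set h : ℝ := (1 - τ) / n with hh
  have hh0 : 0 ≤ h := div_nonneg (by linarith) hn.le
  have hnh : (n : ℝ) * h = 1 - τ := by
    rw [hh]
    field_simp
  have ht1 : ∀ j < n, τ ≤ (1 - j * h) - h := by
    intro j hj
    have h1 : ((j : ℝ) + 1) ≤ n := by exact_mod_cast hj
    nlinarith [mul_le_mul_of_nonneg_right h1 hh0]
  have ht2 : ∀ j : ℕ, 1 - (j : ℝ) * h ≤ 1 := by
    intro j
    nlinarith [mul_nonneg (Nat.cast_nonneg (α := ℝ) j) hh0]
  have hσ1 : ∀ j : ℕ, ∃ σ : E ≃ E, IsA σ ∧ (j < n → ∀ w,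
      ‖e 0 + (((1 - j * h : ℝ)) : ℂ) • (w - e 0)‖ ≤ M →
      ‖σ w - w + (h : ℂ) • qt e Q (1 - j * h) w‖ ≤ C₁ * h ^ 2) := by
    intro j
    by_cases hj : j < n
    · obtain ⟨σ, h1, h2⟩ := hσ0 (1 - j * h) h hh0 hn1 (by linarith [ht1 j hj])
      exact ⟨σ, h1, fun _ => h2⟩
    · exact ⟨Equiv.refl E, isA_refl E, fun hj' => absurd hj' hj⟩
  choose σ hσA hσ using hσ1
  have hβA := isA_comp hσA n
  obtain ⟨b, hbA, hb⟩ := last A' (e 0) hβA hAs
  refine ⟨b, hbA, fun z hz => (hb (e z) z).trans ?_⟩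
  -- the Gronwall estimate
  have hG := hGro n h L ε' (C₁ + C₂) (r / (8 * Λ))
    (fun j => ‖comp σ j (e z) - et e (1 - j * h) z‖) hh0 hL0.le hε'.le (by positivity)
    (by linarith) (by
      refine lt_of_le_of_lt (mul_le_mul_of_nonneg_left ?_ hexp.le) hε1
      linarith) (by
      have : comp σ 0 (e z) = e z := rfl
      simp [this, et_one]) (by
      intro j hj hδ
      have hΛδ : Λ * ‖comp σ j (e z) - et e (1 - j * h) z‖ < r / 8 := by
        rw [lt_div_iff₀ (by positivity)] at hδ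
        linarith
      obtain ⟨g1, g2⟩ := hOne E r Λ C M τ ε' e Q hr hBL hC hy2 hM' hτ hQe (1 - j * h)
        (by linarith [ht1 j hj]) (ht2 j) z hz (comp σ j (e z)) hΛδ
      have g3 := hσ j hj (comp σ j (e z)) g1
      have g4 := hD (1 - j * h) h hh0 (ht1 j hj) (ht2 j) z hz
      have g5 : comp σ (j + 1) (e z) = σ j (comp σ j (e z)) := rfl
      have g6 : (1 : ℝ) - ((j + 1 : ℕ) : ℝ) * h = 1 - j * h - h := by
        push_cast
        ring
      change ‖comp σ (j + 1) (e z) - et e (1 - ((j + 1 : ℕ) : ℝ) * h) z‖ ≤ _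
      rw [g5, g6]
      exact step hh0 g3 g4 rfl g2) n le_rfl
  have hτn : (1 : ℝ) - n * h = τ := by linarith
  change ‖comp σ n (e z) - et e (1 - (n : ℝ) * h) z‖ ≤ _ at hG
  rw [hτn] at hG
  have k1 := hy3 τ hτ (by linarith) z hz
  have k2 : ‖comp σ n (e z) - (e 0 + A' z)‖ ≤ Real.exp L * (2 * ε') + C * τ := by
    rw [hA']
    have k3 := norm_sub_le_norm_sub_add_norm_sub (comp σ n (e z)) (et e τ z)
      (e 0 + fderiv ℂ e 0 z)
    have k4 : Real.exp L * (ε' + (C₁ + C₂) * h) ≤ Real.exp L * (2 * ε') :=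
      mul_le_mul_of_nonneg_left (by linarith) hexp.le
    linarith
  calc B * ‖comp σ n (e z) - (e 0 + A' z)‖ ≤ B * (Real.exp L * (2 * ε') + C * τ) :=
        mul_le_mul_of_nonneg_left k2 hB.le
    _ = B * (Real.exp L * (2 * ε')) + B * (C * τ) := by ring
    _ ≤ ε := by linarith

end Pool.Agent.Lib.BedR
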