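import Pool.Agent.Lib.BedR.SpecC
import Pool.Agent.Lib.Osgood

/-!
# Theorem G (MP_6f050a_an): adapted parametrisations, uniform constants
-/

set_option autoImplicit false

open scoped Manifold ContDiff Topology
open Set Filter Metric
open Pool.Agent.Lib Pool.Agent.Lib.Bed

namespace Pool.Agent.Lib.BedR

/-- **AdU.** -/
theorem aduP : S_AdU := by
  intro hQuad E _ _ _ X _ _ nrm f K Es ψ χ ρ a b N C₁ c hU hK hLoc hN hC hc
  have hρ := hU.ρ_pos
  obtain ⟨ρ₁, hL⟩ := hLoc (ρ / (2 * C₁ ^ 2)) (by positivity)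
  have hρ₁ := hL.pos
  set ρP : ℝ := ρ / C₁ with hρP
  set ρH : ℝ := ρ₁ / C₁ with hρH
  have hPpos : 0 < ρP := by positivity
  have hHpos : 0 < ρH := by positivity
  have hHP : ρH ≤ ρP := by
    rw [hρP, hρH]
    exact div_le_div_of_nonneg_right hL.le hC.le
  refine ⟨ρP, ρH / 2, 16 * (2 * ρP) / ρH ^ 2,
    ⟨hN, by positivity, by linarith, hC, ?_, by positivity, hc⟩, ?_⟩
  · rw [hρP]
    exact le_of_eq (mul_div_cancel₀ ρ hC.ne')
  intro p hp k l e A B hF
  let x : ℕ → X := fun n => f^[N * n] p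
  have hxK : ∀ n, x n ∈ K := fun n => hK.iterate _ hp
  have hxs : ∀ n, f^[N] (x n) = x (n + 1) := by
    intro n
    show f^[N] (f^[N * n] p) = f^[N * (n + 1)] p
    rw [← Function.iterate_add_apply]
    congr 1
    ring_nf
  have hesymm : ∀ n y, ‖(e n).symm y‖ ≤ C₁ * ‖y‖ := by
    intro n y
    have := hF.low n ((e n).symm y)
    rwa [ContinuousLinearEquiv.apply_symm_apply] at this
  have hball2 : ∀ n, ∀ v ∈ ball (0 : V k l) ρH, e n v ∈ ball (0 : E) ρ₁ := by
    intro n v hv
    rw [mem_ball_zero_iff] at hv ⊢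
    refine (hF.up n v).trans_lt ?_
    rw [hρH, lt_div_iff₀' hC] at hv
    exact hv
  let H : ℕ → V k l → V k l := fun n v => (e (n + 1)).symm (loc ψ χ (f^[N]) (x n) (e n v))
  have hHb : ∀ n, ∀ v ∈ ball (0 : V k l) ρH, ‖H n v‖ < ρP / 2 := by
    intro n v hv
    refine (hesymm (n + 1) _).trans_lt ?_
    have h1 := hL.small (x n) (hxK n) (e n v) (hball2 n v hv)
    have h2 := mul_lt_mul_of_pos_left h1 hC
    refine h2.trans_le (le_of_eq ?_)
    rw [hρP]
    field_simp
  have hdH : ∀ n, DifferentiableOn ℂ (H n) (ball 0 ρH) := by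
    intro n
    have h1 : DifferentiableOn ℂ (fun v => loc ψ χ (f^[N]) (x n) (e n v)) (ball 0 ρH) :=
      (hL.diff (x n) (hxK n)).comp (e n).differentiable.differentiableOn (hball2 n)
    exact (e (n + 1)).symm.differentiable.comp_differentiableOn h1
  have hH0 : ∀ n, H n 0 = 0 := by
    intro n
    show (e (n + 1)).symm (loc ψ χ (f^[N]) (x n) (e n 0)) = 0
    rw [map_zero, hL.zero (x n) (hxK n), map_zero]
  have hfd : ∀ n, fderiv ℂ (H n) 0 = (A n).prodMap (B n) := by
    intro n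
    have h1 : DifferentiableAt ℂ (loc ψ χ (f^[N]) (x n)) (e n 0) := by
      rw [map_zero]
      exact ((hL.diff (x n) (hxK n)) 0 (mem_ball_self hρ₁)).differentiableAt
        (isOpen_ball.mem_nhds (mem_ball_self hρ₁))
    have h2 : HasFDerivAt (H n) (((e (n + 1)).symm : E →L[ℂ] V k l).comp
        ((fderiv ℂ (loc ψ χ (f^[N]) (x n)) (e n 0)).comp (e n : V k l →L[ℂ] E))) 0 := by
      have h3 := h1.hasFDerivAt.comp (0 : V k l) (e n).hasFDerivAt
      exact (e (n + 1)).symm.hasFDerivAt.comp (0 : V k l) h3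
    rw [h2.fderiv]
    refine ContinuousLinearMap.ext fun v => ?_
    show (e (n + 1)).symm (fderiv ℂ (loc ψ χ (f^[N]) (x n)) (e n 0) (e n v)) = (A n v.1, B n v.2)
    rw [map_zero, hF.der n v, ContinuousLinearEquiv.symm_apply_apply]
  refine ⟨H, ⟨by positivity, by positivity, hF.c_pos, ?_, hH0, ?_, hF.A_le, hF.A_ge, hF.B_ge⟩, ?_⟩
  · intro n
    exact (hdH n).mono (ball_subset_ball (by linarith))
  · intro n v hv v' hv'
    have hR1 : DifferentiableOn ℂ (fun w => H n w - (A n).prodMap (B n) w) (ball 0 ρH) :=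
      (hdH n).sub ((A n).prodMap (B n)).differentiable.differentiableOn
    have hR2 : ∀ w ∈ ball (0 : V k l) ρH, ‖H n w - (A n).prodMap (B n) w‖ ≤ 2 * ρP := by
      intro w hw
      have h1 := Osgood.norm_fderiv_le hHpos (hdH n) (fun w hw => (hHb n w hw).le)
      rw [hfd n] at h1
      have h2 : ‖(A n).prodMap (B n) w‖ ≤ ρP := by
        refine ((A n).prodMap (B n)).le_opNorm w |>.trans ?_
        have hw' : ‖w‖ ≤ ρH := (mem_ball_zero_iff.mp hw).le
        calc ‖(A n).prodMap (B n)‖ * ‖w‖ ≤ ρP / 2 / ρH * ρH :=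
              mul_le_mul h1 hw' (norm_nonneg _) (by positivity)
          _ = ρP / 2 := div_mul_cancel₀ _ hHpos.ne'
          _ ≤ ρP := by linarith
      have h3 := norm_sub_le (H n w) ((A n).prodMap (B n) w)
      have h4 := (hHb n w hw).le
      linarith
    have hR3 : fderiv ℂ (fun w => H n w - (A n).prodMap (B n) w) 0 = 0 := by
      have h1 : DifferentiableAt ℂ (H n) 0 :=
        ((hdH n) 0 (mem_ball_self hHpos)).differentiableAt
          (isOpen_ball.mem_nhds (mem_ball_self hHpos))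
      have h2 := h1.hasFDerivAt.sub ((A n).prodMap (B n)).hasFDerivAt
      rw [hfd n, sub_self] at h2
      exact h2.fderiv
    exact hQuad (V k l) (V k l) ρH (2 * ρP) (fun w => H n w - (A n).prodMap (B n) w) hHpos hR1 hR2
      hR3 v hv v' hv'
  · intro n v hv
    have hv' : v ∈ ball (0 : V k l) ρH := ball_subset_ball (by linarith) hv
    refine ⟨(hHb n v hv').le, ?_⟩
    show ψ (x (n + 1)) (e (n + 1) ((e (n + 1)).symm (loc ψ χ (f^[N]) (x n) (e n v)))) =
      f^[N] (ψ (x n) (e n v))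
    rw [ContinuousLinearEquiv.apply_symm_apply, ← hxs n]
    exact hL.comm (x n) (hxK n) (e n v) (hball2 n v hv')

end Pool.Agent.Lib.BedR
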