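import Pool.Agent.Lib.BedR.SpecB
import Pool.Agent.Lib.Osgood

/-!
# Theorem G (MP_6f050a_an), part B: the approximation property
-/

set_option autoImplicit false

open scoped Manifold ContDiff Topology
open Set Filter Metric
open Pool.Agent.Lib Pool.Agent.Lib.Bed

namespace Pool.Agent.Lib.BedR

namespace Ap1M

variable {k : ℕ} {r : ℝ}

/-- orbits in the ball -/
theorem orb_norm {F : ℕ → Ek k → Ek k} (hc : ∀ n, ∀ x ∈ ball (0 : Ek k) r, ‖F n x‖ ≤ 1 / 4 * ‖x‖)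
    (n i : ℕ) {x : Ek k} (hx : x ∈ ball (0 : Ek k) r) :
    ‖orb F n i x‖ ≤ (1 / 4) ^ i * ‖x‖ := by
  induction i with
  | zero => rw [orb_zero, pow_zero, one_mul]
  | succ i ih =>
    have hb : orb F n i x ∈ ball (0 : Ek k) r := by
      rw [mem_ball_zero_iff] at hx ⊢
      have : ((1 : ℝ) / 4) ^ i ≤ 1 := pow_le_one₀ (by norm_num) (by norm_num)
      nlinarith [norm_nonneg x]
    rw [orb_succ, pow_succ]
    have := hc (n + i) _ hb
    calc ‖F (n + i) (orb F n i x)‖ ≤ 1 / 4 * ‖orb F n i x‖ := this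
      _ ≤ 1 / 4 * ((1 / 4) ^ i * ‖x‖) := by gcongr
      _ = (1 / 4) ^ i * (1 / 4) * ‖x‖ := by ring

theorem orb_mem {F : ℕ → Ek k → Ek k} (hc : ∀ n, ∀ x ∈ ball (0 : Ek k) r, ‖F n x‖ ≤ 1 / 4 * ‖x‖)
    (n i : ℕ) {x : Ek k} (hx : x ∈ ball (0 : Ek k) r) : orb F n i x ∈ ball (0 : Ek k) r := by
  have h := orb_norm hc n i hx
  rw [mem_ball_zero_iff] at hx ⊢
  have : ((1 : ℝ) / 4) ^ i ≤ 1 := pow_le_one₀ (by norm_num) (by norm_num)
  nlinarith [norm_nonneg x]

/-- the maps are compatible with the orbits -/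
theorem tri_orb {F Ψ : ℕ → Ek k → Ek k}
    (hc : ∀ n, ∀ x ∈ ball (0 : Ek k) r, ‖F n x‖ ≤ 1 / 4 * ‖x‖)
    (hT : ∀ n, ∀ x ∈ ball (0 : Ek k) r, Ψ (n + 1) (F n x) = Ψ n x) (n i : ℕ) {x : Ek k}
    (hx : x ∈ ball (0 : Ek k) r) : Ψ (n + i) (orb F n i x) = Ψ n x := by
  induction i with
  | zero => rw [orb_zero, Nat.add_zero]
  | succ i ih =>
    rw [orb_succ, ← Nat.add_assoc, hT (n + i) _ (orb_mem hc n i hx), ih]

/-- the image of a small ball under an injective immersion is open -/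
theorem isOpen_image {e : Ek k → Ek k} (he : Emb r e) {s : ℝ} (hs : s ≤ r) :
    IsOpen (e '' ball 0 s) := by
  obtain ⟨hr, hd, _, hi⟩ := he
  rw [isOpen_iff_mem_nhds]
  rintro u ⟨x, hx, rfl⟩
  have hxr : x ∈ ball (0 : Ek k) r := ball_subset_ball hs hx
  have ha : AnalyticAt ℂ e x := Osgood.analyticOnNhd isOpen_ball hd x hxr
  have hstr := ha.hasStrictFDerivAt
  have hinj : Function.Injective (fderiv ℂ e x) := by
    rw [injective_iff_map_eq_zero]
    exact fun w hw => hi x hxr w hw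
  obtain ⟨f', hf'⟩ : ∃ f' : Ek k ≃L[ℂ] Ek k, (f' : Ek k →L[ℂ] Ek k) = fderiv ℂ e x := by
    refine ⟨(LinearEquiv.ofInjectiveEndo (fderiv ℂ e x : Ek k →ₗ[ℂ] Ek k) hinj).toContinuousLinearEquiv, ?_⟩
    ext w
    simp
  rw [← hf'] at hstr
  have hm := hstr.map_nhds_eq_of_equiv
  rw [← hm]
  exact image_mem_map (isOpen_ball.mem_nhds hx)

/-- uniform continuity on a compact ball -/
theorem unif {f : Ek k → Ek k} {R : ℝ} (hf : ContinuousOn f (closedBall 0 R)) {ε : ℝ} (hε : 0 < ε) :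
    ∃ δ : ℝ, 0 < δ ∧ ∀ x, ‖x‖ ≤ R → ∀ z, ‖z‖ ≤ R → ‖x - z‖ ≤ δ → ‖f x - f z‖ ≤ ε := by
  have h := (isCompact_closedBall (0 : Ek k) R).uniformContinuousOn_of_continuous hf
  rw [Metric.uniformContinuousOn_iff] at h
  obtain ⟨δ, hδ, h1⟩ := h ε hε
  refine ⟨δ / 2, by linarith, fun x hx z hz hxz => ?_⟩
  have h2 := h1 x (by rw [mem_closedBall_zero_iff]; exact hx) z (by rw [mem_closedBall_zero_iff]; exact hz)
    (by rw [dist_eq_norm]; linarith)
  rw [dist_eq_norm] at h2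
  exact h2.le

/-- a map close to the identity is onto a smaller ball -/
theorem surj {g : Ek k → Ek k} (hg : DifferentiableOn ℂ g (ball 0 (r / 4))) {δ : ℝ}
    (hδ : 0 < δ) (hδr : δ ≤ r / 64) (hb : ∀ z ∈ ball (0 : Ek k) (r / 4), ‖g z - z‖ ≤ δ) {x : Ek k}
    (hx : ‖x‖ < r / 16) : ∃ x' : Ek k, ‖x' - x‖ ≤ δ ∧ g x' = x := by
  have hh : DifferentiableOn ℂ (fun z => g z - z) (ball 0 (r / 4)) := hg.sub differentiableOn_id
  have hsub : closedBall x δ ⊆ ball (0 : Ek k) (r / 8) := by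
    intro y hy
    rw [mem_closedBall, dist_eq_norm] at hy
    rw [mem_ball_zero_iff]
    have := norm_le_norm_add_norm_sub' y x
    linarith
  have hLip : ∀ y ∈ ball (0 : Ek k) (r / 8), ∀ z ∈ ball (0 : Ek k) (r / 8),
      ‖(g y - y) - (g z - z)‖ ≤ 1 / 8 * ‖y - z‖ := by
    intro y hy z hz
    have h1 : ∀ w ∈ ball (0 : Ek k) (r / 8), ‖fderiv ℂ (fun z => g z - z) w‖ ≤ 1 / 8 := by
      intro w hw
      have h2 := Osgood.norm_fderiv_le' (R := r / 4) (r := r / 8) (M := δ) (by linarith) hh hb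
        (w := w) (ball_subset_closedBall hw)
      refine h2.trans ?_
      rw [div_le_iff₀ (by linarith)]
      linarith
    exact (convex_ball (0 : Ek k) (r / 8)).norm_image_sub_le_of_norm_fderiv_le
      (fun w hw => (hh w (ball_subset_ball (by linarith) hw)).differentiableAt
        (isOpen_ball.mem_nhds (ball_subset_ball (by linarith) hw))) h1 hz hy
  have hmap : MapsTo (fun y => x - (g y - y)) (closedBall x δ) (closedBall x δ) := by
    intro y hy
    rw [mem_closedBall, dist_eq_norm]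
    have h3 := hb y (ball_subset_ball (by linarith) (hsub hy))
    rw [sub_sub_cancel_left, norm_neg]
    exact h3
  have hcon : ContractingWith (1 / 8) (hmap.restrict (fun y => x - (g y - y)) _ _) := by
    refine ⟨by norm_num, LipschitzWith.of_dist_le_mul ?_⟩
    rintro ⟨y, hy⟩ ⟨z, hz⟩
    have h4 := hLip y (hsub hy) z (hsub hz)
    rw [Subtype.dist_eq, Subtype.dist_eq, dist_eq_norm, dist_eq_norm]
    simp only [MapsTo.val_restrict_apply]
    rw [sub_sub_sub_cancel_left, norm_sub_rev]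
    push_cast
    exact h4
  obtain ⟨y, hy, hfix, _⟩ := hcon.exists_fixedPoint' isClosed_closedBall.isComplete hmap
    (mem_closedBall_self hδ.le) (edist_ne_top _ _)
  refine ⟨y, ?_, ?_⟩
  · rw [mem_closedBall, dist_eq_norm] at hy
    exact hy
  · have h5 : x - (g y - y) = y := hfix
    have h6 : g y = x := by
      have : g y = x - (x - (g y - y)) + y := by abel
      rw [this, h5]
      abel
    exact h6

end Ap1M

open Ap1M in
theorem ap1P : S_Ap1 := by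
  intro hAL hRg hFam k r C c F hk hS hB N a ε M ha hε
  obtain ⟨hsm, A, hD⟩ := id hS
  have hr : 0 < r := hD.r_pos
  have hc := hD.contr
  obtain ⟨Ψ, h1, h2, h3, h4, h5⟩ := hB
  have hT : IsTri k r F Ψ := ⟨h1, h2, h3, h4, h5⟩
  have hE : ∀ n, Emb r (Ψ n) := fun n => ⟨hr, h1 n, h3 n, h4 n⟩
  have hG : ∀ n, Rge r (Ψ n) := fun n => hRg hFam k r C c F Ψ hS hT n
  have hfin : 2 ≤ Module.finrank ℂ (Ek k) := by
    rw [Module.finrank_fin_fun]
    exact hk
  have hAL' : ∀ n, ∀ δ : ℝ, 0 < δ → ∃ b : Ek k ≃ Ek k, IsA b ∧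
      ∀ z ∈ ball (0 : Ek k) (r / 4), ‖b (Ψ n z) - z‖ ≤ δ := fun n δ hδ =>
    hAL (Ek k) hfin r (Ψ n) (hE n) (hG n) δ hδ
  -- step 1
  obtain ⟨δ₁, hδ₁, ha1⟩ := unif (f := a) (R := r) ha.1.continuous.continuousOn (half_pos hε)
  obtain ⟨b₁, hb₁, hb₁'⟩ := hAL' N (min δ₁ (r / 2)) (lt_min hδ₁ (by linarith))
  have hbA : IsA (b₁.trans a) := ⟨ha.1.comp hb₁.1, hb₁.2.comp ha.2⟩
  obtain ⟨b, hbe⟩ : ∃ b : Ek k ≃ Ek k, b = b₁.trans a := ⟨_, rfl⟩
  rw [← hbe] at hbA
  have hbN : ∀ z ∈ ball (0 : Ek k) (r / 4), ‖b (Ψ N z) - a z‖ ≤ ε / 2 := by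
    intro z hz
    have h6 := hb₁' z hz
    rw [mem_ball_zero_iff] at hz
    rw [hbe]
    refine ha1 _ ?_ _ (by linarith) (h6.trans (min_le_left _ _))
    have h7 := norm_le_norm_add_norm_sub' (b₁ (Ψ N z)) z
    have h8 := h6.trans (min_le_right _ _)
    linarith
  -- step 2
  have hK : IsCompact (b.symm '' closedBall (0 : Ek k) M) :=
    (isCompact_closedBall _ _).image hbA.2.continuous
  have hmono : ∀ m, Ψ m '' ball (0 : Ek k) (r / 32) ⊆ Ψ (m + 1) '' ball (0 : Ek k) (r / 32) := by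
    rintro m u ⟨x, hx, rfl⟩
    have hxr : x ∈ ball (0 : Ek k) r := ball_subset_ball (by linarith) hx
    refine ⟨F m x, ?_, h2 m x hxr⟩
    rw [mem_ball_zero_iff] at hx ⊢
    have := hc m x hxr
    have h6 := norm_nonneg x
    linarith
  have hmono' : Monotone (fun m => Ψ m '' ball (0 : Ek k) (r / 32)) := monotone_nat_of_le_succ hmono
  have hcov : b.symm '' closedBall (0 : Ek k) M ⊆ ⋃ m, Ψ m '' ball (0 : Ek k) (r / 32) := by
    intro u _
    obtain ⟨n, x, hx, hu⟩ := h5 u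
    rw [mem_iUnion]
    refine ⟨n + 3, orb F n 3 x, ?_, ?_⟩
    · have h6 := orb_norm hc n 3 hx
      rw [mem_ball_zero_iff] at hx ⊢
      have h7 := norm_nonneg x
      have h8 : ((1 : ℝ) / 4) ^ 3 = 1 / 64 := by norm_num
      rw [h8] at h6
      linarith
    · rw [tri_orb hc h2 n 3 hx, hu]
  obtain ⟨m₀, hm₀⟩ := hK.elim_directed_cover (fun m => Ψ m '' ball (0 : Ek k) (r / 32))
    (fun m => isOpen_image (hE m) (by linarith)) hcov (directed_of_isDirected_le hmono')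
  obtain ⟨i, hi⟩ : ∃ i, i = m₀ + 1 := ⟨_, rfl⟩
  have hKm : b.symm '' closedBall (0 : Ek k) M ⊆ Ψ (N + i) '' ball (0 : Ek k) (r / 32) :=
    hm₀.trans (hmono' (by omega : m₀ ≤ N + i))
  -- step 3
  have hcont : ContinuousOn (fun x => b (Ψ (N + i) x)) (closedBall (0 : Ek k) (r / 2)) :=
    hbA.1.continuous.comp_continuousOn
      ((h1 (N + i)).continuousOn.mono (closedBall_subset_ball (by linarith)))
  obtain ⟨δ₂, hδ₂, hu⟩ := unif hcont (half_pos hε)
  obtain ⟨δ, hδe⟩ : ∃ δ, δ = min δ₂ (r / 64) := ⟨_, rfl⟩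
  have hδ : 0 < δ := by rw [hδe]; exact lt_min hδ₂ (by linarith)
  have hδ₂' : δ ≤ δ₂ := by rw [hδe]; exact min_le_left _ _
  have hδr : δ ≤ r / 64 := by rw [hδe]; exact min_le_right _ _
  obtain ⟨b₂, hb₂, hb₂'⟩ := hAL' (N + i) δ hδ
  -- step 4
  refine ⟨i, b₂.symm.trans b, by omega, ⟨hbA.1.comp hb₂.2, hb₂.1.comp hbA.2⟩, ?_, ?_⟩
  · intro z hz
    have hzr : z ∈ ball (0 : Ek k) r := ball_subset_ball (by linarith) hz
    have hn := orb_norm hc N i hzr
    have hpow : ((1 : ℝ) / 4) ^ i ≤ 1 / 4 := by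
      rw [hi, pow_succ]
      have : ((1 : ℝ) / 4) ^ m₀ ≤ 1 := pow_le_one₀ (by norm_num) (by norm_num)
      linarith
    rw [mem_ball_zero_iff] at hz
    have hx : ‖orb F N i z‖ < r / 16 := by
      have := norm_nonneg z
      nlinarith
    obtain ⟨x', hx', hgx⟩ := surj (g := fun x => b₂ (Ψ (N + i) x))
      (hb₂.1.comp_differentiableOn ((h1 (N + i)).mono (ball_subset_ball (by linarith)))) hδ hδr hb₂' hx
    have e1 : (b₂.symm.trans b) (orb F N i z) = b (Ψ (N + i) x') := by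
      rw [Equiv.trans_apply, ← hgx, Equiv.symm_apply_apply]
    rw [e1]
    have hx'n : ‖x'‖ ≤ r / 2 := by
      have := norm_le_norm_add_norm_sub' x' (orb F N i z)
      linarith
    have h6 := hu x' hx'n (orb F N i z) (by linarith) (hx'.trans hδ₂')
    rw [tri_orb hc h2 N i hzr] at h6
    have h7 := hbN z (by rw [mem_ball_zero_iff]; exact hz)
    calc ‖b (Ψ (N + i) x') - a z‖ = ‖(b (Ψ (N + i) x') - b (Ψ N z)) + (b (Ψ N z) - a z)‖ := by
          congr 1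
          abel
      _ ≤ ‖b (Ψ (N + i) x') - b (Ψ N z)‖ + ‖b (Ψ N z) - a z‖ := norm_add_le _ _
      _ ≤ ε := by linarith
  · intro w hw
    obtain ⟨x, hx, hxw⟩ := hKm ⟨w, by rw [mem_closedBall_zero_iff]; exact hw, rfl⟩
    have e1 : (b₂.symm.trans b).symm w = b₂ (Ψ (N + i) x) := by
      rw [hxw]
      rfl
    rw [e1]
    have h6 := hb₂' x (ball_subset_ball (by linarith) hx)
    have h7 := norm_le_norm_add_norm_sub' (b₂ (Ψ (N + i) x)) x
    rw [mem_ball_zero_iff] at hx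
    linarith

end Pool.Agent.Lib.BedR
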