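import Pool.Agent.Lib.BedR.SpecB

/-!
# Theorem G (MP_6f050a_an), Ap2: the basin from a tower of approximations
-/

set_option autoImplicit false

open scoped Manifold ContDiff Topology
open Set Filter Metric
open Pool.Agent.Lib Pool.Agent.Lib.Bed

namespace Pool.Agent.Lib.BedR

namespace Ap2M

variable {k : ℕ} {r C c : ℝ} {F : ℕ → Ek k → Ek k} {A : ℕ → Ek k →L[ℂ] Ek k}

theorem step (hS : SeqD k r (1 / 4) C c F A) (n i : ℕ) {x : Ek k} (hx : x ∈ ball (0 : Ek k) r) :
    orb F n i x ∈ ball (0 : Ek k) r ∧ ‖orb F n (i + 1) x‖ ≤ 1 / 4 * ‖orb F n i x‖ := by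
  induction i with
  | zero => exact ⟨hx, hS.contr n x hx⟩
  | succ i ih =>
    have h1 : orb F n (i + 1) x ∈ ball (0 : Ek k) r := by
      have h0 := ih.1
      rw [mem_ball_zero_iff] at h0 ⊢
      have := norm_nonneg (orb F n i x)
      linarith [ih.2]
    exact ⟨h1, hS.contr (n + (i + 1)) _ h1⟩

theorem anti (hS : SeqD k r (1 / 4) C c F A) (n : ℕ) {x : Ek k} (hx : x ∈ ball (0 : Ek k) r) :
    Antitone fun i => ‖orb F n i x‖ := by
  refine antitone_nat_of_succ_le fun i => ?_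
  have := norm_nonneg (orb F n i x)
  linarith [(step hS n i hx).2]

theorem two (hS : SeqD k r (1 / 4) C c F A) (n i : ℕ) (hi : 2 ≤ i) {x : Ek k} (hx : x ∈ ball (0 : Ek k) r) :
    ‖orb F n i x‖ < r / 16 := by
  have h1 : ‖orb F n i x‖ ≤ ‖orb F n 2 x‖ := anti hS n hx hi
  have h2 := (step hS n 0 hx).2
  have h3 := (step hS n 1 hx).2
  have h4 : orb F n 0 x = x := rfl
  rw [h4] at h2
  rw [mem_ball_zero_iff] at hx
  norm_num at h2 h3
  linarith

theorem diff (hS : SeqD k r (1 / 4) C c F A) (n i : ℕ) : DifferentiableOn ℂ (orb F n i) (ball (0 : Ek k) r) := by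
  induction i with
  | zero => exact differentiableOn_id
  | succ i ih => exact (hS.diff (n + i)).comp ih fun z hz => (step hS n i hz).1

theorem inj (hS : SeqD k r (1 / 4) C c F A) (n i : ℕ) : InjOn (orb F n i) (ball (0 : Ek k) r) := by
  induction i with
  | zero => exact fun x _ y _ h => h
  | succ i ih =>
    exact fun x hx y hy h => ih hx hy (hS.inj (n + i) (step hS n i hx).1 (step hS n i hy).1 h)

theorem dinj (hS : SeqD k r (1 / 4) C c F A) (n i : ℕ) :
    ∀ x ∈ ball (0 : Ek k) r, ∀ w, fderiv ℂ (orb F n i) x w = 0 → w = 0 := by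
  induction i with
  | zero =>
    intro x _ w h
    have h0 : fderiv ℂ (orb F n 0) x = ContinuousLinearMap.id ℂ (Ek k) := fderiv_id
    rw [h0] at h
    exact h
  | succ i ih =>
    intro x hx w h
    have h1 := ((diff hS n i).differentiableAt (isOpen_ball.mem_nhds hx)).hasFDerivAt
    have h2 := ((hS.diff (n + i)).differentiableAt
      (isOpen_ball.mem_nhds (step hS n i hx).1)).hasFDerivAt
    have h3 : fderiv ℂ (orb F n (i + 1)) x =
        (fderiv ℂ (F (n + i)) (orb F n i x)).comp (fderiv ℂ (orb F n i) x) := (h2.comp x h1).fderiv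
    rw [h3] at h
    exact ih x hx w (hS.dinj _ _ (step hS n i hx).1 _ h)

variable {N : ℕ → ℕ} {a : ℕ → Ek k ≃ Ek k} {d : ℕ → ℝ} {ψ : ℕ → Ek k → Ek k}

theorem mono (hT : Tow k r F N a d) : StrictMono N :=
  strictMono_nat_of_lt_succ fun i => Nat.lt_of_succ_le (hT.mono i)

theorem key (hS : SeqD k r (1 / 4) C c F A) (hT : Tow k r F N a d)
    (hc : ∀ i, ∀ x ∈ ball (0 : Ek k) (r / 4), ψ (i + 1) (orb F (N i) (N (i + 1) - N i) x) = ψ i x)
    {n i j : ℕ} (hn : n ≤ N i) (hij : i ≤ j) {x : Ek k} (hx : x ∈ ball (0 : Ek k) r)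
    (hy : ‖orb F n (N i - n) x‖ < r / 4) :
    ψ j (orb F n (N j - n) x) = ψ i (orb F n (N i - n) x) := by
  have hN := mono hT
  induction j, hij using Nat.le_induction with
  | base => rfl
  | succ j hj ih =>
    have h1 : N i ≤ N j := hN.monotone hj
    have h2 : N j ≤ N (j + 1) := hN.monotone (Nat.le_succ j)
    have h3 : N (j + 1) - n = (N j - n) + (N (j + 1) - N j) := by omega
    have h4 : orb F n (N j - n) x ∈ ball (0 : Ek k) (r / 4) := by
      rw [mem_ball_zero_iff]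
      have h5 : ‖orb F n (N j - n) x‖ ≤ ‖orb F n (N i - n) x‖ := anti hS n hx (by omega)
      linarith
    rw [h3, orb_add, Nat.add_sub_of_le (hn.trans h1), hc j _ h4, ih]

end Ap2M

open Ap2M in
theorem ap2P : S_Ap2 := by
  intro hMod hCho hWei hLmt k r C c F hSml hAp
  obtain ⟨h32, A, hS⟩ := hSml
  have hr := hS.r_pos
  obtain ⟨N, a, d, hT⟩ := hCho hMod k r F hr hAp
  obtain ⟨ψ, hd, hc, hi, ho⟩ := hLmt hWei k r C c F N a d ⟨h32, A, hS⟩ hT
  have hN := mono hT
  have hNle : ∀ n, n ≤ N n := fun n => hN.le_apply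
  have hN2 : ∀ n, n + 2 ≤ N (n + 2) := fun n => hNle (n + 2)
  have h8 : ∀ n, ∀ x ∈ ball (0 : Ek k) r, orb F n (N (n + 2) - n) x ∈ ball (0 : Ek k) (r / 8) := by
    intro n x hx
    rw [mem_ball_zero_iff]
    have h1 := two hS n (N (n + 2) - n) (by have := hN2 n; omega) hx
    linarith
  have h4 : ∀ n, ∀ x ∈ ball (0 : Ek k) r, orb F n (N (n + 2) - n) x ∈ ball (0 : Ek k) (r / 4) :=
    fun n x hx => ball_subset_ball (by linarith) (h8 n x hx)
  refine ⟨fun n x => ψ (n + 2) (orb F n (N (n + 2) - n) x), ?_, ?_, ?_, ?_, ?_⟩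
  · intro n
    exact (hd (n + 2)).comp (diff hS n _) (h4 n)
  · intro n x hx
    have h1 : N (n + 1 + 2) - n = (N (n + 1 + 2) - (n + 1)) + 1 := by
      have := hN2 (n + 1)
      omega
    have h2 : ψ (n + 1 + 2) (orb F n (N (n + 1 + 2) - n) x) =
        ψ (n + 2) (orb F n (N (n + 2) - n) x) :=
      key hS hT hc (by have := hN2 n; omega) (by omega) hx (by
        have := h4 n x hx
        rwa [mem_ball_zero_iff] at this)
    rw [h1, orb_succ'] at h2
    exact h2
  · intro n x hx y hy h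
    exact inj hS n _ hx hy ((hi (n + 2)).1 (h8 n x hx) (h8 n y hy) h)
  · intro n x hx w h
    have h1 := ((diff hS n (N (n + 2) - n)).differentiableAt (isOpen_ball.mem_nhds hx)).hasFDerivAt
    have h2 := ((hd (n + 2)).differentiableAt (isOpen_ball.mem_nhds (h4 n x hx))).hasFDerivAt
    have h3 : fderiv ℂ (fun x => ψ (n + 2) (orb F n (N (n + 2) - n) x)) x =
        (fderiv ℂ (ψ (n + 2)) (orb F n (N (n + 2) - n) x)).comp
          (fderiv ℂ (orb F n (N (n + 2) - n)) x) := (h2.comp x h1).fderiv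
    rw [h3] at h
    exact dinj hS n _ x hx w ((hi (n + 2)).2 _ (h8 n x hx) _ h)
  · intro u
    obtain ⟨i, hui⟩ := exists_nat_ge ‖u‖
    obtain ⟨x, hx, hxu⟩ := ho i u hui
    have hxr : x ∈ ball (0 : Ek k) r := ball_subset_ball (by linarith) hx
    refine ⟨N (i + 1), x, hxr, ?_⟩
    have h1 : i + 1 ≤ N (i + 1) + 2 := by
      have := hNle (i + 1)
      omega
    have h2 : ψ (N (i + 1) + 2) (orb F (N (i + 1)) (N (N (i + 1) + 2) - N (i + 1)) x) =
        ψ (i + 1) (orb F (N (i + 1)) (N (i + 1) - N (i + 1)) x) :=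
      key hS hT hc le_rfl h1 hxr (by
        rw [Nat.sub_self, orb_zero]
        rw [mem_ball_zero_iff] at hx
        linarith)
    rw [Nat.sub_self, orb_zero, hxu] at h2
    exact h2

end Pool.Agent.Lib.BedR
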