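import Pool.Agent.Lib.BedR.SpecB

/-!
# Theorem G (MP_6f050a_an), statement `ApC`: the approximation property is open
-/

set_option autoImplicit false

open scoped Manifold ContDiff Topology
open Set Filter Metric
open Pool.Agent.Lib Pool.Agent.Lib.Bed

namespace Pool.Agent.Lib.BedR

namespace ApCM

variable {k : ℕ} {r C c : ℝ} {F : ℕ → Ek k → Ek k}

/-- The maps of a uniformly attracting sequence are Lipschitz. -/
theorem lip {A : ℕ → Ek k →L[ℂ] Ek k} (h : SeqD k r (1 / 4) C c F A) (n : ℕ) {x y : Ek k}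
    (hx : x ∈ ball (0 : Ek k) r) (hy : y ∈ ball (0 : Ek k) r) :
    ‖F n x - F n y‖ ≤ (1 / 4 + 2 * C * r) * ‖x - y‖ := by
  have h1 : F n x - F n y = (F n x - A n x - (F n y - A n y)) + A n (x - y) := by
    rw [map_sub]; abel
  have h2 := h.quad n x hx y hy
  have h3 := h.contrL n (x - y)
  rw [mem_ball_zero_iff] at hx hy
  have h4 : C * (‖x‖ + ‖y‖) * ‖x - y‖ ≤ C * (2 * r) * ‖x - y‖ := by
    apply mul_le_mul_of_nonneg_right _ (norm_nonneg _)
    apply mul_le_mul_of_nonneg_left _ h.C_pos.le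
    linarith
  rw [h1]
  refine (norm_add_le _ _).trans ?_
  nlinarith [h2, h3, h4]

/-- The orbits stay in the ball. -/
theorem maps {A : ℕ → Ek k →L[ℂ] Ek k} (h : SeqD k r (1 / 4) C c F A) (N j : ℕ) {z : Ek k}
    (hz : z ∈ ball (0 : Ek k) r) : orb F N j z ∈ ball (0 : Ek k) r := by
  induction j with
  | zero => exact hz
  | succ j ih =>
    rw [orb_succ, mem_ball_zero_iff]
    have h1 := h.contr (N + j) _ ih
    rw [mem_ball_zero_iff] at ih
    have h2 := norm_nonneg (orb F N j z)
    linarith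

/-- Uniform convergence of the orbits. -/
theorem unif {I : Type} {l : Filter I} {G : I → ℕ → Ek k → Ek k} (hF : Sml k r C c F)
    (hG : ∀ᶠ i in l, Sml k r C c (G i))
    (hT : ∀ n, TendstoUniformlyOn (fun i => G i n) (F n) l (ball 0 r)) (N j : ℕ) :
    ∀ δ : ℝ, 0 < δ → ∀ᶠ i in l, ∀ z ∈ ball (0 : Ek k) r, ‖orb (G i) N j z - orb F N j z‖ < δ := by
  obtain ⟨-, A, hA⟩ := hF
  induction j with
  | zero =>
    intro δ hδ
    refine Eventually.of_forall fun i z _ => ?_
    rw [orb_zero, orb_zero, sub_self, norm_zero]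
    exact hδ
  | succ j ih =>
    intro δ hδ
    have hr := hA.r_pos
    have hC := hA.C_pos
    have hL : 0 < 1 / 4 + 2 * C * r := by positivity
    have h1 := ih (δ / 2 / (1 / 4 + 2 * C * r)) (by positivity)
    have h2 := Metric.tendstoUniformlyOn_iff.1 (hT (N + j)) (δ / 2) (by positivity)
    filter_upwards [h1, h2, hG] with i hi1 hi2 hi3 z hz
    obtain ⟨-, B, hB⟩ := hi3
    have hy := maps hB N j hz
    have hy' := maps hA N j hz
    rw [orb_succ, orb_succ]
    have h3 := hi2 _ hy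
    rw [dist_comm, dist_eq_norm] at h3
    have h4 := lip hA (N + j) hy hy'
    have h5 := hi1 z hz
    have h6 : (1 / 4 + 2 * C * r) * ‖orb (G i) N j z - orb F N j z‖ < δ / 2 := by
      rw [lt_div_iff₀ hL] at h5
      linarith [mul_comm (1 / 4 + 2 * C * r) ‖orb (G i) N j z - orb F N j z‖]
    have h7 : G i (N + j) (orb (G i) N j z) - F (N + j) (orb F N j z) =
        (G i (N + j) (orb (G i) N j z) - F (N + j) (orb (G i) N j z)) +
          (F (N + j) (orb (G i) N j z) - F (N + j) (orb F N j z)) := by abel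
    rw [h7]
    refine (norm_add_le _ _).trans_lt ?_
    linarith

end ApCM

open ApCM in
theorem apcP : S_ApC := by
  intro I l k r C c G F hF hG hT N a ε ε' M hε hAp
  obtain ⟨i₀, b, h1, hb, happ, hcov⟩ := hAp
  have hcont : Continuous b := hb.1.continuous
  have huc : UniformContinuousOn b (closedBall (0 : Ek k) r) :=
    (isCompact_closedBall (0 : Ek k) r).uniformContinuousOn_of_continuous hcont.continuousOn
  rw [Metric.uniformContinuousOn_iff] at huc
  obtain ⟨δ, hδ, hδb⟩ := huc (ε' - ε) (by linarith)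
  filter_upwards [unif hF hG hT N i₀ δ hδ, hG] with i hi hi2
  refine ⟨i₀, b, h1, hb, fun z hz => ?_, hcov⟩
  obtain ⟨-, A, hA⟩ := hF
  obtain ⟨-, B, hB⟩ := hi2
  have hr := hA.r_pos
  have hz' : z ∈ ball (0 : Ek k) r := ball_subset_ball (by linarith) hz
  have h2 := hi z hz'
  have h3 := hδb _ (ball_subset_closedBall (maps hB N i₀ hz')) _
    (ball_subset_closedBall (maps hA N i₀ hz')) (by rw [dist_eq_norm]; exact h2)
  rw [dist_eq_norm] at h3
  have h4 := happ z hz
  have h5 : b (orb (G i) N i₀ z) - a z = (b (orb (G i) N i₀ z) - b (orb F N i₀ z)) +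
      (b (orb F N i₀ z) - a z) := by abel
  rw [h5]
  refine (norm_add_le _ _).trans ?_
  linarith

end Pool.Agent.Lib.BedR
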