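import Pool.Agent.Lib.BedR.SpecC

set_option autoImplicit false

open scoped Manifold ContDiff Topology
open Set Filter Metric
open Pool.Agent.Lib Pool.Agent.Lib.Bed

namespace Pool.Agent.Lib.BedR

/-- Bounded functions have limits along ultrafilters. -/
theorem bdlP : S_Bdl := by
  intro W _ _ _ I U g B hB
  have : ProperSpace W := FiniteDimensional.proper ℂ W
  have hc : IsCompact (closedBall (0 : W) B) := isCompact_closedBall 0 B
  have hU : ((U.map g : Ultrafilter W) : Filter W) ≤ 𝓟 (closedBall (0 : W) B) := by
    rw [le_principal_iff]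
    show closedBall (0 : W) B ∈ ((U.map g : Ultrafilter W) : Filter W)
    rw [Ultrafilter.coe_map]
    exact mem_map.2 (by filter_upwards [hB] with a ha; simpa using ha)
  obtain ⟨w, hw, hle⟩ := hc.ultrafilter_le_nhds (U.map g) hU
  refine ⟨w, by simpa using hw, ?_⟩
  rw [Ultrafilter.coe_map] at hle
  exact hle

end Pool.Agent.Lib.BedR
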