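import Pool.Agent.Lib.BedR.SpecA
import Pool.Agent.Lib.Osgood

/-!
# Theorem G (MP_6f050a_an), statement Bil: lower Lipschitz bound and images of small balls
-/

set_option autoImplicit false

open scoped Manifold ContDiff Topology
open Set Filter Metric
open Pool.Agent.Lib Pool.Agent.Lib.Bed

namespace Pool.Agent.Lib.BedR

namespace BilM

variable {E : Type} [NormedAddCommGroup E] [NormedSpace ℂ E] [FiniteDimensional ℂ E]

theorem strict {r : ℝ} {e : E → E} (h : Emb r e) {x : E} (hx : x ∈ ball (0 : E) r) :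
    ∃ A : E ≃L[ℂ] E, HasStrictFDerivAt e (A : E →L[ℂ] E) x := by
  have := FiniteDimensional.complete ℂ E
  have h1 : HasStrictFDerivAt e (fderiv ℂ e x) x :=
    (Osgood.analyticOnNhd isOpen_ball h.2.1 x hx).hasStrictFDerivAt
  have hinj : Function.Injective ((fderiv ℂ e x : E →L[ℂ] E) : E →ₗ[ℂ] E) :=
    (injective_iff_map_eq_zero _).2 fun w hw => h.2.2.2 x hx w hw
  have hA : (((LinearEquiv.ofInjectiveEndo ((fderiv ℂ e x : E →L[ℂ] E) : E →ₗ[ℂ] E)
      hinj).toContinuousLinearEquiv : E ≃L[ℂ] E) : E →L[ℂ] E) = fderiv ℂ e x := by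
    ext w
    rfl
  exact ⟨_, by rw [hA]; exact h1⟩

theorem loc {r : ℝ} {e : E → E} (h : Emb r e) {x : E} (hx : x ∈ ball (0 : E) r) :
    ∃ C : ℝ, ∀ᶠ z : E × E in 𝓝 (x, x), ‖z.1 - z.2‖ ≤ C * ‖e z.1 - e z.2‖ := by
  obtain ⟨A, hA⟩ := strict h hx
  have hM : 0 < ‖(A.symm : E →L[ℂ] E)‖ + 1 := by positivity
  refine ⟨2 * (‖(A.symm : E →L[ℂ] E)‖ + 1), ?_⟩
  have h1 := hA.isLittleO.def (c := 1 / (2 * (‖(A.symm : E →L[ℂ] E)‖ + 1))) (by positivity)
  filter_upwards [h1] with z hz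
  have h2 : ‖z.1 - z.2‖ ≤ (‖(A.symm : E →L[ℂ] E)‖ + 1) * ‖A (z.1 - z.2)‖ := by
    have h3 := (A.symm : E →L[ℂ] E).le_opNorm (A (z.1 - z.2))
    have h4 : (A.symm : E →L[ℂ] E) (A (z.1 - z.2)) = z.1 - z.2 := A.symm_apply_apply _
    rw [h4] at h3
    refine h3.trans (mul_le_mul_of_nonneg_right (by linarith) (norm_nonneg _))
  have h5 : ‖A (z.1 - z.2)‖ ≤ ‖e z.1 - e z.2‖ +
      1 / (2 * (‖(A.symm : E →L[ℂ] E)‖ + 1)) * ‖z.1 - z.2‖ := by
    have h6 : A (z.1 - z.2) = (e z.1 - e z.2) - (e z.1 - e z.2 - A (z.1 - z.2)) := by abel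
    rw [h6]
    exact (norm_sub_le _ _).trans (add_le_add le_rfl hz)
  have h7 : (‖(A.symm : E →L[ℂ] E)‖ + 1) * ‖A (z.1 - z.2)‖ ≤
      (‖(A.symm : E →L[ℂ] E)‖ + 1) * ‖e z.1 - e z.2‖ + 1 / 2 * ‖z.1 - z.2‖ := by
    refine (mul_le_mul_of_nonneg_left h5 hM.le).trans (le_of_eq ?_)
    field_simp
  linarith

theorem compact_bound {r : ℝ} {e : E → E} (h : Emb r e) :
    ∃ C : ℝ, ∀ z ∈ closedBall (0 : E) (3 * r / 8) ×ˢ closedBall (0 : E) (3 * r / 8),
      ‖z.1 - z.2‖ ≤ C * ‖e z.1 - e z.2‖ := by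
  have : ProperSpace E := FiniteDimensional.proper ℂ E
  have hr := h.1
  have hsub : closedBall (0 : E) (3 * r / 8) ⊆ ball (0 : E) r :=
    closedBall_subset_ball (by linarith)
  have hK : IsCompact (closedBall (0 : E) (3 * r / 8) ×ˢ closedBall (0 : E) (3 * r / 8)) :=
    (isCompact_closedBall _ _).prod (isCompact_closedBall _ _)
  refine hK.induction_on (p := fun S => ∃ C : ℝ, ∀ z ∈ S, ‖z.1 - z.2‖ ≤ C * ‖e z.1 - e z.2‖)
    ⟨0, fun z hz => absurd hz (Set.notMem_empty z)⟩ ?_ ?_ ?_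
  · rintro S T hST ⟨C, hC⟩
    exact ⟨C, fun z hz => hC z (hST hz)⟩
  · rintro S T ⟨C, hC⟩ ⟨C', hC'⟩
    refine ⟨max C C', ?_⟩
    rintro z (hz | hz)
    · exact (hC z hz).trans (mul_le_mul_of_nonneg_right (le_max_left _ _) (norm_nonneg _))
    · exact (hC' z hz).trans (mul_le_mul_of_nonneg_right (le_max_right _ _) (norm_nonneg _))
  · rintro ⟨x, y⟩ ⟨hx, hy⟩
    have hx' : x ∈ ball (0 : E) r := hsub hx
    have hy' : y ∈ ball (0 : E) r := hsub hy
    by_cases hxy : x = y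
    · subst hxy
      obtain ⟨C, hC⟩ := loc h hx'
      exact ⟨_, mem_nhdsWithin_of_mem_nhds hC, C, fun z hz => hz⟩
    · have hne : e x ≠ e y := fun h0 => hxy (h.2.2.1 hx' hy' h0)
      have hd : 0 < ‖e x - e y‖ := norm_pos_iff.2 (sub_ne_zero.2 hne)
      have hcx : ContinuousAt e x := (h.2.1.differentiableAt (isOpen_ball.mem_nhds hx')).continuousAt
      have hcy : ContinuousAt e y := (h.2.1.differentiableAt (isOpen_ball.mem_nhds hy')).continuousAt
      have hc1 : ContinuousAt (fun z : E × E => e z.1) (x, y) :=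
        ContinuousAt.comp (f := Prod.fst) (g := e) hcx continuousAt_fst
      have hc2 : ContinuousAt (fun z : E × E => e z.2) (x, y) :=
        ContinuousAt.comp (f := Prod.snd) (g := e) hcy continuousAt_snd
      have hc3 : ContinuousAt (fun z : E × E => ‖e z.1 - e z.2‖) (x, y) := (hc1.sub hc2).norm
      have hev : ∀ᶠ z : E × E in 𝓝 (x, y), ‖e x - e y‖ / 2 < ‖e z.1 - e z.2‖ :=
        hc3.eventually_const_lt (by
          show ‖e x - e y‖ / 2 < ‖e x - e y‖
          linarith)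
      refine ⟨{z : E × E | ‖e x - e y‖ / 2 < ‖e z.1 - e z.2‖} ∩
        (closedBall (0 : E) (3 * r / 8) ×ˢ closedBall (0 : E) (3 * r / 8)),
        Filter.inter_mem (mem_nhdsWithin_of_mem_nhds hev) self_mem_nhdsWithin,
        (3 * r / 4) / (‖e x - e y‖ / 2), ?_⟩
      rintro ⟨a, b⟩ ⟨hz, ha, hb⟩
      have hz' : ‖e x - e y‖ / 2 < ‖e a - e b‖ := hz
      have ha' : ‖a‖ ≤ 3 * r / 8 := mem_closedBall_zero_iff.1 ha
      have hb' : ‖b‖ ≤ 3 * r / 8 := mem_closedBall_zero_iff.1 hb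
      have hab : ‖a - b‖ ≤ 3 * r / 4 := by
        have := norm_sub_le a b
        linarith
      show ‖a - b‖ ≤ (3 * r / 4) / (‖e x - e y‖ / 2) * ‖e a - e b‖
      rw [div_mul_eq_mul_div, le_div_iff₀ (by linarith)]
      exact mul_le_mul hab hz'.le (by linarith) (by linarith)

end BilM

open BilM in
theorem bilP : S_Bil := by
  intro E _ _ _ r e h
  have : ProperSpace E := FiniteDimensional.proper ℂ E
  have : CompleteSpace E := FiniteDimensional.complete ℂ E
  obtain ⟨C, hC⟩ := compact_bound h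
  have hr := h.1
  have hΛ : 0 < max C 1 := lt_of_lt_of_le one_pos (le_max_right _ _)
  have h1 : ∀ x ∈ closedBall (0 : E) (3 * r / 8), ∀ y ∈ closedBall (0 : E) (3 * r / 8),
      ‖x - y‖ ≤ max C 1 * ‖e x - e y‖ := fun x hx y hy =>
    (hC (x, y) ⟨hx, hy⟩).trans (mul_le_mul_of_nonneg_right (le_max_left _ _) (norm_nonneg _))
  refine ⟨max C 1, hΛ, h1, ?_⟩
  intro x s hs hsub u hu
  generalize hL : max C 1 = L at hΛ h1 hu
  obtain ⟨s', hs'1, hs'2⟩ := exists_between hu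
  have hs'0 : 0 < s' := lt_of_le_of_lt (mul_nonneg hΛ.le (norm_nonneg _)) hs'1
  have hcb : closedBall x s' ⊆ closedBall (0 : E) (3 * r / 8) :=
    (closedBall_subset_ball hs'2).trans (hsub.trans ball_subset_closedBall)
  have hbr : closedBall (0 : E) (3 * r / 8) ⊆ ball (0 : E) r :=
    closedBall_subset_ball (by linarith)
  have hxs : x ∈ closedBall x s' := mem_closedBall_self hs'0.le
  have hopen : IsOpen (e '' ball x s') := by
    rw [isOpen_iff_mem_nhds]
    rintro _ ⟨a, ha, rfl⟩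
    obtain ⟨A, hA⟩ := strict h (hbr (hcb (ball_subset_closedBall ha)))
    rw [← hA.map_nhds_eq_of_equiv]
    exact Filter.image_mem_map (isOpen_ball.mem_nhds ha)
  have hclosed : IsClosed (e '' closedBall x s') := by
    refine ((isCompact_closedBall x s').image_of_continuousOn ?_).isClosed
    exact h.2.1.continuousOn.mono (hcb.trans hbr)
  have hD : ball (e x) (s' / L) ⊆ e '' ball x s' := by
    refine (convex_ball (e x) (s' / L)).isPreconnected.subset_of_closure_inter_subset hopen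
      ⟨e x, mem_ball_self (by positivity), x, mem_ball_self hs'0, rfl⟩ ?_
    rintro w ⟨hw1, hw2⟩
    have hw3 : w ∈ e '' closedBall x s' :=
      closure_minimal (Set.image_mono ball_subset_closedBall) hclosed hw1
    obtain ⟨a, ha, rfl⟩ := hw3
    refine ⟨a, ?_, rfl⟩
    rw [mem_ball, dist_eq_norm] at hw2 ⊢
    have h2 := h1 a (hcb ha) x (hcb hxs)
    have h3 : L * ‖e a - e x‖ < s' := by
      have := (lt_div_iff₀ hΛ).1 hw2
      linarith
    exact lt_of_le_of_lt h2 h3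
  have hu' : u ∈ ball (e x) (s' / L) := by
    rw [mem_ball, dist_eq_norm, lt_div_iff₀ hΛ]
    linarith
  obtain ⟨x', hx', hxu⟩ := hD hu'
  exact ⟨x', ball_subset_ball hs'2.le hx', hxu⟩

end Pool.Agent.Lib.BedR
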