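import Pool.Agent.Lib.BedR.SpecA

/-! Theorem G (MP_6f050a_an): all fields in `SO E` have approximate flows (statement `S_Cfs`). -/

set_option autoImplicit false

open scoped Manifold ContDiff Topology
open Set Filter Metric
open Pool.Agent.Lib Pool.Agent.Lib.Bed

namespace Pool.Agent.Lib.BedR

theorem cfsP : S_Shr → S_Sum → S_Cfs := by
  intro hShr hSum E _ _ _ q hq
  have key : ∀ q ∈ SO E, ∀ c : ℂ, CF (fun z => c • q z) := by
    intro q hq
    unfold SO at hq
    induction hq using Submodule.span_induction with
    | mem q hq =>
      intro c
      obtain ⟨l, n, v, hlv, h | ⟨m, h⟩⟩ := hq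
      · subst h
        have h1 := (hShr E l n (c • v) (by rw [map_smul, hlv, smul_zero])).1
        have e1 : (fun z => c • (fun z => l z ^ n • v) z) = (fun z => l z ^ n • c • v) := by
          funext z
          exact smul_comm _ _ _
        rw [e1]
        exact h1
      · subst h
        have h1 := (hShr E l n (c • v) (by rw [map_smul, hlv, smul_zero])).2 m
        have e1 : (fun z => c • (fun z => (l z ^ n * m z) • v) z) =
            (fun z => (l z ^ n * m z) • c • v) := by
          funext z
          exact smul_comm _ _ _
        rw [e1]
        exact h1
    | zero =>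
      intro c
      have h1 := (hShr E 0 0 0 (map_zero _)).1
      have e1 : (fun z => c • (0 : E → E) z) = (fun z => (0 : E →L[ℂ] ℂ) z ^ 0 • (0 : E)) := by
        funext z
        simp
      rw [e1]
      exact h1
    | add x y hx hy ihx ihy =>
      intro c
      have h1 := hSum E _ _ (ihx c) (ihy c)
      have e1 : (fun z => c • (x + y) z) = (fun z => c • x z + c • y z) := by
        funext z
        exact smul_add _ _ _
      rw [e1]
      exact h1
    | smul a x hx ih =>
      intro c
      have h1 := ih (c * a)
      have e1 : (fun z => c • (a • x) z) = (fun z => (c * a) • x z) := by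
        funext z
        show c • a • x z = (c * a) • x z
        rw [smul_smul]
      rw [e1]
      exact h1
  have h := key q hq 1
  have e1 : (fun z => (1 : ℂ) • q z) = q := by
    funext z
    exact one_smul _ _
  rw [e1] at h
  exact h

end Pool.Agent.Lib.BedR
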