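import Pool.Agent.Lib.BedR.SpecB

/-!
# Theorem G (MP_6f050a_an): the tower of approximations
-/

set_option autoImplicit false

open scoped Manifold ContDiff Topology
open Set Filter Metric
open Pool.Agent.Lib Pool.Agent.Lib.Bed

namespace Pool.Agent.Lib.BedR

namespace ChoM

/-- The invariant of the states `(N, a, d, μ)`. -/
def Inv (k : ℕ) (r : ℝ) (s : ℕ × (Ek k ≃ Ek k) × ℝ × ℝ) : Prop :=
  IsA s.2.1 ∧ 0 < s.2.2.1 ∧ 0 < s.2.2.2 ∧ s.2.2.2 ≤ s.2.2.1 ∧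
    ∀ z ∈ ball (0 : Ek k) (r / 4), ∀ w, ‖w - s.2.1 z‖ ≤ s.2.2.1 → ‖s.2.1.symm w - z‖ ≤ r / 64

/-- The relation between two consecutive states. -/
def Nxt (k : ℕ) (r : ℝ) (F : ℕ → Ek k → Ek k) (i : ℕ) (s s' : ℕ × (Ek k ≃ Ek k) × ℝ × ℝ) : Prop :=
  s.1 + 1 ≤ s'.1 ∧ s'.2.2.2 ≤ s.2.2.2 ∧
    (∀ z ∈ ball (0 : Ek k) (r / 4),
      ‖s'.2.1 (orb F s.1 (s'.1 - s.1) z) - s.2.1 z‖ ≤ (1 / 2) ^ (i + 2) * s.2.2.2) ∧
    ∀ w, ‖w‖ ≤ (i : ℝ) → ‖s'.2.1.symm w‖ < r / 16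

theorem isA_refl (k : ℕ) : IsA (Equiv.refl (Ek k)) := ⟨differentiable_id, differentiable_id⟩

end ChoM

open ChoM in
theorem choP : S_Cho := by
  intro hMod k r F hr hAp
  have hmod : ∀ a : Ek k ≃ Ek k, IsA a → ∃ d : ℝ, 0 < d ∧ ∀ z ∈ ball (0 : Ek k) (r / 4),
      ∀ w, ‖w - a z‖ ≤ d → ‖a.symm w - z‖ ≤ r / 64 := by
    intro a ha
    obtain ⟨d, hd, h⟩ := hMod k a (r / 4) (r / 64) ha (by positivity)
    exact ⟨d, hd, fun z hz w hw => h z (mem_ball_zero_iff.1 hz).le w hw⟩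
  have hstep : ∀ (i : ℕ) (s : {s // Inv k r s}), ∃ s' : {s // Inv k r s}, Nxt k r F i s.1 s'.1 := by
    rintro i ⟨⟨N, a, d, μ⟩, ha, hd, hμ, hμd, hm⟩
    obtain ⟨i', b, hi', hb, happ, hcov⟩ := hAp N a ((1 / 2) ^ (i + 2) * μ) (i : ℝ) ha (by positivity)
    obtain ⟨d', hd', hm'⟩ := hmod b hb
    refine ⟨⟨⟨N + i', b, d', min μ d'⟩, hb, hd', lt_min hμ hd', min_le_right _ _, hm'⟩, ?_, ?_, ?_, ?_⟩
    · show N + 1 ≤ N + i'
      omega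
    · exact min_le_left _ _
    · intro z hz
      have e : N + i' - N = i' := by omega
      show ‖b (orb F N (N + i' - N) z) - a z‖ ≤ _
      rw [e]
      exact happ z hz
    · exact hcov
  obtain ⟨d₀, hd₀, hm₀⟩ := hmod (Equiv.refl (Ek k)) (isA_refl k)
  choose nx hnx using hstep
  let s : ℕ → {s // Inv k r s} := fun n =>
    Nat.rec ⟨⟨0, Equiv.refl (Ek k), d₀, d₀⟩, isA_refl k, hd₀, hd₀, le_refl _, hm₀⟩ (fun i t => nx i t) n
  have hs : ∀ i, Nxt k r F i (s i).1 (s (i + 1)).1 := fun i => hnx i (s i)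
  have hanti : ∀ i j, j ≤ i → (s i).1.2.2.2 ≤ (s j).1.2.2.2 := by
    intro i j hij
    induction i, hij using Nat.le_induction with
    | base => exact le_refl _
    | succ n _ ih => exact (hs n).2.1.trans ih
  refine ⟨fun i => (s i).1.1, fun i => (s i).1.2.1, fun i => (s i).1.2.2.1, ?_⟩
  refine ⟨fun i => (hs i).1, fun i => (s i).2.1, fun i => (s i).2.2.1, fun i => (s i).2.2.2.2.2, ?_,
    fun i => (hs i).2.2.2⟩
  intro i j hj z hz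
  refine ((hs i).2.2.1 z hz).trans ?_
  have h1 : (s i).1.2.2.2 ≤ (s j).1.2.2.1 := (hanti i j hj).trans (s j).2.2.2.2.1
  exact mul_le_mul_of_nonneg_left h1 (by positivity)

end Pool.Agent.Lib.BedR
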