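import Pool.Agent.Lib.BedR.SpecP

/-!
# Comparison of the norms along a periodic orbit (`S_Cmq`)
-/

set_option autoImplicit false

open scoped Manifold ContDiff Topology
open Set Filter Metric
open Pool.Agent.Lib Pool.Agent.Lib.Bed

namespace Pool.Agent.Lib.BedR

namespace CmqM

/-- a continuous positive homogeneous function on a finite dimensional space is comparable with the norm -/
theorem compare (E : Type) [NormedAddCommGroup E] [NormedSpace ℂ E] [FiniteDimensional ℂ E] (g : E → ℝ)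
    (hc : Continuous g) (hpos : ∀ v, v ≠ 0 → 0 < g v)
    (hsm : ∀ (r : ℝ) (v : E), g ((r : ℂ) • v) = |r| * g v) :
    ∃ α β : ℝ, 0 < α ∧ 0 < β ∧ ∀ v, α * ‖v‖ ≤ g v ∧ g v ≤ β * ‖v‖ := by
  have h0 : g 0 = 0 := by
    have := hsm 0 0
    simpa using this
  rcases subsingleton_or_nontrivial E with hE | hE
  · refine ⟨1, 1, one_pos, one_pos, fun v => ?_⟩
    rw [Subsingleton.elim v 0, h0]
    simp
  · have : ProperSpace E := FiniteDimensional.proper ℂ E
    have hcomp : IsCompact (sphere (0 : E) 1) := isCompact_sphere 0 1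
    have hne : (sphere (0 : E) 1).Nonempty := by
      obtain ⟨v, hv⟩ := exists_ne (0 : E)
      have hv' : ‖v‖ ≠ 0 := norm_ne_zero_iff.2 hv
      refine ⟨((‖v‖⁻¹ : ℝ) : ℂ) • v, ?_⟩
      rw [mem_sphere_zero_iff_norm, norm_smul, Complex.norm_real, norm_inv, norm_norm,
        inv_mul_cancel₀ hv']
    obtain ⟨u, hu, hmin⟩ := hcomp.exists_isMinOn hne hc.continuousOn
    obtain ⟨w, hw, hmax⟩ := hcomp.exists_isMaxOn hne hc.continuousOn
    have hu0 : u ≠ 0 := by
      intro h
      rw [h, mem_sphere_zero_iff_norm, norm_zero] at hu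
      exact zero_ne_one hu
    have hw0 : w ≠ 0 := by
      intro h
      rw [h, mem_sphere_zero_iff_norm, norm_zero] at hw
      exact zero_ne_one hw
    refine ⟨g u, g w, hpos u hu0, hpos w hw0, fun v => ?_⟩
    by_cases hv : v = 0
    · rw [hv, h0]
      simp
    · have hv' : ‖v‖ ≠ 0 := norm_ne_zero_iff.2 hv
      have hs : ((‖v‖⁻¹ : ℝ) : ℂ) • v ∈ sphere (0 : E) 1 := by
        rw [mem_sphere_zero_iff_norm, norm_smul, Complex.norm_real, norm_inv, norm_norm,
          inv_mul_cancel₀ hv']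
      have hg : g (((‖v‖⁻¹ : ℝ) : ℂ) • v) = ‖v‖⁻¹ * g v := by
        rw [hsm, abs_of_nonneg (inv_nonneg.2 (norm_nonneg v))]
      have h1 : g u ≤ ‖v‖⁻¹ * g v := by
        rw [← hg]
        exact hmin hs
      have h2 : ‖v‖⁻¹ * g v ≤ g w := by
        rw [← hg]
        exact hmax hs
      have hvp : 0 < ‖v‖ := norm_pos_iff.2 hv
      have h3 : g v = (‖v‖⁻¹ * g v) * ‖v‖ := by
        field_simp
      constructor
      · rw [h3]
        exact mul_le_mul_of_nonneg_right h1 hvp.le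
      · rw [h3]
        exact mul_le_mul_of_nonneg_right h2 hvp.le

section

variable {E : Type} [NormedAddCommGroup E] [NormedSpace ℂ E]
variable {X : Type} [MetricSpace X] [ChartedSpace E X]

theorem dg_zero (f : X → X) (p : X) (v : E) : dg (f^[0]) p v = v := by
  have h : mfderiv 𝓘(ℂ, E) 𝓘(ℂ, E) (f^[0]) p = ContinuousLinearMap.id ℂ (TangentSpace 𝓘(ℂ, E) p) := by
    rw [Function.iterate_zero]
    exact mfderiv_id
  unfold dg
  rw [h]
  rfl

variable [IsManifold 𝓘(ℂ, E) 1 X]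

theorem nE_cont (nrm : (x : X) → TangentSpace 𝓘(ℂ, E) x → ℝ) (h : IsFinsler nrm) (x : X) :
    Continuous (nE nrm x) := by
  have h1 : Continuous (fun v : TangentSpace 𝓘(ℂ, E) x =>
      (Bundle.TotalSpace.mk x v : TangentBundle 𝓘(ℂ, E) X)) :=
    FiberBundle.continuous_totalSpaceMk E (TangentSpace 𝓘(ℂ, E) : X → Type _) x
  exact h.cont.comp h1

end

end CmqM

open CmqM in
theorem cmqP : S_Cmq := by
  intro hDm E _ _ _ X _ _ _ nrm f K Es Eu C lam hF hH p hp m hm hfp
  have hD := hDm E X nrm f K Es Eu C lam hH p hp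
  have hper : ∀ j, f^[m * j] p = p := by
    intro j
    rw [Function.iterate_mul]
    exact Function.iterate_fixed hfp j
  have hadd : ∀ (a b : ℕ) (v : E), dg (f^[a + b]) p v = dg (f^[b]) (f^[a] p) (dg (f^[a]) p v) :=
    fun a b v => (hD a).2.2.2.2.2.2 b v
  have hpow : ∀ (j : ℕ) (v : E), dg (f^[m * j]) p v = (dg (f^[m]) p ^ j) v := by
    intro j
    induction j with
    | zero =>
      intro v
      rw [Nat.mul_zero, dg_zero, pow_zero]
      rfl
    | succ j ih =>
      intro v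
      rw [Nat.mul_succ, hadd, hper, ih, pow_succ']
      rfl
  have hi : ∀ i : ℕ, ∃ α β : ℝ, 0 < α ∧ 0 < β ∧ ∀ v : E,
      α * ‖v‖ ≤ nE nrm (f^[i] p) (dg (f^[i]) p v) ∧ nE nrm (f^[i] p) (dg (f^[i]) p v) ≤ β * ‖v‖ := by
    intro i
    apply compare E (fun v => nE nrm (f^[i] p) (dg (f^[i]) p v))
    · exact (nE_cont nrm hF (f^[i] p)).comp (dg (f^[i]) p).continuous
    · intro v hv
      refine hF.pos _ _ ?_
      intro h
      exact hv ((hD i).2.2.2.2.2.1 v h)
    · intro r v
      show nE nrm (f^[i] p) (dg (f^[i]) p ((r : ℂ) • v)) = _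
      rw [map_smul]
      exact hF.smul _ r _
  choose α β hα hβ hαβ using hi
  have hne : (Finset.range m).Nonempty := Finset.nonempty_range_iff.2 hm.ne'
  obtain ⟨i₁, _, hi₁⟩ := (Finset.range m).exists_min_image α hne
  obtain ⟨i₂, _, hi₂⟩ := (Finset.range m).exists_max_image β hne
  refine ⟨α i₁, β i₂, hα _, hβ _, ?_⟩
  intro j i hi v
  have e1 : f^[m * j + i] p = f^[i] p := by
    rw [add_comm, Function.iterate_add_apply, hper]
  rw [hadd, e1, hper, hpow]
  have hmem := Finset.mem_range.2 hi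
  obtain ⟨h1, h2⟩ := hαβ i ((dg (f^[m]) p ^ j) v)
  exact ⟨(mul_le_mul_of_nonneg_right (hi₁ i hmem) (norm_nonneg _)).trans h1,
    h2.trans (mul_le_mul_of_nonneg_right (hi₂ i hmem) (norm_nonneg _))⟩

end Pool.Agent.Lib.BedR
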