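import Pool.Agent.Lib.BedR.SpecB

/-!
# Theorem G (MP_6f050a_an): a countable set of biholomorphic maps
-/

set_option autoImplicit false

open scoped Manifold ContDiff Topology
open Set Filter Metric
open Pool.Agent.Lib Pool.Agent.Lib.Bed

namespace Pool.Agent.Lib.BedR

theorem cntP : S_Cnt := by
  intro k R
  have hK : CompactSpace (closedBall (0 : Ek k) R) :=
    isCompact_iff_compactSpace.mp (isCompact_closedBall 0 R)
  let res : {a : Ek k ≃ Ek k // IsA a} → C(closedBall (0 : Ek k) R, Ek k) := fun a =>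
    ⟨fun z => a.1 z.1, a.2.1.continuous.comp continuous_subtype_val⟩
  have : Nonempty (Set.range res) :=
    ⟨⟨res ⟨Equiv.refl _, differentiable_id, differentiable_id⟩, mem_range_self _⟩⟩
  have : SecondCountableTopology C(closedBall (0 : Ek k) R, Ek k) := inferInstance
  have hd := TopologicalSpace.denseRange_denseSeq (Set.range res)
  choose f hf using fun j => (TopologicalSpace.denseSeq (Set.range res) j).2
  refine ⟨fun j => (f j).1, fun j => (f j).2, ?_⟩
  intro a ha ε hε
  obtain ⟨j, hj⟩ := hd.exists_dist_lt ⟨res ⟨a, ha⟩, mem_range_self _⟩ hε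
  refine ⟨j, fun z hz => ?_⟩
  have h1 : dist (res ⟨a, ha⟩) (TopologicalSpace.denseSeq (Set.range res) j).1 < ε := hj
  rw [← hf j] at h1
  have h2 := ContinuousMap.dist_apply_le_dist (f := res ⟨a, ha⟩) (g := res (f j))
    (⟨z, by simpa [mem_closedBall, dist_zero_right] using hz⟩ : closedBall (0 : Ek k) R)
  have h3 : dist (a z) ((f j).1 z) < ε := lt_of_le_of_lt h2 h1
  rw [dist_comm, dist_eq_norm] at h3
  exact h3.le

end Pool.Agent.Lib.BedR
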