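import Pool.Agent.Lib.BedR.SpecP
import Mathlib.LinearAlgebra.Charpoly.Basic
import Mathlib.LinearAlgebra.Eigenspace.Minpoly
import Mathlib.RingTheory.Coprime.Basic

set_option autoImplicit false

open Polynomial

namespace Pool.Agent.Lib.BedR.CutM

/-- The product of the linear factors of a multiset. -/
noncomputable def prd (m : Multiset ℂ) : ℂ[X] := (m.map fun μ => X - C μ).prod

lemma coprime_one (a : ℂ) (n : Multiset ℂ) (h : ∀ b ∈ n, a ≠ b) : IsCoprime (X - C a) (prd n) := by
  unfold prd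
  induction n using Multiset.induction_on with
  | empty => simpa using isCoprime_one_right
  | cons b t iht =>
    rw [Multiset.map_cons, Multiset.prod_cons]
    refine IsCoprime.mul_right ?_ (iht fun b' hb' => h b' (Multiset.mem_cons_of_mem hb'))
    exact Polynomial.isCoprime_X_sub_C_of_isUnit_sub
      (sub_ne_zero.2 (h b (Multiset.mem_cons_self b t))).isUnit

lemma coprime_prd (m n : Multiset ℂ) (h : ∀ a ∈ m, ∀ b ∈ n, a ≠ b) :
    IsCoprime (prd m) (prd n) := by
  induction m using Multiset.induction_on with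
  | empty => simpa [prd] using isCoprime_one_left
  | cons a s ih =>
    have e : prd (a ::ₘ s) = (X - C a) * prd s := by
      unfold prd
      rw [Multiset.map_cons, Multiset.prod_cons]
    rw [e]
    exact IsCoprime.mul_left (coprime_one a n (h a (Multiset.mem_cons_self a s)))
      (ih fun a' ha' => h a' (Multiset.mem_cons_of_mem ha'))

lemma eval_prd (m : Multiset ℂ) (μ : ℂ) (h : (prd m).eval μ = 0) : μ ∈ m := by
  unfold prd at h
  rw [eval_multiset_prod, Multiset.prod_eq_zero_iff] at h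
  simp only [Multiset.map_map, Multiset.mem_map, Function.comp, eval_sub, eval_X, eval_C] at h
  obtain ⟨a, ha, h0⟩ := h
  rwa [sub_eq_zero.1 h0]

lemma prd_add (m n : Multiset ℂ) : prd (m + n) = prd m * prd n := by
  unfold prd
  rw [Multiset.map_add, Multiset.prod_add]

section
variable {V : Type} [AddCommGroup V] [Module ℂ V]

lemma pow_mem (T : V →ₗ[ℂ] V) (S : Submodule ℂ V) (hS : ∀ v ∈ S, T v ∈ S) (i : ℕ) :
    ∀ v ∈ S, (T ^ i) v ∈ S := by
  induction i with
  | zero => intro v hv; simpa using hv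
  | succ i ih =>
    intro v hv
    rw [pow_succ, Module.End.mul_apply]
    exact ih _ (hS v hv)

lemma aeval_mem (T : V →ₗ[ℂ] V) (S : Submodule ℂ V) (hS : ∀ v ∈ S, T v ∈ S) (p : ℂ[X]) :
    ∀ v ∈ S, (aeval T p) v ∈ S := by
  intro v hv
  rw [Polynomial.aeval_eq_sum_range, LinearMap.sum_apply]
  refine S.sum_mem fun i _ => ?_
  rw [LinearMap.smul_apply]
  exact S.smul_mem _ (pow_mem T S hS i v hv)

lemma aeval_mul_apply (T : V →ₗ[ℂ] V) (p q : ℂ[X]) (v : V) :
    (aeval T (p * q)) v = (aeval T p) ((aeval T q) v) := by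
  rw [map_mul, Module.End.mul_apply]

lemma aeval_eig (T : V →ₗ[ℂ] V) (p : ℂ[X]) (μ : ℂ) (v : V) (h : T v = μ • v) :
    (aeval T p) v = p.eval μ • v := by
  have hp : ∀ i : ℕ, (T ^ i) v = μ ^ i • v := by
    intro i
    induction i with
    | zero => simp
    | succ i ih => rw [pow_succ', Module.End.mul_apply, ih, map_smul, h, smul_smul, pow_succ]
  rw [Polynomial.aeval_eq_sum_range, LinearMap.sum_apply, Polynomial.eval_eq_sum_range,
    Finset.sum_smul]
  refine Finset.sum_congr rfl fun i _ => ?_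
  rw [LinearMap.smul_apply, hp, smul_smul]

end

end Pool.Agent.Lib.BedR.CutM

namespace Pool.Agent.Lib.BedR

open CutM

theorem cutP : S_Cut := by
  intro V _ _ _ T S P hS
  classical
  have hsp : T.charpoly = prd T.charpoly.roots := by
    have h := (IsAlgClosed.splits T.charpoly).eq_prod_roots
    rw [(LinearMap.charpoly_monic T).leadingCoeff, C_1, one_mul] at h
    exact h
  set m := T.charpoly.roots with hm
  set p₁ := prd (m.filter P) with hp1
  set p₂ := prd (m.filter fun μ => ¬ P μ) with hp2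
  have hprod : p₁ * p₂ = T.charpoly := by
    rw [hp1, hp2, ← prd_add, Multiset.filter_add_not, ← hsp]
  have hz : ∀ v, (aeval T p₁) ((aeval T p₂) v) = 0 := by
    intro v
    rw [← aeval_mul_apply, hprod, LinearMap.aeval_self_charpoly]
    rfl
  have hz' : ∀ v, (aeval T p₂) ((aeval T p₁) v) = 0 := by
    intro v
    rw [← aeval_mul_apply, mul_comm, aeval_mul_apply, hz]
  obtain ⟨a, b, hab⟩ : IsCoprime p₁ p₂ := by
    refine coprime_prd _ _ fun x hx y hy hxy => ?_
    rw [Multiset.mem_filter] at hx hy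
    exact hy.2 (hxy ▸ hx.2)
  have hdec : ∀ v, (aeval T (a * p₁)) v + (aeval T (b * p₂)) v = v := by
    intro v
    rw [← LinearMap.add_apply, ← map_add, hab, map_one]
    rfl
  have hcomm : ∀ (p : ℂ[X]) (v : V), (aeval T p) (T v) = T ((aeval T p) v) := by
    intro p v
    have h1 : (aeval T (p * X)) v = (aeval T (X * p)) v := by rw [mul_comm]
    rw [aeval_mul_apply, aeval_mul_apply, aeval_X] at h1
    exact h1
  refine ⟨S ⊓ LinearMap.ker (aeval T p₁), S ⊓ LinearMap.ker (aeval T p₂), ?_, ?_, ?_, ?_, ?_, ?_⟩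
  · apply le_antisymm (sup_le inf_le_left inf_le_left)
    intro v hv
    rw [← hdec v, add_comm]
    refine Submodule.add_mem_sup ⟨aeval_mem T S hS _ v hv, ?_⟩ ⟨aeval_mem T S hS _ v hv, ?_⟩
    · rw [SetLike.mem_coe, LinearMap.mem_ker, ← aeval_mul_apply,
        show p₁ * (b * p₂) = b * (p₁ * p₂) by ring, aeval_mul_apply, aeval_mul_apply, hz, map_zero]
    · rw [SetLike.mem_coe, LinearMap.mem_ker, ← aeval_mul_apply,
        show p₂ * (a * p₁) = a * (p₁ * p₂) by ring, aeval_mul_apply, aeval_mul_apply, hz, map_zero]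
  · rw [Submodule.disjoint_def]
    rintro v ⟨_, h1⟩ ⟨_, h2⟩
    rw [SetLike.mem_coe, LinearMap.mem_ker] at h1 h2
    rw [← hdec v, aeval_mul_apply, aeval_mul_apply, h1, h2, map_zero, map_zero, add_zero]
  · rintro v ⟨h1, h2⟩
    rw [SetLike.mem_coe, LinearMap.mem_ker] at h2
    refine ⟨hS v h1, ?_⟩
    rw [SetLike.mem_coe, LinearMap.mem_ker, hcomm, h2, map_zero]
  · rintro v ⟨h1, h2⟩
    rw [SetLike.mem_coe, LinearMap.mem_ker] at h2
    refine ⟨hS v h1, ?_⟩
    rw [SetLike.mem_coe, LinearMap.mem_ker, hcomm, h2, map_zero]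
  · rintro μ v ⟨_, h2⟩ hv hT
    rw [SetLike.mem_coe, LinearMap.mem_ker, aeval_eig T p₁ μ v hT, smul_eq_zero] at h2
    have h3 := eval_prd _ _ (h2.resolve_right hv)
    exact (Multiset.mem_filter.1 h3).2
  · rintro μ v ⟨_, h2⟩ hv hT
    rw [SetLike.mem_coe, LinearMap.mem_ker, aeval_eig T p₂ μ v hT, smul_eq_zero] at h2
    have h3 := eval_prd _ _ (h2.resolve_right hv)
    exact (Multiset.mem_filter.1 h3).2

end Pool.Agent.Lib.BedR
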