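import Pool.Agent.Lib.Bed.Str
import Pool.Agent.Lib.BedF.SpecB

/-!
# Theorem G (MP_6f050a_an): stable manifolds of generic points, definitions

The set of the points `p` of `K` for which the stable manifold is biholomorphic to `ℂ^k` is a `G_δ`.
-/

set_option autoImplicit false

open scoped Manifold ContDiff Topology
open Set Filter Metric
open Pool.Agent.Lib Pool.Agent.Lib.Bed

namespace Pool.Agent.Lib.BedR

/-- `ℂ^k` with the sup norm. -/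
abbrev Ek (k : ℕ) : Type := Fin k → ℂ

section
variable {E : Type} [NormedAddCommGroup E] [NormedSpace ℂ E]

/-- A biholomorphic map of `E` onto `E`. -/
def IsA (a : E ≃ E) : Prop := Differentiable ℂ a ∧ Differentiable ℂ a.symm

/-- An entire vector field `q` with approximate flows by biholomorphic maps. -/
def CF (q : E → E) : Prop := Differentiable ℂ q ∧ ∃ Φ : ℝ → (E ≃ E), (∀ s, IsA (Φ s)) ∧
  ∀ M : ℝ, ∃ C : ℝ, 0 ≤ C ∧ ∀ s : ℝ, 0 ≤ s → s ≤ 1 → ∀ z : E, ‖z‖ ≤ M →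
    ‖Φ s z - z - (s : ℂ) • q z‖ ≤ C * s ^ 2

variable (E) in
/-- The span of the shear fields `l^n v` and the overshear fields `l^n m v`, `l v = 0`. -/
def SO : Submodule ℂ (E → E) := Submodule.span ℂ {q | ∃ (l : E →L[ℂ] ℂ) (n : ℕ) (v : E), l v = 0 ∧
  ((q = fun z => l z ^ n • v) ∨ ∃ m : E →L[ℂ] ℂ, q = fun z => (l z ^ n * m z) • v)}

/-- `y(x) = de(x) x - e(x) + e(0)`. -/
noncomputable def yv (e : E → E) (x : E) : E := fderiv ℂ e x x - e x + e 0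

/-- `e_t(z) = e(0) + (e(tz) - e(0)) / t`. -/
noncomputable def et (e : E → E) (t : ℝ) (z : E) : E := e 0 + (t : ℂ)⁻¹ • (e ((t : ℂ) • z) - e 0)

/-- The derivative of `e_t(z)` with respect to `t`. -/
noncomputable def yt (e : E → E) (t : ℝ) (z : E) : E := ((t : ℂ) ^ 2)⁻¹ • yv e ((t : ℂ) • z)

/-- The field `Q` rescaled. -/
noncomputable def qt (e Q : E → E) (t : ℝ) (w : E) : E :=
  ((t : ℂ) ^ 2)⁻¹ • Q (e 0 + (t : ℂ) • (w - e 0))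

/-- An injective holomorphic immersion of the ball of radius `r`. -/
def Emb (r : ℝ) (e : E → E) : Prop := 0 < r ∧ DifferentiableOn ℂ e (ball 0 r) ∧ InjOn e (ball 0 r) ∧
  ∀ x ∈ ball (0 : E) r, ∀ w, fderiv ℂ e x w = 0 → w = 0

/-- The constant `Λ` for the map `e`: lower Lipschitz bound and size of the images of small balls. -/
def BiL (r Λ : ℝ) (e : E → E) : Prop := 0 < Λ ∧
  (∀ x ∈ closedBall (0 : E) (3 * r / 8), ∀ y ∈ closedBall (0 : E) (3 * r / 8), ‖x - y‖ ≤ Λ * ‖e x - e y‖) ∧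
  ∀ (x : E) (s : ℝ), 0 < s → ball x s ⊆ ball (0 : E) (3 * r / 8) → ∀ u, Λ * ‖u - e x‖ < s →
    ∃ x' ∈ ball x s, e x' = u

/-- The Runge property. -/
def Rge (r : ℝ) (e : E → E) : Prop := ∀ p : E → E, DifferentiableOn ℂ p (ball 0 r) → ∀ ε : ℝ, 0 < ε →
  ∃ Q : E → E, Differentiable ℂ Q ∧ ∀ x ∈ ball (0 : E) (r / 2), ‖Q (e x) - p x‖ ≤ ε

end

/-! ## Sequences -/

/-- The data in `Bed.BasinCk`. -/
def IsTri (k : ℕ) (r : ℝ) (F : ℕ → Ek k → Ek k) (Ψ : ℕ → Ek k → Ek k) : Prop :=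
  (∀ n, DifferentiableOn ℂ (Ψ n) (ball 0 r)) ∧
    (∀ n, ∀ x ∈ ball (0 : Ek k) r, Ψ (n + 1) (F n x) = Ψ n x) ∧
    (∀ n, InjOn (Ψ n) (ball 0 r)) ∧
    (∀ n, ∀ x ∈ ball (0 : Ek k) r, ∀ w, fderiv ℂ (Ψ n) x w = 0 → w = 0) ∧
    ∀ u, ∃ n, ∃ x ∈ ball (0 : Ek k) r, Ψ n x = u

/-- Uniformly attracting sequences in a small ball. -/
def Sml (k : ℕ) (r C c : ℝ) (F : ℕ → Ek k → Ek k) : Prop :=
  32 * C * r ≤ c ∧ ∃ A : ℕ → Ek k →L[ℂ] Ek k, SeqD k r (1 / 4) C c F A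

/-- The approximation property at the time `N` for the biholomorphic map `a`. -/
def Ap (k : ℕ) (r : ℝ) (F : ℕ → Ek k → Ek k) (N : ℕ) (a : Ek k ≃ Ek k) (ε M : ℝ) : Prop :=
  ∃ (i : ℕ) (b : Ek k ≃ Ek k), 1 ≤ i ∧ IsA b ∧ (∀ z ∈ ball (0 : Ek k) (r / 4), ‖b (orb F N i z) - a z‖ ≤ ε) ∧
    ∀ w, ‖w‖ ≤ M → ‖b.symm w‖ < r / 16

/-- A sequence of approximations: `N i` the times, `a i` the biholomorphic maps, `d i` the precision. -/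
structure Tow (k : ℕ) (r : ℝ) (F : ℕ → Ek k → Ek k) (N : ℕ → ℕ) (a : ℕ → Ek k ≃ Ek k) (d : ℕ → ℝ) : Prop where
  mono : ∀ i, N i + 1 ≤ N (i + 1)
  isA : ∀ i, IsA (a i)
  dpos : ∀ i, 0 < d i
  mod : ∀ i, ∀ z ∈ ball (0 : Ek k) (r / 4), ∀ w, ‖w - a i z‖ ≤ d i → ‖(a i).symm w - z‖ ≤ r / 64
  app : ∀ i, ∀ j ≤ i, ∀ z ∈ ball (0 : Ek k) (r / 4),
    ‖a (i + 1) (orb F (N i) (N (i + 1) - N i) z) - a i z‖ ≤ (1 / 2) ^ (i + 2) * d j
  cov : ∀ (i : ℕ) (w : Ek k), ‖w‖ ≤ (i : ℝ) → ‖(a (i + 1)).symm w‖ < r / 16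

end Pool.Agent.Lib.BedR
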