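import Pool.Agent.Lib.BedR.SpecA
import Pool.Agent.Lib.Osgood

/-!
# The derivative in `t` of the isotopy `et`: proof of `S_Der`
-/

set_option autoImplicit false

open scoped Manifold ContDiff Topology
open Set Filter Metric
open Pool.Agent.Lib Pool.Agent.Lib.Bed

namespace Pool.Agent.Lib.BedR

namespace DerM

section
variable {E : Type} [NormedAddCommGroup E] [NormedSpace ℂ E]

lemma smul_mem {r : ℝ} {s : ℝ} (hs : 0 < s) (hs1 : s ≤ 1) {z : E} (hz : z ∈ ball (0 : E) (r / 4)) :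
    (s : ℂ) • z ∈ closedBall (0 : E) (r / 4) := by
  have hz' : ‖z‖ < r / 4 := by simpa using hz
  rw [mem_closedBall_zero_iff, norm_smul, Complex.norm_real, Real.norm_eq_abs, abs_of_pos hs]
  nlinarith [norm_nonneg z]

/-- The derivative of `et e s z` in `s`. -/
lemma et_hasDerivAt {r : ℝ} (hr : 0 < r) {e : E → E} (he : DifferentiableOn ℂ e (ball 0 r)) {s : ℝ}
    (hs : 0 < s) (hs1 : s ≤ 1) {z : E} (hz : z ∈ ball (0 : E) (r / 4)) :
    HasDerivAt (fun s : ℝ => et e s z) (yt e s z) s := by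
  have hm : (s : ℂ) • z ∈ ball (0 : E) r :=
    closedBall_subset_ball (by linarith) (smul_mem hs hs1 hz)
  have hd : DifferentiableAt ℂ e ((s : ℂ) • z) :=
    (he _ hm).differentiableAt (isOpen_ball.mem_nhds hm)
  have h1 : HasDerivAt (fun c : ℂ => c • z) z (s : ℂ) := by
    simpa using (hasDerivAt_id (s : ℂ)).smul_const z
  have h2 : HasDerivAt (fun c : ℂ => e (c • z)) (fderiv ℂ e ((s : ℂ) • z) z) (s : ℂ) :=
    hd.hasFDerivAt.comp_hasDerivAt (s : ℂ) h1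
  have hs0 : (s : ℂ) ≠ 0 := by exact_mod_cast hs.ne'
  have h3 : HasDerivAt (fun c : ℂ => e 0 + c⁻¹ • (e (c • z) - e 0)) (yt e s z) (s : ℂ) := by
    have h4 : HasDerivAt (fun c : ℂ => e 0 + c⁻¹ • (e (c • z) - e 0))
        ((s : ℂ)⁻¹ • fderiv ℂ e ((s : ℂ) • z) z + -((s : ℂ) ^ 2)⁻¹ • (e ((s : ℂ) • z) - e 0)) (s : ℂ) :=
      ((hasDerivAt_inv hs0).smul (h2.sub_const (e 0))).const_add (e 0)
    refine h4.congr_deriv ?_
    have h5 : (s : ℂ)⁻¹ • fderiv ℂ e ((s : ℂ) • z) z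
        = ((s : ℂ) ^ 2)⁻¹ • fderiv ℂ e ((s : ℂ) • z) ((s : ℂ) • z) := by
      rw [map_smul, smul_smul]
      congr 1
      field_simp
    rw [h5, yt, yv]
    module
  have h6 : HasDerivAt (fun x : ℝ => (x : ℂ)) 1 s := Complex.ofRealCLM.hasDerivAt
  have h7 := HasDerivAt.scomp (𝕜 := ℝ) s h3 h6
  rw [one_smul] at h7
  exact h7

/-- The difference of the inverse squares. -/
lemma inv_sq_sub {τ s t : ℝ} (hτ : 0 < τ) (hs : τ ≤ s) (ht : τ ≤ t) :
    |(s ^ 2)⁻¹ - (t ^ 2)⁻¹| ≤ 2 * (τ ^ 3)⁻¹ * |s - t| := by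
  have hs0 : 0 < s := hτ.trans_le hs
  have ht0 : 0 < t := hτ.trans_le ht
  have h1 : (s ^ 2)⁻¹ - (t ^ 2)⁻¹ = -((s ^ 2 * t)⁻¹ + (s * t ^ 2)⁻¹) * (s - t) := by
    field_simp
    ring
  rw [h1, abs_mul, abs_neg]
  refine mul_le_mul_of_nonneg_right ?_ (abs_nonneg _)
  rw [abs_of_pos (by positivity)]
  have h2 : (s ^ 2 * t)⁻¹ ≤ (τ ^ 3)⁻¹ := by
    refine inv_anti₀ (by positivity) ?_
    calc τ ^ 3 = τ ^ 2 * τ := by ring
      _ ≤ s ^ 2 * t := by gcongr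
  have h3 : (s * t ^ 2)⁻¹ ≤ (τ ^ 3)⁻¹ := by
    refine inv_anti₀ (by positivity) ?_
    calc τ ^ 3 = τ * τ ^ 2 := by ring
      _ ≤ s * t ^ 2 := by gcongr
  linarith

/-- `yt e s z` is Lipschitz in `s`, uniformly in `z`. -/
lemma yt_lip [FiniteDimensional ℂ E] {r : ℝ} (hr : 0 < r) {e : E → E}
    (hy : DifferentiableOn ℂ (yv e) (ball 0 r)) {τ : ℝ} (hτ : 0 < τ) :
    ∃ C : ℝ, 0 ≤ C ∧ ∀ s t : ℝ, τ ≤ s → s ≤ 1 → τ ≤ t → t ≤ 1 → ∀ z ∈ ball (0 : E) (r / 4),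
      ‖yt e s z - yt e t z‖ ≤ C * |s - t| := by
  have : ProperSpace E := FiniteDimensional.proper ℂ E
  have hsub : closedBall (0 : E) (r / 4) ⊆ ball 0 r := closedBall_subset_ball (by linarith)
  have hK : IsCompact (closedBall (0 : E) (r / 4)) := isCompact_closedBall _ _
  obtain ⟨B, hB⟩ := hK.exists_bound_of_continuousOn (hy.continuousOn.mono hsub)
  obtain ⟨L, hL⟩ := hK.exists_bound_of_continuousOn
    ((Osgood.continuousOn_fderiv isOpen_ball hy).mono hsub)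
  have h0 : (0 : E) ∈ closedBall (0 : E) (r / 4) := by
    rw [mem_closedBall_zero_iff, norm_zero]
    linarith
  have hB0 : 0 ≤ B := (norm_nonneg _).trans (hB 0 h0)
  have hL0 : 0 ≤ L := (norm_nonneg _).trans (hL 0 h0)
  have hlip : ∀ x ∈ closedBall (0 : E) (r / 4), ∀ x' ∈ closedBall (0 : E) (r / 4),
      ‖yv e x - yv e x'‖ ≤ L * ‖x - x'‖ := by
    intro x hx x' hx'
    exact Convex.norm_image_sub_le_of_norm_fderiv_le (𝕜 := ℂ) (s := closedBall (0 : E) (r / 4))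
      (fun u hu => (hy u (hsub hu)).differentiableAt (isOpen_ball.mem_nhds (hsub hu)))
      (fun u hu => hL u hu) (convex_closedBall _ _) hx' hx
  refine ⟨(τ ^ 2)⁻¹ * (L * r) + 2 * (τ ^ 3)⁻¹ * B, by positivity, ?_⟩
  intro s t hs hs1 ht ht1 z hz
  have hs0 : 0 < s := hτ.trans_le hs
  have ht0 : 0 < t := hτ.trans_le ht
  have hz' : ‖z‖ < r / 4 := by simpa using hz
  have hms := smul_mem hs0 hs1 hz
  have hmt := smul_mem ht0 ht1 hz
  have key : yt e s z - yt e t z = (((s ^ 2)⁻¹ : ℝ) : ℂ) • (yv e ((s : ℂ) • z) - yv e ((t : ℂ) • z))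
      + (((s ^ 2)⁻¹ - (t ^ 2)⁻¹ : ℝ) : ℂ) • yv e ((t : ℂ) • z) := by
    simp only [yt]
    push_cast
    rw [smul_sub, sub_smul]
    abel
  have h1 : ‖yv e ((s : ℂ) • z) - yv e ((t : ℂ) • z)‖ ≤ (L * r) * |s - t| := by
    refine (hlip _ hms _ hmt).trans ?_
    rw [← sub_smul, ← Complex.ofReal_sub, norm_smul, Complex.norm_real, Real.norm_eq_abs]
    have h2 : |s - t| * ‖z‖ ≤ |s - t| * r :=
      mul_le_mul_of_nonneg_left (by linarith) (abs_nonneg _)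
    calc L * (|s - t| * ‖z‖) ≤ L * (|s - t| * r) := mul_le_mul_of_nonneg_left h2 hL0
      _ = (L * r) * |s - t| := by ring
  have h2 : |(s ^ 2)⁻¹| ≤ (τ ^ 2)⁻¹ := by
    rw [abs_of_pos (by positivity)]
    exact inv_anti₀ (by positivity) (by gcongr)
  have h3 := inv_sq_sub hτ hs ht
  rw [key]
  refine (norm_add_le _ _).trans ?_
  rw [norm_smul, norm_smul, Complex.norm_real, Complex.norm_real, Real.norm_eq_abs,
    Real.norm_eq_abs]
  have h4 : |(s ^ 2)⁻¹| * ‖yv e ((s : ℂ) • z) - yv e ((t : ℂ) • z)‖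
      ≤ (τ ^ 2)⁻¹ * ((L * r) * |s - t|) :=
    mul_le_mul h2 h1 (norm_nonneg _) (by positivity)
  have h5 : |(s ^ 2)⁻¹ - (t ^ 2)⁻¹| * ‖yv e ((t : ℂ) • z)‖ ≤ (2 * (τ ^ 3)⁻¹ * |s - t|) * B :=
    mul_le_mul h3 (hB _ hmt) (norm_nonneg _) (by positivity)
  calc _ ≤ (τ ^ 2)⁻¹ * ((L * r) * |s - t|) + (2 * (τ ^ 3)⁻¹ * |s - t|) * B := add_le_add h4 h5
    _ = _ := by ring

end

end DerM

open DerM

theorem derP : S_Der := by
  intro E _ _ _ r e hE hy τ hτ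
  obtain ⟨hr, he, -, -⟩ := hE
  obtain ⟨C, hC, hlip⟩ := yt_lip hr hy hτ
  refine ⟨C, hC, ?_⟩
  intro t h hh hτt ht1 z hz
  have ht : τ ≤ t := by linarith
  have hder : ∀ s ∈ Icc (t - h) t,
      HasDerivWithinAt (fun s : ℝ => et e s z - s • yt e t z) (yt e s z - yt e t z)
        (Icc (t - h) t) s := by
    intro s hs
    have hs0 : 0 < s := hτ.trans_le (hτt.trans hs.1)
    have h1 := et_hasDerivAt hr he hs0 (hs.2.trans ht1) hz
    have h2 : HasDerivAt (fun s : ℝ => s • yt e t z) (yt e t z) s := by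
      simpa using (hasDerivAt_id s).smul_const (yt e t z)
    exact (h1.sub h2).hasDerivWithinAt
  have hbd : ∀ s ∈ Icc (t - h) t, ‖yt e s z - yt e t z‖ ≤ C * h := by
    intro s hs
    refine (hlip s t (hτt.trans hs.1) (hs.2.trans ht1) ht ht1 z hz).trans ?_
    refine mul_le_mul_of_nonneg_left ?_ hC
    rw [abs_le]
    constructor <;> linarith [hs.1, hs.2]
  have hmv := Convex.norm_image_sub_le_of_norm_hasDerivWithin_le hder hbd (convex_Icc _ _)
    (right_mem_Icc.2 (by linarith)) (left_mem_Icc.2 (by linarith))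
  have h6 : et e (t - h) z - et e t z + (h : ℂ) • yt e t z
      = (et e (t - h) z - (t - h) • yt e t z) - (et e t z - t • yt e t z) := by
    rw [sub_smul]
    have h7 : (h : ℂ) • yt e t z = h • yt e t z := by
      rw [Complex.coe_smul]
    rw [h7]
    abel
  rw [h6]
  refine hmv.trans (le_of_eq ?_)
  rw [show t - h - t = -h by ring, norm_neg, Real.norm_eq_abs, abs_of_nonneg hh]
  ring

end Pool.Agent.Lib.BedR
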