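import Pool.Agent.Lib.BedR.SpecC

/-!
# Theorem G (MP_6f050a_an), part C: the dimension
-/

set_option autoImplicit false

open scoped Manifold ContDiff Topology
open Set Filter Metric
open Pool.Agent.Lib Pool.Agent.Lib.Bed

namespace Pool.Agent.Lib.BedR

namespace DmkM

section

variable {E : Type} [NormedAddCommGroup E] [NormedSpace ℂ E]
variable {X : Type} [MetricSpace X] [ChartedSpace E X]

theorem md_iter {g : X → X} (hg : MDifferentiable 𝓘(ℂ, E) 𝓘(ℂ, E) g) (n : ℕ) :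
    MDifferentiable 𝓘(ℂ, E) 𝓘(ℂ, E) (g^[n]) := by
  induction n with
  | zero => exact mdifferentiable_id
  | succ n ih =>
    rw [Function.iterate_succ']
    exact hg.comp ih

theorem dg_zero (f : X → X) (p : X) (v : E) : dg (f^[0]) p v = v := by
  have h : mfderiv 𝓘(ℂ, E) 𝓘(ℂ, E) (f^[0]) p = ContinuousLinearMap.id ℂ (TangentSpace 𝓘(ℂ, E) p) := by
    rw [Function.iterate_zero]
    exact mfderiv_id
  unfold dg
  rw [h]
  rfl

/-- derivative of a map `V k l → X` -/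
noncomputable def dv {k l : ℕ} (u : V k l → X) (v : V k l) : V k l →L[ℂ] E :=
  mfderiv 𝓘(ℂ, V k l) 𝓘(ℂ, E) u v

theorem comp1 {k l : ℕ} {u : E → X} (e : V k l ≃L[ℂ] E) (v : V k l)
    (hu : MDifferentiableAt 𝓘(ℂ, E) 𝓘(ℂ, E) u (e v)) (w : V k l) :
    MDifferentiableAt 𝓘(ℂ, V k l) 𝓘(ℂ, E) (u ∘ e) v ∧ dv (u ∘ e) v w = du u (e v) (e w) := by
  have h1 : HasMFDerivAt 𝓘(ℂ, V k l) 𝓘(ℂ, E) e v (e : V k l →L[ℂ] E) :=
    e.hasFDerivAt.hasMFDerivAt
  have h2 := HasMFDerivAt.comp v hu.hasMFDerivAt h1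
  refine ⟨h2.mdifferentiableAt, ?_⟩
  have h3 := h2.mfderiv
  exact congrArg (fun L : V k l →L[ℂ] E => L w) h3

theorem comp2 {k l : ℕ} {u : V k l → X} {H : V k l → V k l} {L : V k l →L[ℂ] V k l} (v : V k l)
    (hu : MDifferentiableAt 𝓘(ℂ, V k l) 𝓘(ℂ, E) u (H v)) (hH : HasFDerivAt H L v) (w : V k l) :
    dv (E := E) (u ∘ H) v w = dv u (H v) (L w) := by
  have h1 : HasMFDerivAt 𝓘(ℂ, V k l) 𝓘(ℂ, V k l) H v L := hH.hasMFDerivAt
  have h2 := HasMFDerivAt.comp v hu.hasMFDerivAt h1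
  have h3 := h2.mfderiv
  exact congrArg (fun L : V k l →L[ℂ] E => L w) h3

theorem comp3 {k l : ℕ} {u : V k l → X} {g : X → X} (v : V k l)
    (hu : MDifferentiableAt 𝓘(ℂ, V k l) 𝓘(ℂ, E) u v)
    (hg : MDifferentiableAt 𝓘(ℂ, E) 𝓘(ℂ, E) g (u v)) (w : V k l) :
    dv (E := E) (g ∘ u) v w = dg g (u v) (dv u v w) := by
  have h2 := HasMFDerivAt.comp v hg.hasMFDerivAt hu.hasMFDerivAt
  have h3 := h2.mfderiv
  exact congrArg (fun L : V k l →L[ℂ] E => L w) h3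

theorem hasF {k l : ℕ} {H : ℕ → V k l → V k l} {A : ℕ → (Fin k → ℂ) →L[ℂ] (Fin k → ℂ)}
    {B : ℕ → (Fin l → ℂ) →L[ℂ] (Fin l → ℂ)} {ρ C c : ℝ} (h : AdH k l H A B ρ C c) (n : ℕ) :
    HasFDerivAt (H n) ((A n).prodMap (B n)) 0 := by
  refine .of_isLittleO ?_
  rw [Asymptotics.isLittleO_iff]
  intro t ht
  have hC := h.C_pos
  have hpos : 0 < min ρ (t / C) := lt_min h.ρ_pos (by positivity)
  filter_upwards [ball_mem_nhds (0 : V k l) hpos] with v hv
  rw [mem_ball_zero_iff] at hv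
  have hv1 : v ∈ ball (0 : V k l) ρ := by
    rw [mem_ball_zero_iff]
    exact hv.trans_le (min_le_left _ _)
  have hv2 : C * ‖v‖ ≤ t := by
    have h1 := hv.le.trans (min_le_right _ _)
    rw [le_div_iff₀ hC] at h1
    linarith
  have h1 := h.quad n v hv1 0 (mem_ball_self h.ρ_pos)
  have h2 : H n v - H n 0 - ((A n).prodMap (B n)) (v - 0) =
      (H n v - (A n v.1, B n v.2)) - (H n 0 - (A n (0 : V k l).1, B n (0 : V k l).2)) := by
    have e1 : ((A n).prodMap (B n)) (v - 0) = (A n v.1, B n v.2) := by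
      rw [sub_zero]
      rfl
    have e2 : ((A n (0 : V k l).1, B n (0 : V k l).2) : V k l) = 0 := by
      rw [Prod.fst_zero, Prod.snd_zero, map_zero, map_zero]
      rfl
    rw [e1, e2]
    abel
  rw [h2]
  refine h1.trans ?_
  rw [norm_zero, add_zero, sub_zero]
  exact mul_le_mul_of_nonneg_right hv2 (norm_nonneg _)

/-- the products of the linear parts -/
noncomputable def Z {k l : ℕ} (A : ℕ → (Fin k → ℂ) →L[ℂ] (Fin k → ℂ))
    (B : ℕ → (Fin l → ℂ) →L[ℂ] (Fin l → ℂ)) : ℕ → V k l → V k l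
  | 0, w => w
  | n + 1, w => (A n (Z A B n w).1, B n (Z A B n w).2)

theorem Z_fst {k l : ℕ} {H : ℕ → V k l → V k l} {A : ℕ → (Fin k → ℂ) →L[ℂ] (Fin k → ℂ)}
    {B : ℕ → (Fin l → ℂ) →L[ℂ] (Fin l → ℂ)} {ρ C c : ℝ} (h : AdH k l H A B ρ C c) (n : ℕ)
    (w : V k l) : ‖(Z A B n w).1‖ ≤ ‖w.1‖ := by
  induction n with
  | zero => exact le_refl _
  | succ n ih =>
    have h1 := h.A_le n (Z A B n w).1
    have h2 := norm_nonneg (Z A B n w).1
    have h3 : (Z A B (n + 1) w).1 = A n (Z A B n w).1 := rfl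
    rw [h3]
    linarith

theorem Z_snd {k l : ℕ} {H : ℕ → V k l → V k l} {A : ℕ → (Fin k → ℂ) →L[ℂ] (Fin k → ℂ)}
    {B : ℕ → (Fin l → ℂ) →L[ℂ] (Fin l → ℂ)} {ρ C c : ℝ} (h : AdH k l H A B ρ C c) (n : ℕ)
    (w : V k l) : 8 ^ n * ‖w.2‖ ≤ ‖(Z A B n w).2‖ := by
  induction n with
  | zero =>
    rw [pow_zero, one_mul]
    exact le_refl _
  | succ n ih =>
    have h1 := h.B_ge n (Z A B n w).2
    have h3 : (Z A B (n + 1) w).2 = B n (Z A B n w).2 := rfl
    rw [h3, pow_succ]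
    linarith

theorem Z_zero {k l : ℕ} (A : ℕ → (Fin k → ℂ) →L[ℂ] (Fin k → ℂ))
    (B : ℕ → (Fin l → ℂ) →L[ℂ] (Fin l → ℂ)) (n : ℕ) (z : Fin k → ℂ) :
    (Z A B n (z, 0)).2 = 0 := by
  induction n with
  | zero => rfl
  | succ n ih =>
    have h3 : (Z A B (n + 1) (z, 0)).2 = B n (Z A B n (z, 0)).2 := rfl
    rw [h3, ih, map_zero]

theorem der {nrm : (x : X) → TangentSpace 𝓘(ℂ, E) x → ℝ} {f : X ≃ X} {K : Set X} {ι : Type}
    {ok : ι → Set X} {ψ : ι → X → E → X} {χ : ι → X → X → E} {ρ a b : ℝ} {N : ℕ}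
    {ρ₀ ρ' C₁ C c : ℝ} {p : X} {k l : ℕ} {i : ℕ → ι} {e : ℕ → V k l ≃L[ℂ] E}
    {H : ℕ → V k l → V k l} {A : ℕ → (Fin k → ℂ) →L[ℂ] (Fin k → ℂ)}
    {B : ℕ → (Fin l → ℂ) →L[ℂ] (Fin l → ℂ)} (hf : MDifferentiable 𝓘(ℂ, E) 𝓘(ℂ, E) f)
    (hU : UAt nrm K ι ok ψ χ ρ a b)
    (hD : Dat f ok ψ N ρ₀ ρ' C₁ C c p k l i e H A B) (n : ℕ) (w : V k l) :
    du (ψ (i (n + 1)) (f^[N * (n + 1)] p)) 0 (e (n + 1) (A n w.1, B n w.2)) =
      dg (f^[N]) (f^[N * n] p) (du (ψ (i n) (f^[N * n] p)) 0 (e n w)) := by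
  have h0 : (0 : E) ∈ ball (0 : E) ρ := mem_ball_self hU.ρ_pos
  have hd : ∀ m, MDifferentiableAt 𝓘(ℂ, E) 𝓘(ℂ, E) (ψ (i m) (f^[N * m] p)) (e m 0) := by
    intro m
    rw [map_zero]
    exact hU.diff (i m) _ (hD.mem m) 0 h0
  have c1 := comp1 (e (n + 1)) 0 (hd (n + 1)) (A n w.1, B n w.2)
  have c2 := comp1 (e n) 0 (hd n) w
  have hz := hD.adh.zero n
  have c3 := comp2 (E := E) (u := ψ (i (n + 1)) (f^[N * (n + 1)] p) ∘ e (n + 1)) (0 : V k l)
    (by rw [hz]; exact c1.1) (hasF hD.adh n) w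
  have c4 := comp3 (u := ψ (i n) (f^[N * n] p) ∘ e n) (g := (f : X → X)^[N]) (0 : V k l) c2.1
    (md_iter hf N _) w
  have heq : ((ψ (i (n + 1)) (f^[N * (n + 1)] p) ∘ e (n + 1)) ∘ H n) =ᶠ[𝓝 (0 : V k l)]
      ((f : X → X)^[N] ∘ (ψ (i n) (f^[N * n] p) ∘ e n)) := by
    filter_upwards [ball_mem_nhds (0 : V k l) hD.adh.ρ_pos] with y hy
    exact hD.comm n y hy
  have c5 : dv (E := E) ((ψ (i (n + 1)) (f^[N * (n + 1)] p) ∘ e (n + 1)) ∘ H n) 0 =
      dv ((f : X → X)^[N] ∘ (ψ (i n) (f^[N * n] p) ∘ e n)) 0 := heq.mfderiv_eq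
  rw [c5, c4, c2.2, hz] at c3
  have e1 : ((A n).prodMap (B n)) w = (A n w.1, B n w.2) := rfl
  rw [e1, c1.2, map_zero, map_zero] at c3
  have e2 : (ψ (i n) (f^[N * n] p) ∘ e n) 0 = f^[N * n] p := by
    rw [Function.comp_apply, map_zero]
    exact hU.zero (i n) _ (hD.mem n)
  rw [e2] at c3
  exact c3.symm

end

end DmkM

open DmkM in
theorem dmkP : S_Dmk := by
  intro hDm E _ _ _ X _ _ _ nrm f K Es Eu C' lam ι ok ψ χ ρ a b N ρ₀ ρ' C₁ C c p k l i e H A B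
    hF hH hU hCst hp hD
  have hDm' := hDm E X nrm f K Es Eu C' lam hH p hp
  have hadd : ∀ n (v : E), dg (f^[N * (n + 1)]) p v = dg (f^[N]) (f^[N * n] p) (dg (f^[N * n]) p v) := by
    intro n v
    have h := (hDm' (N * n)).2.2.2.2.2.2 N v
    rw [Nat.mul_succ]
    exact h
  have hkey : ∀ n (w : V k l), dg (f^[N * n]) p (du (ψ (i 0) (f^[N * 0] p)) 0 (e 0 w)) =
      du (ψ (i n) (f^[N * n] p)) 0 (e n (Z A B n w)) := by
    intro n w
    induction n with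
    | zero =>
      have h := dg_zero (f : X → X) p (du (ψ (i 0) (f^[N * 0] p)) 0 (e 0 w))
      exact h
    | succ n ih =>
      rw [hadd, ih, ← der hH.hol hU hD n]
      rfl
  have hC1 := hCst.C₁_pos
  have ha := hU.a_pos
  have hb := hU.b_pos
  have hCp := hH.C_pos
  have hl0 := hH.lam_pos
  have hl1 := hH.lam_lt
  have hpow : ∀ n, lam ^ (N * n) ≤ 1 := fun n => pow_le_one₀ hl0.le hl1.le
  have hpow0 : ∀ n, 0 ≤ lam ^ (N * n) := fun n => pow_nonneg hl0.le _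
  set J0 : E →L[ℂ] E := du (ψ (i 0) (f^[N * 0] p)) 0 with hJ0
  have hp0 : f^[N * 0] p = p := rfl
  -- norms
  have hn0 : ∀ x, nE nrm x (0 : E) = 0 := by
    intro x
    have h := hF.smul x 0 (0 : TangentSpace 𝓘(ℂ, E) x)
    rw [smul_zero, abs_zero, zero_mul] at h
    exact h
  have hneg : ∀ x (v : E), nE nrm x (-v) = nE nrm x v := by
    intro x v
    have h := hF.smul x (-1) (v : TangentSpace 𝓘(ℂ, E) x)
    have e1 : (((-1 : ℝ) : ℂ) • v : E) = -v := by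
      rw [Complex.ofReal_neg, Complex.ofReal_one, neg_smul, one_smul]
    have h2 : nE nrm x (((-1 : ℝ) : ℂ) • v) = |(-1 : ℝ)| * nE nrm x v := h
    rw [e1] at h2
    rw [h2, abs_neg, abs_one, one_mul]
  have hnn : ∀ x (v : E), 0 ≤ nE nrm x v := by
    intro x v
    by_cases hv : v = 0
    · rw [hv, hn0]
    · exact (hF.pos x v hv).le
  -- claim 1
  have claim1 : ∀ w : V k l, J0 (e 0 w) ∈ sE Es p → w.2 = 0 := by
    intro w hw
    set M : ℝ := C₁ / a * (C' * nE nrm p (J0 (e 0 w))) with hM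
    have hle : ∀ n : ℕ, 8 ^ n * ‖w.2‖ ≤ M := by
      intro n
      have h1 : nE nrm (f^[N * n] p) (dg (f^[N * n]) p (J0 (e 0 w))) ≤
          C' * lam ^ (N * n) * nE nrm p (J0 (e 0 w)) := hH.contr p hp _ hw (N * n)
      rw [hkey] at h1
      have h2 := hU.low (i n) _ (hD.mem n) (e n (Z A B n w))
      have h3 := hD.low n (Z A B n w)
      have h4 := Z_snd hD.adh n w
      have h5 : ‖(Z A B n w).2‖ ≤ ‖Z A B n w‖ := norm_snd_le _
      have h6 : C' * lam ^ (N * n) * nE nrm p (J0 (e 0 w)) ≤ C' * nE nrm p (J0 (e 0 w)) := by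
        refine mul_le_mul_of_nonneg_right ?_ (hnn _ _)
        calc C' * lam ^ (N * n) ≤ C' * 1 := mul_le_mul_of_nonneg_left (hpow n) hCp.le
          _ = C' := mul_one _
      have h7 : ‖e n (Z A B n w)‖ ≤ C' * nE nrm p (J0 (e 0 w)) / a := by
        rw [le_div_iff₀ ha, mul_comm]
        linarith
      calc 8 ^ n * ‖w.2‖ ≤ C₁ * ‖e n (Z A B n w)‖ := h4.trans (h5.trans h3)
        _ ≤ C₁ * (C' * nE nrm p (J0 (e 0 w)) / a) := mul_le_mul_of_nonneg_left h7 hC1.le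
        _ = M := by rw [hM]; ring
    by_contra hne
    have hpos : 0 < ‖w.2‖ := norm_pos_iff.mpr hne
    obtain ⟨n, hn⟩ := pow_unbounded_of_one_lt (M / ‖w.2‖) (by norm_num : (1 : ℝ) < 8)
    rw [div_lt_iff₀ hpos] at hn
    exact absurd (hle n) (not_le.mpr hn)
  -- claim 2
  have claim2 : ∀ z : Fin k → ℂ, J0 (e 0 (z, 0)) ∈ sE Es p := by
    intro z
    have hcompl : IsCompl (sE Es p) (sE Eu p) := hH.compl p hp
    have htop : J0 (e 0 (z, 0)) ∈ sE Es p ⊔ sE Eu p := by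
      rw [hcompl.sup_eq_top]
      exact Submodule.mem_top
    obtain ⟨v, hv, u, hu, hvu⟩ := Submodule.mem_sup.mp htop
    set M : ℝ := C' * (b * C₁ * ‖z‖ + C' * nE nrm p v) with hM
    have hle : ∀ n : ℕ, nE nrm p u ≤ lam ^ (N * n) * M := by
      intro n
      have h1 : nE nrm p u ≤ C' * lam ^ (N * n) * nE nrm (f^[N * n] p) (dg (f^[N * n]) p u) :=
        hH.expand p hp u hu (N * n)
      have h2 : nE nrm (f^[N * n] p) (dg (f^[N * n]) p v) ≤ C' * lam ^ (N * n) * nE nrm p v :=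
        hH.contr p hp v hv (N * n)
      have h3 : dg (f^[N * n]) p u = dg (f^[N * n]) p (J0 (e 0 (z, 0))) + -dg (f^[N * n]) p v := by
        rw [← hvu, map_add]
        abel
      have h4 : nE nrm (f^[N * n] p) (dg (f^[N * n]) p u) ≤
          nE nrm (f^[N * n] p) (dg (f^[N * n]) p (J0 (e 0 (z, 0)))) +
            nE nrm (f^[N * n] p) (-dg (f^[N * n]) p v) := by
        rw [h3]
        exact hF.add_le _ _ _
      rw [hneg, hkey] at h4
      have h5 := hU.up (i n) _ (hD.mem n) (e n (Z A B n (z, 0)))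
      have h6 := hD.up n (Z A B n (z, 0))
      have h7 : ‖Z A B n (z, 0)‖ ≤ ‖z‖ := by
        rw [Prod.norm_def, Z_zero, norm_zero]
        exact max_le (Z_fst hD.adh n (z, 0)) (norm_nonneg _)
      have h8 : b * ‖e n (Z A B n (z, 0))‖ ≤ b * C₁ * ‖z‖ := by
        rw [mul_assoc]
        refine mul_le_mul_of_nonneg_left (h6.trans ?_) hb.le
        exact mul_le_mul_of_nonneg_left h7 hC1.le
      have h9 : C' * lam ^ (N * n) * nE nrm p v ≤ C' * nE nrm p v := by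
        refine mul_le_mul_of_nonneg_right ?_ (hnn _ _)
        calc C' * lam ^ (N * n) ≤ C' * 1 := mul_le_mul_of_nonneg_left (hpow n) hCp.le
          _ = C' := mul_one _
      have h10 : nE nrm (f^[N * n] p) (dg (f^[N * n]) p u) ≤ b * C₁ * ‖z‖ + C' * nE nrm p v := by
        linarith
      calc nE nrm p u ≤ C' * lam ^ (N * n) * nE nrm (f^[N * n] p) (dg (f^[N * n]) p u) := h1
        _ ≤ C' * lam ^ (N * n) * (b * C₁ * ‖z‖ + C' * nE nrm p v) :=
            mul_le_mul_of_nonneg_left h10 (mul_nonneg hCp.le (hpow0 n))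
        _ = lam ^ (N * n) * M := by rw [hM]; ring
    have hlim : Tendsto (fun n : ℕ => lam ^ (N * n) * M) atTop (𝓝 (0 * M)) := by
      refine Tendsto.mul_const M ?_
      have h1 : (fun n : ℕ => lam ^ (N * n)) = fun n : ℕ => (lam ^ N) ^ n := by
        funext n
        rw [pow_mul]
      rw [h1]
      exact tendsto_pow_atTop_nhds_zero_of_lt_one (pow_nonneg hl0.le _)
        (pow_lt_one₀ hl0.le hl1 hCst.N_pos.ne')
    rw [zero_mul] at hlim
    have hu0 : nE nrm p u ≤ 0 := ge_of_tendsto' hlim hle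
    have hu1 : u = 0 := by
      by_contra hne
      exact absurd hu0 (not_le.mpr (hF.pos p u hne))
    rw [← hvu, hu1, add_zero]
    exact hv
  -- injectivity of `J0`
  have hJinj : Function.Injective J0 := by
    intro v w hvw
    have h1 : J0 (v - w) = 0 := by rw [map_sub, hvw, sub_self]
    have h2 := hU.low (i 0) _ (hD.mem 0) (v - w)
    rw [← hJ0, h1, hn0] at h2
    have h3 : ‖v - w‖ ≤ 0 := by
      by_contra hcon
      push Not at hcon
      nlinarith [mul_pos ha hcon]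
    exact sub_eq_zero.mp (norm_le_zero_iff.mp h3)
  have hJsur : Function.Surjective J0 := by
    have h := (LinearMap.injective_iff_surjective (f := J0.toLinearMap)).mp hJinj
    exact h
  let inc : (Fin k → ℂ) →ₗ[ℂ] V k l := LinearMap.inl ℂ (Fin k → ℂ) (Fin l → ℂ)
  let J : (Fin k → ℂ) →ₗ[ℂ] E := J0.toLinearMap ∘ₗ (e 0).toContinuousLinearMap.toLinearMap ∘ₗ inc
  have hJ : ∀ z, J z = J0 (e 0 (z, 0)) := fun z => rfl
  have hinj : Function.Injective J := by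
    intro z z' hz
    rw [hJ, hJ] at hz
    have h1 := (e 0).injective (hJinj hz)
    exact congrArg Prod.fst h1
  have hrange : LinearMap.range J = sE Es p := by
    apply le_antisymm
    · rintro _ ⟨z, rfl⟩
      exact claim2 z
    · intro v hv
      obtain ⟨u, rfl⟩ := hJsur v
      obtain ⟨w, rfl⟩ := (e 0).surjective u
      refine ⟨w.1, ?_⟩
      rw [hJ]
      have h1 := claim1 w hv
      have h2 : ((w.1, 0) : V k l) = w := by
        rw [← h1]
      rw [h2]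
  have hfin : Module.finrank ℂ (sE Es p) = k := by
    rw [← hrange, LinearMap.finrank_range_of_inj hinj]
    simp
  exact hfin

end Pool.Agent.Lib.BedR
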