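import Pool.Agent.Lib.BedR.SpecC

/-!
# Theorem G (MP_6f050a_an), module DtE: existence of uniform data
-/

set_option autoImplicit false

open scoped Manifold ContDiff Topology
open Set Filter Metric
open Pool.Agent.Lib Pool.Agent.Lib.Bed

namespace Pool.Agent.Lib.BedR

namespace DtEM

/-- A choice of the charts gives uniform charts. -/
theorem uch {E : Type} [NormedAddCommGroup E] [NormedSpace ℂ E] {X : Type} [MetricSpace X]
    [ChartedSpace E X] {nrm : (x : X) → TangentSpace 𝓘(ℂ, E) x → ℝ} {K : Set X} {ι : Type}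
    {ok : ι → Set X} {ψ : ι → X → E → X} {χ : ι → X → X → E} {ρ a b : ℝ}
    (h : UAt nrm K ι ok ψ χ ρ a b) (s : X → ι) (hs : ∀ x ∈ K, x ∈ ok (s x)) :
    UCh nrm K (fun x => ψ (s x) x) (fun x => χ (s x) x) ρ a b where
  ρ_pos := h.ρ_pos
  a_pos := h.a_pos
  b_pos := h.b_pos
  zero := fun x hx => h.zero _ x (hs x hx)
  diff := fun x hx => h.diff _ x (hs x hx)
  left := fun x hx => h.left _ x (hs x hx)
  diff' := fun x hx => h.diff' _ x (hs x hx)
  near := fun ε hε => by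
    obtain ⟨δ, hδ, H⟩ := h.near ε hε
    exact ⟨δ, hδ, fun x hx => H _ x (hs x hx)⟩
  near' := fun ε hε => by
    obtain ⟨δ, hδ, H⟩ := h.near' ε hε
    exact ⟨δ, hδ, fun x hx => H _ x (hs x hx)⟩
  low := fun x hx => h.low _ x (hs x hx)
  up := fun x hx => h.up _ x (hs x hx)

end DtEM

theorem dteP : S_DtE := by
  intro hUCf hLoc hBnd hAng hFrame hDm hFrU hQuad hAdU
    E _ _ _ X _ _ _ nrm f K Es Eu C lam ι ok ψ χ ρ a b hnrm hhyp hAt
  rcases K.eq_empty_or_nonempty with hK | ⟨x₀, hx₀⟩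
  · refine ⟨1, ρ, ρ, 1, 1, 1, ⟨one_pos, hAt.ρ_pos, le_rfl, one_pos, by rw [one_mul], one_pos,
      one_pos⟩, fun p hp => ?_⟩
    rw [hK] at hp
    exact absurd hp (Set.notMem_empty p)
  obtain ⟨i₀, -⟩ := hAt.cover x₀ hx₀
  have hex : ∀ x : X, ∃ i : ι, x ∈ K → x ∈ ok i := by
    intro x
    by_cases hx : x ∈ K
    · obtain ⟨i, hi⟩ := hAt.cover x hx
      exact ⟨i, fun _ => hi⟩
    · exact ⟨i₀, fun h => absurd h hx⟩
  choose s hs using hex
  have hKf : MapsTo f K K := fun x hx => by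
    have h1 : f x ∈ f '' K := mem_image_of_mem f hx
    rwa [hhyp.image] at h1
  have hKfs : MapsTo f.symm K K := fun x hx => by
    have h1 : x ∈ f '' K := by rw [hhyp.image]; exact hx
    obtain ⟨y, hy, rfl⟩ := h1
    rw [Equiv.symm_apply_apply]
    exact hy
  have hit : ∀ g : X → X, MDifferentiable 𝓘(ℂ, E) 𝓘(ℂ, E) g → ∀ n : ℕ,
      MDifferentiable 𝓘(ℂ, E) 𝓘(ℂ, E) (g^[n]) := by
    intro g hg n
    induction n with
    | zero => exact mdifferentiable_id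
    | succ n ih => exact ih.comp hg
  have hU : UCh nrm K (fun x => ψ (s x) x) (fun x => χ (s x) x) ρ a b := DtEM.uch hAt s hs
  have hLocG : ∀ g : X → X, MDifferentiable 𝓘(ℂ, E) 𝓘(ℂ, E) g → MapsTo g K K →
      ∀ (n : ℕ) (ε : ℝ), 0 < ε →
      ∃ ρ', ULoc K (fun x => ψ (s x) x) (fun x => χ (s x) x) ρ (g^[n]) ρ' ε :=
    fun g hg hK n ε hε =>
    hLoc hUCf E X nrm K _ _ ρ a b hhyp.compact hU (g^[n]) (hit g hg n) (hK.iterate n) ε hε
  have hLocN := hLocG f hhyp.hol hKf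
  have hLocS := hLocG f.symm hhyp.hol_symm hKfs
  have hA := hAng E X nrm f K Es Eu C lam hnrm hhyp fun n =>
    hBnd E X nrm K _ _ ρ a b hU (f^[n]) (hKf.iterate n) (hLocN n 1 one_pos)
  obtain ⟨N, C₁, c, hN, hC₁, hc, hF⟩ := hFrU hFrame hDm E X nrm f K Es Eu C lam _ _ ρ a b
    hnrm hhyp hU (fun n => ⟨hLocN n 1 one_pos, hLocS n 1 one_pos⟩) hA
  obtain ⟨ρ₀, ρ', C₂, hcst, hH⟩ := hAdU hQuad E X nrm f K Es _ _ ρ a b N C₁ c hU hKf
    (fun ε hε => hLocN N ε hε) hN hC₁ hc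
  refine ⟨N, ρ₀, ρ', C₁, C₂, c, hcst, fun p hp => ?_⟩
  obtain ⟨k, l, e, A, B, hfr⟩ := hF p hp
  obtain ⟨H, hadh, hmc⟩ := hH p hp k l e A B hfr
  exact ⟨k, l, fun n => s (f^[N * n] p), e, H, A, B,
    ⟨fun n => hs _ (hKf.iterate (N * n) hp), hfr.up, hfr.low, fun n v hv => (hmc n v hv).1,
      fun n v hv => (hmc n v hv).2, hadh⟩⟩

end Pool.Agent.Lib.BedR
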