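import Pool.Agent.Lib.BedR.SpecC

/-!
# Theorem G (MP_6f050a_an): the data give adapted parametrisations
-/

set_option autoImplicit false

open scoped Manifold ContDiff Topology
open Set Filter Metric
open Pool.Agent.Lib Pool.Agent.Lib.Bed

namespace Pool.Agent.Lib.BedR

namespace DtPM

variable {E : Type} [NormedAddCommGroup E] [NormedSpace ℂ E]
variable {X : Type} [MetricSpace X] [ChartedSpace E X]

theorem psi_inj {nrm : (x : X) → TangentSpace 𝓘(ℂ, E) x → ℝ} {K : Set X} {ι : Type} {ok : ι → Set X}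
    {ψ : ι → X → E → X} {χ : ι → X → X → E} {ρ a b : ℝ} (hU : UAt nrm K ι ok ψ χ ρ a b) {i : ι} {x : X}
    (hx : x ∈ ok i) {u : E} (hu : u ∈ ball (0 : E) ρ) :
    Function.Injective (mfderiv 𝓘(ℂ, E) 𝓘(ℂ, E) (ψ i x) u) := by
  have h1 := hU.diff i x hx u hu
  have h2 := hU.diff' i x hx u hu
  have h3 : (χ i x ∘ ψ i x) =ᶠ[𝓝 u] id := by
    filter_upwards [isOpen_ball.mem_nhds hu] with v hv
    exact hU.left i x hx v hv
  have h4 := mfderiv_comp u h2 h1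
  have h5 : mfderiv 𝓘(ℂ, E) 𝓘(ℂ, E) (χ i x ∘ ψ i x) u = mfderiv 𝓘(ℂ, E) 𝓘(ℂ, E) (id : E → E) u :=
    h3.mfderiv_eq
  rw [h5, mfderiv_id] at h4
  intro w w' hw
  have h6 : ∀ z : E, z = mfderiv 𝓘(ℂ, E) 𝓘(ℂ, E) (χ i x) (ψ i x u)
      (mfderiv 𝓘(ℂ, E) 𝓘(ℂ, E) (ψ i x) u z) := fun z => congrArg (fun L : E →L[ℂ] E => L z) h4
  rw [h6 w, h6 w', hw]

end DtPM

open DtPM

theorem dtpP : S_DtP := by
  intro E _ _ _ X _ _ nrm f K ι ok ψ χ ρ a b N ρ₀ ρ' C₁ C c p k l i e H A B hU hc hD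
  have hC := hc.C₁_pos
  have hρ' := hc.ρ'_pos
  have hρ₀ : 0 < ρ₀ := hρ'.trans_le hc.le
  have hesymm : ∀ n y, ‖(e n).symm y‖ ≤ C₁ * ‖y‖ := by
    intro n y
    have := hD.low n ((e n).symm y)
    rwa [ContinuousLinearEquiv.apply_symm_apply] at this
  have hball1 : ∀ n, ∀ v ∈ ball (0 : V k l) ρ₀, e n v ∈ ball (0 : E) ρ := by
    intro n v hv
    rw [mem_ball_zero_iff] at hv ⊢
    exact (hD.up n v).trans_lt ((mul_lt_mul_of_pos_left hv hC).trans_le hc.C₁_le)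
  have hmd : ∀ n, ∀ v, MDifferentiableAt 𝓘(ℂ, V k l) 𝓘(ℂ, E) (e n) v := fun n v =>
    (e n).differentiableAt.mdifferentiableAt
  refine ⟨hc.N_pos, hρ', hc.le, ?_, ?_, ?_, ?_, ?_, ?_, ?_, ?_, ?_⟩
  · intro n v hv
    exact (hU.diff (i n) (f^[N * n] p) (hD.mem n) (e n v) (hball1 n v hv)).comp v (hmd n v)
  · intro n v hv v' hv' hvv
    have h1 := hU.left (i n) (f^[N * n] p) (hD.mem n) (e n v) (hball1 n v hv)
    have h2 := hU.left (i n) (f^[N * n] p) (hD.mem n) (e n v') (hball1 n v' hv')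
    have h3 : ψ (i n) (f^[N * n] p) (e n v) = ψ (i n) (f^[N * n] p) (e n v') := hvv
    rw [h3, h2] at h1
    exact ((e n).injective h1).symm
  · intro n v hv
    have h1 := mfderiv_comp v (hU.diff (i n) (f^[N * n] p) (hD.mem n) (e n v) (hball1 n v hv)) (hmd n v)
    have h2 : Pn f ψ N p i e n = ψ (i n) (f^[N * n] p) ∘ (e n) := rfl
    rw [h2, h1]
    intro w w' hw
    have h3 : mfderiv 𝓘(ℂ, V k l) 𝓘(ℂ, E) (e n) v w = mfderiv 𝓘(ℂ, V k l) 𝓘(ℂ, E) (e n) v w' :=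
      psi_inj hU (hD.mem n) (hball1 n v hv) hw
    rw [mfderiv_eq_fderiv, (e n).fderiv] at h3
    exact (e n).injective h3
  · intro n
    show ψ (i n) (f^[N * n] p) (e n 0) = f^[N * n] p
    rw [map_zero, hU.zero (i n) (f^[N * n] p) (hD.mem n)]
  · intro ε hε
    obtain ⟨δ, hδ, h1⟩ := hU.near ε hε
    refine ⟨δ / C₁, by positivity, fun n v hv hvδ => ?_⟩
    refine h1 (i n) (f^[N * n] p) (hD.mem n) (e n v) (hball1 n v hv) ((hD.up n v).trans_lt ?_)
    rwa [lt_div_iff₀' hC] at hvδ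
  · intro ε hε
    obtain ⟨δ, hδ, h1⟩ := hU.near' (min (ε / C₁) (ρ₀ / C₁)) (by positivity)
    refine ⟨δ, hδ, fun n q hq => ?_⟩
    obtain ⟨u, hu, hun, huq⟩ := h1 (i n) (f^[N * n] p) (hD.mem n) q hq
    have h2 : ‖(e n).symm u‖ < ε := by
      refine (hesymm n u).trans_lt ?_
      have := hun.trans_le (min_le_left _ _)
      rwa [lt_div_iff₀' hC] at this
    have h3 : ‖(e n).symm u‖ < ρ₀ := by
      refine (hesymm n u).trans_lt ?_
      have := hun.trans_le (min_le_right _ _)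
      rwa [lt_div_iff₀' hC] at this
    refine ⟨(e n).symm u, by rwa [mem_ball_zero_iff], h2, ?_⟩
    show ψ (i n) (f^[N * n] p) (e n ((e n).symm u)) = q
    rw [ContinuousLinearEquiv.apply_symm_apply, huq]
  · intro n v hv
    rw [mem_ball_zero_iff]
    have h1 := hD.maps n v hv
    linarith
  · intro n v hv
    exact hD.comm n v hv
  · intro n
    exact hD.adh.diff n

end Pool.Agent.Lib.BedR
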