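import Pool.Agent.Lib.BedR.SpecA

/-!
# Theorem G (MP_6f050a_an): entire maps are approximated by elements of `SO E`
-/

set_option autoImplicit false

open scoped Manifold ContDiff Topology
open Set Filter Metric
open Pool.Agent.Lib Pool.Agent.Lib.Bed

namespace Pool.Agent.Lib.BedR

theorem entP : S_Mul → S_Txp → S_Ent := by
  intro hMul hTxp E _ _ _ hd Q hQ M ε hε
  have h1 : (0 : ℝ) < |M| + 1 := by positivity
  have h2 : |M| + 1 < |M| + 2 := by linarith
  obtain ⟨N, L, hL⟩ := hTxp E E (|M| + 2) (|M| + 1) ε Q h1 h2 hε hQ.differentiableOn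
  refine ⟨∑ k ∈ Finset.range N, fun x : E => L k (fun _ => x), ?_, ?_⟩
  · exact Submodule.sum_mem _ fun k _ => hMul E hd k (L k)
  · intro z hz
    have hz' : z ∈ ball (0 : E) (|M| + 1) := by
      rw [mem_ball_zero_iff]
      have := le_abs_self M
      linarith
    have h := hL z hz'
    rwa [Finset.sum_apply]

end Pool.Agent.Lib.BedR
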