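import Pool.Agent.Lib.BedR.SpecC

/-!
# Theorem G (MP_6f050a_an), Eta: the coordinates of the points of a stable manifold at a large time
-/

set_option autoImplicit false

open scoped Manifold ContDiff Topology
open Set Filter Metric
open Pool.Agent.Lib Pool.Agent.Lib.Bed

namespace Pool.Agent.Lib.BedR

namespace EtaM

section
variable {E : Type} [NormedAddCommGroup E] [NormedSpace ℂ E]
variable {X : Type} [MetricSpace X] [ChartedSpace E X]

theorem mdiff_iter {g : X → X} (hg : MDifferentiable 𝓘(ℂ, E) 𝓘(ℂ, E) g) (N : ℕ) :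
    MDifferentiable 𝓘(ℂ, E) 𝓘(ℂ, E) (g^[N]) := by
  induction N with
  | zero => exact mdifferentiable_id
  | succ N ih =>
    rw [Function.iterate_succ]
    exact ih.comp hg

theorem left_inv_iter {X : Type} (f : X ≃ X) (N : ℕ) :
    (f.symm : X → X)^[N] ∘ (f : X → X)^[N] = id := by
  funext x
  exact (Function.LeftInverse.iterate f.symm_apply_apply N) x

theorem dinj_iter (f : X ≃ X) (hf : MDifferentiable 𝓘(ℂ, E) 𝓘(ℂ, E) f)
    (hf' : MDifferentiable 𝓘(ℂ, E) 𝓘(ℂ, E) f.symm) (N : ℕ) (x : X) (w : TangentSpace 𝓘(ℂ, E) x)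
    (hw : mfderiv 𝓘(ℂ, E) 𝓘(ℂ, E) ((f : X → X)^[N]) x w = 0) : w = 0 := by
  have h1 := (mdiff_iter hf N x).hasMFDerivAt
  have h2 := (mdiff_iter hf' N ((f : X → X)^[N] x)).hasMFDerivAt
  have h3 := HasMFDerivAt.comp x h2 h1
  rw [left_inv_iter] at h3
  have h4 := hasMFDerivAt_unique h3 (hasMFDerivAt_id x)
  have h5 := congrArg (fun L => L w) h4
  have h6 : mfderiv 𝓘(ℂ, E) 𝓘(ℂ, E) ((f.symm : X → X)^[N]) ((f : X → X)^[N] x)
      (mfderiv 𝓘(ℂ, E) 𝓘(ℂ, E) ((f : X → X)^[N]) x w) = w := h5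
  rw [hw, map_zero] at h6
  exact h6.symm

theorem iter_step {X : Type} (f : X → X) (N m : ℕ) (q : X) :
    f^[N] (f^[N * m] q) = f^[N * (m + 1)] q := by
  rw [← Function.iterate_add_apply]
  congr 1
  ring

end

end EtaM

open EtaM in
theorem etaP : S_Eta := by
  intro E _ _ _ X _ _ nrm f K ι ok ψ χ ρ a b N ρ₀ ρ' C₁ C c r p k l i e H A B τ F Φ hf hf' hU hC hD
    hP hr hL hΦ hΦi hloc n u₀
  have hr0 : 0 < r := hL.seq.r_pos
  obtain ⟨δ, hδ, hnear⟩ := hP.near' r hr0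
  obtain ⟨t, ht, hev⟩ := (Metric.tendstoLocallyUniformly_iff.mp hloc) δ hδ u₀
  obtain ⟨n₀, hn₀⟩ := eventually_atTop.mp hev
  set m : ℕ := max n n₀ with hm
  set W : Set (Fin k → ℂ) := interior t with hW
  have hN := hP.N_pos
  -- the points at the times `m + j`
  have key : ∀ u : Fin k → ℂ, ∀ j : ℕ, ∃ v : V k l, u ∈ W →
      (v ∈ ball (0 : V k l) ρ₀ ∧ ‖v‖ < r ∧ Pn f ψ N p i e (m + j) v = (f : X → X)^[N * (m + j)] (Φ u)) := by
    intro u j
    by_cases hu : u ∈ W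
    · have h1 : n₀ ≤ N * (m + j) := by
        have h2 : m + j ≤ N * (m + j) := Nat.le_mul_of_pos_left _ hN
        have h3 : n₀ ≤ m := le_max_right _ _
        omega
      have h4 := hn₀ _ h1 u (interior_subset hu)
      have h5 : dist ((f : X → X)^[N * (m + j)] (Φ u)) ((f : X → X)^[N * (m + j)] p) < δ := by
        rw [dist_comm, Real.dist_eq, sub_zero, abs_of_nonneg dist_nonneg] at h4
        exact h4
      obtain ⟨v, hv1, hv2, hv3⟩ := hnear (m + j) _ h5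
      exact ⟨v, fun _ => ⟨hv1, hv2, hv3⟩⟩
    · exact ⟨0, fun h => absurd h hu⟩
  choose vv hvv using key
  have hstep : ∀ u ∈ W, ∀ j, vv u (j + 1) = H (m + j) (vv u j) := by
    intro u hu j
    obtain ⟨h1, h2, h3⟩ := hvv u j hu
    obtain ⟨h4, h5, h6⟩ := hvv u (j + 1) hu
    have hb : vv u j ∈ ball (0 : V k l) ρ' := by
      rw [mem_ball_zero_iff]; exact lt_of_lt_of_le h2 hr
    have h7 : H (m + j) (vv u j) ∈ ball (0 : V k l) ρ₀ := hP.maps (m + j) hb
    have h8 := hP.comm (m + j) _ hb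
    rw [h3, iter_step] at h8
    exact hP.inj (m + j + 1) h4 h7 (h6.trans h8.symm)
  have huniq : ∀ u ∈ W, (vv u 0).2 = τ m (vv u 0).1 := by
    intro u hu
    exact hL.uniq m (vv u) (fun j => (hvv u j hu).2.1) (hstep u hu)
  have hη1 : ∀ u ∈ W, (vv u 0).1 ∈ ball (0 : Fin k → ℂ) r := by
    intro u hu
    rw [mem_ball_zero_iff]
    exact lt_of_le_of_lt (norm_fst_le _) (hvv u 0 hu).2.1
  -- the formula for the coordinates
  set g : (Fin k → ℂ) → E := fun u => χ (i m) ((f : X → X)^[N * m] p) ((f : X → X)^[N * m] (Φ u)) with hg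
  have hem : ∀ u ∈ W, e m (vv u 0) ∈ ball (0 : E) ρ := by
    intro u hu
    have h1 := (hvv u 0 hu).1
    rw [mem_ball_zero_iff] at h1 ⊢
    calc ‖e m (vv u 0)‖ ≤ C₁ * ‖vv u 0‖ := hD.up m _
      _ < C₁ * ρ₀ := mul_lt_mul_of_pos_left h1 hC.C₁_pos
      _ ≤ ρ := hC.C₁_le
  have hpt : ∀ u ∈ W, ψ (i m) ((f : X → X)^[N * m] p) (e m (vv u 0)) = (f : X → X)^[N * m] (Φ u) :=
    fun u hu => (hvv u 0 hu).2.2
  have hgv : ∀ u ∈ W, g u = e m (vv u 0) := by
    intro u hu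
    rw [hg]
    simp only
    rw [← hpt u hu]
    exact hU.left (i m) _ (hD.mem m) _ (hem u hu)
  have hgd : ∀ u ∈ W, DifferentiableAt ℂ g u := by
    intro u hu
    rw [← mdifferentiableAt_iff_differentiableAt]
    have h1 : MDifferentiableAt 𝓘(ℂ, E) 𝓘(ℂ, E) (χ (i m) ((f : X → X)^[N * m] p))
        ((f : X → X)^[N * m] (Φ u)) := by
      rw [← hpt u hu]
      exact hU.diff' (i m) _ (hD.mem m) _ (hem u hu)
    have h2 : MDifferentiableAt 𝓘(ℂ, Fin k → ℂ) 𝓘(ℂ, E) ((f : X → X)^[N * m] ∘ Φ) u :=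
      (mdiff_iter hf (N * m) (Φ u)).comp u (hΦ u)
    exact MDifferentiableAt.comp u h1 h2
  set v : (Fin k → ℂ) → V k l := fun u => (e m).symm (g u) with hv
  have hvW : ∀ u ∈ W, v u = vv u 0 := by
    intro u hu
    rw [hv]
    simp only
    rw [hgv u hu]
    exact (e m).symm_apply_apply _
  have hvd : ∀ u ∈ W, DifferentiableAt ℂ v u := by
    intro u hu
    exact ((e m).symm.differentiableAt).comp u (hgd u hu)
  have hWo : IsOpen W := isOpen_interior
  refine ⟨m, W, fun u => (v u).1, le_max_left _ _, hWo, mem_interior_iff_mem_nhds.mpr ht, ?_, ?_, ?_⟩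
  · intro u hu
    exact (hvd u hu).fst.differentiableWithinAt
  · intro u hu
    refine ⟨?_, ?_⟩
    · show (v u).1 ∈ _
      rw [hvW u hu]; exact hη1 u hu
    · show Pn f ψ N p i e m ((v u).1, τ m (v u).1) = _
      rw [hvW u hu, ← huniq u hu]
      exact (hvv u 0 hu).2.2
  · intro u hu w hw
    have hmem : W ∈ 𝓝 u := hWo.mem_nhds hu
    have hv' := (hvd u hu).hasFDerivAt
    have hη' : HasFDerivAt (fun u => (v u).1) ((ContinuousLinearMap.fst ℂ _ _).comp (fderiv ℂ v u)) u :=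
      hv'.fst
    have h1 : (fderiv ℂ v u w).1 = 0 := by
      rw [hη'.fderiv] at hw
      exact hw
    have hb : (v u).1 ∈ ball (0 : Fin k → ℂ) r := by rw [hvW u hu]; exact hη1 u hu
    have hτ : HasFDerivAt (τ m) (fderiv ℂ (τ m) (v u).1) (v u).1 :=
      ((hL.diff m).differentiableAt (isOpen_ball.mem_nhds hb)).hasFDerivAt
    have hτ' : HasFDerivAt (fun u => τ m (v u).1)
        ((fderiv ℂ (τ m) (v u).1).comp ((ContinuousLinearMap.fst ℂ _ _).comp (fderiv ℂ v u))) u :=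
      hτ.comp u hη'
    have hsnd : HasFDerivAt (fun u => (v u).2) ((ContinuousLinearMap.snd ℂ _ _).comp (fderiv ℂ v u)) u :=
      hv'.snd
    have heq : (fun u => (v u).2) =ᶠ[𝓝 u] fun u => τ m (v u).1 := by
      filter_upwards [hmem] with y hy
      rw [hvW y hy]
      exact huniq y hy
    have h2 := hsnd.unique (hτ'.congr_of_eventuallyEq heq)
    have h3 : (fderiv ℂ v u w).2 = fderiv ℂ (τ m) (v u).1 ((fderiv ℂ v u w).1) :=
      congrArg (fun L => L w) h2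
    have h4 : fderiv ℂ v u w = 0 := by
      refine Prod.ext h1 ?_
      rw [h3, h1, map_zero]
      rfl
    -- the derivative of `P m ∘ v`
    have hvb : v u ∈ ball (0 : V k l) ρ₀ := by rw [hvW u hu]; exact (hvv u 0 hu).1
    have h5 := (hP.diff m (v u) hvb).hasMFDerivAt
    have h6 : HasMFDerivAt 𝓘(ℂ, Fin k → ℂ) 𝓘(ℂ, V k l) v u (fderiv ℂ v u) := hv'.hasMFDerivAt
    have h7 := HasMFDerivAt.comp u h5 h6
    have h8 := (mdiff_iter hf (N * m) (Φ u)).hasMFDerivAt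
    have h9 := HasMFDerivAt.comp u h8 (hΦ u).hasMFDerivAt
    have heq2 : (Pn f ψ N p i e m ∘ v) =ᶠ[𝓝 u] ((f : X → X)^[N * m] ∘ Φ) := by
      filter_upwards [hmem] with y hy
      show Pn f ψ N p i e m (v y) = _
      rw [hvW y hy]
      exact (hvv y 0 hy).2.2
    have h10 := hasMFDerivAt_unique h7 (h9.congr_of_eventuallyEq heq2)
    have h11 := congrArg (fun L => L w) h10
    have h12 : mfderiv 𝓘(ℂ, V k l) 𝓘(ℂ, E) (Pn f ψ N p i e m) (v u) (fderiv ℂ v u w) =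
        mfderiv 𝓘(ℂ, E) 𝓘(ℂ, E) ((f : X → X)^[N * m]) (Φ u)
          (mfderiv 𝓘(ℂ, Fin k → ℂ) 𝓘(ℂ, E) Φ u w) := h11
    rw [h4] at h12
    have hz : mfderiv 𝓘(ℂ, V k l) 𝓘(ℂ, E) (Pn f ψ N p i e m) (v u)
        (0 : TangentSpace 𝓘(ℂ, V k l) (v u)) = 0 := map_zero _
    have h13 := dinj_iter f hf hf' (N * m) (Φ u) _ (h12.symm.trans hz)
    have hz' : mfderiv 𝓘(ℂ, Fin k → ℂ) 𝓘(ℂ, E) Φ u
        (0 : TangentSpace 𝓘(ℂ, Fin k → ℂ) u) = 0 := map_zero _
    exact hΦi u (h13.trans hz'.symm)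

end Pool.Agent.Lib.BedR
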