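import Pool.Agent.Lib.BedR.SpecP

/-!
# MP_6f050a_an, project BedR: filtration by the moduli of the eigenvalues
-/

set_option autoImplicit false

open scoped Manifold ContDiff Topology
open Set Filter Metric
open Pool.Agent.Lib Pool.Agent.Lib.Bed

namespace Pool.Agent.Lib.BedR

theorem filP : S_Cut → S_Fil := by
  intro hCut V _ _ _ T
  have key : ∀ n : ℕ, ∀ S : Submodule ℂ V, Module.finrank ℂ S = n → (∀ v ∈ S, T v ∈ S) →
      (∀ v ∈ S, T v = 0 → v = 0) → ∃ (r : ℕ) (U W : ℕ → Submodule ℂ V) (ρ : ℕ → ℝ), Flt T S r U W ρ := by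
    intro n
    induction n using Nat.strong_induction_on with
    | _ n ih =>
      intro S hn hinv hinj
      by_cases hS : S = ⊥
      · subst hS
        refine ⟨0, fun _ => ⊥, fun _ => ⊥, fun _ => 1, rfl, rfl, ?_, ?_, ?_, ?_, ?_, ?_, ?_, ?_⟩ <;>
          exact fun i hi => absurd hi (Nat.not_lt_zero i)
      · have : Nontrivial S := (Submodule.nontrivial_iff_ne_bot).2 hS
        obtain ⟨μ1, hμ1⟩ := Module.End.exists_eigenvalue (T.restrict hinv)
        obtain ⟨v1, hv1⟩ := hμ1.exists_hasEigenvector
        have hE1 : ∃ v ∈ S, v ≠ 0 ∧ T v = μ1 • v := by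
          refine ⟨v1, v1.2, fun h => hv1.2 (Subtype.ext h), ?_⟩
          have h2 := hv1.apply_eq_smul
          have h3 := congrArg Subtype.val h2
          simpa using h3
        have hfin : Set.Finite {μ : ℂ | ∃ v ∈ S, v ≠ 0 ∧ T v = μ • v} := by
          refine (Module.End.finite_hasEigenvalue T).subset ?_
          rintro μ ⟨v, _, hv0, hv⟩
          exact Module.End.hasEigenvalue_of_hasEigenvector (x := v)
            ⟨Module.End.mem_eigenspace_iff.2 hv, hv0⟩
        obtain ⟨μ₀, ⟨v₀, hv₀S, hv₀0, hv₀⟩, hmin⟩ :=
          Set.exists_min_image _ (fun μ : ℂ => ‖μ‖) hfin ⟨μ1, hE1⟩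
        have hρ₀ : 0 < ‖μ₀‖ := by
          rw [norm_pos_iff]
          rintro rfl
          rw [zero_smul] at hv₀
          exact hv₀0 (hinj v₀ hv₀S hv₀)
        obtain ⟨A, B, hAB, hdis, hAi, hBi, hAe, hBe⟩ := hCut V T S (fun μ => ‖μ₀‖ < ‖μ‖) hinv
        have hAS : A ≤ S := hAB ▸ le_sup_left
        have hBS : B ≤ S := hAB ▸ le_sup_right
        have hBeq : ∀ (μ : ℂ) (v : V), v ∈ B → v ≠ 0 → T v = μ • v → ‖μ‖ = ‖μ₀‖ := by
          intro μ v hv hv0 hTv
          have h1 := hmin μ ⟨v, hBS hv, hv0, hTv⟩
          have h2 := not_lt.1 (hBe μ v hv hv0 hTv)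
          exact le_antisymm h2 h1
        have hne : A ≠ S := by
          intro h
          exact lt_irrefl _ (hAe μ₀ v₀ (h ▸ hv₀S) hv₀0 hv₀)
        have hlt : Module.finrank ℂ A < n := by
          rw [← hn]
          exact Submodule.finrank_lt_finrank_of_lt (lt_of_le_of_ne hAS hne)
        obtain ⟨r', U', W', ρ', hF⟩ := ih _ hlt A rfl hAi (fun v hv => hinj v (hAS hv))
        have eU : ∀ i, i ≤ r' → (if i ≤ r' then U' i else S) = U' i := fun i hi => if_pos hi
        have eW : ∀ i, i < r' → (if i < r' then W' i else B) = W' i := fun i hi => if_pos hi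
        have eρ : ∀ i, i < r' → (if i < r' then ρ' i else ‖μ₀‖) = ρ' i := fun i hi => if_pos hi
        have eU2 : (if r' ≤ r' then U' r' else S) = A := by rw [if_pos le_rfl, hF.top]
        have eW2 : (if r' < r' then W' r' else B) = B := if_neg (lt_irrefl r')
        have eρ2 : (if r' < r' then ρ' r' else ‖μ₀‖) = ‖μ₀‖ := if_neg (lt_irrefl r')
        refine ⟨r' + 1, fun i => if i ≤ r' then U' i else S, fun i => if i < r' then W' i else B,
          fun i => if i < r' then ρ' i else ‖μ₀‖, ?_, ?_, ?_, ?_, ?_, ?_, ?_, ?_, ?_, ?_⟩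
        · rw [eU 0 (Nat.zero_le _), hF.bot]
        · rw [if_neg (by omega)]
        · intro i hi
          rcases Nat.lt_succ_iff_lt_or_eq.1 hi with h | h
          · rw [eU i h.le, eU (i + 1) h, eW i h]
            exact hF.sup i h
          · subst h
            rw [eU2, eW2, if_neg (by omega)]
            exact hAB.symm
        · intro i hi
          rcases Nat.lt_succ_iff_lt_or_eq.1 hi with h | h
          · rw [eU i h.le, eW i h]
            exact hF.disj i h
          · subst h
            rw [eU2, eW2]
            exact hdis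
        · intro i hi
          rcases Nat.lt_succ_iff_lt_or_eq.1 hi with h | h
          · rw [eU i h.le]
            exact hF.invU i h
          · subst h
            rw [eU2]
            exact hAi
        · intro i hi
          rcases Nat.lt_succ_iff_lt_or_eq.1 hi with h | h
          · rw [eW i h]
            exact hF.invW i h
          · subst h
            rw [eW2]
            exact hBi
        · intro i hi
          rcases Nat.lt_succ_iff_lt_or_eq.1 hi with h | h
          · rw [eU i h.le, eW i h]
            exact ⟨(hF.leS i h).1.trans hAS, (hF.leS i h).2.trans hAS⟩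
          · subst h
            rw [eU2, eW2]
            exact ⟨hAS, hBS⟩
        · intro i hi
          rcases Nat.lt_succ_iff_lt_or_eq.1 hi with h | h
          · rw [eρ i h]
            exact hF.pos i h
          · subst h
            rw [eρ2]
            exact hρ₀
        · intro i hi
          rcases Nat.lt_succ_iff_lt_or_eq.1 hi with h | h
          · rw [eρ i h, eW i h]
            exact hF.eigW i h
          · subst h
            rw [eρ2, eW2]
            exact hBeq
        · intro i hi
          rcases Nat.lt_succ_iff_lt_or_eq.1 hi with h | h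
          · rw [eρ i h, eU i h.le]
            exact hF.eigU i h
          · subst h
            rw [eρ2, eU2]
            exact hAe
  intro S
  exact key _ S rfl

end Pool.Agent.Lib.BedR
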