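import Pool.Agent.Lib.BedR.SpecF

set_option autoImplicit false

open scoped Manifold ContDiff Topology
open Set Filter Metric
open Pool.Agent.Lib Pool.Agent.Lib.Bed

namespace Pool.Agent.Lib.BedR

/-- **FinG**: the final assembly of Theorem G. -/
theorem finGP : S_FinG := by
  intro hG hF hP E _ _ _ X _ _ _ nrm f K Es Eu C lam h1 h2
  refine ⟨hG E X nrm f K Es Eu C lam h1 h2, fun hK => hK.trans (closure_mono ?_)⟩
  rintro p ⟨hp, m, hm, hfm⟩
  obtain ⟨r, U, W, hFC⟩ := hP E X nrm f K Es Eu C lam h1 h2 p hp m hm hfm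
  exact ⟨hp, hF E X nrm f K Es Eu C lam h1 h2 p hp r U W hFC⟩

end Pool.Agent.Lib.BedR
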