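import Pool.Agent.Lib.BedR.SpecF

/-!
# Theorem G (MP_6f050a_an), module Gd: the set of the good points is a `G_δ`
-/

set_option autoImplicit false

open scoped Manifold ContDiff Topology
open Set Filter Metric
open Pool.Agent.Lib Pool.Agent.Lib.Bed

namespace Pool.Agent.Lib.BedR

namespace GdM

/-- a bounded function is constant on a set of an ultrafilter -/
theorem const_of_le {X : Type} (U : Ultrafilter X) (κ : X → ℕ) (d : ℕ) (h : ∀ a, κ a ≤ d) :
    ∃ k, ∀ᶠ a in (U : Filter X), κ a = k := by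
  have hm : Set.Iic d ∈ U.map κ := by
    rw [Ultrafilter.mem_map]
    exact Filter.mem_of_superset Filter.univ_mem (fun a _ => h a)
  obtain ⟨k, _, hk⟩ := Ultrafilter.eq_pure_of_finite_mem (Set.finite_Iic d) hm
  refine ⟨k, ?_⟩
  have hk' : ({k} : Set ℕ) ∈ U.map κ := by
    rw [hk]
    exact Ultrafilter.mem_pure.2 rfl
  rw [Ultrafilter.mem_map] at hk'
  exact hk'

/-- sets which are relatively open near all points of `R` -/
theorem open_part {X : Type} [TopologicalSpace X] (K O : Set X) (q : X)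
    (h : ∀ U : Ultrafilter X, (U : Filter X) ≤ 𝓝 q → K \ O ∈ U → False) :
    ∃ V, IsOpen V ∧ V ∩ K ⊆ O ∧ q ∈ V := by
  by_contra hcon
  have hcl : q ∈ closure (K \ O) := by
    rw [_root_.mem_closure_iff]
    intro V hV hq
    by_contra hne
    apply hcon
    refine ⟨V, hV, ?_, hq⟩
    rintro x ⟨hxV, hxK⟩
    by_contra hxO
    exact hne ⟨x, hxV, hxK, hxO⟩
  have hne : (𝓝[K \ O] q).NeBot := mem_closure_iff_nhdsWithin_neBot.1 hcl
  have hle := Ultrafilter.of_le (𝓝[K \ O] q)
  exact h (Ultrafilter.of (𝓝[K \ O] q)) (le_trans hle nhdsWithin_le_nhds) (hle self_mem_nhdsWithin)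

end GdM

open GdM in
theorem gdP : S_Gd := by
  intro hSeq hApC hCnt hPkg hLow E _ _ _ X _ _ _ nrm f K Es Eu C lam hF hH
  obtain ⟨r, C', c, D, h1, h2, h3⟩ := hPkg E X nrm f K Es Eu C lam hF hH
  choose α hα1 hα2 using fun k => hCnt k (r / 4)
  have hκ : ∀ a : X, Module.finrank ℂ (Es a) ≤ Module.finrank ℂ E := by
    intro a
    have h := Submodule.finrank_le (Bed.sE Es a)
    exact h
  let Ok : ℕ → ℕ → ℕ → ℕ → Set X := fun j N n M => {p | Module.finrank ℂ (Es p) ≤ 1 ∨
    ∀ F, D p (Module.finrank ℂ (Es p)) F →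
      Ap (Module.finrank ℂ (Es p)) r F N (α (Module.finrank ℂ (Es p)) j) (1 / ((n : ℝ) + 1)) (M : ℝ)}
  let V : ℕ × ℕ × ℕ × ℕ → Set X := fun s =>
    ⋃₀ {V | IsOpen V ∧ V ∩ K ⊆ Ok s.1 s.2.1 s.2.2.1 s.2.2.2}
  have hV : ∀ s, IsOpen (V s) := fun s => isOpen_sUnion fun t ht => ht.1
  have hR : {p | p ∈ K ∧ StabCk E (Module.finrank ℂ (Es p)) f p} = K ∩ ⋂ s, V s := by
    apply Set.Subset.antisymm
    · rintro q ⟨hqK, hq⟩
      refine ⟨hqK, Set.mem_iInter.2 fun s => ?_⟩
      obtain ⟨j, N, n, M⟩ := s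
      obtain ⟨W, hW1, hW2, hW3⟩ := open_part K (Ok j N n M) q (by
        intro U hU hUO
        obtain ⟨k, hk⟩ := const_of_le U (fun a => Module.finrank ℂ (Es a)) _ hκ
        have hpos : (0 : ℝ) < 1 / (2 * ((n : ℝ) + 1)) := by positivity
        have hlt : (1 : ℝ) / (2 * ((n : ℝ) + 1)) < 1 / ((n : ℝ) + 1) := by
          apply one_div_lt_one_div_of_lt
          · positivity
          · have : (0 : ℝ) < (n : ℝ) + 1 := by positivity
            linarith
        have hbad : ∀ᶠ a in (U : Filter X), a ∈ K ∧ 1 < k ∧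
            ∃ F, D a k F ∧ ¬ Ap k r F N (α k j) (1 / ((n : ℝ) + 1)) (M : ℝ) := by
          filter_upwards [hk, hUO] with a ha haO
          obtain ⟨haK, haN⟩ := haO
          have haN' : ¬ (Module.finrank ℂ (Es a) ≤ 1 ∨
            ∀ F, D a (Module.finrank ℂ (Es a)) F →
              Ap (Module.finrank ℂ (Es a)) r F N (α (Module.finrank ℂ (Es a)) j)
                (1 / ((n : ℝ) + 1)) (M : ℝ)) := haN
          rw [ha] at haN'
          rw [not_or] at haN'
          refine ⟨haK, not_le.1 haN'.1, ?_⟩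
          by_contra hne
          exact haN'.2 fun F hF' => by
            by_contra hAp
            exact hne ⟨F, hF', hAp⟩
        classical
        let G : X → ℕ → Ek k → Ek k := fun a =>
          if h : ∃ F, D a k F ∧ ¬ Ap k r F N (α k j) (1 / ((n : ℝ) + 1)) (M : ℝ) then h.choose else fun _ _ => 0
        have hG : ∀ᶠ a in (U : Filter X), a ∈ K ∧ D a k (G a) ∧
            ¬ Ap k r (G a) N (α k j) (1 / ((n : ℝ) + 1)) (M : ℝ) := by
          filter_upwards [hbad] with a ha
          obtain ⟨haK, _, hex⟩ := ha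
          have e : G a = hex.choose := dif_pos hex
          rw [e]
          exact ⟨haK, hex.choose_spec⟩
        obtain ⟨F, hDF, hconv⟩ := h3 U q k G hqK hU (hG.mono fun a ha => ⟨ha.1, ha.2.1⟩)
        obtain ⟨hkq, hSml, hBas⟩ := h2 q hqK k F hDF
        have hq' : StabCk E k f q := hkq ▸ hq
        have hk2 : 2 ≤ k := by
          obtain ⟨a, ha⟩ := hbad.exists
          exact ha.2.1
        have hAp := hSeq.1 k r C' c F hk2 hSml (hBas.2 hq') N (α k j) (1 / (2 * ((n : ℝ) + 1))) (M : ℝ)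
          (hα1 k j) hpos
        have hfin := hApC X U k r C' c G F hSml (hG.mono fun a ha => (h2 a ha.1 k (G a) ha.2.1).2.1) hconv
          N (α k j) (1 / (2 * ((n : ℝ) + 1))) (1 / ((n : ℝ) + 1)) (M : ℝ) hlt hAp
        obtain ⟨a, ha, ha'⟩ := (hfin.and hG).exists
        exact ha'.2.2 ha)
      exact ⟨W, ⟨hW1, hW2⟩, hW3⟩
    · rintro p ⟨hpK, hp⟩
      rw [Set.mem_iInter] at hp
      refine ⟨hpK, ?_⟩
      have hO : ∀ j N n M : ℕ, p ∈ Ok j N n M := by
        intro j N n M
        obtain ⟨W, ⟨_, hW⟩, hpW⟩ := hp (j, N, n, M)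
        exact hW ⟨hpW, hpK⟩
      by_cases hκ1 : Module.finrank ℂ (Es p) ≤ 1
      · exact hLow E X nrm f K Es Eu C lam hF hH p hpK hκ1
      · obtain ⟨F, hDF⟩ := h1 p hpK
        obtain ⟨_, hSml, hBas⟩ := h2 p hpK _ F hDF
        refine hBas.1 (hSeq.2 _ r C' c F hSml ?_)
        intro N a ε M' ha hε
        obtain ⟨j, hj⟩ := hα2 (Module.finrank ℂ (Es p)) a ha (ε / 2) (half_pos hε)
        obtain ⟨n, hn⟩ := exists_nat_one_div_lt (half_pos hε)
        obtain ⟨M, hM⟩ := exists_nat_ge M'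
        rcases hO j N n M with h | h
        · exact absurd h hκ1
        · obtain ⟨i, b, hi, hb, happ, hcov⟩ := h F hDF
          refine ⟨i, b, hi, hb, ?_, fun w hw => hcov w (le_trans hw hM)⟩
          intro z hz
          have hz' : ‖z‖ ≤ r / 4 := by
            rw [mem_ball_zero_iff] at hz
            exact hz.le
          have e1 := happ z hz
          have e2 := hj z hz'
          have e3 : b (orb F N i z) - a z =
              (b (orb F N i z) - α (Module.finrank ℂ (Es p)) j z) +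
                (α (Module.finrank ℂ (Es p)) j z - a z) := by abel
          rw [e3]
          refine le_trans (norm_add_le _ _) ?_
          linarith
  rw [hR]
  exact hH.compact.isClosed.isGδ.inter (IsGδ.iInter_of_isOpen hV)

end Pool.Agent.Lib.BedR
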