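import Pool.Agent.Lib.BedR.SpecA

/-!
# Theorem G (MP_6f050a_an): the discrete Gronwall inequality
-/

set_option autoImplicit false

open scoped Manifold ContDiff Topology
open Set Filter Metric
open Pool.Agent.Lib Pool.Agent.Lib.Bed

namespace Pool.Agent.Lib.BedR

namespace GroM

/-- The power is at most the exponential. -/
lemma pow_le (n j : ℕ) (h L : ℝ) (hh : 0 ≤ h) (hL : 0 ≤ L) (hn : n * h ≤ 1) (hj : j ≤ n) :
    (1 + L * h) ^ j * (j * h) ≤ Real.exp L := by
  have h1 : (j : ℝ) * h ≤ 1 := by
    have : (j : ℝ) ≤ n := by exact_mod_cast hj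
    nlinarith
  have h0 : 0 ≤ (j : ℝ) * h := by positivity
  have h2 : (1 + L * h) ^ j ≤ Real.exp L := by
    calc (1 + L * h) ^ j ≤ Real.exp (L * h) ^ j := by
          apply pow_le_pow_left₀ (by positivity)
          linarith [Real.add_one_le_exp (L * h)]
      _ = Real.exp (j * (L * h)) := by rw [← Real.exp_nat_mul]
      _ ≤ Real.exp L := by
          apply Real.exp_le_exp.mpr
          nlinarith
  calc (1 + L * h) ^ j * (j * h) ≤ Real.exp L * 1 := by
        apply mul_le_mul h2 h1 h0 (Real.exp_pos _).le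
    _ = Real.exp L := mul_one _

end GroM

theorem groP : S_Gro := by
  intro n h L ε C η δ hh hL hε hC hn hη h0 hstep
  have he : 0 ≤ ε + C * h := by positivity
  have key : ∀ j ≤ n, δ j ≤ (1 + L * h) ^ j * (j * h) * (ε + C * h) := by
    intro j
    induction j with
    | zero => intro _; simp [h0]
    | succ j ih =>
      intro hj
      have hj' : j ≤ n := by omega
      have h1 := ih hj'
      have h2 : δ j ≤ Real.exp L * (ε + C * h) :=
        h1.trans (mul_le_mul_of_nonneg_right (GroM.pow_le n j h L hh hL hn hj') he)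
      have h3 := hstep j (by omega) (h2.trans_lt hη)
      have h4 : 0 ≤ L * h := by positivity
      have h5 : (1 : ℝ) ≤ (1 + L * h) ^ (j + 1) := one_le_pow₀ (by linarith)
      have h6 : (1 + L * h) * δ j ≤ (1 + L * h) * ((1 + L * h) ^ j * (j * h) * (ε + C * h)) :=
        mul_le_mul_of_nonneg_left h1 (by linarith)
      have h7 : h * (ε + C * h) ≤ (1 + L * h) ^ (j + 1) * (h * (ε + C * h)) :=
        le_mul_of_one_le_left (by positivity) h5
      calc δ (j + 1) ≤ (1 + L * h) * δ j + h * ε + C * h ^ 2 := h3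
        _ ≤ (1 + L * h) * ((1 + L * h) ^ j * (j * h) * (ε + C * h))
            + (1 + L * h) ^ (j + 1) * (h * (ε + C * h)) := by
          have : h * ε + C * h ^ 2 = h * (ε + C * h) := by ring
          linarith
        _ = (1 + L * h) ^ (j + 1) * (((j + 1 : ℕ) : ℝ) * h) * (ε + C * h) := by
          push_cast
          ring
  intro j hj
  exact (key j hj).trans (mul_le_mul_of_nonneg_right (GroM.pow_le n j h L hh hL hn hj) he)

end Pool.Agent.Lib.BedR
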