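import Pool.Agent.Lib.BedR.SpecF

/-!
# Theorem G (MP_6f050a_an): the set of good points is invariant
-/

set_option autoImplicit false

open scoped Manifold ContDiff Topology
open Set Filter Metric
open Pool.Agent.Lib Pool.Agent.Lib.Bed

namespace Pool.Agent.Lib.BedR

namespace IvtM

variable {E : Type} [NormedAddCommGroup E] [NormedSpace ℂ E]
variable {X : Type} [MetricSpace X] [ChartedSpace E X]

theorem mfinj (f : X ≃ X) (hf : MDifferentiable 𝓘(ℂ, E) 𝓘(ℂ, E) f)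
    (hs : MDifferentiable 𝓘(ℂ, E) 𝓘(ℂ, E) f.symm) (x : X) :
    Function.Injective (mfderiv 𝓘(ℂ, E) 𝓘(ℂ, E) f x) := by
  have h1 := mfderiv_comp x (hs (f x)) (hf x)
  have h2 : (f.symm : X → X) ∘ f = id := by
    funext y
    exact f.symm_apply_apply y
  rw [h2, mfderiv_id] at h1
  intro v w hvw
  have h3 : ∀ u, mfderiv 𝓘(ℂ, E) 𝓘(ℂ, E) f.symm (f x) (mfderiv 𝓘(ℂ, E) 𝓘(ℂ, E) f x u) = u := by
    intro u
    have h4 := congrArg (fun L => L u) h1
    exact h4.symm
  rw [← h3 v, ← h3 w, hvw]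

omit [MetricSpace X] in
theorem it (f : X ≃ X) (n : ℕ) (x : X) : f^[n] (f x) = f^[n + 1] x := rfl

theorem stab_map (f : X ≃ X) (p : X) : stab f (f p) = f '' stab f p := by
  ext q
  constructor
  · intro hq
    refine ⟨f.symm q, ?_, f.apply_symm_apply q⟩
    have h1 : Tendsto (fun n : ℕ => dist (f^[n] q) (f^[n] (f p))) atTop (𝓝 0) := hq
    have h2 : Tendsto (fun n : ℕ => dist (f^[n + 1] (f.symm q)) (f^[n + 1] p)) atTop (𝓝 0) := by
      refine h1.congr fun n => ?_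
      rw [← it f n (f.symm q), ← it f n p, f.apply_symm_apply]
    exact (tendsto_add_atTop_iff_nat 1).1 h2
  · rintro ⟨q', hq', rfl⟩
    have h1 : Tendsto (fun n : ℕ => dist (f^[n] q') (f^[n] p)) atTop (𝓝 0) := hq'
    exact (tendsto_add_atTop_iff_nat 1).2 h1

/-- the image of the stable manifold of `p` -/
theorem fwd (f g : X ≃ X) (hf : MDifferentiable 𝓘(ℂ, E) 𝓘(ℂ, E) g)
    (hs : MDifferentiable 𝓘(ℂ, E) 𝓘(ℂ, E) g.symm) (k : ℕ) (p p' : X)
    (hst : stab f p' = g '' stab f p)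
    (hlim : ∀ Φ : (Fin k → ℂ) → X, TendstoLocallyUniformly
      (fun (n : ℕ) (z : Fin k → ℂ) => dist (f^[n] (Φ z)) (f^[n] p)) (fun _ => 0) atTop →
      TendstoLocallyUniformly
      (fun (n : ℕ) (z : Fin k → ℂ) => dist (f^[n] (g (Φ z))) (f^[n] p')) (fun _ => 0) atTop)
    (h : StabCk E k f p) : StabCk E k f p' := by
  obtain ⟨Φ, h1, h2, h3, h4, h5⟩ := h
  refine ⟨fun z => g (Φ z), hf.comp h1, g.injective.comp h2, ?_, ?_, hlim Φ h5⟩
  · intro z
    have h6 := mfderiv_comp z (hf (Φ z)) (h1 z)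
    have h7 : (fun z => g (Φ z)) = g ∘ Φ := rfl
    rw [h7, h6]
    exact (mfinj g hf hs (Φ z)).comp (h3 z)
  · have h8 : range (fun z => g (Φ z)) = g '' range Φ := by
      rw [← range_comp]
      rfl
    rw [h8, h4, hst]

end IvtM

open IvtM in
/-- The set of the good points is invariant. -/
theorem ivtP (hDm : Bed.S_Dm) : ∀ (E : Type) [NormedAddCommGroup E] [NormedSpace ℂ E] [FiniteDimensional ℂ E]
    (X : Type) [MetricSpace X] [ChartedSpace E X] [IsManifold 𝓘(ℂ, E) 1 X]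
    (nrm : (x : X) → TangentSpace 𝓘(ℂ, E) x → ℝ) (f : X ≃ X) (K : Set X)
    (Es Eu : (x : X) → Submodule ℂ (TangentSpace 𝓘(ℂ, E) x)) (C lam : ℝ), IsHyp nrm f K Es Eu C lam →
    f '' {p | p ∈ K ∧ StabCk E (Module.finrank ℂ (Es p)) f p} =
      {p | p ∈ K ∧ StabCk E (Module.finrank ℂ (Es p)) f p} := by
  intro E _ _ _ X _ _ _ nrm f K Es Eu C lam hf
  have hfr : ∀ p ∈ K, Module.finrank ℂ (Es (f p)) = Module.finrank ℂ (Es p) := by
    intro p hp
    have h1 := (hDm E X nrm f K Es Eu C lam hf p hp 1).2.2.2.1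
    exact h1
  have hK : ∀ p ∈ K, f p ∈ K := fun p hp => by
    have h1 : f p ∈ f '' K := mem_image_of_mem f hp
    rwa [hf.image] at h1
  have hcont : Continuous f := hf.hol.continuous
  have hconts : Continuous f.symm := hf.hol_symm.continuous
  ext p
  constructor
  · rintro ⟨q, ⟨hq, hs⟩, rfl⟩
    refine ⟨hK q hq, ?_⟩
    rw [hfr q hq]
    refine fwd f f hf.hol hf.hol_symm _ q (f q) (stab_map f q) ?_ hs
    intro Φ hΦ
    rw [Metric.tendstoLocallyUniformly_iff] at hΦ ⊢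
    intro ε hε x
    obtain ⟨t, ht, h1⟩ := hΦ ε hε x
    refine ⟨t, ht, ?_⟩
    have h2 := (tendsto_add_atTop_nat 1).eventually h1
    filter_upwards [h2] with n hn y hy
    exact hn y hy
  · rintro ⟨hp, hs⟩
    have h1 : p ∈ f '' K := by
      rw [hf.image]
      exact hp
    obtain ⟨q, hq, rfl⟩ := h1
    refine ⟨q, ⟨hq, ?_⟩, rfl⟩
    rw [hfr q hq] at hs
    have hst : stab f q = f.symm '' stab f (f q) := by
      rw [stab_map, ← image_comp]
      have h2 : (f.symm : X → X) ∘ f = id := by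
        funext y
        exact f.symm_apply_apply y
      rw [h2, image_id]
    have hss : MDifferentiable 𝓘(ℂ, E) 𝓘(ℂ, E) f.symm.symm := by
      rw [Equiv.symm_symm]
      exact hf.hol
    refine fwd f f.symm hf.hol_symm hss _ (f q) q hst ?_ hs
    intro Φ hΦ
    rw [Metric.tendstoLocallyUniformly_iff] at hΦ ⊢
    intro ε hε x
    obtain ⟨t, ht, h1⟩ := hΦ ε hε x
    refine ⟨t, ht, ?_⟩
    have h3 : ∀ (n : ℕ) (y : X), f^[n + 1] (f.symm y) = f^[n] y := by
      intro n y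
      rw [← it, f.apply_symm_apply]
    obtain ⟨n₀, hn₀⟩ := eventually_atTop.1 h1
    filter_upwards [eventually_ge_atTop (n₀ + 1)] with n hn y hy
    obtain ⟨m, rfl⟩ : ∃ m, n = m + 1 := ⟨n - 1, by omega⟩
    have h4 := hn₀ m (by omega) y hy
    rw [h3]
    exact h4

end Pool.Agent.Lib.BedR
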