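import Pool.Agent.Lib.BedR.SpecP

/-!
# Theorem G (MP_6f050a_an), part P: condition (F) for the powers of a linear map
-/

set_option autoImplicit false

open scoped Manifold ContDiff Topology
open Set Filter Metric
open Pool.Agent.Lib Pool.Agent.Lib.Bed

namespace Pool.Agent.Lib.BedR

namespace LfcM

/-- uniform constants for finitely many indices -/
theorem unif (P : ℕ → ℝ → ℝ → Prop)
    (hmono : ∀ i C C' η η', P i C η → C ≤ C' → η' ≤ η → P i C' η') (r : ℕ)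
    (h : ∀ i < r, ∃ C η : ℝ, 0 < C ∧ 0 < η ∧ P i C η) :
    ∃ C η : ℝ, 0 < C ∧ 0 < η ∧ ∀ i < r, P i C η := by
  induction r with
  | zero => exact ⟨1, 1, one_pos, one_pos, fun i hi => absurd hi (Nat.not_lt_zero i)⟩
  | succ r ih =>
    obtain ⟨C, η, hC, hη, hP⟩ := ih fun i hi => h i (Nat.lt_succ_of_lt hi)
    obtain ⟨C', η', hC', hη', hP'⟩ := h r (Nat.lt_succ_self r)
    refine ⟨max C C', min η η', lt_max_of_lt_left hC, lt_min hη hη', fun i hi => ?_⟩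
    rcases Nat.lt_succ_iff_lt_or_eq.1 hi with h1 | h1
    · exact hmono i C _ η _ (hP i h1) (le_max_left _ _) (min_le_left _ _)
    · rw [h1]
      exact hmono r C' _ η' _ hP' (le_max_right _ _) (min_le_right _ _)

theorem expo (a b : ℝ) (ha : 0 < a) (hb : 0 < b) (m : ℕ) :
    Real.exp (-(Real.log (b / a) * m)) = (a / b) ^ m := by
  have h1 : -(Real.log (b / a) * m) = (m : ℝ) * Real.log (a / b) := by
    rw [← inv_div a b, Real.log_inv]
    ring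
  rw [h1, Real.exp_nat_mul, Real.exp_log (div_pos ha hb)]

/-- a gap below the moduli of the eigenvalues -/
theorem gap {V : Type} [AddCommGroup V] [Module ℂ V] [FiniteDimensional ℂ V] (T : V →ₗ[ℂ] V)
    (U : Submodule ℂ V) (ρ : ℝ) (h : ∀ (μ : ℂ) (v : V), v ∈ U → v ≠ 0 → T v = μ • v → ρ < ‖μ‖) :
    ∃ b : ℝ, ρ < b ∧ ∀ (μ : ℂ) (v : V), v ∈ U → v ≠ 0 → T v = μ • v → b < ‖μ‖ := by
  have hfin : {μ : ℂ | ∃ v ∈ U, v ≠ 0 ∧ T v = μ • v}.Finite := by
    refine (Module.End.finite_hasEigenvalue T).subset ?_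
    rintro μ ⟨v, hvU, hv0, hv⟩
    exact Module.End.hasEigenvalue_of_hasEigenvector (x := v)
      (Module.End.hasEigenvector_iff.2 ⟨Module.End.mem_eigenspace_iff.2 hv, hv0⟩)
  have h1 : ∀ᶠ b in 𝓝[>] ρ, ∀ μ ∈ {μ : ℂ | ∃ v ∈ U, v ≠ 0 ∧ T v = μ • v}, b < ‖μ‖ := by
    rw [Filter.eventually_all_finite hfin]
    rintro μ ⟨v, hvU, hv0, hv⟩
    exact mem_nhdsWithin_of_mem_nhds (Iio_mem_nhds (h μ v hvU hv0 hv))
  obtain ⟨b, hb, hb'⟩ := (h1.and (self_mem_nhdsWithin (s := Ioi ρ) (a := ρ))).exists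
  exact ⟨b, hb', fun μ v hvU hv0 hv => hb μ ⟨v, hvU, hv0, hv⟩⟩

section

variable {V : Type} [NormedAddCommGroup V] [NormedSpace ℂ V]

theorem pow_succ_apply (T : V →L[ℂ] V) (n : ℕ) (v : V) : (T ^ (n + 1)) v = T ((T ^ n) v) := by
  rw [pow_succ']
  rfl

theorem pow_add_apply (T : V →L[ℂ] V) (n m : ℕ) (v : V) : (T ^ (n + m)) v = (T ^ m) ((T ^ n) v) := by
  rw [add_comm n m, pow_add]
  rfl

theorem pow_mem (T : V →L[ℂ] V) (G : Submodule ℂ V) (h : ∀ v ∈ G, T v ∈ G) (n : ℕ) (v : V)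
    (hv : v ∈ G) : (T ^ n) v ∈ G := by
  induction n with
  | zero => exact hv
  | succ n ih =>
    rw [pow_succ_apply]
    exact h _ ih

end

theorem numA {C c a b X Y W Z : ℝ} (m : ℕ) (hC : 0 < C) (hc : 0 < c) (ha : 0 < a) (hb : 0 < b)
    (hY : 0 ≤ Y) (hW : 0 ≤ W) (h1 : X ≤ C * a ^ m * W) (h2 : c * b ^ m * Y ≤ Z) :
    X * Y ≤ C / c * (a / b) ^ m * (W * Z) := by
  have hbm : 0 < b ^ m := pow_pos hb m
  have h3 : Y ≤ Z / (c * b ^ m) := by
    rw [le_div_iff₀ (by positivity)]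
    linarith
  calc X * Y ≤ C * a ^ m * W * Y := mul_le_mul_of_nonneg_right h1 hY
    _ ≤ C * a ^ m * W * (Z / (c * b ^ m)) := mul_le_mul_of_nonneg_left h3 (by positivity)
    _ = C / c * (a / b) ^ m * (W * Z) := by
      rw [div_pow]
      field_simp

theorem numB {C c a b X Y W Z : ℝ} (m : ℕ) (hC : 0 < C) (hc : 0 < c) (ha : 0 < a) (hb : 0 < b)
    (hX : 0 ≤ X) (hY : 0 ≤ Y) (_hW : 0 ≤ W) (h1 : X ≤ C * a ^ m * W) (h2 : c * b ^ m * Y ≤ Z) :
    X ^ 2 * Y ≤ C ^ 2 / c * (a ^ 2 / b) ^ m * (W ^ 2 * Z) := by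
  refine numA (C := C ^ 2) (a := a ^ 2) m (by positivity) hc (by positivity) hb hY (by positivity) ?_ h2
  calc X ^ 2 ≤ (C * a ^ m * W) ^ 2 := pow_le_pow_left₀ hX h1 2
    _ = C ^ 2 * (a ^ 2) ^ m * W ^ 2 := by ring

/-- the bounds for a bunched space -/
theorem bunch {V : Type} [AddCommGroup V] [Module ℂ V] (T : V →ₗ[ℂ] V) (W : Submodule ℂ V) (ρ : ℝ)
    (hρ : 0 < ρ) (h : ∀ (μ : ℂ) (v : V), v ∈ W → v ≠ 0 → T v = μ • v → ‖μ‖ = ρ ∧ ‖μ‖ < 1) :
    ∃ a b : ℝ, 0 < a ∧ 0 < b ∧ a ^ 2 < b ∧ (∀ (μ : ℂ) (v : V), v ∈ W → v ≠ 0 → T v = μ • v → ‖μ‖ < a) ∧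
      ∀ (μ : ℂ) (v : V), v ∈ W → v ≠ 0 → T v = μ • v → b < ‖μ‖ := by
  by_cases hex : ∃ (μ : ℂ) (v : V), v ∈ W ∧ v ≠ 0 ∧ T v = μ • v
  · obtain ⟨μ, v, hv, hv0, hvμ⟩ := hex
    obtain ⟨h1, h2⟩ := h μ v hv hv0 hvμ
    have hρ1 : ρ < 1 := h1 ▸ h2
    have hρ2 : ρ ^ 2 < ρ := by nlinarith
    have hc : 0 < (3 * ρ ^ 2 + ρ) / 4 := by positivity
    have ha : ρ < Real.sqrt ((3 * ρ ^ 2 + ρ) / 4) := by
      rw [Real.lt_sqrt hρ.le]
      linarith
    refine ⟨Real.sqrt ((3 * ρ ^ 2 + ρ) / 4), (ρ ^ 2 + ρ) / 2, Real.sqrt_pos.2 hc, by positivity, ?_, ?_, ?_⟩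
    · rw [Real.sq_sqrt hc.le]
      linarith
    · intro μ' v' hv' hv0' hvμ'
      rw [(h μ' v' hv' hv0' hvμ').1]
      exact ha
    · intro μ' v' hv' hv0' hvμ'
      rw [(h μ' v' hv' hv0' hvμ').1]
      linarith
  · exact ⟨1 / 2, 1 / 2, by norm_num, by norm_num, by norm_num,
      fun μ v hv hv0 hvμ => absurd ⟨μ, v, hv, hv0, hvμ⟩ hex,
      fun μ v hv hv0 hvμ => absurd ⟨μ, v, hv, hv0, hvμ⟩ hex⟩

end LfcM

open LfcM in
theorem lfcP : S_SpU → S_SpL → S_Fil → S_Lfc := by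
  intro hU hL hF V _ _ _ T S hinv hinj heig
  obtain ⟨r, U, W, ρ, hflt⟩ := hF V (T : V →ₗ[ℂ] V) S hinv hinj
  refine ⟨r, U, W, hflt.bot, hflt.top, hflt.sup, hflt.disj, ?_, ?_, ?_⟩
  · -- domination
    refine unif (fun i C η => ∀ n m : ℕ, ∀ u ∈ U i, ∀ w ∈ W i,
      ‖(T ^ (n + m)) w‖ * ‖(T ^ n) u‖ ≤ C * Real.exp (-(η * m)) * (‖(T ^ n) w‖ * ‖(T ^ (n + m)) u‖)) ?_ r ?_
    · intro i C C' η η' h hC hη n m u hu w hw
      have h0 : ‖(T ^ (n + m)) w‖ * ‖(T ^ n) u‖ ≥ 0 := by positivity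
      have hq : 0 ≤ ‖(T ^ n) w‖ * ‖(T ^ (n + m)) u‖ := by positivity
      have h1 := h n m u hu w hw
      have h2 : Real.exp (-(η * m)) ≤ Real.exp (-(η' * m)) := by
        apply Real.exp_le_exp.2
        have : (0 : ℝ) ≤ m := Nat.cast_nonneg m
        nlinarith
      have h3 : 0 < Real.exp (-(η * m)) := Real.exp_pos _
      rcases eq_or_lt_of_le hq with h4 | h4
      · rw [← h4] at h1 ⊢
        simpa using h1
      · have hC0 : 0 ≤ C := by
          by_contra hneg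
          have h5 : C * Real.exp (-(η * m)) * (‖(T ^ n) w‖ * ‖(T ^ (n + m)) u‖) < 0 :=
            mul_neg_of_neg_of_pos (mul_neg_of_neg_of_pos (not_le.1 hneg) h3) h4
          linarith
        refine h1.trans (mul_le_mul_of_nonneg_right ?_ hq)
        exact mul_le_mul hC h2 h3.le (hC0.trans hC)
    · intro i hi
      obtain ⟨b, hρb, hb⟩ := gap (T : V →ₗ[ℂ] V) (U i) (ρ i) (hflt.eigU i hi)
      have hρ := hflt.pos i hi
      have ha : 0 < (ρ i + b) / 2 := by linarith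
      have hb0 : 0 < b := by linarith
      obtain ⟨C, hC, hCb⟩ := hU V T (W i) ((ρ i + b) / 2) ha (hflt.invW i hi) (fun μ v hv hv0 hvμ => by
        rw [hflt.eigW i hi μ v hv hv0 hvμ]
        linarith)
      obtain ⟨c, hc, hcb⟩ := hL V T (U i) b hb0 (hflt.invU i hi)
        (fun v hv hv0 => hinj v ((hflt.leS i hi).1 hv) hv0) hb
      refine ⟨C / c, Real.log (b / ((ρ i + b) / 2)), div_pos hC hc, ?_, ?_⟩
      · apply Real.log_pos
        rw [lt_div_iff₀ ha]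
        linarith
      · intro n m u hu w hw
        rw [expo _ _ ha hb0, pow_add_apply T n m w, pow_add_apply T n m u]
        exact numA m hC hc ha hb0 (norm_nonneg _) (norm_nonneg _)
          (hCb m _ (pow_mem T (W i) (hflt.invW i hi) n w hw))
          (hcb m _ (pow_mem T (U i) (hflt.invU i hi) n u hu))
  · -- bunching
    refine unif (fun i C η => ∀ n m : ℕ, ∀ v ∈ W i, ∀ w ∈ W i,
      ‖(T ^ (n + m)) v‖ ^ 2 * ‖(T ^ n) w‖ ≤
        C * Real.exp (-(η * m)) * (‖(T ^ n) v‖ ^ 2 * ‖(T ^ (n + m)) w‖)) ?_ r ?_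
    · intro i C C' η η' h hC hη n m u hu w hw
      have h0 : ‖(T ^ (n + m)) u‖ ^ 2 * ‖(T ^ n) w‖ ≥ 0 := by positivity
      have hq : 0 ≤ ‖(T ^ n) u‖ ^ 2 * ‖(T ^ (n + m)) w‖ := by positivity
      have h1 := h n m u hu w hw
      have h2 : Real.exp (-(η * m)) ≤ Real.exp (-(η' * m)) := by
        apply Real.exp_le_exp.2
        have : (0 : ℝ) ≤ m := Nat.cast_nonneg m
        nlinarith
      have h3 : 0 < Real.exp (-(η * m)) := Real.exp_pos _
      rcases eq_or_lt_of_le hq with h4 | h4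
      · rw [← h4] at h1 ⊢
        simpa using h1
      · have hC0 : 0 ≤ C := by
          by_contra hneg
          have h5 : C * Real.exp (-(η * m)) * (‖(T ^ n) u‖ ^ 2 * ‖(T ^ (n + m)) w‖) < 0 :=
            mul_neg_of_neg_of_pos (mul_neg_of_neg_of_pos (not_le.1 hneg) h3) h4
          linarith
        refine h1.trans (mul_le_mul_of_nonneg_right ?_ hq)
        exact mul_le_mul hC h2 h3.le (hC0.trans hC)
    · intro i hi
      obtain ⟨a, b, ha, hb, hab, hea, heb⟩ := bunch (T : V →ₗ[ℂ] V) (W i) (ρ i) (hflt.pos i hi)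
        (fun μ v hv hv0 hvμ => ⟨hflt.eigW i hi μ v hv hv0 hvμ, heig μ v ((hflt.leS i hi).2 hv) hv0 hvμ⟩)
      obtain ⟨C, hC, hCb⟩ := hU V T (W i) a ha (hflt.invW i hi) hea
      obtain ⟨c, hc, hcb⟩ := hL V T (W i) b hb (hflt.invW i hi)
        (fun v hv hv0 => hinj v ((hflt.leS i hi).2 hv) hv0) heb
      refine ⟨C ^ 2 / c, Real.log (b / a ^ 2), by positivity, ?_, ?_⟩
      · apply Real.log_pos
        rw [lt_div_iff₀ (by positivity)]
        linarith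
      · intro n m v hv w hw
        rw [expo _ _ (by positivity) hb, pow_add_apply T n m w, pow_add_apply T n m v]
        exact numB m hC hc ha hb (norm_nonneg _) (norm_nonneg _) (norm_nonneg _)
          (hCb m _ (pow_mem T (W i) (hflt.invW i hi) n v hv))
          (hcb m _ (pow_mem T (W i) (hflt.invW i hi) n w hw))
  · -- the base
    refine ⟨1, 1 / 2, 1 / 2, one_pos, by norm_num, by norm_num, by norm_num, Or.inl (by norm_num), ?_⟩
    intro n m v hv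
    rw [hflt.bot, Submodule.mem_bot] at hv
    subst hv
    simp

end Pool.Agent.Lib.BedR
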