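import Pool.Agent.Lib.BedR.SpecB
import Pool.Agent.Lib.Osgood

/-!
# Theorem G (MP_6f050a_an): the limit maps of a tower of approximations
-/

set_option autoImplicit false

open scoped Manifold ContDiff Topology
open Set Filter Metric
open Pool.Agent.Lib Pool.Agent.Lib.Bed

namespace Pool.Agent.Lib.BedR

namespace LmtM

variable {k : ℕ}

theorem orb_norm_le {r : ℝ} {F : ℕ → Ek k → Ek k}
    (hF : ∀ n, ∀ x ∈ ball (0 : Ek k) r, ‖F n x‖ ≤ ‖x‖) (n i : ℕ) {x : Ek k}
    (hx : x ∈ ball (0 : Ek k) r) : ‖orb F n i x‖ ≤ ‖x‖ := by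
  induction i with
  | zero => exact le_rfl
  | succ i ih =>
    rw [orb_succ]
    have h : orb F n i x ∈ ball (0 : Ek k) r := by
      rw [mem_ball_zero_iff] at hx ⊢
      exact ih.trans_lt hx
    exact (hF _ _ h).trans ih

theorem orb_mem {r s : ℝ} {F : ℕ → Ek k → Ek k}
    (hF : ∀ n, ∀ x ∈ ball (0 : Ek k) r, ‖F n x‖ ≤ ‖x‖) (hs : s ≤ r) (n i : ℕ) {x : Ek k}
    (hx : x ∈ ball (0 : Ek k) s) : orb F n i x ∈ ball (0 : Ek k) s := by
  have h := orb_norm_le hF n i (ball_subset_ball hs hx)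
  rw [mem_ball_zero_iff] at hx ⊢
  exact h.trans_lt hx

theorem orb_diff {r : ℝ} {F : ℕ → Ek k → Ek k}
    (hF : ∀ n, ∀ x ∈ ball (0 : Ek k) r, ‖F n x‖ ≤ ‖x‖)
    (hd : ∀ n, DifferentiableOn ℂ (F n) (ball 0 r)) (n i : ℕ) :
    DifferentiableOn ℂ (orb F n i) (ball 0 r) := by
  induction i with
  | zero => exact differentiableOn_id
  | succ i ih => exact (hd (n + i)).comp ih fun z hz => orb_mem hF le_rfl n i hz

/-- A map close to the identity. -/
theorem near_lip {r : ℝ} (hr : 0 < r) {g : Ek k → Ek k} (hg : DifferentiableOn ℂ g (ball 0 (r / 4)))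
    (hn : ∀ x ∈ ball (0 : Ek k) (r / 4), ‖g x - x‖ ≤ r / 64) :
    (∀ x ∈ ball (0 : Ek k) (r / 8), ∀ x' ∈ ball (0 : Ek k) (r / 8),
      ‖(g x - x) - (g x' - x')‖ ≤ 1 / 8 * ‖x - x'‖) ∧
    ∀ x ∈ ball (0 : Ek k) (r / 8), ∀ w, fderiv ℂ g x w = 0 → w = 0 := by
  have hd : DifferentiableOn ℂ (fun x => g x - x) (ball (0 : Ek k) (r / 4)) :=
    hg.sub differentiableOn_id
  have hsub : ball (0 : Ek k) (r / 8) ⊆ ball (0 : Ek k) (r / 4) :=
    ball_subset_ball (by linarith)
  have hb : ∀ x ∈ ball (0 : Ek k) (r / 8), ‖fderiv ℂ (fun x => g x - x) x‖ ≤ 1 / 8 := by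
    intro x hx
    have h := Osgood.norm_fderiv_le' (f := fun x => g x - x) (z := (0 : Ek k)) (R := r / 4)
      (r := r / 8) (M := r / 64) (by linarith) hd hn (ball_subset_closedBall hx)
    have h2 : r / 64 / (r / 4 - r / 8) = 1 / 8 := by
      field_simp
      norm_num
    rwa [h2] at h
  have hda : ∀ x ∈ ball (0 : Ek k) (r / 8), DifferentiableAt ℂ (fun x => g x - x) x :=
    fun x hx => hd.differentiableAt (isOpen_ball.mem_nhds (hsub hx))
  refine ⟨fun x hx x' hx' => ?_, fun x hx w hw => ?_⟩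
  · exact Convex.norm_image_sub_le_of_norm_fderiv_le (𝕜 := ℂ) (f := fun x => g x - x) hda hb
      (convex_ball _ _) hx' hx
  · have hgx : DifferentiableAt ℂ g x := hg.differentiableAt (isOpen_ball.mem_nhds (hsub hx))
    have h1 : fderiv ℂ (fun x => g x - x) x w = fderiv ℂ g x w - w := by
      have h2 : HasFDerivAt (fun x => g x - x) (fderiv ℂ g x - ContinuousLinearMap.id ℂ (Ek k)) x :=
        hgx.hasFDerivAt.sub (hasFDerivAt_id x)
      rw [h2.fderiv]
      rfl
    have h3 : ‖fderiv ℂ (fun x => g x - x) x w‖ ≤ 1 / 8 * ‖w‖ :=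
      (ContinuousLinearMap.le_opNorm _ _).trans
        (mul_le_mul_of_nonneg_right (hb x hx) (norm_nonneg _))
    rw [h1, hw, zero_sub, norm_neg] at h3
    have h4 : ‖w‖ = 0 := by linarith [norm_nonneg w]
    exact norm_eq_zero.1 h4

/-- A map close to the identity covers a smaller ball. -/
theorem near_onto {r : ℝ} (hr : 0 < r) {g : Ek k → Ek k}
    (hg : DifferentiableOn ℂ g (ball 0 (r / 4)))
    (hn : ∀ x ∈ ball (0 : Ek k) (r / 4), ‖g x - x‖ ≤ r / 64) {y : Ek k} (hy : ‖y‖ < r / 16) :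
    ∃ x ∈ ball (0 : Ek k) (r / 8), g x = y := by
  have hsub : closedBall y (r / 64) ⊆ ball (0 : Ek k) (r / 8) := by
    intro x hx
    rw [mem_closedBall, dist_eq_norm] at hx
    rw [mem_ball_zero_iff]
    have h : ‖x‖ ≤ ‖x - y‖ + ‖y‖ := by
      have h := norm_add_le (x - y) y
      rwa [sub_add_cancel] at h
    linarith
  have hsub2 : ball (0 : Ek k) (r / 8) ⊆ ball (0 : Ek k) (r / 4) :=
    ball_subset_ball (by linarith)
  have hmap : MapsTo (fun x => y - (g x - x)) (closedBall y (r / 64)) (closedBall y (r / 64)) := by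
    intro x hx
    rw [mem_closedBall, dist_eq_norm]
    have h : y - (g x - x) - y = -(g x - x) := by abel
    rw [h, norm_neg]
    exact hn x (hsub2 (hsub hx))
  have hcon : ContractingWith (1 / 8 : NNReal)
      (hmap.restrict (fun x => y - (g x - x)) (closedBall y (r / 64)) (closedBall y (r / 64))) := by
    refine ⟨by
      rw [div_lt_one (by norm_num)]
      norm_num, ?_⟩
    refine LipschitzWith.of_dist_le_mul fun x x' => ?_
    have h := (near_lip hr hg hn).1 x' (hsub x'.2) x (hsub x.2)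
    rw [Subtype.dist_eq, Subtype.dist_eq, dist_eq_norm, dist_eq_norm]
    have e : ((hmap.restrict (fun x => y - (g x - x)) (closedBall y (r / 64))
        (closedBall y (r / 64))) x : Ek k) -
        ((hmap.restrict (fun x => y - (g x - x)) (closedBall y (r / 64))
        (closedBall y (r / 64))) x' : Ek k) =
        (g (x' : Ek k) - x') - (g (x : Ek k) - x) := by
      simp only [MapsTo.val_restrict_apply]
      abel
    rw [e, norm_sub_rev (x : Ek k) x']
    refine h.trans (le_of_eq ?_)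
    norm_num
  obtain ⟨x, hx, hfix, -⟩ := hcon.exists_fixedPoint' isClosed_closedBall.isComplete hmap
    (mem_closedBall_self (by positivity) : y ∈ closedBall y (r / 64)) (edist_ne_top _ _)
  refine ⟨x, hsub hx, ?_⟩
  have h : y - (g x - x) = x := hfix
  have h2 : g x = y - (y - (g x - x)) + x := by abel
  rw [h2, h]
  abel

end LmtM

open LmtM

/-- The limit maps of a tower. -/
theorem lmtP : S_Lmt := by
  intro hWei k r C c F N a d hS hT
  obtain ⟨-, A, hq⟩ := hS
  have hr := hq.r_pos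
  have hF : ∀ n, ∀ x ∈ ball (0 : Ek k) r, ‖F n x‖ ≤ ‖x‖ := by
    intro n x hx
    have h := hq.contr n x hx
    linarith [norm_nonneg x]
  have hr4 : r / 4 ≤ r := by linarith
  have hN : ∀ i j, N i ≤ N (i + j) := by
    intro i j
    induction j with
    | zero => exact le_rfl
    | succ j ih =>
      have h := hT.mono (i + j)
      rw [← Nat.add_assoc]
      omega
  -- the sequence
  let G : ℕ → ℕ → Ek k → Ek k := fun i j x => a (i + j) (orb F (N i) (N (i + j) - N i) x)
  have hstep : ∀ i j (x : Ek k), orb F (N i) (N (i + j + 1) - N i) x =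
      orb F (N (i + j)) (N (i + j + 1) - N (i + j)) (orb F (N i) (N (i + j) - N i) x) := by
    intro i j x
    have h1 := hN i j
    have h2 := hT.mono (i + j)
    have e1 : N (i + j + 1) - N i = (N (i + j) - N i) + (N (i + j + 1) - N (i + j)) := by omega
    have e2 : N i + (N (i + j) - N i) = N (i + j) := by omega
    rw [e1, orb_add, e2]
  have hGd : ∀ i j, DifferentiableOn ℂ (G i j) (ball 0 (r / 4)) := by
    intro i j
    exact (hT.isA (i + j)).1.comp_differentiableOn
      ((orb_diff hF hq.diff (N i) (N (i + j) - N i)).mono (ball_subset_ball hr4))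
  have hGs : ∀ i j, ∀ z ∈ ball (0 : Ek k) (r / 4),
      ‖G i (j + 1) z - G i j z‖ ≤ (1 / 2) ^ (i + j + 2) * d i := by
    intro i j z hz
    have h := hT.app (i + j) i (Nat.le_add_right i j) (orb F (N i) (N (i + j) - N i) z)
      (orb_mem hF hr4 _ _ hz)
    rw [← hstep] at h
    exact h
  have hsum : ∀ i, HasSum (fun j => (1 / 2 : ℝ) ^ (i + j + 2) * d i) ((1 / 2) ^ (i + 1) * d i) := by
    intro i
    have h := (hasSum_geometric_two).mul_left ((1 / 2 : ℝ) ^ (i + 2) * d i)
    have e1 : (fun j => (1 / 2 : ℝ) ^ (i + j + 2) * d i) =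
        fun j => (1 / 2 : ℝ) ^ (i + 2) * d i * (1 / 2) ^ j := by
      funext j
      rw [show i + j + 2 = i + 2 + j by ring, pow_add]
      ring
    have e2 : (1 / 2 : ℝ) ^ (i + 2) * d i * 2 = (1 / 2) ^ (i + 1) * d i := by
      rw [pow_succ]
      ring
    rw [e1, ← e2]
    exact h
  have hex := fun i => hWei (Ek k) (Ek k) (ball 0 (r / 4)) (G i)
    (fun j => (1 / 2 : ℝ) ^ (i + j + 2) * d i) isOpen_ball (hGd i) (hsum i).summable (hGs i)
  choose ψ hψd hψt hψb _ using hex
  have hψa : ∀ i, ∀ x ∈ ball (0 : Ek k) (r / 4), ‖ψ i x - a i x‖ ≤ d i := by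
    intro i x hx
    have h := hψb i x hx 0
    have e : G i 0 x = a i x := by
      change a (i + 0) (orb F (N i) (N (i + 0) - N i) x) = a i x
      rw [Nat.add_zero, Nat.sub_self]
      rfl
    rw [e] at h
    have e3 : (∑' j, (1 / 2 : ℝ) ^ (i + (0 + j) + 2) * d i) = (1 / 2) ^ (i + 1) * d i := by
      simp only [Nat.zero_add]
      exact (hsum i).tsum_eq
    rw [e3] at h
    refine h.trans ?_
    have h1 : (1 / 2 : ℝ) ^ (i + 1) ≤ 1 := pow_le_one₀ (by norm_num) (by norm_num)
    have h2 := hT.dpos i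
    nlinarith
  have hnear : ∀ i, ∀ x ∈ ball (0 : Ek k) (r / 4), ‖(a i).symm (ψ i x) - x‖ ≤ r / 64 :=
    fun i x hx => hT.mod i x hx (ψ i x) (hψa i x hx)
  have hgd : ∀ i, DifferentiableOn ℂ (fun x => (a i).symm (ψ i x)) (ball (0 : Ek k) (r / 4)) :=
    fun i => (hT.isA i).2.comp_differentiableOn (hψd i)
  refine ⟨ψ, hψd, fun i x hx => ?_, fun i => ⟨fun x hx x' hx' hxx => ?_, fun x hx w hw => ?_⟩,
    fun i w hw => ?_⟩
  · -- compatibility
    have hx' : orb F (N i) (N (i + 1) - N i) x ∈ ball (0 : Ek k) (r / 4) := orb_mem hF hr4 _ _ hx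
    have h1 := hψt (i + 1) _ hx'
    have h2 := (tendsto_add_atTop_iff_nat 1).2 (hψt i x hx)
    refine tendsto_nhds_unique h1 (h2.congr fun j => ?_)
    change a (i + (j + 1)) (orb F (N i) (N (i + (j + 1)) - N i) x) =
      a (i + 1 + j) (orb F (N (i + 1)) (N (i + 1 + j) - N (i + 1))
        (orb F (N i) (N (i + 1) - N i) x))
    have e0 : i + (j + 1) = i + 1 + j := by ring
    rw [e0]
    have h3 := hN i 1
    have h4 := hN (i + 1) j
    have e1 : N (i + 1 + j) - N i = (N (i + 1) - N i) + (N (i + 1 + j) - N (i + 1)) := by omega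
    have e2 : N i + (N (i + 1) - N i) = N (i + 1) := by omega
    rw [e1, orb_add, e2]
  · -- injectivity
    have h := (near_lip hr (hgd i) (hnear i)).1 x hx x' hx'
    simp only [hxx] at h
    have e : (a i).symm (ψ i x') - x - ((a i).symm (ψ i x') - x') = -(x - x') := by abel
    rw [e, norm_neg] at h
    have h4 : ‖x - x'‖ = 0 := by linarith [norm_nonneg (x - x')]
    exact sub_eq_zero.1 (norm_eq_zero.1 h4)
  · -- injective derivative
    refine (near_lip hr (hgd i) (hnear i)).2 x hx w ?_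
    have hx4 : x ∈ ball (0 : Ek k) (r / 4) := ball_subset_ball (by linarith) hx
    have h1 : DifferentiableAt ℂ (ψ i) x := (hψd i).differentiableAt (isOpen_ball.mem_nhds hx4)
    have h2 : DifferentiableAt ℂ (a i).symm (ψ i x) := (hT.isA i).2 _
    have h3 : HasFDerivAt (fun x => (a i).symm (ψ i x))
        ((fderiv ℂ (a i).symm (ψ i x)).comp (fderiv ℂ (ψ i) x)) x :=
      h2.hasFDerivAt.comp x h1.hasFDerivAt
    rw [h3.fderiv, ContinuousLinearMap.comp_apply, hw, map_zero]
  · -- surjectivity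
    obtain ⟨x, hx, hxy⟩ := near_onto hr (hgd (i + 1)) (hnear (i + 1)) (hT.cov i w hw)
    exact ⟨x, hx, (a (i + 1)).symm.injective hxy⟩

end Pool.Agent.Lib.BedR
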