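import Pool.Agent.Lib.BedR.SpecF

/-!
# Theorem G (MP_6f050a_an): stable dimension at most one
-/

set_option autoImplicit false

open scoped Manifold ContDiff Topology
open Set Filter Metric
open Pool.Agent.Lib Pool.Agent.Lib.Bed

namespace Pool.Agent.Lib.BedR

namespace LowM

/-- Condition (A) in dimension at most one. -/
theorem acond {k : ℕ} (hk : k ≤ 1) {Λ : ℕ → (Fin k → ℂ) →L[ℂ] (Fin k → ℂ)} {C c μ : ℝ}
    (h0 : Λ 0 = ContinuousLinearMap.id ℂ (Fin k → ℂ)) (h : LSeq k Λ C c μ) : ACond k Λ := by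
  refine ⟨C, -Real.log μ, h.C_pos, neg_pos.mpr (Real.log_neg h.lam_pos h.lam_lt), ?_⟩
  intro m v w
  have hexp : Real.exp (-(-Real.log μ * m)) = μ ^ m := by
    rw [neg_mul, neg_neg, mul_comm, Real.exp_nat_mul, Real.exp_log h.lam_pos]
  rw [hexp]
  obtain rfl | rfl : k = 0 ∨ k = 1 := by omega
  · have hv : v = 0 := Subsingleton.elim _ _
    have hw : w = 0 := Subsingleton.elim _ _
    rw [hv, hw, map_zero, norm_zero]
    simp
  · have hv : v = v 0 • (fun _ => (1 : ℂ)) := by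
      funext i
      have hi : i = 0 := Subsingleton.elim _ _
      rw [hi, Pi.smul_apply, smul_eq_mul, mul_one]
    have hw : w = w 0 • (fun _ => (1 : ℂ)) := by
      funext i
      have hi : i = 0 := Subsingleton.elim _ _
      rw [hi, Pi.smul_apply, smul_eq_mul, mul_one]
    have he : ‖(fun _ => (1 : ℂ) : Fin 1 → ℂ)‖ = 1 := by
      rw [pi_norm_const, norm_one]
    have ht : ‖Λ m (fun _ => (1 : ℂ))‖ ≤ C * μ ^ m := by
      have h1 := h.up 0 m (fun _ => (1 : ℂ))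
      rw [zero_add, h0, ContinuousLinearMap.id_apply, he, mul_one] at h1
      exact h1
    rw [hv, hw, map_smul, map_smul, norm_smul, norm_smul, norm_smul, norm_smul, he]
    have h2 : 0 ≤ ‖v 0‖ ^ 2 * ‖w 0‖ * ‖Λ m (fun _ => (1 : ℂ))‖ := by positivity
    have h3 := mul_le_mul_of_nonneg_left ht h2
    calc (‖v 0‖ * ‖Λ m (fun _ => (1 : ℂ))‖) ^ 2 * (‖w 0‖ * 1)
        = ‖v 0‖ ^ 2 * ‖w 0‖ * ‖Λ m (fun _ => (1 : ℂ))‖ * ‖Λ m (fun _ => (1 : ℂ))‖ := by ring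
      _ ≤ ‖v 0‖ ^ 2 * ‖w 0‖ * ‖Λ m (fun _ => (1 : ℂ))‖ * (C * μ ^ m) := h3
      _ = C * μ ^ m * (‖v 0‖ * 1) ^ 2 * (‖w 0‖ * ‖Λ m (fun _ => (1 : ℂ))‖) := by ring

end LowM

theorem lowP : S_Low := by
  intro hSet hK hA E _ _ _ X _ _ _ nrm f K Es Eu C lam hF hH p hp h1
  obtain ⟨N, k, A, F, j, r, C', c, a₁, b₁, C₂, c₂, hk, hseq, hck, hcmp, hls⟩ :=
    hSet E X nrm f K Es Eu C lam p hF hH hp
  have hk1 : k ≤ 1 := hk ▸ h1
  have hKC : KCond k (prodL A (ContinuousLinearMap.id ℂ (Fin k → ℂ))) :=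
    hA k _ C₂ c₂ (lam ^ N) hls (LowM.acond hk1 rfl hls)
  have hb : BasinCk k r F := hK k r (1 / 4) C' c F A hseq hKC
  rw [hk]
  exact hck hb

end Pool.Agent.Lib.BedR
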