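import Pool.Agent.Lib.BedR.SpecC

/-!
# Theorem G (MP_6f050a_an): local stable manifolds with the restricted maps `Fr H τ`
-/

set_option autoImplicit false

open scoped Manifold ContDiff Topology
open Set Filter Metric
open Pool.Agent.Lib Pool.Agent.Lib.Bed

namespace Pool.Agent.Lib.BedR

namespace LsmM

/-- In `IsLSM` the maps `F` can be replaced by maps which agree with them on the ball. -/
theorem congr (k l : ℕ) (r C c : ℝ) (H : ℕ → V k l → V k l)
    (A : ℕ → (Fin k → ℂ) →L[ℂ] (Fin k → ℂ)) (τ : ℕ → (Fin k → ℂ) → (Fin l → ℂ))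
    (F G : ℕ → (Fin k → ℂ) → (Fin k → ℂ)) (hF : IsLSM k l r C c H A τ F)
    (hG : ∀ n, ∀ x ∈ ball (0 : Fin k → ℂ) r, G n x = F n x) : IsLSM k l r C c H A τ G := by
  refine
    { seq :=
        { r_pos := hF.seq.r_pos
          D_pos := hF.seq.D_pos
          D_lt := hF.seq.D_lt
          C_pos := hF.seq.C_pos
          c_pos := hF.seq.c_pos
          diff := ?_
          inj := ?_
          dinj := ?_
          contr := ?_
          quad := ?_
          contrL := hF.seq.contrL
          low := hF.seq.low }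
      diff := hF.diff
      le := hF.le
      inv := ?_
      uniq := hF.uniq }
  · intro n
    exact (hF.seq.diff n).congr (fun x hx => hG n x hx)
  · intro n x hx y hy hxy
    rw [hG n x hx, hG n y hy] at hxy
    exact hF.seq.inj n hx hy hxy
  · intro n x hx w hw
    have he : G n =ᶠ[𝓝 x] F n := by
      filter_upwards [isOpen_ball.mem_nhds hx] with y hy
      exact hG n y hy
    rw [he.fderiv_eq] at hw
    exact hF.seq.dinj n x hx w hw
  · intro n x hx
    rw [hG n x hx]
    exact hF.seq.contr n x hx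
  · intro n x hx y hy
    rw [hG n x hx, hG n y hy]
    exact hF.seq.quad n x hx y hy
  · intro n x hx
    rw [hG n x hx]
    exact hF.inv n x hx

end LsmM

theorem lsmP : S_Lsm := by
  intro hInj hLSM E _ _ X _ _ f p N k l P H A B ρ ρ' C c r τ hf hfs hP hH hr hr' hCr hT
  obtain ⟨h1, h2⟩ := hInj E X f p N k l P H ρ ρ' hf hfs hP
  obtain ⟨F, hF⟩ := hLSM k l H A B ρ' C c hH h1 h2 r τ hr hr' hCr hT.diff hT.le hT.lip hT.con hT.inv
  refine LsmM.congr k l r C c H A τ F (Fr H τ) hF ?_
  intro n x hx
  have h := hF.inv n x hx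
  show (H n (x, τ n x)).1 = F n x
  rw [h]

end Pool.Agent.Lib.BedR
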