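import Pool.Agent.Lib.BedR.SpecB

/-!
# Theorem G (MP_6f050a_an): uniform continuity of the inverse
-/

set_option autoImplicit false

open scoped Manifold ContDiff Topology
open Set Filter Metric
open Pool.Agent.Lib Pool.Agent.Lib.Bed

namespace Pool.Agent.Lib.BedR

/-- **Mod.** -/
theorem modP : S_Mod := by
  intro k a R η ha hη
  have hK : IsCompact (a '' closedBall (0 : Ek k) R) :=
    (isCompact_closedBall (0 : Ek k) R).image ha.1.continuous
  have h1 := hK.uniformContinuousAt_of_continuousAt (a.symm : Ek k → Ek k)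
    (fun x _ => ha.2.continuous.continuousAt) (dist_mem_uniformity hη)
  obtain ⟨d, hd, h2⟩ := mem_uniformity_dist.1 h1
  refine ⟨d / 2, half_pos hd, fun z hz w hw => ?_⟩
  have hz' : a z ∈ a '' closedBall (0 : Ek k) R :=
    mem_image_of_mem _ (by rwa [mem_closedBall, dist_zero_right])
  have h3 : dist (a z) w < d := by
    rw [dist_comm, dist_eq_norm]
    linarith
  have h4 : dist (a.symm (a z)) (a.symm w) < η := h2 h3 hz'
  rw [Equiv.symm_apply_apply, dist_comm, dist_eq_norm] at h4
  exact h4.le

end Pool.Agent.Lib.BedR
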