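import Pool.Agent.Lib.BedR.SpecA

/-!
# Theorem G (MP_6f050a_an): statement Mon, products of linear forms

Proof of `S_Mon` from `S_Vdm` and `S_Pow`, see the docstring of `S_Mon` in `BedR/SpecA.lean`.
-/

set_option autoImplicit false

open scoped Manifold ContDiff Topology
open Set Filter Metric
open Pool.Agent.Lib Pool.Agent.Lib.Bed

namespace Pool.Agent.Lib.BedR

namespace MonM

variable {E : Type} [NormedAddCommGroup E] [NormedSpace ℂ E]

/-- Binomial expansion of the field `((l + s m)^(d+1) * P) • v` in the parameter `s`. -/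
theorem expand (l m : E →L[ℂ] ℂ) (d : ℕ) (v : E) (P : E → ℂ) (s : ℂ) :
    (fun z => ((l + s • m) z ^ (d + 1) * P z) • v) =
      ∑ j ∈ Finset.range (d + 2), s ^ j •
        (fun z : E => (((d + 1).choose j : ℂ) * m z ^ j * l z ^ (d + 1 - j) * P z) • v) := by
  funext z
  rw [Finset.sum_apply]
  have h1 : (l + s • m) z = s * m z + l z := by
    simp [add_comm]
  rw [h1, add_pow, Finset.sum_mul, Finset.sum_smul]
  refine Finset.sum_congr rfl fun j _ => ?_
  simp only [Pi.smul_apply]
  rw [smul_smul, mul_pow]
  ring_nf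

end MonM

theorem monP : S_Vdm → S_Pow → S_Mon := by
  intro hV hP E _ _ _ hE L
  induction L with
  | nil =>
    intro l d v
    have h := hP E hE l d v
    simpa using h
  | cons m L ih =>
    intro l d v
    have key := hV (E → E) (SO E) (d + 2)
      (fun j => fun z : E => (((d + 1).choose j : ℂ) * m z ^ j * l z ^ (d + 1 - j) *
        (L.map fun m => m z).prod) • v)
      (fun s => by
        have h := ih (l + s • m) (d + 1) v
        rw [MonM.expand l m d v (fun z => (L.map fun m => m z).prod) s] at h
        exact h) 1 (by omega)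
    have h2 := (SO E).smul_mem (((d + 1 : ℕ) : ℂ)⁻¹) key
    have h3 : (((d + 1 : ℕ) : ℂ)⁻¹) • (fun z : E => (((d + 1).choose 1 : ℂ) * m z ^ 1 *
        l z ^ (d + 1 - 1) * (L.map fun m => m z).prod) • v) =
        fun z => (l z ^ d * ((m :: L).map fun m => m z).prod) • v := by
      funext z
      simp only [Pi.smul_apply, List.map_cons, List.prod_cons, Nat.choose_one_right, pow_one,
        Nat.add_sub_cancel]
      rw [smul_smul]
      have h0 : ((d + 1 : ℕ) : ℂ) ≠ 0 := Nat.cast_ne_zero.mpr (Nat.succ_ne_zero d)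
      have h4 : (((d + 1 : ℕ) : ℂ)⁻¹) * (((d + 1 : ℕ) : ℂ) * m z * l z ^ d *
          (L.map fun m => m z).prod) = l z ^ d * (m z * (L.map fun m => m z).prod) := by
        field_simp
      rw [h4]
    rw [h3] at h2
    exact h2

end Pool.Agent.Lib.BedR
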