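import Pool.Agent.Lib.BedR.SpecA

set_option autoImplicit false

open scoped Manifold ContDiff Topology
open Set Filter Metric
open Pool.Agent.Lib Pool.Agent.Lib.Bed

namespace Pool.Agent.Lib.BedR

theorem mulP : S_Mon → S_Mul := by
  intro hMon E _ _ _ hE n L
  set b := Module.finBasis ℂ E with hb
  have key : (fun x => L fun _ => x) =
      ∑ g : Fin n → Fin (Module.finrank ℂ E), fun x =>
        ((∏ j, b.coord (g j) x) • L (fun j => b (g j))) := by
    funext x
    rw [Finset.sum_apply]
    have h1 : (fun _ : Fin n => x) = fun _ : Fin n => ∑ i, b.coord i x • b i := by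
      funext j
      exact (b.sum_repr x).symm
    calc L (fun _ => x)
        = L.toMultilinearMap (fun _ : Fin n => ∑ i, b.coord i x • b i) := by
          rw [← h1]
          rfl
      _ = ∑ g : Fin n → Fin (Module.finrank ℂ E),
            L.toMultilinearMap (fun j => b.coord (g j) x • b (g j)) :=
          MultilinearMap.map_sum L.toMultilinearMap (fun (_ : Fin n) i => b.coord i x • b i)
      _ = _ := Finset.sum_congr rfl fun g _ => by
          rw [MultilinearMap.map_smul_univ]
          rfl
  rw [key]
  refine Submodule.sum_mem _ fun g _ => ?_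
  have h := hMon E hE (List.ofFn fun j => LinearMap.toContinuousLinearMap (b.coord (g j))) 0 0
    (L fun j => b (g j))
  have e : (fun x => ((∏ j, b.coord (g j) x) • L (fun j => b (g j)))) =
      (fun z : E => ((0 : E →L[ℂ] ℂ) z ^ 0 *
        ((List.ofFn fun j => LinearMap.toContinuousLinearMap (b.coord (g j))).map
          fun m => m z).prod) • (L fun j => b (g j))) := by
    funext x
    rw [pow_zero, one_mul, List.map_ofFn, List.prod_ofFn]
    rfl
  rw [e]
  exact h

end Pool.Agent.Lib.BedR
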