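import Pool.Agent.Lib.BedR.SpecA

/-!
# Theorem G (MP_6f050a_an), module One: the fields `qt e Q t` and `yt e t` along the isotopy
-/

set_option autoImplicit false

open scoped Manifold ContDiff Topology
open Set Filter Metric
open Pool.Agent.Lib Pool.Agent.Lib.Bed

namespace Pool.Agent.Lib.BedR

theorem oneP : S_One := by
  intro E _ _ r Λ C M τ ε e Q hr hB hC hy hM hτ hQ t hτt ht z hz w hw
  obtain ⟨hΛ, hlow, hsurj⟩ := hB
  have ht0 : 0 < t := lt_of_lt_of_le hτ hτt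
  have htc : (t : ℂ) ≠ 0 := by exact_mod_cast ht0.ne'
  have htn : ‖(t : ℂ)‖ = t := by rw [Complex.norm_real, Real.norm_of_nonneg ht0.le]
  have hz' : ‖z‖ < r / 4 := by simpa using hz
  have hxn : ‖(t : ℂ) • z‖ = t * ‖z‖ := by rw [norm_smul, htn]
  have hx : ‖(t : ℂ) • z‖ < t * (r / 4) := by
    rw [hxn]
    exact mul_lt_mul_of_pos_left hz' ht0
  have htr : t * r ≤ r := by nlinarith
  have hball : ball ((t : ℂ) • z) (t * r / 8) ⊆ ball (0 : E) (3 * r / 8) := by
    intro y hy'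
    rw [mem_ball, dist_eq_norm] at hy'
    rw [mem_ball_zero_iff]
    have h1 : ‖y‖ ≤ ‖y - (t : ℂ) • z‖ + ‖(t : ℂ) • z‖ := by
      have := norm_add_le (y - (t : ℂ) • z) ((t : ℂ) • z)
      rwa [sub_add_cancel] at this
    linarith
  have hex : e ((t : ℂ) • z) - e 0 = (t : ℂ) • (et e t z - e 0) := by
    unfold et
    rw [add_sub_cancel_left, smul_inv_smul₀ htc]
  have hue : e 0 + (t : ℂ) • (w - e 0) - e ((t : ℂ) • z) = (t : ℂ) • (w - et e t z) := by
    have h1 : e ((t : ℂ) • z) = e 0 + (t : ℂ) • (et e t z - e 0) := by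
      rw [← hex]
      abel
    rw [h1, smul_sub, smul_sub, smul_sub]
    abel
  have huen : ‖e 0 + (t : ℂ) • (w - e 0) - e ((t : ℂ) • z)‖ = t * ‖w - et e t z‖ := by
    rw [hue, norm_smul, htn]
  have hlt : Λ * ‖e 0 + (t : ℂ) • (w - e 0) - e ((t : ℂ) • z)‖ < t * r / 8 := by
    rw [huen]
    have h1 := mul_lt_mul_of_pos_left hw ht0
    linarith
  obtain ⟨x', hx's, hx'e⟩ := hsurj ((t : ℂ) • z) (t * r / 8) (by positivity) hball _ hlt
  have hx'38 : x' ∈ ball (0 : E) (3 * r / 8) := hball hx's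
  have hx38 : (t : ℂ) • z ∈ ball (0 : E) (3 * r / 8) := by
    rw [mem_ball_zero_iff]
    linarith
  have hx'2 : x' ∈ ball (0 : E) (r / 2) := by
    rw [mem_ball_zero_iff] at hx'38 ⊢
    linarith
  have hε : 0 ≤ ε := by
    have h1 := (norm_nonneg _).trans (hQ x' hx'2)
    have h2 : 0 < τ ^ 2 := by positivity
    exact nonneg_of_mul_nonneg_left h1 h2
  refine ⟨?_, ?_⟩
  · rw [← hx'e]
    exact hM x' hx'2
  · have hx'n : ‖x'‖ ≤ t * r * (3 / 8) := by
      rw [mem_ball, dist_eq_norm] at hx's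
      have h1 : ‖x'‖ ≤ ‖x' - (t : ℂ) • z‖ + ‖(t : ℂ) • z‖ := by
        have := norm_add_le (x' - (t : ℂ) • z) ((t : ℂ) • z)
        rwa [sub_add_cancel] at this
      linarith
    have hsum : ‖x'‖ + ‖(t : ℂ) • z‖ ≤ t * r := by
      have h0 : 0 < t * r := by positivity
      linarith
    have hdist : ‖x' - (t : ℂ) • z‖ ≤ Λ * (t * ‖w - et e t z‖) := by
      have h1 := hlow x' (ball_subset_closedBall hx'38) _ (ball_subset_closedBall hx38)
      rw [hx'e, huen] at h1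
      exact h1
    have hyy : ‖yv e x' - yv e ((t : ℂ) • z)‖ ≤ C * (t * r) * (Λ * (t * ‖w - et e t z‖)) := by
      refine (hy x' hx'38 _ hx38).trans ?_
      have h1 : C * (‖x'‖ + ‖(t : ℂ) • z‖) ≤ C * (t * r) := mul_le_mul_of_nonneg_left hsum hC.le
      exact mul_le_mul h1 hdist (norm_nonneg _) (by positivity)
    have hQ' : ‖Q (e x') - yv e x'‖ ≤ ε * t ^ 2 := by
      refine (hQ x' hx'2).trans ?_
      exact mul_le_mul_of_nonneg_left (pow_le_pow_left₀ hτ.le hτt 2) hε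
    have heq : qt e Q t w - yt e t z =
        ((t : ℂ) ^ 2)⁻¹ • ((Q (e x') - yv e x') + (yv e x' - yv e ((t : ℂ) • z))) := by
      unfold qt yt
      rw [hx'e, ← smul_sub]
      congr 1
      abel
    have hn2 : ‖((t : ℂ) ^ 2)⁻¹‖ = (t ^ 2)⁻¹ := by
      rw [norm_inv, norm_pow, htn]
    rw [heq, norm_smul, hn2]
    have h3 : ‖(Q (e x') - yv e x') + (yv e x' - yv e ((t : ℂ) • z))‖ ≤
        t ^ 2 * (C * r * Λ * ‖w - et e t z‖ + ε) := by
      refine (norm_add_le _ _).trans ?_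
      refine (add_le_add hQ' hyy).trans (le_of_eq ?_)
      ring
    have ht2 : 0 < t ^ 2 := by positivity
    calc (t ^ 2)⁻¹ * ‖(Q (e x') - yv e x') + (yv e x' - yv e ((t : ℂ) • z))‖
        ≤ (t ^ 2)⁻¹ * (t ^ 2 * (C * r * Λ * ‖w - et e t z‖ + ε)) :=
          mul_le_mul_of_nonneg_left h3 (by positivity)
      _ = C * r * Λ * ‖w - et e t z‖ + ε := by
          rw [← mul_assoc, inv_mul_cancel₀ ht2.ne', one_mul]

end Pool.Agent.Lib.BedR
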