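import Pool.Agent.Lib.BedR.SpecP

/-!
# Theorem G (MP_6f050a_an), statement `Per`: condition (F) at periodic points
-/

set_option autoImplicit false

open scoped Manifold ContDiff Topology
open Set Filter Metric
open Pool.Agent.Lib Pool.Agent.Lib.Bed

namespace Pool.Agent.Lib.BedR

namespace PerM

/-- powers of a linear map at an eigenvector -/
theorem pow_eig {E : Type} [NormedAddCommGroup E] [NormedSpace ℂ E] (T : E →L[ℂ] E) (μ : ℂ) (v : E)
    (h : T v = μ • v) (j : ℕ) : (T ^ j) v = μ ^ j • v := by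
  induction j with
  | zero => simp
  | succ j ih =>
    rw [pow_succ', ContinuousLinearMap.mul_apply, ih, map_smul, h, smul_smul, pow_succ]

/-- a positive number which is bounded by a geometric sequence -/
theorem no_geo (a D q : ℝ) (ha : 0 < a) (hq0 : 0 < q) (hq : q < 1) (h : ∀ j : ℕ, a ≤ D * q ^ j) : False := by
  have hD : 0 < D := by
    have h0 := h 0
    rw [pow_zero, mul_one] at h0
    linarith
  obtain ⟨j, hj⟩ := exists_pow_lt_of_lt_one (div_pos ha hD) hq
  have h1 := h j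
  rw [lt_div_iff₀ hD] at hj
  nlinarith

end PerM

open PerM in
theorem perP : S_Per := by
  intro hDm hCmq hLfc hTra E _ _ _ X _ _ _ nrm f K Es Eu C lam hF hH p hp m hm hper
  obtain ⟨α, β, hα, hβ, hcmp⟩ := hCmq hDm E X nrm f K Es Eu C lam hF hH p hp m hm hper
  obtain ⟨-, hmap, -, -, -, hinj, -⟩ := hDm E X nrm f K Es Eu C lam hH p hp m
  have hmap' : ∀ v ∈ sE Es p, dg (f^[m]) p v ∈ sE Es p := by
    intro v hv
    have h1 := hmap v hv
    rw [hper] at h1
    exact h1
  have heig : ∀ (μ : ℂ) (v : E), v ∈ sE Es p → v ≠ 0 → dg (f^[m]) p v = μ • v → ‖μ‖ < 1 := by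
    intro μ v hv hv0 hT
    by_contra hμ
    rw [not_lt] at hμ
    have hlm : lam ^ m < 1 := pow_lt_one₀ hH.lam_pos.le hH.lam_lt hm.ne'
    refine no_geo (α * ‖v‖) (C * nE nrm p v) (lam ^ m) (mul_pos hα (norm_pos_iff.2 hv0))
      (pow_pos hH.lam_pos m) hlm (fun j => ?_)
    have h1 := (hcmp j 0 hm v).1
    rw [pow_eig _ μ v hT j, norm_smul, norm_pow, Nat.add_zero] at h1
    have h2 : nE nrm (f^[m * j] p) (dg (f^[m * j]) p v) ≤ C * lam ^ (m * j) * nE nrm p v :=
      hH.contr p hp v hv (m * j)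
    have h3 : α * ‖v‖ ≤ α * (‖μ‖ ^ j * ‖v‖) := by
      apply mul_le_mul_of_nonneg_left _ hα.le
      exact le_mul_of_one_le_left (norm_nonneg v) (one_le_pow₀ hμ)
    calc α * ‖v‖ ≤ C * lam ^ (m * j) * nE nrm p v := h3.trans (h1.trans h2)
      _ = C * nE nrm p v * (lam ^ m) ^ j := by rw [pow_mul]; ring
  obtain ⟨r, U, W, hU, hFC⟩ := hLfc E (dg (f^[m]) p) (sE Es p) hmap' (fun v _ h => hinj v h) heig
  have hz : ∀ n : ℕ, nE nrm (f^[n] p) (dg (f^[n]) p (0 : E)) = 0 := by
    intro n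
    rw [map_zero]
    have h1 := hF.smul (f^[n] p) 0 0
    rw [smul_zero, abs_zero, zero_mul] at h1
    exact h1
  have h := hTra E (fun j v => ‖(dg (f^[m]) p ^ j) v‖)
    (fun n v => nE nrm (f^[n] p) (dg (f^[n]) p v)) m α β r U W (sE Es p) hm hα hβ
    (fun j v => norm_nonneg _) hz hcmp hU hFC
  exact ⟨r, U, W, h⟩

end Pool.Agent.Lib.BedR
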