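import Pool.Agent.Lib.BedR.SpecF

/-!
# Theorem G (MP_6f050a_an): the hyperbolic package
-/

set_option autoImplicit false

open scoped Manifold ContDiff Topology
open Set Filter Metric
open Pool.Agent.Lib Pool.Agent.Lib.Bed

namespace Pool.Agent.Lib.BedR

namespace PkgM

theorem dim_add {E : Type} [NormedAddCommGroup E] [NormedSpace ℂ E] [FiniteDimensional ℂ E] (k l : ℕ)
    (e : V k l ≃L[ℂ] E) : k + l = Module.finrank ℂ E := by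
  have h := e.toLinearEquiv.finrank_eq
  rw [← h, Module.finrank_prod, Module.finrank_fin_fun, Module.finrank_fin_fun]

theorem pick {X T : Type} (Q : X → T → Prop) (t₀ : T) : ∃ d : X → T, ∀ a, (∃ t, Q a t) → Q a (d a) := by
  classical
  refine ⟨fun a => if h : ∃ t, Q a t then h.choose else t₀, fun a h => ?_⟩
  simp only [dif_pos h]
  exact h.choose_spec

end PkgM

theorem pkgP : S_Pkg := by
  intro hWei hUCf hNrC hLoc hBnd hAng hFrame hDm hQuad hHInj hLSM hAsA2 hAsB hAsB2 hUAt hFrU hAdU hDtE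
    hDtP hTaU hLsm hUni hUlt hDmk hSta hStb E _ _ _ X _ _ _ nrm f K Es Eu C lam hnrm hhyp
  obtain ⟨ι, ok, ψ, χ, ρ, a, b, hι, hok, hU⟩ := hUAt hNrC hUCf E X nrm hnrm K hhyp.compact
  obtain ⟨N, ρ₀, ρ', C₁, C₂, c, hC, hD⟩ := hDtE hUCf hLoc hBnd hAng hFrame hDm hFrU hQuad hAdU E X nrm f K
    Es Eu C lam ι ok ψ χ ρ a b hnrm hhyp hU
  have hKf : MapsTo f K K := fun x hx => by
    have h1 : f x ∈ f '' K := mem_image_of_mem f hx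
    rwa [hhyp.image] at h1
  have hC₂ := hC.C_pos
  have hc := hC.c_pos
  have hρ' := hC.ρ'_pos
  obtain ⟨r, hr0, hr1, hr2, hr3⟩ : ∃ r : ℝ, 0 < r ∧ r ≤ ρ' / 2 ∧ C₂ * r ≤ 1 / 64 ∧ 32 * C₂ * r ≤ c := by
    refine ⟨min (ρ' / 2) (min (1 / (64 * C₂)) (c / (32 * C₂))), ?_, min_le_left _ _, ?_, ?_⟩
    · refine lt_min (by positivity) (lt_min (by positivity) (by positivity))
    · have h1 : min (ρ' / 2) (min (1 / (64 * C₂)) (c / (32 * C₂))) ≤ 1 / (64 * C₂) :=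
        (min_le_right _ _).trans (min_le_left _ _)
      calc C₂ * _ ≤ C₂ * (1 / (64 * C₂)) := mul_le_mul_of_nonneg_left h1 hC₂.le
        _ = 1 / 64 := by field_simp
    · have h1 : min (ρ' / 2) (min (1 / (64 * C₂)) (c / (32 * C₂))) ≤ c / (32 * C₂) :=
        (min_le_right _ _).trans (min_le_right _ _)
      calc 32 * C₂ * _ ≤ 32 * C₂ * (c / (32 * C₂)) := mul_le_mul_of_nonneg_left h1 (by positivity)
        _ = c := by field_simp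
  have hr4 : r ≤ ρ' := hr1.trans (by linarith)
  refine ⟨r, C₂, c, fun p k F => ∃ (l : ℕ) (i : ℕ → ι) (e : ℕ → V k l ≃L[ℂ] E) (H : ℕ → V k l → V k l)
    (A : ℕ → (Fin k → ℂ) →L[ℂ] (Fin k → ℂ)) (B : ℕ → (Fin l → ℂ) →L[ℂ] (Fin l → ℂ))
    (τ : ℕ → (Fin k → ℂ) → (Fin l → ℂ)), Dat f ok ψ N ρ₀ ρ' C₁ C₂ c p k l i e H A B ∧ TG k l r H τ ∧
    F = Fr H τ, ?_, ?_, ?_⟩
  · intro p hp
    obtain ⟨k, l, i, e, H, A, B, hDat⟩ := hD p hp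
    have hk := hDmk hDm E X nrm f K Es Eu C lam ι ok ψ χ ρ a b N ρ₀ ρ' C₁ C₂ c p k l i e H A B hnrm hhyp
      hU hC hp hDat
    obtain ⟨τ, hτ⟩ := hTaU hWei k l H A B ρ' C₂ c r hDat.adh hr0 hr4 hr2
    subst hk
    exact ⟨Fr H τ, l, i, e, H, A, B, τ, hDat, hτ, rfl⟩
  · rintro p hp k F ⟨l, i, e, H, A, B, τ, hDat, hτ, rfl⟩
    have hk := hDmk hDm E X nrm f K Es Eu C lam ι ok ψ χ ρ a b N ρ₀ ρ' C₁ C₂ c p k l i e H A B hnrm hhyp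
      hU hC hp hDat
    have hP := hDtP E X nrm f K ι ok ψ χ ρ a b N ρ₀ ρ' C₁ C₂ c p k l i e H A B hU hC hDat
    have hL := hLsm hHInj hLSM E X f p N k l (Pn f ψ N p i e) H A B ρ₀ ρ' C₂ c r τ hhyp.hol hhyp.hol_symm
      hP hDat.adh hr0 hr4 hr2 hτ
    refine ⟨hk, ⟨hr3, A, hL.seq⟩, ?_, ?_⟩
    · exact hSta hUCf hAsA2 hAsB hAsB2 E X f K p N k l (Pn f ψ N p i e) H A τ (Fr H τ) ρ₀ ρ' r C₂ c
        hhyp.compact hKf hp hhyp.hol hhyp.hol_symm hP hr4 hL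
    · exact hStb hUCf hAsB E X nrm f K ι ok ψ χ ρ a b N ρ₀ ρ' C₁ C₂ c r p k l i e H A B τ (Fr H τ)
        hhyp.compact hKf hp hhyp.hol hhyp.hol_symm hU hC hDat hP hr4 hL
  · intro U q k G hq hUq hG
    obtain ⟨a₀, ha₀K, l, i₀, e₀, H₀, A₀, B₀, τ₀, hDat₀, hτ₀, hG₀⟩ := hG.exists
    have hl : k + l = Module.finrank ℂ E := PkgM.dim_add k l (e₀ 0)
    obtain ⟨d, hd⟩ := PkgM.pick (X := X) (T := (ℕ → ι) × (ℕ → V k l ≃L[ℂ] E) × (ℕ → V k l → V k l) ×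
      (ℕ → (Fin k → ℂ) →L[ℂ] (Fin k → ℂ)) × (ℕ → (Fin l → ℂ) →L[ℂ] (Fin l → ℂ)) ×
      (ℕ → (Fin k → ℂ) → (Fin l → ℂ)))
      (fun x t => Dat f ok ψ N ρ₀ ρ' C₁ C₂ c x k l t.1 t.2.1 t.2.2.1 t.2.2.2.1 t.2.2.2.2.1 ∧
        TG k l r t.2.2.1 t.2.2.2.2.2 ∧ G x = Fr t.2.2.1 t.2.2.2.2.2) (i₀, e₀, H₀, A₀, B₀, τ₀)
    have hev : ∀ᶠ x in (U : Filter X), Dat f ok ψ N ρ₀ ρ' C₁ C₂ c x k l (d x).1 (d x).2.1 (d x).2.2.1
        (d x).2.2.2.1 (d x).2.2.2.2.1 ∧ TG k l r (d x).2.2.1 (d x).2.2.2.2.2 ∧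
        G x = Fr (d x).2.2.1 (d x).2.2.2.2.2 := by
      filter_upwards [hG] with x hx
      obtain ⟨-, l', i, e, H, A, B, τ, hDat, hτ, hGx⟩ := hx
      have hl' : k + l' = Module.finrank ℂ E := PkgM.dim_add k l' (e 0)
      have hll : l' = l := by omega
      subst hll
      exact hd x ⟨(i, e, H, A, B, τ), hDat, hτ, hGx⟩
    obtain ⟨j, e', H', A', B', hDat', hlim⟩ := hUlt E X nrm f K ι ok ψ χ ρ a b N ρ₀ ρ' C₁ C₂ c k l X U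
      (fun x => x) q (fun x => (d x).1) (fun x => (d x).2.1) (fun x => (d x).2.2.1)
      (fun x => (d x).2.2.2.1) (fun x => (d x).2.2.2.2.1) hι hhyp.hol hU hC (tendsto_id'.2 hUq)
      (hev.mono fun x hx => hx.1)
    obtain ⟨τ', hτ'⟩ := hTaU hWei k l H' A' B' ρ' C₂ c r hDat'.adh hr0 hr4 hr2
    obtain ⟨-, hconv⟩ := hUni X U k l (fun x => (d x).2.2.1) H' A' B' ρ' C₂ c r
      (fun x => (d x).2.2.2.2.2) τ' hDat'.adh hr0 hr4 hr2 hτ' (hev.mono fun x hx => hx.2.1)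
      (fun n => (hlim n).mono (ball_subset_ball hr1))
    refine ⟨Fr H' τ', ⟨l, j, e', H', A', B', τ', hDat', hτ', rfl⟩, fun n => ?_⟩
    refine (hconv n).congr ?_
    filter_upwards [hev] with x hx
    intro z _
    simp only [hx.2.2]

end Pool.Agent.Lib.BedR
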