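import Pool.Agent.Lib.BedR.SpecA

/-!
# Theorem G (MP_6f050a_an): powers of a linear form times a constant vector
-/

set_option autoImplicit false

open scoped Manifold ContDiff Topology
open Set Filter Metric
open Pool.Agent.Lib Pool.Agent.Lib.Bed

namespace Pool.Agent.Lib.BedR

namespace PowM

variable {E : Type} [NormedAddCommGroup E] [NormedSpace ℂ E]

/-- The shears are in the span. -/
lemma shear (l : E →L[ℂ] ℂ) (n : ℕ) (v : E) (h : l v = 0) : (fun z => l z ^ n • v) ∈ SO E :=
  Submodule.subset_span ⟨l, n, v, h, Or.inl rfl⟩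

/-- The overshears are in the span. -/
lemma oshear (l m : E →L[ℂ] ℂ) (n : ℕ) (v : E) (h : l v = 0) : (fun z => (l z ^ n * m z) • v) ∈ SO E :=
  Submodule.subset_span ⟨l, n, v, h, Or.inr ⟨m, rfl⟩⟩

/-- A vector in the kernel and a dual functional. -/
lemma dual [FiniteDimensional ℂ E] (h2 : 2 ≤ Module.finrank ℂ E) (l : E →L[ℂ] ℂ) (v : E) (hv : l v ≠ 0) :
    ∃ (w : E) (g : E →L[ℂ] ℂ), l w = 0 ∧ g v = 0 ∧ g w = 1 := by
  have hker : LinearMap.ker (l : E →ₗ[ℂ] ℂ) ≠ ⊥ := by
    intro hb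
    have hinj : Function.Injective (l : E →ₗ[ℂ] ℂ) := LinearMap.ker_eq_bot.1 hb
    have := LinearMap.finrank_le_finrank_of_injective hinj
    rw [Module.finrank_self] at this
    omega
  obtain ⟨w, hw, hw0⟩ := Submodule.exists_mem_ne_zero_of_ne_bot hker
  have hlw : l w = 0 := hw
  have hns : w ∉ Submodule.span ℂ {v} := by
    intro hmem
    obtain ⟨c, hc⟩ := Submodule.mem_span_singleton.1 hmem
    have h1 : c * l v = 0 := by
      rw [← hlw, ← hc, map_smul, smul_eq_mul]
    rcases mul_eq_zero.1 h1 with h | h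
    · exact hw0 (by rw [← hc, h, zero_smul])
    · exact hv h
  obtain ⟨f, hf, hfk⟩ := Submodule.exists_le_ker_of_notMem hns
  have hfv : f v = 0 := hfk (Submodule.mem_span_singleton_self v)
  refine ⟨w, (f w)⁻¹ • LinearMap.toContinuousLinearMap f, hlw, ?_, ?_⟩
  · simp [hfv]
  · simp [hf]

/-- The coefficients of the overshear fields. -/
noncomputable def co (D : ℕ) (l g : E →L[ℂ] ℂ) (α : ℂ) (v w : E) (j : ℕ) : E → E := fun z =>
  (if j = 0 then 0 else (D.choose (j - 1) : ℂ) * g z ^ (j - 1) * l z ^ (D - (j - 1)) * l z) • v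
    - (α * ((D.choose j : ℂ) * g z ^ j * l z ^ (D - j) * l z)) • w

lemma sum_co (D : ℕ) (l g : E →L[ℂ] ℂ) (α : ℂ) (v w : E) (s : ℂ) :
    ∑ j ∈ Finset.range (D + 2), s ^ j • co D l g α v w j
      = fun z => ((l + s • g) z ^ D * l z) • (s • v - α • w) := by
  funext z
  have hb : (l + s • g) z ^ D = ∑ j ∈ Finset.range (D + 1), (s * g z) ^ j * l z ^ (D - j) * (D.choose j : ℂ) := by
    rw [← add_pow]
    simp [add_comm]
  have h1 : ∑ j ∈ Finset.range (D + 2), s ^ j * (if j = 0 then 0 else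
      (D.choose (j - 1) : ℂ) * g z ^ (j - 1) * l z ^ (D - (j - 1)) * l z) = ((l + s • g) z ^ D * l z) * s := by
    rw [Finset.sum_range_succ', hb, Finset.sum_mul, Finset.sum_mul]
    simp only [if_true, mul_zero, add_zero]
    refine Finset.sum_congr rfl fun j _ => ?_
    rw [if_neg (Nat.succ_ne_zero j), Nat.add_sub_cancel, mul_pow, pow_succ]
    ring
  have h2 : ∑ j ∈ Finset.range (D + 2), s ^ j * (α * ((D.choose j : ℂ) * g z ^ j * l z ^ (D - j) * l z))
      = ((l + s • g) z ^ D * l z) * α := by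
    rw [Finset.sum_range_succ, hb, Finset.sum_mul, Finset.sum_mul, Nat.choose_succ_self]
    simp only [Nat.cast_zero, zero_mul, mul_zero, add_zero]
    refine Finset.sum_congr rfl fun j _ => ?_
    rw [mul_pow]
    ring
  rw [Finset.sum_apply]
  simp only [Pi.smul_apply, co, smul_sub, smul_smul]
  rw [Finset.sum_sub_distrib, ← Finset.sum_smul, ← Finset.sum_smul, h1, h2]

end PowM

open PowM in
theorem powP : S_Vdm → S_Pow := by
  intro hV E _ _ _ h2 l d v
  by_cases hlv : l v = 0
  · exact shear l d v hlv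
  rcases d with _ | D
  · have := shear (0 : E →L[ℂ] ℂ) 0 v (by simp)
    simpa using this
  obtain ⟨w, g, hlw, hgv, hgw⟩ := dual h2 l v hlv
  have hmem : ∀ s : ℂ, ∑ j ∈ Finset.range (D + 2), s ^ j • co D l g (l v) v w j ∈ SO E := by
    intro s
    rw [sum_co]
    apply oshear
    simp [hlw, hgv, hgw]
  have h1 := hV (E → E) (SO E) (D + 2) (co D l g (l v) v w) hmem 1 (by omega)
  have h3 := (SO E).smul_mem (l v * (D : ℂ)) (oshear l g D w hlw)
  have h4 := (SO E).add_mem h1 h3
  have he : (fun z => l z ^ (D + 1) • v)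
      = co D l g (l v) v w 1 + (l v * (D : ℂ)) • (fun z => (l z ^ D * g z) • w) := by
    funext z
    simp only [co, Pi.add_apply, Pi.smul_apply, smul_smul]
    rw [if_neg one_ne_zero, Nat.sub_self, Nat.choose_zero_right, Nat.choose_one_right]
    have h5 : l v * ((D : ℂ) * g z ^ 1 * l z ^ (D - 1) * l z) = l v * (D : ℂ) * (l z ^ D * g z) := by
      rcases D with _ | D
      · simp
      · rw [Nat.add_sub_cancel, pow_succ (l z) D]
        ring
    rw [h5]
    simp only [Nat.cast_one, pow_zero, one_mul, Nat.sub_zero, pow_succ]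
    abel
  rw [he]
  exact h4

end Pool.Agent.Lib.BedR
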