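import Pool.Agent.Lib.BedR.SpecB
import Pool.Agent.Lib.Osgood

/-!
# Theorem G (MP_6f050a_an), module Rg (helper64): the images of the balls are Runge
-/

set_option autoImplicit false

open scoped Manifold ContDiff Topology
open Set Filter Metric
open Pool.Agent.Lib Pool.Agent.Lib.Bed

namespace Pool.Agent.Lib.BedR

namespace RgM

theorem loc_inv {k : ℕ} {r : ℝ} {Ψ : Ek k → Ek k}
    (hd : DifferentiableOn ℂ Ψ (ball 0 r)) {ξ : Ek k} (hξ : ξ ∈ ball (0 : Ek k) r)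
    (hi : ∀ w, fderiv ℂ Ψ ξ w = 0 → w = 0) :
    ∃ θ : Ek k → Ek k, DifferentiableAt ℂ θ (Ψ ξ) ∧ θ (Ψ ξ) = ξ ∧
      ∀ᶠ u in 𝓝 (Ψ ξ), θ u ∈ ball (0 : Ek k) r ∧ Ψ (θ u) = u := by
  have han : AnalyticAt ℂ Ψ ξ := Osgood.analyticOnNhd isOpen_ball hd ξ hξ
  have hs := han.hasStrictFDerivAt
  have hinj : Function.Injective (fderiv ℂ Ψ ξ).toLinearMap := by
    rw [← LinearMap.ker_eq_bot, LinearMap.ker_eq_bot']
    exact hi
  let e : Ek k ≃L[ℂ] Ek k :=
    (LinearEquiv.ofInjectiveEndo (fderiv ℂ Ψ ξ).toLinearMap hinj).toContinuousLinearEquiv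
  have he : (e : Ek k →L[ℂ] Ek k) = fderiv ℂ Ψ ξ := by
    ext1 w
    rfl
  rw [← he] at hs
  refine ⟨hs.localInverse Ψ e ξ, hs.to_localInverse.hasFDerivAt.differentiableAt,
    hs.localInverse_apply_image, ?_⟩
  have h1 : ∀ᶠ u in 𝓝 (Ψ ξ), hs.localInverse Ψ e ξ u ∈ ball (0 : Ek k) r := by
    refine hs.localInverse_continuousAt.eventually (isOpen_ball.mem_nhds ?_)
    rw [hs.localInverse_apply_image]
    exact hξ
  filter_upwards [h1, hs.eventually_right_inverse] with u hu1 hu2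
  exact ⟨hu1, hu2⟩

end RgM

theorem rgP : S_Rg := by
  intro hF k r C c F Ψ hS hT m p hp ε hε
  obtain ⟨hsm, A, hA⟩ := hS
  obtain ⟨hΨd, hΨc, hΨi, hΨdi, hΨs⟩ := hT
  have hr := hA.r_pos
  have hsub : ball (0 : Ek k) (r / 2) ⊆ ball 0 r := ball_subset_ball (by linarith)
  have hSlw : BedF.Slw r C c F A := by
    refine ⟨hA.r_pos, hA.C_pos, hA.c_pos, ?_, hA.diff, ?_, hA.contr, hA.quad, hA.low⟩
    · linarith
    · intro n
      have h := hA.contr n 0 (mem_ball_self hr)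
      rw [norm_zero, mul_zero] at h
      exact norm_le_zero_iff.1 h
  obtain ⟨P, hP, hPm⟩ := hF (Ek k) (Ek k) r C c F A hSlw m ε p hε hp
  -- the orbits
  have hstep : ∀ n, ∀ x ∈ ball (0 : Ek k) (r / 2), F n x ∈ ball (0 : Ek k) (r / 2) := by
    intro n x hx
    have h1 := hA.contr n x (hsub hx)
    rw [mem_ball_zero_iff] at hx ⊢
    have h2 := norm_nonneg x
    linarith
  have horb : ∀ i n, ∀ x ∈ ball (0 : Ek k) (r / 2), orb F n i x ∈ ball (0 : Ek k) (r / 2) ∧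
      Ψ (n + i) (orb F n i x) = Ψ n x ∧ P (n + i) (orb F n i x) = P n x := by
    intro i
    induction i with
    | zero => exact fun n x hx => ⟨hx, rfl, rfl⟩
    | succ i ih =>
      intro n x hx
      obtain ⟨h1, h2, h3⟩ := ih n x hx
      refine ⟨hstep (n + i) _ h1, ?_, ?_⟩
      · show Ψ (n + i + 1) (F (n + i) (orb F n i x)) = Ψ n x
        rw [hΨc (n + i) _ (hsub h1), h2]
      · show P (n + i + 1) (F (n + i) (orb F n i x)) = P n x
        rw [hP.comp (n + i) _ h1, h3]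
  have huniq' : ∀ n i, ∀ x ∈ ball (0 : Ek k) (r / 2), ∀ x' ∈ ball (0 : Ek k) (r / 2),
      Ψ n x = Ψ (n + i) x' → P n x = P (n + i) x' := by
    intro n i x hx x' hx' h
    obtain ⟨h1, h2, h3⟩ := horb i n x hx
    have h4 : orb F n i x = x' := hΨi (n + i) (hsub h1) (hsub hx') (by rw [h2, h])
    rw [← h3, h4]
  have huniq : ∀ n n', ∀ x ∈ ball (0 : Ek k) (r / 2), ∀ x' ∈ ball (0 : Ek k) (r / 2),
      Ψ n x = Ψ n' x' → P n x = P n' x' := by
    intro n n' x hx x' hx' h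
    rcases le_total n n' with hn | hn
    · obtain ⟨i, rfl⟩ := Nat.exists_eq_add_of_le hn
      exact huniq' n i x hx x' hx' h
    · obtain ⟨i, rfl⟩ := Nat.exists_eq_add_of_le hn
      exact (huniq' n' i x' hx' x hx h.symm).symm
  have hex : ∀ u, ∃ n, ∃ x ∈ ball (0 : Ek k) (r / 2), Ψ n x = u := by
    intro u
    obtain ⟨n, x, hx, hu⟩ := hΨs u
    refine ⟨n + 1, F n x, ?_, ?_⟩
    · have h1 := hA.contr n x hx
      rw [mem_ball_zero_iff] at hx ⊢
      have h2 := norm_nonneg x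
      linarith
    · rw [hΨc n x hx, hu]
  choose nn xx hxx hux using hex
  have hQ : ∀ n, ∀ x ∈ ball (0 : Ek k) (r / 2), P (nn (Ψ n x)) (xx (Ψ n x)) = P n x :=
    fun n x hx => huniq _ _ _ (hxx _) _ hx (hux _)
  refine ⟨fun u => P (nn u) (xx u), ?_, ?_⟩
  · intro u
    have hx := hxx u
    have hd : DifferentiableOn ℂ (Ψ (nn u)) (ball 0 (r / 2)) := (hΨd (nn u)).mono hsub
    obtain ⟨θ, hθd, hθ, hev⟩ := RgM.loc_inv hd hx (hΨdi (nn u) (xx u) (hsub hx))
    rw [hux u] at hθd hθ hev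
    have h1 : DifferentiableAt ℂ (P (nn u)) (θ u) := by
      rw [hθ]
      exact (hP.diff (nn u)).differentiableAt (isOpen_ball.mem_nhds hx)
    have h2 : DifferentiableAt ℂ (P (nn u) ∘ θ) u := h1.comp u hθd
    refine h2.congr_of_eventuallyEq ?_
    filter_upwards [hev] with u' hu'
    have h3 := hQ (nn u) (θ u') hu'.1
    rw [hu'.2] at h3
    exact h3
  · intro x hx
    show ‖P (nn (Ψ m x)) (xx (Ψ m x)) - p x‖ ≤ ε
    rw [hQ m x hx]
    exact hPm x hx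

end Pool.Agent.Lib.BedR
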