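import Pool.Agent.Lib.BedR.SpecA

/-!
# Theorem G (MP_6f050a_an): shears and overshears have flows (module Shr)
-/

set_option autoImplicit false

open scoped Manifold ContDiff Topology
open Set Filter Metric
open Pool.Agent.Lib Pool.Agent.Lib.Bed

namespace Pool.Agent.Lib.BedR

namespace ShrM

/-- A family of maps `z + a s z v` with inverses `z + a (-s) z v`. -/
theorem cfOf {E : Type} [NormedAddCommGroup E] [NormedSpace ℂ E] (v : E) (a : ℝ → E → ℂ) (q : E → ℂ)
    (hq : Differentiable ℂ q) (ha : ∀ s, Differentiable ℂ (a s))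
    (hinv : ∀ s z, a (-s) (z + a s z • v) = -a s z)
    (hest : ∀ M : ℝ, ∃ C : ℝ, 0 ≤ C ∧ ∀ s : ℝ, 0 ≤ s → s ≤ 1 → ∀ z : E, ‖z‖ ≤ M →
      ‖a s z - (s : ℂ) * q z‖ ≤ C * s ^ 2) : CF (fun z => q z • v) := by
  have h1 : ∀ s z, (z + a s z • v) + a (-s) (z + a s z • v) • v = z := by
    intro s z
    rw [hinv, neg_smul, add_neg_cancel_right]
  refine ⟨hq.smul_const v, fun s => ⟨fun z => z + a s z • v, fun z => z + a (-s) z • v,
    fun z => h1 s z, fun z => ?_⟩, ?_, ?_⟩
  · have := h1 (-s) z
    rw [neg_neg] at this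
    exact this
  · intro s
    exact ⟨differentiable_id.add ((ha s).smul_const v),
      differentiable_id.add ((ha (-s)).smul_const v)⟩
  · intro M
    obtain ⟨C, hC, h⟩ := hest M
    refine ⟨C * ‖v‖, by positivity, fun s hs hs1 z hz => ?_⟩
    have e1 : (z + a s z • v) - z - (s : ℂ) • (q z • v) = (a s z - (s : ℂ) * q z) • v := by
      rw [sub_smul, mul_smul]; abel
    change ‖(z + a s z • v) - z - (s : ℂ) • (q z • v)‖ ≤ _
    rw [e1, norm_smul]
    calc ‖a s z - (s : ℂ) * q z‖ * ‖v‖ ≤ (C * s ^ 2) * ‖v‖ :=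
          mul_le_mul_of_nonneg_right (h s hs hs1 z hz) (norm_nonneg v)
      _ = C * ‖v‖ * s ^ 2 := by ring

theorem expb (x : ℂ) (B s : ℝ) (hs : 0 ≤ s) (hs1 : s ≤ 1) (hx : ‖x‖ ≤ B * s) :
    ‖Complex.exp x - 1 - x‖ ≤ (B ^ 2 * Real.exp B) * s ^ 2 := by
  have h := Complex.norm_exp_sub_sum_le_norm_mul_exp x 2
  have e1 : ∑ m ∈ Finset.range 2, x ^ m / (m.factorial : ℂ) = 1 + x := by
    simp [Finset.sum_range_succ]
  rw [e1] at h
  have e2 : Complex.exp x - 1 - x = Complex.exp x - (1 + x) := by ring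
  rw [e2]
  refine h.trans ?_
  have hB : 0 ≤ B * s := (norm_nonneg x).trans hx
  have h3 : Real.exp ‖x‖ ≤ Real.exp B ∨ s = 0 := by
    rcases eq_or_lt_of_le hs with h0 | h0
    · exact Or.inr h0.symm
    · left
      have hB0 : 0 ≤ B := nonneg_of_mul_nonneg_left hB h0
      exact Real.exp_le_exp.mpr (hx.trans (mul_le_of_le_one_right hB0 hs1))
  rcases h3 with h3 | h3
  · calc ‖x‖ ^ 2 * Real.exp ‖x‖ ≤ (B * s) ^ 2 * Real.exp B :=
          mul_le_mul (pow_le_pow_left₀ (norm_nonneg x) hx 2) h3 (Real.exp_pos _).le (by positivity)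
      _ = _ := by ring
  · rw [h3, mul_zero] at hx
    have : ‖x‖ = 0 := le_antisymm hx (norm_nonneg x)
    rw [this, h3]; simp

end ShrM

open ShrM in
theorem shrP : S_Shr := by
  intro E _ _ l n v hv
  have hl : Differentiable ℂ (fun z => l z) := l.differentiable
  have hg : Differentiable ℂ (fun z => l z ^ n) := hl.pow n
  have hlv : ∀ (z : E) (c : ℂ), l (z + c • v) = l z := by
    intro z c
    rw [map_add, map_smul, hv, smul_zero, add_zero]
  refine ⟨?_, fun m => ?_⟩
  · refine cfOf v (fun s z => (s : ℂ) * l z ^ n) (fun z => l z ^ n) hg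
      (fun s => hg.const_mul _) ?_ ?_
    · intro s z
      simp only [hlv]
      push_cast; ring
    · intro M
      refine ⟨0, le_rfl, fun s _ _ z _ => ?_⟩
      simp
  · have hm : Differentiable ℂ (fun z => m z) := m.differentiable
    by_cases hk : m v = 0
    · have hmv : ∀ (z : E) (c : ℂ), m (z + c • v) = m z := by
        intro z c
        rw [map_add, map_smul, hk, smul_zero, add_zero]
      refine cfOf v (fun s z => (s : ℂ) * (l z ^ n * m z)) (fun z => l z ^ n * m z) (hg.mul hm)
        (fun s => (hg.mul hm).const_mul _) ?_ ?_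
      · intro s z
        simp only [hlv, hmv]
        push_cast; ring
      · intro M
        refine ⟨0, le_rfl, fun s _ _ z _ => ?_⟩
        simp
    · refine cfOf v (fun s z => (Complex.exp ((s : ℂ) * (m v * l z ^ n)) - 1) / m v * m z)
        (fun z => l z ^ n * m z) (hg.mul hm) (fun s => ?_) ?_ ?_
      · have hd : Differentiable ℂ (fun z => Complex.exp ((s : ℂ) * (m v * l z ^ n)) - 1) :=
          ((hg.const_mul (m v)).const_mul (s : ℂ)).cexp.sub_const 1
        have hd2 := (hd.mul_const (m v)⁻¹).mul hm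
        have e0 : (fun z => (Complex.exp ((s : ℂ) * (m v * l z ^ n)) - 1) / m v * m z) =
            fun z => (Complex.exp ((s : ℂ) * (m v * l z ^ n)) - 1) * (m v)⁻¹ * m z := by
          funext z; rw [div_eq_mul_inv]
        rw [e0]
        exact hd2
      · intro s z
        simp only [hlv]
        rw [map_add, map_smul, smul_eq_mul]
        have e1 : ((-s : ℝ) : ℂ) * (m v * l z ^ n) = -((s : ℂ) * (m v * l z ^ n)) := by
          push_cast; ring
        rw [e1, Complex.exp_neg]
        have h0 := Complex.exp_ne_zero ((s : ℂ) * (m v * l z ^ n))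
        generalize Complex.exp ((s : ℂ) * (m v * l z ^ n)) = e at h0 ⊢
        field_simp
        ring
      · intro M
        set B : ℝ := ‖m v‖ * (‖l‖ * |M|) ^ n with hB
        refine ⟨(B ^ 2 * Real.exp B) / ‖m v‖ * (‖m‖ * |M|), by positivity,
          fun s hs hs1 z hz => ?_⟩
        have hz' : ‖z‖ ≤ |M| := hz.trans (le_abs_self M)
        have h1 : ‖l z‖ ≤ ‖l‖ * |M| :=
          (l.le_opNorm z).trans (mul_le_mul_of_nonneg_left hz' (norm_nonneg l))
        have h2 : ‖m z‖ ≤ ‖m‖ * |M| :=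
          (m.le_opNorm z).trans (mul_le_mul_of_nonneg_left hz' (norm_nonneg m))
        have hx : ‖(s : ℂ) * (m v * l z ^ n)‖ ≤ B * s := by
          rw [norm_mul, norm_mul, norm_pow, Complex.norm_real, Real.norm_of_nonneg hs, mul_comm]
          refine mul_le_mul_of_nonneg_right ?_ hs
          exact mul_le_mul_of_nonneg_left (pow_le_pow_left₀ (norm_nonneg _) h1 n) (norm_nonneg _)
        have e1 : (Complex.exp ((s : ℂ) * (m v * l z ^ n)) - 1) / m v * m z -
            (s : ℂ) * (l z ^ n * m z) =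
            (Complex.exp ((s : ℂ) * (m v * l z ^ n)) - 1 - (s : ℂ) * (m v * l z ^ n)) / m v *
              m z := by
          field_simp
        rw [e1, norm_mul, norm_div]
        have h3 := expb _ B s hs hs1 hx
        calc _ ≤ (B ^ 2 * Real.exp B) * s ^ 2 / ‖m v‖ * (‖m‖ * |M|) :=
              mul_le_mul (div_le_div_of_nonneg_right h3 (norm_nonneg _)) h2 (norm_nonneg _)
                (by positivity)
          _ = _ := by ring

end Pool.Agent.Lib.BedR
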