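import Pool.Agent.Lib.BedR.SpecP

/-!
# Theorem G (MP_6f050a_an), statement SpL: lower growth bound
-/

set_option autoImplicit false

open scoped Manifold ContDiff Topology
open Set Filter Metric
open Pool.Agent.Lib Pool.Agent.Lib.Bed

namespace Pool.Agent.Lib.BedR

theorem spLP : S_SpU → S_SpL := by
  intro hU V _ _ _ T G b hb hG hinj heig
  have hinj' : Function.Injective ((T : V →ₗ[ℂ] V).restrict hG) := by
    rw [injective_iff_map_eq_zero]
    intro v hv
    have h1 : T (v : V) = 0 := congrArg Subtype.val hv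
    exact Subtype.ext (hinj v v.2 h1)
  let L : G ≃ₗ[ℂ] G := LinearEquiv.ofInjectiveEndo ((T : V →ₗ[ℂ] V).restrict hG) hinj'
  have hL : ∀ v : G, ((L v : G) : V) = T (v : V) := fun v => rfl
  let R : G →L[ℂ] G := (L.symm.toContinuousLinearEquiv : G →L[ℂ] G)
  have hR : ∀ v : G, R (L v) = v := fun v => L.symm_apply_apply v
  have hR' : ∀ v : G, L (R v) = v := fun v => L.apply_symm_apply v
  obtain ⟨C, hC, hCb⟩ := hU G R ⊤ b⁻¹ (inv_pos.2 hb) (fun v _ => Submodule.mem_top) (by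
    intro μ v _ hv hμ
    have h1 : v = μ • L v := by
      conv_lhs => rw [← hR' v, hμ, map_smul]
    have hμ0 : μ ≠ 0 := by
      rintro rfl
      rw [zero_smul] at h1
      exact hv h1
    have h2 : T (v : V) = μ⁻¹ • (v : V) := by
      have h3 : (v : V) = μ • T (v : V) := by
        have := congrArg Subtype.val h1
        exact this
      conv_rhs => rw [h3, smul_smul, inv_mul_cancel₀ hμ0, one_smul]
    have h4 := heig μ⁻¹ v v.2 (fun h0 => hv (Subtype.ext h0)) h2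
    rw [norm_inv] at h4
    exact (lt_inv_comm₀ hb (norm_pos_iff.2 hμ0)).1 h4)
  have hpow : ∀ j : ℕ, ∀ v : G, ∃ w : G, (w : V) = (T ^ j) (v : V) ∧ (R ^ j) w = v := by
    intro j
    induction j with
    | zero => exact fun v => ⟨v, rfl, rfl⟩
    | succ j ih =>
      intro v
      obtain ⟨w, h1, h2⟩ := ih (L v)
      refine ⟨w, ?_, ?_⟩
      · rw [h1, pow_succ, ContinuousLinearMap.mul_apply, hL]
      · rw [pow_succ', ContinuousLinearMap.mul_apply, h2, hR]
  refine ⟨C⁻¹, inv_pos.2 hC, fun j v hv => ?_⟩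
  obtain ⟨w, h1, h2⟩ := hpow j ⟨v, hv⟩
  have h3 := hCb j w Submodule.mem_top
  rw [h2] at h3
  have h4 : ‖v‖ ≤ C * b⁻¹ ^ j * ‖(T ^ j) v‖ := by
    have e1 : ‖(⟨v, hv⟩ : G)‖ = ‖v‖ := rfl
    have e2 : ‖w‖ = ‖(T ^ j) v‖ := by
      rw [← show (w : V) = (T ^ j) v from h1]
      rfl
    rw [← e1, ← e2]
    exact h3
  have hbj : 0 < b ^ j := pow_pos hb j
  calc C⁻¹ * b ^ j * ‖v‖ ≤ C⁻¹ * b ^ j * (C * b⁻¹ ^ j * ‖(T ^ j) v‖) :=
        mul_le_mul_of_nonneg_left h4 (by positivity)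
    _ = ‖(T ^ j) v‖ := by
        rw [inv_pow]
        field_simp

end Pool.Agent.Lib.BedR
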