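import Pool.Agent.Lib.BedR.SpecP
import Mathlib.Analysis.Normed.Algebra.GelfandFormula
import Mathlib.Analysis.Normed.Operator.Compact.FredholmAlternative

/-!
# Theorem G (MP_6f050a_an), statement SpU: upper growth bound
-/

set_option autoImplicit false

open scoped Manifold ContDiff Topology NNReal ENNReal
open Set Filter Metric
open Pool.Agent.Lib Pool.Agent.Lib.Bed

namespace Pool.Agent.Lib.BedR

namespace SpUM

/-- growth of the powers of an element of a complex Banach algebra -/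
theorem pow_bound {A : Type} [NormedRing A] [NormedAlgebra ℂ A] [CompleteSpace A] (x : A) (a : ℝ) (ha : 0 < a)
    (h : ∀ μ ∈ spectrum ℂ x, ‖μ‖ < a) : ∃ C : ℝ, 0 < C ∧ ∀ j : ℕ, ‖x ^ j‖ ≤ C * a ^ j := by
  lift a to ℝ≥0 using ha.le
  have ha' : (0 : ℝ≥0) < a := by exact_mod_cast ha
  have hr : spectralRadius ℂ x < (a : ℝ≥0∞) := by
    by_cases hs : (spectrum ℂ x).Nonempty
    · refine spectrum.spectralRadius_lt_of_forall_lt_of_nonempty hs (fun μ hμ => ?_)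
      exact_mod_cast h μ hμ
    · rw [Set.not_nonempty_iff_eq_empty] at hs
      have : spectralRadius ℂ x = 0 := by
        simp [spectralRadius, hs]
      rw [this]
      exact_mod_cast ha'
  have hev : ∀ᶠ n : ℕ in atTop, ‖x ^ n‖ ≤ (a : ℝ) ^ n := by
    have h1 := (spectrum.pow_nnnorm_pow_one_div_tendsto_nhds_spectralRadius x).eventually_lt_const hr
    filter_upwards [h1, eventually_ge_atTop 1] with n hn hn1
    have hn0 : (n : ℝ) ≠ 0 := by
      have : (1 : ℝ) ≤ n := by exact_mod_cast hn1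
      positivity
    have h2 : ((‖x ^ n‖₊ : ℝ≥0∞) ^ (1 / n : ℝ)) ^ (n : ℝ) ≤ (a : ℝ≥0∞) ^ (n : ℝ) :=
      ENNReal.rpow_le_rpow hn.le (by positivity)
    rw [← ENNReal.rpow_mul, one_div_mul_cancel hn0, ENNReal.rpow_one, ENNReal.rpow_natCast] at h2
    have h3 : ‖x ^ n‖₊ ≤ a ^ n := by exact_mod_cast h2
    exact_mod_cast h3
  obtain ⟨J, hJ⟩ := eventually_atTop.1 hev
  refine ⟨1 + ∑ j ∈ Finset.range J, ‖x ^ j‖ / (a : ℝ) ^ j, by positivity, fun j => ?_⟩
  by_cases hj : J ≤ j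
  · have h1 := hJ j hj
    have h2 : (0 : ℝ) ≤ ∑ j ∈ Finset.range J, ‖x ^ j‖ / (a : ℝ) ^ j := by positivity
    nlinarith [pow_pos ha j]
  · have h1 : ‖x ^ j‖ / (a : ℝ) ^ j ≤ ∑ j ∈ Finset.range J, ‖x ^ j‖ / (a : ℝ) ^ j :=
      Finset.single_le_sum (f := fun j => ‖x ^ j‖ / (a : ℝ) ^ j) (fun i _ => by positivity)
        (Finset.mem_range.2 (not_le.1 hj))
    have h2 : ‖x ^ j‖ = ‖x ^ j‖ / (a : ℝ) ^ j * (a : ℝ) ^ j := by
      field_simp
    rw [h2]
    refine mul_le_mul_of_nonneg_right (by linarith) (by positivity)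

end SpUM

theorem spUP : S_SpU := by
  intro V _ _ _ T G a ha hG heig
  let T0 : G →ₗ[ℂ] G := (T : V →ₗ[ℂ] V).restrict hG
  let T' : G →L[ℂ] G := LinearMap.toContinuousLinearMap T0
  have hT' : ∀ v : G, ((T' v : G) : V) = T (v : V) := fun v => rfl
  have hpow : ∀ (j : ℕ) (v : G), (((T' ^ j) v : G) : V) = (T ^ j) (v : V) := by
    intro j
    induction j with
    | zero => exact fun v => rfl
    | succ j ih =>
      intro v
      rw [pow_succ, pow_succ, ContinuousLinearMap.mul_apply, ContinuousLinearMap.mul_apply, ih, hT']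
  have hspec : ∀ μ ∈ spectrum ℂ T', ‖μ‖ < a := by
    intro μ hμ
    have h1 : μ ∈ spectrum ℂ (T' : G →ₗ[ℂ] G) := by
      rw [← ContinuousLinearMap.spectrum_eq]
      exact hμ
    have h2 : Module.End.HasEigenvalue (T' : G →ₗ[ℂ] G) μ := Module.End.hasEigenvalue_iff_mem_spectrum.2 h1
    obtain ⟨v, hv⟩ := h2.exists_hasEigenvector
    have h3 : T' v = μ • v := hv.apply_eq_smul
    refine heig μ v v.2 (fun h0 => hv.2 (Subtype.ext h0)) ?_
    rw [← hT', h3]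
    rfl
  obtain ⟨C, hC, hb⟩ := SpUM.pow_bound T' a ha hspec
  refine ⟨C, hC, fun j v hv => ?_⟩
  have h1 : ‖(T ^ j) v‖ = ‖(T' ^ j) ⟨v, hv⟩‖ := by
    rw [← hpow j ⟨v, hv⟩]
    rfl
  rw [h1]
  calc ‖(T' ^ j) ⟨v, hv⟩‖ ≤ ‖T' ^ j‖ * ‖(⟨v, hv⟩ : G)‖ := (T' ^ j).le_opNorm _
    _ ≤ C * a ^ j * ‖v‖ := mul_le_mul_of_nonneg_right (hb j) (norm_nonneg _)

end Pool.Agent.Lib.BedR
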