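import Pool.Agent.Lib.BedR.SpecC
import Pool.Agent.Lib.BedF.SpecF

/-!
# Theorem G (MP_6f050a_an), part F: the final assembly

Conventions as in `SpecA.lean`.
-/

set_option autoImplicit false

open scoped Manifold ContDiff Topology
open Set Filter Metric
open Pool.Agent.Lib Pool.Agent.Lib.Bed

namespace Pool.Agent.Lib.BedR

/-- The hyperbolic package: for all points of `K` the stable manifold is the basin of sequences `F` (`D p k F`), with uniform constants; limits of such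
sequences along ultrafilters converging to `q` are such sequences for `q`. -/
def PkgC : Prop := ∀ (E : Type) [NormedAddCommGroup E] [NormedSpace ℂ E] [FiniteDimensional ℂ E] (X : Type)
  [MetricSpace X] [ChartedSpace E X] [IsManifold 𝓘(ℂ, E) 1 X] (nrm : (x : X) → TangentSpace 𝓘(ℂ, E) x → ℝ) (f : X ≃ X)
  (K : Set X) (Es Eu : (x : X) → Submodule ℂ (TangentSpace 𝓘(ℂ, E) x)) (C lam : ℝ), IsFinsler nrm → IsHyp nrm f K Es Eu C lam →
  ∃ (r C' c : ℝ) (D : X → (k : ℕ) → (ℕ → Ek k → Ek k) → Prop),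
    (∀ p ∈ K, ∃ F, D p (Module.finrank ℂ (Es p)) F) ∧
    (∀ p ∈ K, ∀ (k : ℕ) (F : ℕ → Ek k → Ek k), D p k F →
      Module.finrank ℂ (Es p) = k ∧ Sml k r C' c F ∧ (BasinCk k r F ↔ StabCk E k f p)) ∧
    ∀ (U : Ultrafilter X) (q : X) (k : ℕ) (G : X → ℕ → Ek k → Ek k), q ∈ K → (U : Filter X) ≤ 𝓝 q →
      (∀ᶠ a in (U : Filter X), a ∈ K ∧ D a k (G a)) →
      ∃ F : ℕ → Ek k → Ek k, D q k F ∧ ∀ n, TendstoUniformlyOn (fun a => G a n) (F n) U (ball 0 r)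

/-- **Pkg.** USES all statements listed, in this order.  PROOF.  `S_UAt`, `S_DtE`: `ι` finite, `UAt`, constants `N, ρ₀, ρ', C₁, C₂, c` with `Cst`, data at every `p ∈ K`.
`r = min (ρ'/2) (min (1/(64 C₂)) (c/(32 C₂)))`: `0 < r ≤ ρ'/2`, `C₂ r ≤ 1/64`, `32 C₂ r ≤ c`.  `f`, `f.symm` map `K` into `K` (`image`).
`D p k F := ∃ l i e H A B τ, Dat f ok ψ N ρ₀ ρ' C₁ C₂ c p k l i e H A B ∧ TG k l r H τ ∧ F = Fr H τ`.
(1) `S_DtE`, `S_TaU`; `k = finrank (Es p)` by `S_Dmk`.  (2) `S_Dmk`; `S_DtP`, `S_Lsm`: `IsLSM k l r C₂ c H A τ (Fr H τ)`, whose `seq` gives `Sml`; `S_Sta` and `S_Stb` (with `S_Eta`).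
(3) For almost all `a`: data with some `l`; `e 0 : V k l ≃L[ℂ] E` gives `k + l = finrank E` (`Module.finrank_prod`, `Module.finrank_fin_fun`), so `l = finrank E - k =: l₀` does not depend on `a`.  Choose
`i a`, `e a`, `H a`, `A a`, `B a`, `T a` (for the other `a` take the data of one good `a₀`, good `a` exist since `U` is not trivial).  `S_Ult` (`I = X`, `p = id`): data at `q`, `H a n → H' n` uniformly on
`ball 0 (ρ'/2) ⊇ ball 0 r`.  `S_TaU` for `H'`: `τ'`.  `S_Uni` (with `AdH` of `H'`): `Fr (H a) (T a) n → Fr H' τ' n` uniformly on `ball 0 r`; `F = Fr H' τ'`, and `G a = Fr (H a) (T a)` for almost all `a`. -/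
def S_Pkg : Prop := Bed.S_Wei → Bed.S_UCf → Bed.S_NrC → Bed.S_Loc → Bed.S_Bnd → Bed.S_Ang → Bed.S_Frame → Bed.S_Dm → Bed.S_Quad →
  Bed.S_HInj → Bed.S_LSM → Bed.S_AsA2 → Bed.S_AsB → Bed.S_AsB2 → S_UAt → S_FrU → S_AdU → S_DtE → S_DtP → S_TaU → S_Lsm → S_Uni →
  S_Ult → S_Dmk → S_Sta → S_Stb → PkgC

/-- Stable dimension at most one. -/
def LowC : Prop := ∀ (E : Type) [NormedAddCommGroup E] [NormedSpace ℂ E] [FiniteDimensional ℂ E] (X : Type)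
  [MetricSpace X] [ChartedSpace E X] [IsManifold 𝓘(ℂ, E) 1 X] (nrm : (x : X) → TangentSpace 𝓘(ℂ, E) x → ℝ) (f : X ≃ X)
  (K : Set X) (Es Eu : (x : X) → Submodule ℂ (TangentSpace 𝓘(ℂ, E) x)) (C lam : ℝ), IsFinsler nrm → IsHyp nrm f K Es Eu C lam →
  ∀ p ∈ K, Module.finrank ℂ (Es p) ≤ 1 → StabCk E (Module.finrank ℂ (Es p)) f p

/-- **Low.** PROOF.  As `Bed/Fin2.lean` (`Bed.sFin2`): from `SetupC2` `k = finrank (Es p)`, `Λ = prodL A id`, `Λ 0 = id`, `LSeq k Λ C₂ c₂ (lam^N)`; it suffices to show `ACond k Λ`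
(then `S_CorA` gives `KCond`, `KSeqC` gives `BasinCk`).  `k = 0`: all vectors are `0`.  `k = 1`: `v = v 0 • e`, `w = w 0 • e` (`e = 1`), `‖Λ m v‖ = |v 0| ‖Λ m e‖`, so the inequality
`‖Λ m v‖² ‖w‖ ≤ C₂ exp(- η m) ‖v‖² ‖Λ m w‖` follows from `‖Λ m e‖ ≤ C₂ (lam^N)^m ‖Λ 0 e‖` (`LSeq.up` with `m = 0`), `exp (- η) = lam^N`. -/
def S_Low : Prop := Bed.SetupC2 → Bed.KSeqC → Bed.S_CorA → LowC

/-- The two theorems on sequences. -/
def SeqC : Prop := (∀ (k : ℕ) (r C c : ℝ) (F : ℕ → Ek k → Ek k), 2 ≤ k → Sml k r C c F → BasinCk k r F →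
    ∀ (N : ℕ) (a : Ek k ≃ Ek k) (ε M : ℝ), IsA a → 0 < ε → Ap k r F N a ε M) ∧
  ∀ (k : ℕ) (r C c : ℝ) (F : ℕ → Ek k → Ek k), Sml k r C c F →
    (∀ (N : ℕ) (a : Ek k ≃ Ek k) (ε M : ℝ), IsA a → 0 < ε → Ap k r F N a ε M) → BasinCk k r F

/-- The set of good points is a `G_δ`. -/
def GdC : Prop := ∀ (E : Type) [NormedAddCommGroup E] [NormedSpace ℂ E] [FiniteDimensional ℂ E] (X : Type)
  [MetricSpace X] [ChartedSpace E X] [IsManifold 𝓘(ℂ, E) 1 X] (nrm : (x : X) → TangentSpace 𝓘(ℂ, E) x → ℝ) (f : X ≃ X)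
  (K : Set X) (Es Eu : (x : X) → Submodule ℂ (TangentSpace 𝓘(ℂ, E) x)) (C lam : ℝ), IsFinsler nrm → IsHyp nrm f K Es Eu C lam →
  IsGδ {p | p ∈ K ∧ StabCk E (Module.finrank ℂ (Es p)) f p}

/-- **Gd.** PROOF.  `r, C', c, D` from `PkgC`, `α_k` from `S_Cnt k (r/4)`, `κ p = finrank (Es p) ≤ finrank E`.  For `s = (j, N, n, M) ∈ ℕ⁴`:
`O_s = {p ∈ K | κ p ≤ 1 ∨ ∀ F, D p (κ p) F → Ap (κ p) r F N (α_(κ p) j) (1/(n+1)) M}`, `V_s` the union of all open `V` with `V ∩ K ⊆ O_s`.  `R` the set of the statement.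
(A) `R ⊆ V_s`.  Let `q ∈ R`, not in `V_s`: every neighbourhood of `q` meets `K \ O_s`, so there is an ultrafilter `U ≤ 𝓝 q` with `K \ O_s ∈ U` (`Ultrafilter.of (𝓝[K \ O_s] q)`).  `κ` has finitely many
values on `K`, so `{a | κ a = k} ∈ U` for some `k`; `k ≥ 2`.  For almost all `a` there is `F` with `D a k F` and not `Ap k r F N (α_k j) (1/(n+1)) M`; let `G a` be such an `F` (`0` for the other `a`).
`PkgC` (3): `F` with `D q k F`, `G a n → F n`; (2): `κ q = k`, `BasinCk k r F` from `StabCk E k f q`, `Sml`.  `SeqC` (first part): `Ap k r F N (α_k j) (1/(2(n+1))) M`; `S_ApC`: `Ap k r (G a) N (α_k j) (1/(n+1)) M`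
for almost all `a`, a contradiction.
(B) `p ∈ K`, `p ∈ V_s` for all `s` implies `p ∈ R`: `p ∈ O_s` for all `s`.  `κ p ≤ 1`: `LowC`.  Otherwise let `F` be from (1).  For `N, a, ε, M'`, `IsA a`: `j` with `‖α j z - a z‖ ≤ ε/2` for `‖z‖ ≤ r/4`, `n` with
`1/(n+1) ≤ ε/2`, `M ≥ M'`: `Ap k r F N a ε M'` (triangle inequality).  `SeqC` (second part): `BasinCk`, (2): `StabCk`.
So `R = K ∩ ⋂_s V_s` (countable index set `ℕ × ℕ × ℕ × ℕ`): `IsClosed.isGδ` for `K` (compact), `IsGδ.iInter_of_isOpen`, `IsGδ.inter`. -/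
def S_Gd : Prop := SeqC → S_ApC → S_Cnt → PkgC → LowC → GdC

/-- Condition (F) of Theorem F holds at periodic points. -/
def PerC : Prop := ∀ (E : Type) [NormedAddCommGroup E] [NormedSpace ℂ E] [FiniteDimensional ℂ E] (X : Type)
  [MetricSpace X] [ChartedSpace E X] [IsManifold 𝓘(ℂ, E) 1 X] (nrm : (x : X) → TangentSpace 𝓘(ℂ, E) x → ℝ) (f : X ≃ X)
  (K : Set X) (Es Eu : (x : X) → Submodule ℂ (TangentSpace 𝓘(ℂ, E) x)) (C lam : ℝ), IsFinsler nrm → IsHyp nrm f K Es Eu C lam →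
  ∀ p ∈ K, ∀ m : ℕ, 0 < m → f^[m] p = p →
  ∃ (r : ℕ) (U W : ℕ → Submodule ℂ (TangentSpace 𝓘(ℂ, E) p)), BedF.FC (nit nrm f p) r U W (Es p)

/-- Theorem G. -/
def BedfordG : Prop := ∀ (E : Type) [NormedAddCommGroup E] [NormedSpace ℂ E] [FiniteDimensional ℂ E] (X : Type)
  [MetricSpace X] [ChartedSpace E X] [IsManifold 𝓘(ℂ, E) 1 X] (nrm : (x : X) → TangentSpace 𝓘(ℂ, E) x → ℝ) (f : X ≃ X)
  (K : Set X) (Es Eu : (x : X) → Submodule ℂ (TangentSpace 𝓘(ℂ, E) x)) (C lam : ℝ), IsFinsler nrm → IsHyp nrm f K Es Eu C lam →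
  IsGδ {p | p ∈ K ∧ StabCk E (Module.finrank ℂ (Es p)) f p} ∧
  (K ⊆ closure {p | p ∈ K ∧ ∃ m : ℕ, 0 < m ∧ f^[m] p = p} →
    K ⊆ closure {p | p ∈ K ∧ StabCk E (Module.finrank ℂ (Es p)) f p})

/-- **FinG.** PROOF.  First part `GdC`.  Second: a periodic point `p ∈ K` satisfies `FC` (`PerC`), so `StabCk` (`BedfordF`); `closure_mono`. -/
def S_FinG : Prop := GdC → BedF.BedfordF → PerC → BedfordG

end Pool.Agent.Lib.BedR
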