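import Pool.Agent.Lib.BedR.SpecC

/-!
# Theorem G: the stable manifold is `C^k` when the basin of the sequence is
-/

set_option autoImplicit false

open scoped Manifold ContDiff Topology
open Set Filter Metric
open Pool.Agent.Lib Pool.Agent.Lib.Bed

namespace Pool.Agent.Lib.BedR

/-- If the basin of the sequence of local maps is `C^k` then the stable manifold is `C^k`. -/
theorem staP : S_Sta := by
  intro hUCf hAsA2 hAsB hAsB2 E _ _ X _ _ f K p N k l P H A τ F ρ ρ' r C c hK hKf hp hol hols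
    hP hrρ hL h
  have hcont : Continuous f := hol.continuous
  have hAs := hAsB hUCf E X f K p N k l P H A τ F ρ ρ' r C c hK hKf hp hcont hP hrρ hL
  obtain ⟨Φ, h1, h2, h3, h4, h5⟩ :=
    hAsA2 E X f p N k l P H A τ F ρ ρ' r C c hol hols hP hrρ hL h
  refine ⟨Φ, h1, h2, h3, by rw [h4, hAs], ?_⟩
  rw [Metric.tendstoLocallyUniformly_iff]
  intro ε hε u
  obtain ⟨n, hn⟩ := h5 u
  obtain ⟨M, hM⟩ := hAsB2 hUCf E X f K p N k l P H A τ F ρ ρ' r C c hK hKf hp
    hcont hP hrρ hL n ε hε
  refine ⟨_, hn, ?_⟩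
  filter_upwards [eventually_ge_atTop M] with m hm
  intro z hz
  rw [dist_comm, Real.dist_eq, sub_zero, abs_of_nonneg dist_nonneg]
  exact hM m hm _ hz

end Pool.Agent.Lib.BedR
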