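import Pool.Agent.Lib.BedR.SpecA

/-!
# Theorem G (MP_6f050a_an), module Ste: one step of the flow
-/

set_option autoImplicit false

open scoped Manifold ContDiff Topology
open Set Filter Metric
open Pool.Agent.Lib Pool.Agent.Lib.Bed

namespace Pool.Agent.Lib.BedR

namespace SteM

variable {E : Type} [NormedAddCommGroup E] [NormedSpace ℂ E]

/-- the affine map `w ↦ a + t (w - a)` -/
private noncomputable def al (a : E) (t : ℂ) (ht : t ≠ 0) : E ≃ E where
  toFun := fun w => a + t • (w - a)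
  invFun := fun u => a + t⁻¹ • (u - a)
  left_inv := fun w => by
    change a + t⁻¹ • ((a + t • (w - a)) - a) = w
    rw [add_sub_cancel_left, smul_smul, inv_mul_cancel₀ ht, one_smul, add_sub_cancel]
  right_inv := fun u => by
    change a + t • ((a + t⁻¹ • (u - a)) - a) = u
    rw [add_sub_cancel_left, smul_smul, mul_inv_cancel₀ ht, one_smul, add_sub_cancel]

private theorem al_diff (a : E) (t : ℂ) : Differentiable ℂ (fun w : E => a + t • (w - a)) :=
  (differentiable_const a).add ((differentiable_id.sub (differentiable_const a)).const_smul t)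

end SteM

open SteM in
/-- **Ste.** One step of the flow -/
theorem steP : S_Ste := by
  intro E _ _ e Q M τ hQ hτ
  obtain ⟨-, Φ, hΦ, hM⟩ := hQ
  obtain ⟨C', hC', hC⟩ := hM M
  refine ⟨C' * (τ⁻¹) ^ 3, by positivity, fun t h h0 h1 h2 => ?_⟩
  have ht : 0 < t := lt_of_lt_of_le hτ h2
  have htc : (t : ℂ) ≠ 0 := by exact_mod_cast ht.ne'
  refine ⟨((al (e 0) (t : ℂ) htc).trans (Φ (h / t))).trans (al (e 0) (t : ℂ) htc).symm, ⟨?_, ?_⟩, ?_⟩
  · have h3 : Differentiable ℂ ((fun w : E => e 0 + (t : ℂ)⁻¹ • (w - e 0)) ∘ (Φ (h / t)) ∘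
        (fun w : E => e 0 + (t : ℂ) • (w - e 0))) :=
      (al_diff (e 0) ((t : ℂ)⁻¹)).comp ((hΦ (h / t)).1.comp (al_diff (e 0) (t : ℂ)))
    exact h3
  · have h3 : Differentiable ℂ ((fun w : E => e 0 + (t : ℂ)⁻¹ • (w - e 0)) ∘ (Φ (h / t)).symm ∘
        (fun w : E => e 0 + (t : ℂ) • (w - e 0))) :=
      (al_diff (e 0) ((t : ℂ)⁻¹)).comp ((hΦ (h / t)).2.comp (al_diff (e 0) (t : ℂ)))
    exact h3
  · intro w hw
    set u : E := e 0 + (t : ℂ) • (w - e 0) with hu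
    have hs0 : 0 ≤ h / t := div_nonneg h0 ht.le
    have hs1 : h / t ≤ 1 := (div_le_one ht).2 (h1.trans h2)
    have h4 := hC (h / t) hs0 hs1 u hw
    have h5 : (((al (e 0) (t : ℂ) htc).trans (Φ (h / t))).trans (al (e 0) (t : ℂ) htc).symm) w =
        e 0 + (t : ℂ)⁻¹ • (Φ (h / t) u - e 0) := rfl
    have h6 : w = e 0 + (t : ℂ)⁻¹ • (u - e 0) := by
      rw [hu, add_sub_cancel_left, smul_smul, inv_mul_cancel₀ htc, one_smul, add_sub_cancel]
    have h7 : (((al (e 0) (t : ℂ) htc).trans (Φ (h / t))).trans (al (e 0) (t : ℂ) htc).symm) w - w +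
        (h : ℂ) • qt e Q t w = (t : ℂ)⁻¹ • (Φ (h / t) u - u - ((h / t : ℝ) : ℂ) • (- Q u)) := by
      rw [h5]
      have h8 : qt e Q t w = ((t : ℂ) ^ 2)⁻¹ • Q u := rfl
      have h9 : e 0 + (t : ℂ)⁻¹ • (Φ (h / t) u - e 0) - w =
          (t : ℂ)⁻¹ • (Φ (h / t) u - u) := by
        conv_lhs => rw [h6]
        rw [add_sub_add_left_eq_sub, ← smul_sub, sub_sub_sub_cancel_right]
      rw [h9, h8, smul_neg, sub_neg_eq_add, smul_add, smul_smul, smul_smul]
      congr 2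
      push_cast
      field_simp
    rw [h7, norm_smul, norm_inv, Complex.norm_real, Real.norm_eq_abs, abs_of_pos ht]
    calc t⁻¹ * ‖Φ (h / t) u - u - ((h / t : ℝ) : ℂ) • (- Q u)‖
        ≤ t⁻¹ * (C' * (h / t) ^ 2) := mul_le_mul_of_nonneg_left h4 (inv_nonneg.2 ht.le)
      _ = C' * (t⁻¹) ^ 3 * h ^ 2 := by
          field_simp
      _ ≤ C' * (τ⁻¹) ^ 3 * h ^ 2 := by
          have h10 : t⁻¹ ≤ τ⁻¹ := inv_anti₀ hτ h2
          have h11 : (t⁻¹) ^ 3 ≤ (τ⁻¹) ^ 3 := pow_le_pow_left₀ (inv_nonneg.2 ht.le) h10 3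
          exact mul_le_mul_of_nonneg_right (mul_le_mul_of_nonneg_left h11 hC') (sq_nonneg h)

end Pool.Agent.Lib.BedR
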