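import Pool.Agent.Lib.BedR.SpecA
import Pool.Agent.Lib.Osgood

/-!
# Theorem G (MP_6f050a_an): the sum of two fields with approximate flows
-/

set_option autoImplicit false

open scoped Manifold ContDiff Topology
open Set Filter Metric
open Pool.Agent.Lib Pool.Agent.Lib.Bed

namespace Pool.Agent.Lib.BedR

namespace SumM

variable {E : Type} [NormedAddCommGroup E] [NormedSpace ℂ E] [FiniteDimensional ℂ E]

/-- an entire map is Lipschitz on every ball -/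
theorem lip (q : E → E) (hq : Differentiable ℂ q) (M : ℝ) :
    ∃ L : ℝ, 0 ≤ L ∧ ∀ x, ‖x‖ ≤ M → ∀ y, ‖y‖ ≤ M → ‖q y - q x‖ ≤ L * ‖y - x‖ := by
  have hprop : ProperSpace E := FiniteDimensional.proper ℂ E
  have hc : ContinuousOn (fun z => ‖fderiv ℂ q z‖) (closedBall (0 : E) M) := by
    have h1 := Osgood.continuousOn_fderiv isOpen_univ hq.differentiableOn
    exact (h1.mono (subset_univ _)).norm
  obtain ⟨B, hB⟩ := (isCompact_closedBall (0 : E) M).bddAbove_image hc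
  refine ⟨max B 0, le_max_right _ _, fun x hx y hy => ?_⟩
  have hx' : x ∈ closedBall (0 : E) M := mem_closedBall_zero_iff.2 hx
  have hy' : y ∈ closedBall (0 : E) M := mem_closedBall_zero_iff.2 hy
  exact Convex.norm_image_sub_le_of_norm_fderiv_le (𝕜 := ℂ) (fun z _ => hq z)
    (fun z hz => (hB (mem_image_of_mem _ hz)).trans (le_max_left _ _)) (convex_closedBall _ _) hx' hy'

/-- an entire map is bounded on every ball -/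
theorem bdd (q : E → E) (hq : Differentiable ℂ q) (M : ℝ) :
    ∃ B : ℝ, 0 ≤ B ∧ ∀ x, ‖x‖ ≤ M → ‖q x‖ ≤ B := by
  have hprop : ProperSpace E := FiniteDimensional.proper ℂ E
  obtain ⟨B, hB⟩ := (isCompact_closedBall (0 : E) M).bddAbove_image hq.continuous.norm.continuousOn
  exact ⟨max B 0, le_max_right _ _, fun x hx =>
    (hB (mem_image_of_mem _ (mem_closedBall_zero_iff.2 hx))).trans (le_max_left _ _)⟩

end SumM

open SumM in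
theorem sumP : S_Sum := by
  intro E _ _ _ q₁ q₂ h₁ h₂
  obtain ⟨hq₁, Φ₁, hA₁, hΦ₁⟩ := h₁
  obtain ⟨hq₂, Φ₂, hA₂, hΦ₂⟩ := h₂
  refine ⟨hq₁.add hq₂, fun s => (Φ₁ s).trans (Φ₂ s), fun s => ⟨?_, ?_⟩, ?_⟩
  · exact (hA₂ s).1.comp (hA₁ s).1
  · exact (hA₁ s).2.comp (hA₂ s).2
  · intro M
    obtain ⟨C₁, hC₁, hf₁⟩ := hΦ₁ M
    obtain ⟨B₁, hB₁, hb₁⟩ := bdd q₁ hq₁ M
    obtain ⟨C₂, hC₂, hf₂⟩ := hΦ₂ (M + (B₁ + C₁))
    obtain ⟨L, hL, hl⟩ := lip q₂ hq₂ (M + (B₁ + C₁))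
    refine ⟨C₁ + C₂ + L * (B₁ + C₁), by positivity, fun s hs0 hs1 z hz => ?_⟩
    have e1 := hf₁ s hs0 hs1 z hz
    have hss : s ^ 2 ≤ s := by nlinarith
    have e2 : ‖Φ₁ s z - z‖ ≤ (B₁ + C₁) * s := by
      have h1 : Φ₁ s z - z = (Φ₁ s z - z - (s : ℂ) • q₁ z) + (s : ℂ) • q₁ z := by abel
      have h2 : ‖(s : ℂ) • q₁ z‖ ≤ s * B₁ := by
        rw [norm_smul, Complex.norm_real, Real.norm_of_nonneg hs0]
        exact mul_le_mul_of_nonneg_left (hb₁ z hz) hs0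
      calc ‖Φ₁ s z - z‖ = ‖(Φ₁ s z - z - (s : ℂ) • q₁ z) + (s : ℂ) • q₁ z‖ := by rw [← h1]
        _ ≤ C₁ * s ^ 2 + s * B₁ := (norm_add_le _ _).trans (add_le_add e1 h2)
        _ ≤ (B₁ + C₁) * s := by nlinarith
    have e3 : ‖Φ₁ s z‖ ≤ M + (B₁ + C₁) := by
      have h1 : Φ₁ s z = z + (Φ₁ s z - z) := by abel
      calc ‖Φ₁ s z‖ = ‖z + (Φ₁ s z - z)‖ := by rw [← h1]
        _ ≤ ‖z‖ + ‖Φ₁ s z - z‖ := norm_add_le _ _
        _ ≤ M + (B₁ + C₁) := by nlinarith [add_nonneg hB₁ hC₁]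
    have e4 := hf₂ s hs0 hs1 _ e3
    have hz' : ‖z‖ ≤ M + (B₁ + C₁) := hz.trans (by linarith)
    have e5 : ‖(s : ℂ) • (q₂ (Φ₁ s z) - q₂ z)‖ ≤ L * (B₁ + C₁) * s ^ 2 := by
      rw [norm_smul, Complex.norm_real, Real.norm_of_nonneg hs0]
      have h1 : ‖q₂ (Φ₁ s z) - q₂ z‖ ≤ L * ((B₁ + C₁) * s) :=
        (hl z hz' _ e3).trans (mul_le_mul_of_nonneg_left e2 hL)
      calc s * ‖q₂ (Φ₁ s z) - q₂ z‖ ≤ s * (L * ((B₁ + C₁) * s)) := mul_le_mul_of_nonneg_left h1 hs0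
        _ = L * (B₁ + C₁) * s ^ 2 := by ring
    have h6 : ((Φ₁ s).trans (Φ₂ s)) z - z - (s : ℂ) • (q₁ z + q₂ z) =
        (Φ₂ s (Φ₁ s z) - Φ₁ s z - (s : ℂ) • q₂ (Φ₁ s z)) + (Φ₁ s z - z - (s : ℂ) • q₁ z) +
          (s : ℂ) • (q₂ (Φ₁ s z) - q₂ z) := by
      rw [Equiv.trans_apply, smul_add, smul_sub]
      abel
    rw [h6]
    calc _ ≤ ‖Φ₂ s (Φ₁ s z) - Φ₁ s z - (s : ℂ) • q₂ (Φ₁ s z)‖ + ‖Φ₁ s z - z - (s : ℂ) • q₁ z‖ +
          ‖(s : ℂ) • (q₂ (Φ₁ s z) - q₂ z)‖ := norm_add₃_le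
      _ ≤ C₂ * s ^ 2 + C₁ * s ^ 2 + L * (B₁ + C₁) * s ^ 2 := add_le_add (add_le_add e4 e1) e5
      _ = (C₁ + C₂ + L * (B₁ + C₁)) * s ^ 2 := by ring

end Pool.Agent.Lib.BedR
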