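import Pool.Agent.Lib.BedR.SpecC

/-!
# Theorem G (MP_6f050a_an), module TaU: the local stable manifolds with a given radius
-/

set_option autoImplicit false

open scoped Manifold ContDiff Topology
open Set Filter Metric
open Pool.Agent.Lib Pool.Agent.Lib.Bed

namespace Pool.Agent.Lib.BedR

namespace TaUM

section

variable {k l : ℕ}

/-- good families -/
structure Good (r : ℝ) (σ : ℕ → (Fin k → ℂ) → (Fin l → ℂ)) : Prop where
  diff : ∀ n, DifferentiableOn ℂ (σ n) (ball 0 r)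
  le : ∀ n, ∀ x ∈ ball (0 : Fin k → ℂ) r, ‖σ n x‖ ≤ ‖x‖
  lip : ∀ n, ∀ x ∈ ball (0 : Fin k → ℂ) r, ∀ y ∈ ball (0 : Fin k → ℂ) r,
    ‖σ n x - σ n y‖ ≤ ‖x - y‖

variable {H : ℕ → V k l → V k l} {A : ℕ → (Fin k → ℂ) →L[ℂ] (Fin k → ℂ)}
    {B : ℕ → (Fin l → ℂ) →L[ℂ] (Fin l → ℂ)} {ρ C c r : ℝ}

theorem a_le (h : AdH k l H A B ρ C c) (n : ℕ) {v v' : V k l} (hv : v ∈ ball (0 : V k l) ρ)
    (hv' : v' ∈ ball (0 : V k l) ρ) :
    ‖((H n v).1 - A n v.1) - ((H n v').1 - A n v'.1)‖ ≤ C * (‖v‖ + ‖v'‖) * ‖v - v'‖ :=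
  (norm_fst_le _).trans (h.quad n v hv v' hv')

theorem b_le (h : AdH k l H A B ρ C c) (n : ℕ) {v v' : V k l} (hv : v ∈ ball (0 : V k l) ρ)
    (hv' : v' ∈ ball (0 : V k l) ρ) :
    ‖((H n v).2 - B n v.2) - ((H n v').2 - B n v'.2)‖ ≤ C * (‖v‖ + ‖v'‖) * ‖v - v'‖ :=
  (norm_snd_le _).trans (h.quad n v hv v' hv')

theorem a_le0 (h : AdH k l H A B ρ C c) (n : ℕ) {v : V k l} (hv : v ∈ ball (0 : V k l) ρ) :
    ‖(H n v).1 - A n v.1‖ ≤ C * ‖v‖ * ‖v‖ := by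
  have h1 := a_le h n hv (mem_ball_self h.ρ_pos)
  simpa [h.zero] using h1

theorem b_le0 (h : AdH k l H A B ρ C c) (n : ℕ) {v : V k l} (hv : v ∈ ball (0 : V k l) ρ) :
    ‖(H n v).2 - B n v.2‖ ≤ C * ‖v‖ * ‖v‖ := by
  have h1 := b_le h n hv (mem_ball_self h.ρ_pos)
  simpa [h.zero] using h1

theorem pt_norm {σ : ℕ → (Fin k → ℂ) → (Fin l → ℂ)} (g : Good r σ) (n : ℕ) {x : Fin k → ℂ}
    (hx : x ∈ ball (0 : Fin k → ℂ) r) : ‖((x, σ n x) : V k l)‖ ≤ ‖x‖ := by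
  rw [Prod.norm_def]
  exact max_le (le_refl _) (g.le n x hx)

theorem pt_mem {σ : ℕ → (Fin k → ℂ) → (Fin l → ℂ)} (g : Good r σ) (hr : r ≤ ρ) (n : ℕ)
    {x : Fin k → ℂ} (hx : x ∈ ball (0 : Fin k → ℂ) r) :
    ((x, σ n x) : V k l) ∈ ball (0 : V k l) ρ := by
  rw [mem_ball_zero_iff] at hx ⊢
  exact lt_of_le_of_lt (pt_norm g n (mem_ball_zero_iff.2 hx)) (lt_of_lt_of_le hx hr)

theorem pt_sub {σ : ℕ → (Fin k → ℂ) → (Fin l → ℂ)} (g : Good r σ) (n : ℕ) {x y : Fin k → ℂ}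
    (hx : x ∈ ball (0 : Fin k → ℂ) r) (hy : y ∈ ball (0 : Fin k → ℂ) r) :
    ‖((x, σ n x) : V k l) - (y, σ n y)‖ ≤ ‖x - y‖ := by
  rw [Prod.norm_def]
  exact max_le (le_refl _) (g.lip n x hx y hy)

/-- the first component contracts -/
theorem x_le (h : AdH k l H A B ρ C c) (hr : r ≤ ρ) (hCr : C * r ≤ 1 / 64)
    {σ : ℕ → (Fin k → ℂ) → (Fin l → ℂ)} (g : Good r σ) (n : ℕ) {x : Fin k → ℂ}
    (hx : x ∈ ball (0 : Fin k → ℂ) r) : ‖(H n (x, σ n x)).1‖ ≤ ‖x‖ / 4 := by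
  have hC := h.C_pos
  have h1 := a_le0 h n (pt_mem g hr n hx)
  have h2 := h.A_le n x
  have h3 := pt_norm g n hx
  have hxr : ‖x‖ < r := mem_ball_zero_iff.1 hx
  have hr0 : 0 ≤ r := (norm_nonneg x).trans hxr.le
  have h4 : C * ‖((x, σ n x) : V k l)‖ * ‖((x, σ n x) : V k l)‖ ≤ C * r * ‖x‖ := by
    gcongr
    exact h3.trans hxr.le
  have h5 : C * r * ‖x‖ ≤ 1 / 64 * ‖x‖ := mul_le_mul_of_nonneg_right hCr (norm_nonneg _)
  have h6 : (H n (x, σ n x)).1 = A n x + ((H n (x, σ n x)).1 - A n x) := by abel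
  have h7 : ‖(H n (x, σ n x)).1 - A n x‖ ≤ C * ‖((x, σ n x) : V k l)‖ * ‖((x, σ n x) : V k l)‖ := h1
  rw [h6]
  have h8 := norm_add_le (A n x) ((H n (x, σ n x)).1 - A n x)
  have h9 := norm_nonneg x
  linarith

theorem x_mem (h : AdH k l H A B ρ C c) (hr : r ≤ ρ) (hCr : C * r ≤ 1 / 64)
    {σ : ℕ → (Fin k → ℂ) → (Fin l → ℂ)} (g : Good r σ) (n : ℕ) {x : Fin k → ℂ}
    (hx : x ∈ ball (0 : Fin k → ℂ) r) : (H n (x, σ n x)).1 ∈ ball (0 : Fin k → ℂ) r := by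
  have h1 := x_le h hr hCr g n hx
  rw [mem_ball_zero_iff] at hx ⊢
  have := norm_nonneg x
  linarith

theorem x_lip (h : AdH k l H A B ρ C c) (hr : r ≤ ρ) (hCr : C * r ≤ 1 / 64)
    {σ : ℕ → (Fin k → ℂ) → (Fin l → ℂ)} (g : Good r σ) (n : ℕ) {x y : Fin k → ℂ}
    (hx : x ∈ ball (0 : Fin k → ℂ) r) (hy : y ∈ ball (0 : Fin k → ℂ) r) :
    ‖(H n (x, σ n x)).1 - (H n (y, σ n y)).1‖ ≤ ‖x - y‖ / 4 := by
  have hC := h.C_pos
  have h1 := a_le h n (pt_mem g hr n hx) (pt_mem g hr n hy)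
  have h2 := h.A_le n (x - y)
  have hxr : ‖x‖ < r := mem_ball_zero_iff.1 hx
  have hr0 : 0 ≤ r := (norm_nonneg x).trans hxr.le
  have hyr : ‖y‖ < r := mem_ball_zero_iff.1 hy
  have h3 := (pt_norm g n hx).trans hxr.le
  have h3' := (pt_norm g n hy).trans hyr.le
  have h4 : C * (‖((x, σ n x) : V k l)‖ + ‖((y, σ n y) : V k l)‖) *
      ‖((x, σ n x) : V k l) - (y, σ n y)‖ ≤ C * (r + r) * ‖x - y‖ := by
    gcongr
    exact pt_sub g n hx hy
  have h5 : C * (r + r) * ‖x - y‖ ≤ 1 / 32 * ‖x - y‖ :=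
    mul_le_mul_of_nonneg_right (by linarith) (norm_nonneg _)
  have h6 : (H n (x, σ n x)).1 - (H n (y, σ n y)).1 = A n (x - y) +
      (((H n (x, σ n x)).1 - A n x) - ((H n (y, σ n y)).1 - A n y)) := by
    rw [map_sub]
    abel
  rw [h6]
  have h7 : ‖((H n (x, σ n x)).1 - A n x) - ((H n (y, σ n y)).1 - A n y)‖ ≤
    C * (‖((x, σ n x) : V k l)‖ + ‖((y, σ n y) : V k l)‖) *
      ‖((x, σ n x) : V k l) - (y, σ n y)‖ := h1
  have h8 := norm_add_le (A n (x - y))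
    (((H n (x, σ n x)).1 - A n x) - ((H n (y, σ n y)).1 - A n y))
  have h9 := norm_nonneg (x - y)
  linarith

variable (Bi : ℕ → (Fin l → ℂ) →L[ℂ] (Fin l → ℂ))

/-- the graph transform -/
noncomputable def Gam (H : ℕ → V k l → V k l) (B Bi : ℕ → (Fin l → ℂ) →L[ℂ] (Fin l → ℂ))
    (σ : ℕ → (Fin k → ℂ) → (Fin l → ℂ)) (n : ℕ) (x : Fin k → ℂ) : Fin l → ℂ :=
  Bi n (σ (n + 1) (H n (x, σ n x)).1 - ((H n (x, σ n x)).2 - B n (σ n x)))

theorem gam_good (h : AdH k l H A B ρ C c) (hr : r ≤ ρ) (hCr : C * r ≤ 1 / 64)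
    (hBi : ∀ n y, ‖Bi n y‖ ≤ ‖y‖ / 8)
    {σ : ℕ → (Fin k → ℂ) → (Fin l → ℂ)} (g : Good r σ) : Good r (Gam H B Bi σ) := by
  have hC := h.C_pos
  refine ⟨fun n => ?_, fun n x hx => ?_, fun n x hx y hy => ?_⟩
  · have d1 : DifferentiableOn ℂ (fun x => ((x, σ n x) : V k l)) (ball 0 r) :=
      differentiableOn_id.prodMk (g.diff n)
    have d2 : DifferentiableOn ℂ (fun x => H n (x, σ n x)) (ball 0 r) :=
      (h.diff n).comp d1 (fun x hx => pt_mem g hr n hx)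
    have d3 : DifferentiableOn ℂ (fun x => σ (n + 1) (H n (x, σ n x)).1) (ball 0 r) :=
      (g.diff (n + 1)).comp (differentiable_fst.comp_differentiableOn d2)
        (fun x hx => x_mem h hr hCr g n hx)
    have d4 : DifferentiableOn ℂ (fun x => (H n (x, σ n x)).2) (ball 0 r) :=
      differentiable_snd.comp_differentiableOn d2
    have d5 : DifferentiableOn ℂ (fun x => B n (σ n x)) (ball 0 r) :=
      (B n).differentiable.comp_differentiableOn (g.diff n)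
    exact (Bi n).differentiable.comp_differentiableOn (d3.sub (d4.sub d5))
  · have h1 := b_le0 h n (pt_mem g hr n hx)
    have h2 := pt_norm g n hx
    have hxr : ‖x‖ < r := mem_ball_zero_iff.1 hx
    have hr0 : 0 ≤ r := (norm_nonneg x).trans hxr.le
    have h3 : C * ‖((x, σ n x) : V k l)‖ * ‖((x, σ n x) : V k l)‖ ≤ C * r * ‖x‖ := by
      gcongr
      exact h2.trans hxr.le
    have h4 : C * r * ‖x‖ ≤ 1 / 64 * ‖x‖ := mul_le_mul_of_nonneg_right hCr (norm_nonneg _)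
    have h5 := g.le (n + 1) _ (x_mem h hr hCr g n hx)
    have h6 := x_le h hr hCr g n hx
    have h7 := hBi n (σ (n + 1) (H n (x, σ n x)).1 - ((H n (x, σ n x)).2 - B n (σ n x)))
    have h8 := norm_sub_le (σ (n + 1) (H n (x, σ n x)).1) ((H n (x, σ n x)).2 - B n (σ n x))
    have h9 := norm_nonneg x
    have h10 : ‖(H n (x, σ n x)).2 - B n (σ n x)‖ ≤
      C * ‖((x, σ n x) : V k l)‖ * ‖((x, σ n x) : V k l)‖ := h1
    show ‖Bi n (σ (n + 1) (H n (x, σ n x)).1 - ((H n (x, σ n x)).2 - B n (σ n x)))‖ ≤ ‖x‖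
    linarith
  · have h1 := b_le h n (pt_mem g hr n hx) (pt_mem g hr n hy)
    have hxr : ‖x‖ < r := mem_ball_zero_iff.1 hx
    have hr0 : 0 ≤ r := (norm_nonneg x).trans hxr.le
    have hyr : ‖y‖ < r := mem_ball_zero_iff.1 hy
    have h3 := (pt_norm g n hx).trans hxr.le
    have h3' := (pt_norm g n hy).trans hyr.le
    have h4 : C * (‖((x, σ n x) : V k l)‖ + ‖((y, σ n y) : V k l)‖) *
        ‖((x, σ n x) : V k l) - (y, σ n y)‖ ≤ C * (r + r) * ‖x - y‖ := by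
      gcongr
      exact pt_sub g n hx hy
    have h5 : C * (r + r) * ‖x - y‖ ≤ 1 / 32 * ‖x - y‖ :=
      mul_le_mul_of_nonneg_right (by linarith) (norm_nonneg _)
    have h6 := g.lip (n + 1) _ (x_mem h hr hCr g n hx) _ (x_mem h hr hCr g n hy)
    have h7 := x_lip h hr hCr g n hx hy
    show ‖Bi n (σ (n + 1) (H n (x, σ n x)).1 - ((H n (x, σ n x)).2 - B n (σ n x))) -
      Bi n (σ (n + 1) (H n (y, σ n y)).1 - ((H n (y, σ n y)).2 - B n (σ n y)))‖ ≤ ‖x - y‖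
    rw [← map_sub]
    refine (hBi n _).trans ?_
    have h8 : σ (n + 1) (H n (x, σ n x)).1 - ((H n (x, σ n x)).2 - B n (σ n x)) -
      (σ (n + 1) (H n (y, σ n y)).1 - ((H n (y, σ n y)).2 - B n (σ n y))) =
      (σ (n + 1) (H n (x, σ n x)).1 - σ (n + 1) (H n (y, σ n y)).1) -
        (((H n (x, σ n x)).2 - B n (σ n x)) - ((H n (y, σ n y)).2 - B n (σ n y))) := by abel
    rw [h8]
    have h9 := norm_sub_le (σ (n + 1) (H n (x, σ n x)).1 - σ (n + 1) (H n (y, σ n y)).1)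
        (((H n (x, σ n x)).2 - B n (σ n x)) - ((H n (y, σ n y)).2 - B n (σ n y)))
    have h10 : ‖((H n (x, σ n x)).2 - B n (σ n x)) - ((H n (y, σ n y)).2 - B n (σ n y))‖ ≤
      C * (‖((x, σ n x) : V k l)‖ + ‖((y, σ n y) : V k l)‖) *
        ‖((x, σ n x) : V k l) - (y, σ n y)‖ := h1
    have h11 := norm_nonneg (x - y)
    linarith

theorem gam_cmp (h : AdH k l H A B ρ C c) (hr : r ≤ ρ) (hCr : C * r ≤ 1 / 64)
    (hBi : ∀ n y, ‖Bi n y‖ ≤ ‖y‖ / 8)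
    {σ σ' : ℕ → (Fin k → ℂ) → (Fin l → ℂ)} (g : Good r σ) (g' : Good r σ') {d : ℝ}
    (hd : ∀ n, ∀ x ∈ ball (0 : Fin k → ℂ) r, ‖σ n x - σ' n x‖ ≤ d) (n : ℕ) {x : Fin k → ℂ}
    (hx : x ∈ ball (0 : Fin k → ℂ) r) :
    ‖Gam H B Bi σ n x - Gam H B Bi σ' n x‖ ≤ d / 4 := by
  have hC := h.C_pos
  have hd0 : 0 ≤ d := (norm_nonneg _).trans (hd n x hx)
  have h1 := b_le h n (pt_mem g hr n hx) (pt_mem g' hr n hx)
  have h1' := a_le h n (pt_mem g hr n hx) (pt_mem g' hr n hx)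
  have hxr : ‖x‖ < r := mem_ball_zero_iff.1 hx
  have hr0 : 0 ≤ r := (norm_nonneg x).trans hxr.le
  have h3 := (pt_norm g n hx).trans hxr.le
  have h3' := (pt_norm g' n hx).trans hxr.le
  have hsub : ‖((x, σ n x) : V k l) - (x, σ' n x)‖ ≤ d := by
    rw [Prod.norm_def]
    refine max_le ?_ (hd n x hx)
    show ‖x - x‖ ≤ d
    rw [sub_self, norm_zero]
    exact hd0
  have h4 : C * (‖((x, σ n x) : V k l)‖ + ‖((x, σ' n x) : V k l)‖) *
      ‖((x, σ n x) : V k l) - (x, σ' n x)‖ ≤ C * (r + r) * d := by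
    gcongr
  have h5 : C * (r + r) * d ≤ 1 / 32 * d := mul_le_mul_of_nonneg_right (by linarith) hd0
  have h6 := g.lip (n + 1) _ (x_mem h hr hCr g n hx) _ (x_mem h hr hCr g' n hx)
  have h7 := hd (n + 1) _ (x_mem h hr hCr g' n hx)
  have h8 : ‖(H n (x, σ n x)).1 - (H n (x, σ' n x)).1‖ ≤
      C * (‖((x, σ n x) : V k l)‖ + ‖((x, σ' n x) : V k l)‖) *
        ‖((x, σ n x) : V k l) - (x, σ' n x)‖ := by
    have e : (H n (x, σ n x)).1 - (H n (x, σ' n x)).1 =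
      ((H n (x, σ n x)).1 - A n x) - ((H n (x, σ' n x)).1 - A n x) := by abel
    rw [e]
    exact h1'
  have h9 : ‖((H n (x, σ n x)).2 - B n (σ n x)) - ((H n (x, σ' n x)).2 - B n (σ' n x))‖ ≤
      C * (‖((x, σ n x) : V k l)‖ + ‖((x, σ' n x) : V k l)‖) *
        ‖((x, σ n x) : V k l) - (x, σ' n x)‖ := h1
  show ‖Bi n (σ (n + 1) (H n (x, σ n x)).1 - ((H n (x, σ n x)).2 - B n (σ n x))) -
    Bi n (σ' (n + 1) (H n (x, σ' n x)).1 - ((H n (x, σ' n x)).2 - B n (σ' n x)))‖ ≤ d / 4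
  rw [← map_sub]
  refine (hBi n _).trans ?_
  have h10 : σ (n + 1) (H n (x, σ n x)).1 - ((H n (x, σ n x)).2 - B n (σ n x)) -
    (σ' (n + 1) (H n (x, σ' n x)).1 - ((H n (x, σ' n x)).2 - B n (σ' n x))) =
    (σ (n + 1) (H n (x, σ n x)).1 - σ (n + 1) (H n (x, σ' n x)).1) +
    (σ (n + 1) (H n (x, σ' n x)).1 - σ' (n + 1) (H n (x, σ' n x)).1) -
      (((H n (x, σ n x)).2 - B n (σ n x)) - ((H n (x, σ' n x)).2 - B n (σ' n x))) := by abel
  rw [h10]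
  have h11 := norm_sub_le ((σ (n + 1) (H n (x, σ n x)).1 - σ (n + 1) (H n (x, σ' n x)).1) +
    (σ (n + 1) (H n (x, σ' n x)).1 - σ' (n + 1) (H n (x, σ' n x)).1))
    (((H n (x, σ n x)).2 - B n (σ n x)) - ((H n (x, σ' n x)).2 - B n (σ' n x)))
  have h12 := norm_add_le (σ (n + 1) (H n (x, σ n x)).1 - σ (n + 1) (H n (x, σ' n x)).1)
    (σ (n + 1) (H n (x, σ' n x)).1 - σ' (n + 1) (H n (x, σ' n x)).1)
  linarith

theorem exists_inv (h : AdH k l H A B ρ C c) : ∃ Bi : ℕ → (Fin l → ℂ) →L[ℂ] (Fin l → ℂ),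
    (∀ n y, B n (Bi n y) = y) ∧ ∀ n y, ‖Bi n y‖ ≤ ‖y‖ / 8 := by
  have hinj : ∀ n, Function.Injective (B n).toLinearMap := by
    intro n
    rw [← LinearMap.ker_eq_bot, LinearMap.ker_eq_bot']
    intro y hy
    have h1 := h.B_ge n y
    have h2 : B n y = 0 := hy
    rw [h2, norm_zero] at h1
    exact norm_le_zero_iff.1 (by linarith)
  let e : ℕ → (Fin l → ℂ) ≃L[ℂ] (Fin l → ℂ) := fun n =>
    (LinearEquiv.ofInjectiveEndo (B n).toLinearMap (hinj n)).toContinuousLinearEquiv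
  have he : ∀ n y, e n y = B n y := fun n y => rfl
  have h1 : ∀ n y, B n ((e n).symm y) = y := by
    intro n y
    rw [← he]
    exact (e n).apply_symm_apply y
  refine ⟨fun n => ((e n).symm : (Fin l → ℂ) →L[ℂ] (Fin l → ℂ)), h1, fun n y => ?_⟩
  have h2 := h.B_ge n ((e n).symm y)
  rw [h1] at h2
  show ‖(e n).symm y‖ ≤ ‖y‖ / 8
  linarith

end

end TaUM

open TaUM in
/-- **TaU.** The local stable manifolds of a sequence of hyperbolic germs, with a given radius. -/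
theorem tauuP : S_TaU := by
  intro hW k l H A B ρ C c r h hr0 hrρ hCr
  have hC := h.C_pos
  obtain ⟨Bi, hBi1, hBi⟩ := exists_inv h
  -- the iterates
  let τ0 : ℕ → ℕ → (Fin k → ℂ) → (Fin l → ℂ) := fun i => (Gam H B Bi)^[i] (fun _ _ => 0)
  have hτs : ∀ i, τ0 (i + 1) = Gam H B Bi (τ0 i) := fun i => Function.iterate_succ_apply' _ _ _
  have hgood : ∀ i, Good r (τ0 i) := by
    intro i
    induction i with
    | zero =>
      refine ⟨fun n => differentiableOn_const _, fun n x _ => ?_, fun n x _ y _ => ?_⟩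
      · show ‖(0 : Fin l → ℂ)‖ ≤ ‖x‖
        rw [norm_zero]
        exact norm_nonneg _
      · show ‖(0 : Fin l → ℂ) - 0‖ ≤ ‖x - y‖
        rw [sub_zero, norm_zero]
        exact norm_nonneg _
    | succ i ih =>
      rw [hτs]
      exact gam_good Bi h hrρ hCr hBi ih
  have hstep : ∀ i n, ∀ x ∈ ball (0 : Fin k → ℂ) r, ‖τ0 (i + 1) n x - τ0 i n x‖ ≤ r * (1 / 4) ^ i := by
    intro i
    induction i with
    | zero =>
      intro n x hx
      have h1 := (hgood 1).le n x hx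
      have h2 : τ0 0 n x = 0 := rfl
      rw [h2, sub_zero, pow_zero, mul_one]
      exact h1.trans (mem_ball_zero_iff.1 hx).le
    | succ i ih =>
      intro n x hx
      have h1 := gam_cmp Bi h hrρ hCr hBi (hgood (i + 1)) (hgood i) ih n hx
      rw [← hτs, ← hτs] at h1
      refine h1.trans (le_of_eq ?_)
      rw [pow_succ]
      ring
  have hsum : Summable fun i : ℕ => r * (1 / 4 : ℝ) ^ i :=
    (summable_geometric_of_lt_one (by norm_num) (by norm_num)).mul_left r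
  have hlim : ∀ n, ∃ τn : (Fin k → ℂ) → (Fin l → ℂ), DifferentiableOn ℂ τn (ball 0 r) ∧
      (∀ z ∈ ball (0 : Fin k → ℂ) r, Tendsto (fun i => τ0 i n z) atTop (𝓝 (τn z))) ∧
      (∀ z ∈ ball (0 : Fin k → ℂ) r, ∀ i, ‖τn z - τ0 i n z‖ ≤ ∑' j, r * (1 / 4 : ℝ) ^ (i + j)) := by
    intro n
    obtain ⟨Hn, h1, h2, h3, _⟩ := hW (Fin k → ℂ) (Fin l → ℂ) (ball 0 r) (fun i => τ0 i n)
      (fun i => r * (1 / 4 : ℝ) ^ i) isOpen_ball (fun i => (hgood i).diff n) hsum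
      (fun i z hz => hstep i n z hz)
    exact ⟨Hn, h1, h2, h3⟩
  choose τ hτd hτt hτe using hlim
  have hG : Good r τ := by
    refine ⟨hτd, fun n x hx => ?_, fun n x hx y hy => ?_⟩
    · exact le_of_tendsto (hτt n x hx).norm (Eventually.of_forall fun i => (hgood i).le n x hx)
    · exact le_of_tendsto ((hτt n x hx).sub (hτt n y hy)).norm
        (Eventually.of_forall fun i => (hgood i).lip n x hx y hy)
  have htail : Tendsto (fun i : ℕ => ∑' j, r * (1 / 4 : ℝ) ^ (i + j)) atTop (𝓝 0) := by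
    have := tendsto_sum_nat_add (fun i : ℕ => r * (1 / 4 : ℝ) ^ i)
    refine this.congr fun i => ?_
    refine tsum_congr fun j => ?_
    rw [add_comm]
  have hfix : ∀ n, ∀ x ∈ ball (0 : Fin k → ℂ) r, Gam H B Bi τ n x = τ n x := by
    intro n x hx
    have h1 : ∀ i, ‖τ0 (i + 1) n x - Gam H B Bi τ n x‖ ≤ (∑' j, r * (1 / 4 : ℝ) ^ (i + j)) / 4 := by
      intro i
      rw [norm_sub_rev, hτs]
      exact gam_cmp Bi h hrρ hCr hBi hG (hgood i) (fun m z hz => hτe m z hz i) n hx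
    have h2 : Tendsto (fun i => τ0 (i + 1) n x) atTop (𝓝 (Gam H B Bi τ n x)) := by
      rw [tendsto_iff_norm_sub_tendsto_zero]
      refine squeeze_zero (fun i => norm_nonneg _) h1 ?_
      simpa using htail.div_const 4
    exact tendsto_nhds_unique h2 ((hτt n x hx).comp (tendsto_add_atTop_nat 1))
  refine ⟨τ, ⟨hτd, hG.le, hG.lip, fun n x hx => x_le h hrρ hCr hG n hx,
    fun n x hx => ?_⟩⟩
  have h1 := congrArg (B n) (hfix n x hx)
  have h2 : B n (Gam H B Bi τ n x) =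
    τ (n + 1) (H n (x, τ n x)).1 - ((H n (x, τ n x)).2 - B n (τ n x)) := hBi1 n _
  rw [h2] at h1
  rw [sub_eq_iff_eq_add] at h1
  rw [h1]
  abel

end Pool.Agent.Lib.BedR
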