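import Pool.Agent.Lib.BedR.SpecP

/-!
# Theorem G (MP_6f050a_an, project BedR): transfer of the condition (F) (module Tra)
-/

set_option autoImplicit false

open scoped Manifold ContDiff Topology
open Set Filter Metric
open Pool.Agent.Lib Pool.Agent.Lib.Bed

namespace Pool.Agent.Lib.BedR

namespace TraM

theorem expo (m : ℕ) (hm : 0 < m) (n k : ℕ) (η : ℝ) (hη : 0 < η) :
    ∃ l : ℕ, (n + k) / m = n / m + l ∧
      Real.exp (-(η * l)) ≤ Real.exp η * Real.exp (-(η / m * k)) := by
  have h1 : n / m ≤ (n + k) / m := Nat.div_le_div_right (Nat.le_add_right n k)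
  obtain ⟨l, hl⟩ := Nat.exists_eq_add_of_le h1
  refine ⟨l, hl, ?_⟩
  rw [← Real.exp_add]
  apply Real.exp_le_exp.mpr
  have e1 := Nat.div_add_mod (n + k) m
  have e2 := Nat.div_add_mod n m
  have e3 := Nat.mod_lt (n + k) hm
  rw [hl] at e1
  have h2 : k ≤ m * (l + 1) := by
    rw [mul_add] at e1
    rw [mul_add, mul_one]
    generalize m * l = x at e1 ⊢
    generalize m * (n / m) = y at e1 e2
    generalize (n + k) % m = z at e1 e3
    generalize n % m = t at e2
    omega
  have h3 : (k : ℝ) ≤ m * (l + 1) := by exact_mod_cast h2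
  have hm' : (0 : ℝ) < m := by exact_mod_cast hm
  have h4 : η / m * k ≤ η * (l + 1) := by
    rw [div_mul_eq_mul_div, div_le_iff₀ hm']
    nlinarith
  linarith

end TraM

open TraM in
theorem traP : S_Tra := by
  intro V _ _ N N' m α β r U W S hm hα hβ hN hN0 hcmp hU hF
  have cmp : ∀ n v, α * N (n / m) v ≤ N' n v ∧ N' n v ≤ β * N (n / m) v := by
    intro n v
    have h := hcmp (n / m) (n % m) (Nat.mod_lt n hm) v
    rw [Nat.div_add_mod] at h
    exact h
  have hN' : ∀ n v, 0 ≤ N' n v := fun n v => (mul_nonneg hα.le (hN _ _)).trans (cmp n v).1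
  have low : ∀ n v, N (n / m) v ≤ N' n v / α := by
    intro n v
    rw [le_div_iff₀ hα, mul_comm]
    exact (cmp n v).1
  have hm' : (0 : ℝ) < m := by exact_mod_cast hm
  refine ⟨hF.top, hF.sup, hF.disj, ?_, ?_, ?_⟩
  · obtain ⟨C, η, hC, hη, h⟩ := hF.dom
    refine ⟨(β / α) ^ 2 * C * Real.exp η, η / m, by positivity, by positivity, ?_⟩
    intro i hi n k u hu w hw
    obtain ⟨l, hl, hexp⟩ := expo m hm n k η hη
    have h1 := h i hi (n / m) l u hu w hw
    rw [← hl] at h1
    calc N' (n + k) w * N' n u ≤ (β * N ((n + k) / m) w) * (β * N (n / m) u) :=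
          mul_le_mul (cmp _ _).2 (cmp _ _).2 (hN' _ _) (mul_nonneg hβ.le (hN _ _))
      _ = β ^ 2 * (N ((n + k) / m) w * N (n / m) u) := by ring
      _ ≤ β ^ 2 * (C * Real.exp (-(η * l)) * (N (n / m) w * N ((n + k) / m) u)) :=
          mul_le_mul_of_nonneg_left h1 (by positivity)
      _ ≤ β ^ 2 * (C * (Real.exp η * Real.exp (-(η / m * k))) *
            ((N' n w / α) * (N' (n + k) u / α))) := by
          apply mul_le_mul_of_nonneg_left _ (by positivity)
          apply mul_le_mul
          · exact mul_le_mul_of_nonneg_left hexp hC.le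
          · exact mul_le_mul (low _ _) (low _ _) (hN _ _) (div_nonneg (hN' _ _) hα.le)
          · exact mul_nonneg (hN _ _) (hN _ _)
          · positivity
      _ = _ := by field_simp
  · obtain ⟨C, η, hC, hη, h⟩ := hF.bun
    refine ⟨(β / α) ^ 3 * C * Real.exp η, η / m, by positivity, by positivity, ?_⟩
    intro i hi n k v hv w hw
    obtain ⟨l, hl, hexp⟩ := expo m hm n k η hη
    have h1 := h i hi (n / m) l v hv w hw
    rw [← hl] at h1
    calc N' (n + k) v ^ 2 * N' n w ≤ (β * N ((n + k) / m) v) ^ 2 * (β * N (n / m) w) :=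
          mul_le_mul (pow_le_pow_left₀ (hN' _ _) (cmp _ _).2 2) (cmp _ _).2 (hN' _ _)
            (pow_nonneg (mul_nonneg hβ.le (hN _ _)) 2)
      _ = β ^ 3 * (N ((n + k) / m) v ^ 2 * N (n / m) w) := by ring
      _ ≤ β ^ 3 * (C * Real.exp (-(η * l)) * (N (n / m) v ^ 2 * N ((n + k) / m) w)) :=
          mul_le_mul_of_nonneg_left h1 (by positivity)
      _ ≤ β ^ 3 * (C * (Real.exp η * Real.exp (-(η / m * k))) *
            ((N' n v / α) ^ 2 * (N' (n + k) w / α))) := by
          apply mul_le_mul_of_nonneg_left _ (by positivity)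
          apply mul_le_mul
          · exact mul_le_mul_of_nonneg_left hexp hC.le
          · exact mul_le_mul (pow_le_pow_left₀ (hN _ _) (low _ _) 2) (low _ _) (hN _ _)
              (pow_nonneg (div_nonneg (hN' _ _) hα.le) 2)
          · exact mul_nonneg (pow_nonneg (hN _ _) 2) (hN _ _)
          · positivity
      _ = _ := by field_simp
  · refine ⟨1, 1 / 2, 1 / 2, by norm_num, by norm_num, by norm_num, by norm_num,
      Or.inl (by norm_num), ?_⟩
    intro n k v hv
    rw [hU] at hv
    have h0 : v = 0 := (Submodule.mem_bot ℂ).mp hv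
    rw [h0, hN0, hN0]
    simp

end Pool.Agent.Lib.BedR
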