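import Pool.Agent.Lib.BedR.SpecC
import Pool.Agent.Lib.Bed.UC

/-!
# MP_6f050a_an, project BedR: a finite uniform atlas near a compact set
-/

set_option autoImplicit false

open scoped Manifold ContDiff Topology
open Set Filter Metric
open Pool.Agent.Lib Pool.Agent.Lib.Bed

namespace Pool.Agent.Lib.BedR

open Pool.Agent.Lib.Bed.sUCAux

theorem uatP : S_UAt := by
  classical
  intro hNr hUCf E _ _ _ X _ _ _ nrm hnrm K hK
  -- radii
  have hR : ∀ x₀ : X, ∃ R : ℝ, 0 < R ∧
      closedBall (chartAt E x₀ x₀) (2 * R) ⊆ (chartAt E x₀).target := by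
    intro x₀
    have h1 : (chartAt E x₀).target ∈ 𝓝 (chartAt E x₀ x₀) := chart_target_mem_nhds E x₀
    obtain ⟨r, hr, h2⟩ := (Metric.nhds_basis_closedBall.mem_iff).mp h1
    exact ⟨r / 2, by positivity, by rwa [mul_div_cancel₀ r (two_ne_zero)]⟩
  choose R hRpos hRsub using hR
  let U : X → Set X := fun x₀ =>
    (chartAt E x₀).source ∩ (chartAt E x₀) ⁻¹' ball (chartAt E x₀ x₀) (R x₀)
  have hU : ∀ x₀ ∈ K, U x₀ ∈ 𝓝 x₀ := by
    intro x₀ _
    refine Filter.inter_mem (chart_source_mem_nhds E x₀) ?_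
    exact ((chartAt E x₀).continuousAt (mem_chart_source E x₀)).preimage_mem_nhds
      (ball_mem_nhds _ (hRpos x₀))
  obtain ⟨t, htK, ht⟩ := hK.elim_nhds_subcover U hU
  obtain ⟨ρ, hρ, hρR⟩ := exists_min t R (fun c _ => hRpos c)
  have hsubT : ∀ c : X, closedBall (chartAt E c c) (R c) ⊆ (chartAt E c).target := fun c =>
    (closedBall_subset_closedBall (by linarith [hRpos c])).trans (hRsub c)
  let ok : {c : X // c ∈ t} → Set X := fun i =>
    K ∩ (chartAt E i.1).symm '' closedBall (chartAt E i.1 i.1) (R i.1)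
  have hcb : ∀ i, ∀ x ∈ ok i, chartAt E i.1 x ∈ closedBall (chartAt E i.1 i.1) (R i.1) := by
    rintro i x ⟨_, y, hy, rfl⟩
    rw [(chartAt E i.1).right_inv (hsubT i.1 hy)]
    exact hy
  have hsrc : ∀ i, ∀ x ∈ ok i, x ∈ (chartAt E i.1).source := by
    rintro i x ⟨_, y, hy, rfl⟩
    exact (chartAt E i.1).map_target (hsubT i.1 hy)
  have htgt : ∀ i, ∀ x ∈ ok i, ∀ v ∈ ball (0 : E) ρ, chartAt E i.1 x + v ∈ (chartAt E i.1).target := by
    intro i x hx v hv
    refine hRsub i.1 ?_
    rw [mem_closedBall, dist_eq_norm]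
    have h1 := hcb i x hx
    rw [mem_closedBall, dist_eq_norm] at h1
    rw [mem_ball_zero_iff] at hv
    have h2 := hρR i.1 i.2
    have h3 : chartAt E i.1 x + v - chartAt E i.1 i.1 =
        (chartAt E i.1 x - chartAt E i.1 i.1) + v := by abel
    rw [h3]
    exact (norm_add_le _ _).trans (by linarith)
  have htgt0 : ∀ i, ∀ x ∈ ok i, chartAt E i.1 x ∈ (chartAt E i.1).target := fun i x hx => by
    have := htgt i x hx 0 (mem_ball_self hρ)
    rwa [add_zero] at this
  -- the bounds of the norms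
  have hbd : ∀ c : X, ∃ a b : ℝ, 0 < a ∧ ∀ y ∈ closedBall (chartAt E c c) (R c), ∀ w : E, ‖w‖ = 1 →
      a ≤ nE nrm ((chartAt E c).symm y) (du (chartAt E c).symm y w) ∧
      nE nrm ((chartAt E c).symm y) (du (chartAt E c).symm y w) ≤ b := by
    intro c
    obtain ⟨h1, h2⟩ := hNr E X nrm hnrm c
    have hsub : closedBall (chartAt E c c) (R c) ⊆ (chartAt E c).target := hsubT c
    have hcomp : IsCompact (closedBall (chartAt E c c) (R c) ×ˢ sphere (0 : E) 1) :=
      (isCompact_closedBall _ _).prod (isCompact_sphere _ _)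
    obtain ⟨a, b, ha, h3⟩ := exists_bounds hcomp
      (h1.mono (Set.prod_mono hsub (Set.subset_univ _))) (by
        rintro ⟨y, w⟩ ⟨hy, hw⟩
        refine hnrm.pos _ _ fun h0 => ?_
        have h4 := h2 y (hsub hy) w h0
        rw [mem_sphere_zero_iff_norm] at hw
        simp only at hw
        rw [h4, norm_zero] at hw
        exact zero_ne_one hw)
    refine ⟨a, b, ha, fun y hy w hw => ?_⟩
    exact h3 (y, w) ⟨hy, by rw [mem_sphere_zero_iff_norm]; exact hw⟩
  choose aa bb haa hbnd using hbd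
  obtain ⟨a, ha, haa'⟩ := exists_min t aa (fun c _ => haa c)
  obtain ⟨b, hb, hbb'⟩ := exists_max t bb
  let ψ : {c : X // c ∈ t} → X → E → X := fun i x v => (chartAt E i.1).symm (chartAt E i.1 x + v)
  let χ : {c : X // c ∈ t} → X → X → E := fun i x q => chartAt E i.1 q - chartAt E i.1 x
  have hmsymm : ∀ c : X, ∀ y ∈ (chartAt E c).target,
      MDifferentiableAt 𝓘(ℂ, E) 𝓘(ℂ, E) (chartAt E c).symm y := fun c y hy =>
    mdifferentiableAt_atlas_symm (chart_mem_atlas E c) hy
  have hm : ∀ c : X, ∀ y ∈ (chartAt E c).source,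
      MDifferentiableAt 𝓘(ℂ, E) 𝓘(ℂ, E) (chartAt E c) y := fun c y hy =>
    mdifferentiableAt_atlas (chart_mem_atlas E c) hy
  have hzero : ∀ i, ∀ x ∈ ok i, ψ i x 0 = x := by
    intro i x hx
    show (chartAt E i.1).symm (chartAt E i.1 x + 0) = x
    rw [add_zero]
    exact (chartAt E i.1).left_inv (hsrc i x hx)
  have hdu : ∀ i, ∀ x ∈ ok i, ∀ w : E, du (ψ i x) 0 w = du (chartAt E i.1).symm (chartAt E i.1 x) w :=
    fun i x hx w => du_trans _ _ (hmsymm _ _ (htgt0 i x hx)) w
  have hnE0 : ∀ x : X, nE nrm x 0 = 0 := by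
    intro x
    have h1 := hnrm.smul x 0 (0 : E)
    have h2 : (((0 : ℝ) : ℂ) • (0 : E)) = (0 : E) := smul_zero _
    rw [abs_zero, zero_mul] at h1
    rw [show nE nrm x 0 = nrm x (((0 : ℝ) : ℂ) • (0 : E)) by rw [h2]; rfl]
    exact h1
  have hnE : ∀ i, ∀ x ∈ ok i, ∀ w : E, a * ‖w‖ ≤ nE nrm x (du (ψ i x) 0 w) ∧
      nE nrm x (du (ψ i x) 0 w) ≤ b * ‖w‖ := by
    intro i x hx w
    by_cases hw : w = 0
    · subst hw
      rw [map_zero, hnE0, norm_zero, mul_zero, mul_zero]
      exact ⟨le_rfl, le_rfl⟩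
    · have hwn : 0 < ‖w‖ := norm_pos_iff.mpr hw
      set w' : E := ((‖w‖ : ℂ))⁻¹ • w with hw'
      have hw'1 : ‖w'‖ = 1 := by
        rw [hw', norm_smul, norm_inv, Complex.norm_real, norm_norm, inv_mul_cancel₀ hwn.ne']
      have hww : w = ((‖w‖ : ℝ) : ℂ) • w' := by
        rw [hw', smul_smul, mul_inv_cancel₀ (by exact_mod_cast hwn.ne'), one_smul]
      have h1 := hbnd i.1 (chartAt E i.1 x) (hcb i x hx) w' hw'1
      rw [(chartAt E i.1).left_inv (hsrc i x hx), ← hdu i x hx] at h1
      have h2 : nE nrm x (du (ψ i x) 0 w) = ‖w‖ * nE nrm x (du (ψ i x) 0 w') := by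
        conv_lhs => rw [hww]
        rw [map_smul]
        have h3 := hnrm.smul x ‖w‖ (du (ψ i x) 0 w')
        rw [abs_of_pos hwn] at h3
        exact h3
      rw [h2]
      have h4 := haa' i.1 i.2
      have h5 := hbb' i.1 i.2
      constructor
      · rw [mul_comm]
        exact mul_le_mul_of_nonneg_left (h4.trans h1.1) hwn.le
      · rw [mul_comm b]
        exact mul_le_mul_of_nonneg_left (h1.2.trans h5) hwn.le
  refine ⟨{c : X // c ∈ t}, ok, ψ, χ, ρ, a, b, inferInstance, fun i => Set.inter_subset_left,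
    ⟨hρ, ha, hb, ?_, ?_, hzero, ?_, ?_, ?_, ?_, ?_, fun i x hx w => (hnE i x hx w).1,
    fun i x hx w => (hnE i x hx w).2, ?_⟩⟩
  · -- cover
    intro x hx
    have := ht hx
    simp only [Set.mem_iUnion, exists_prop] at this
    obtain ⟨c, hct, hcU⟩ := this
    exact ⟨⟨c, hct⟩, hx, chartAt E c x, ball_subset_closedBall hcU.2, (chartAt E c).left_inv hcU.1⟩
  · -- closed
    intro i
    exact hK.isClosed.inter ((isCompact_closedBall _ _).image_of_continuousOn
      ((chartAt E i.1).continuousOn_symm.mono (hsubT i.1))).isClosed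
  · intro i x hx v hv
    exact (hmsymm i.1 _ (htgt i x hx v hv)).comp v (mdiff_add _ v)
  · intro i x hx v hv
    show chartAt E i.1 ((chartAt E i.1).symm (chartAt E i.1 x + v)) - chartAt E i.1 x = v
    rw [(chartAt E i.1).right_inv (htgt i x hx v hv)]
    abel
  · intro i x hx v hv
    have h1 : ψ i x v ∈ (chartAt E i.1).source :=
      (chartAt E i.1).map_target (htgt i x hx v hv)
    have h2 : MDifferentiableAt 𝓘(ℂ, E) 𝓘(ℂ, E) (fun y => y - chartAt E i.1 x)
        (chartAt E i.1 (ψ i x v)) :=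
      (by fun_prop : DifferentiableAt ℂ (fun y => y - chartAt E i.1 x)
        (chartAt E i.1 (ψ i x v))).mdifferentiableAt
    exact h2.comp (ψ i x v) (hm i.1 _ h1)
  · intro ε hε
    have h1 : ∀ c : X, ∃ δ > 0, ∀ y ∈ closedBall (chartAt E c c) (R c), ∀ q, dist q y < δ →
        q ∈ (chartAt E c).target ∧ dist ((chartAt E c).symm q) ((chartAt E c).symm y) < ε := by
      intro c
      exact hUCf E X (closedBall (chartAt E c c) (R c)) (chartAt E c).target (chartAt E c).symm
        (isCompact_closedBall _ _) (chartAt E c).open_target (hsubT c) (chartAt E c).continuousOn_symm ε hε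
    choose δ hδ h2 using h1
    obtain ⟨δ', hδ', h3⟩ := exists_min t δ (fun c _ => hδ c)
    refine ⟨δ', hδ', fun i x hx v hv hvδ => ?_⟩
    have h4 := h2 i.1 (chartAt E i.1 x) (hcb i x hx)
      (chartAt E i.1 x + v) (by
        rw [dist_self_add_left]
        exact hvδ.trans_le (h3 i.1 i.2))
    have h5 := h4.2
    rwa [(chartAt E i.1).left_inv (hsrc i x hx)] at h5
  · intro ε hε
    have h1 : ∀ c : X, ∃ δ > 0, ∀ y ∈ (chartAt E c).symm '' closedBall (chartAt E c c) (R c),
        ∀ q, dist q y < δ →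
        q ∈ (chartAt E c).source ∧ dist (chartAt E c q) (chartAt E c y) < min ε ρ := by
      intro c
      refine hUCf X E _ (chartAt E c).source (chartAt E c)
        ((isCompact_closedBall _ _).image_of_continuousOn
          ((chartAt E c).continuousOn_symm.mono (hsubT c))) (chartAt E c).open_source ?_
        (chartAt E c).continuousOn (min ε ρ) (lt_min hε hρ)
      rintro _ ⟨y, hy, rfl⟩
      exact (chartAt E c).map_target (hsubT c hy)
    choose δ hδ h2 using h1
    obtain ⟨δ', hδ', h3⟩ := exists_min t δ (fun c _ => hδ c)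
    refine ⟨δ', hδ', fun i x hx q hq => ?_⟩
    have h4 := h2 i.1 x ⟨chartAt E i.1 x, hcb i x hx,
      (chartAt E i.1).left_inv (hsrc i x hx)⟩ q (hq.trans_le (h3 i.1 i.2))
    obtain ⟨h5, h6⟩ := h4
    rw [dist_eq_norm] at h6
    refine ⟨chartAt E i.1 q - chartAt E i.1 x, ?_, h6.trans_le (min_le_left _ _), ?_⟩
    · rw [mem_ball_zero_iff]
      exact h6.trans_le (min_le_right _ _)
    · show (chartAt E i.1).symm (chartAt E i.1 x + (chartAt E i.1 q - chartAt E i.1 x)) = q
      rw [add_sub_cancel]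
      exact (chartAt E i.1).left_inv h5
  · -- continuity
    intro i
    have h1 : ContinuousOn (fun q : X × E => chartAt E i.1 q.1 + q.2) (ok i ×ˢ ball (0 : E) ρ) := by
      refine ContinuousOn.add ?_ continuous_snd.continuousOn
      exact (chartAt E i.1).continuousOn.comp continuous_fst.continuousOn
        (fun q hq => hsrc i q.1 hq.1)
    exact (chartAt E i.1).continuousOn_symm.comp h1 (fun q hq => htgt i q.1 hq.1 q.2 hq.2)

end Pool.Agent.Lib.BedR
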