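import Pool.Agent.Lib.BedR.SpecC

/-!
# Theorem G: equicontinuous pointwise convergence is uniform (`S_UlE`)
-/

set_option autoImplicit false

open scoped Manifold ContDiff Topology
open Set Filter Metric
open Pool.Agent.Lib Pool.Agent.Lib.Bed

namespace Pool.Agent.Lib.BedR

theorem uleP : S_UlE := by
  intro V W _ _ _ _ _ I U G H ρ L hρ hL hpt
  haveI : ProperSpace V := FiniteDimensional.proper ℂ V
  set L' : ℝ := max L 1 with hL'
  have hL'0 : 0 < L' := lt_of_lt_of_le one_pos (le_max_right _ _)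
  have hlip : ∀ᶠ a in (U : Filter I), ∀ v ∈ ball (0 : V) ρ, ∀ v' ∈ ball (0 : V) ρ,
      ‖G a v - G a v'‖ ≤ L' * ‖v - v'‖ := by
    filter_upwards [hL] with a ha v hv v' hv'
    exact (ha v hv v' hv').trans (mul_le_mul_of_nonneg_right (le_max_left _ _) (norm_nonneg _))
  have hH : ∀ v ∈ ball (0 : V) ρ, ∀ v' ∈ ball (0 : V) ρ, ‖H v - H v'‖ ≤ L' * ‖v - v'‖ := by
    intro v hv v' hv'
    have ht : Tendsto (fun a => ‖G a v - G a v'‖) (U : Filter I) (𝓝 ‖H v - H v'‖) :=
      ((hpt v hv).sub (hpt v' hv')).norm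
    refine le_of_tendsto ht ?_
    filter_upwards [hlip] with a ha
    exact ha v hv v' hv'
  rw [Metric.tendstoUniformlyOn_iff]
  intro ε hε
  have hδ : 0 < ε / (4 * L') := by positivity
  obtain ⟨t, hts, htf, htc⟩ := (isCompact_closedBall (0 : V) (ρ / 2)).finite_cover_balls hδ
  have hsub : closedBall (0 : V) (ρ / 2) ⊆ ball (0 : V) ρ := closedBall_subset_ball (by linarith)
  have hev : ∀ᶠ a in (U : Filter I), ∀ x ∈ t, ‖G a x - H x‖ < ε / 4 := by
    rw [Filter.eventually_all_finite htf]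
    intro x hx
    have h1 := (Metric.tendsto_nhds.1 (hpt x (hsub (hts hx)))) (ε / 4) (by positivity)
    filter_upwards [h1] with a ha
    rwa [dist_eq_norm] at ha
  filter_upwards [hlip, hev] with a ha ha' v hv
  have hvc : v ∈ closedBall (0 : V) (ρ / 2) := ball_subset_closedBall hv
  have hvρ : v ∈ ball (0 : V) ρ := hsub hvc
  obtain ⟨x, hx, hvx⟩ := mem_iUnion₂.1 (htc hvc)
  have hxρ : x ∈ ball (0 : V) ρ := hsub (hts hx)
  have hd : ‖v - x‖ < ε / (4 * L') := by rwa [mem_ball, dist_eq_norm] at hvx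
  have hd2 : L' * ‖v - x‖ < ε / 4 := by
    have h2 : L' * ‖v - x‖ < L' * (ε / (4 * L')) := mul_lt_mul_of_pos_left hd hL'0
    have h3 : L' * (ε / (4 * L')) = ε / 4 := by field_simp
    linarith
  have e1 := ha v hvρ x hxρ
  have e2 := ha' x hx
  have e3 := hH v hvρ x hxρ
  have e4 : H v - G a v = (H v - H x) - (G a x - H x) - (G a v - G a x) := by abel
  rw [dist_eq_norm, e4]
  have e5 : ‖(H v - H x) - (G a x - H x) - (G a v - G a x)‖ ≤
      ‖H v - H x‖ + ‖G a x - H x‖ + ‖G a v - G a x‖ :=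
    (norm_sub_le _ _).trans (add_le_add (norm_sub_le _ _) le_rfl)
  linarith

end Pool.Agent.Lib.BedR
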