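import Pool.Agent.Lib.BedR.SpecC

set_option autoImplicit false

open scoped Manifold ContDiff Topology
open Set Filter Metric
open Pool.Agent.Lib Pool.Agent.Lib.Bed

namespace Pool.Agent.Lib.BedR

theorem UlFM.clmApply {F G α : Type} [NormedAddCommGroup F] [NormedSpace ℂ F] [NormedAddCommGroup G]
    [NormedSpace ℂ G] {l : Filter α} {f : α → F →L[ℂ] G} {g : F →L[ℂ] G} {x : α → F} {y : F}
    (hf : Tendsto f l (𝓝 g)) (hx : Tendsto x l (𝓝 y)) :
    Tendsto (fun a => f a (x a)) l (𝓝 (g y)) :=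
  (isBoundedBilinearMap_apply.continuous.tendsto (g, y)).comp (hf.prodMk_nhds hx)

theorem ulfP : S_Bdl → S_UlF := by
  intro hB W E _ _ _ _ _ _ I U e C₁ hC he
  have h1 : ∀ᶠ a in (U : Filter I), ‖(e a : W →L[ℂ] E)‖ ≤ C₁ := by
    filter_upwards [he] with a ha
    exact ContinuousLinearMap.opNorm_le_bound _ hC.le (fun v => ha.1 v)
  have h2 : ∀ᶠ a in (U : Filter I), ‖((e a).symm : E →L[ℂ] W)‖ ≤ C₁ := by
    filter_upwards [he] with a ha
    refine ContinuousLinearMap.opNorm_le_bound _ hC.le (fun w => ?_)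
    have h := ha.2 ((e a).symm w)
    simpa using h
  obtain ⟨h, -, hh⟩ := hB (W →L[ℂ] E) I U (fun a => (e a : W →L[ℂ] E)) C₁ h1
  obtain ⟨g, -, hg⟩ := hB (E →L[ℂ] W) I U (fun a => ((e a).symm : E →L[ℂ] W)) C₁ h2
  have hgh : ∀ v, g (h v) = v := by
    intro v
    have t0 : Tendsto (fun a => (e a : W →L[ℂ] E) v) U (𝓝 (h v)) := UlFM.clmApply hh tendsto_const_nhds
    have t1 : Tendsto (fun a => ((e a).symm : E →L[ℂ] W) ((e a : W →L[ℂ] E) v)) U (𝓝 (g (h v))) :=
      UlFM.clmApply hg t0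
    have e1 : (fun a => ((e a).symm : E →L[ℂ] W) ((e a : W →L[ℂ] E) v)) = fun _ => v := by
      funext a
      simp
    rw [e1] at t1
    exact tendsto_nhds_unique t1 tendsto_const_nhds
  have hhg : ∀ w, h (g w) = w := by
    intro w
    have t0 : Tendsto (fun a => ((e a).symm : E →L[ℂ] W) w) U (𝓝 (g w)) := UlFM.clmApply hg tendsto_const_nhds
    have t1 : Tendsto (fun a => (e a : W →L[ℂ] E) (((e a).symm : E →L[ℂ] W) w)) U (𝓝 (h (g w))) :=
      UlFM.clmApply hh t0
    have e1 : (fun a => (e a : W →L[ℂ] E) (((e a).symm : E →L[ℂ] W) w)) = fun _ => w := by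
      funext a
      simp
    rw [e1] at t1
    exact tendsto_nhds_unique t1 tendsto_const_nhds
  let e' : W ≃L[ℂ] E := ContinuousLinearEquiv.equivOfInverse h g hgh hhg
  have hcoe : (e' : W →L[ℂ] E) = h := by
    ext v
    rfl
  have hval : ∀ v, e' v = h v := fun v => rfl
  have tv : ∀ v, Tendsto (fun a => ‖e a v‖) U (𝓝 ‖e' v‖) := by
    intro v
    have t0 : Tendsto (fun a => (e a : W →L[ℂ] E) v) U (𝓝 (h v)) := UlFM.clmApply hh tendsto_const_nhds
    rw [hval]
    exact t0.norm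
  refine ⟨e', ?_, ?_, ?_⟩
  · intro v
    refine le_of_tendsto (tv v) ?_
    filter_upwards [he] with a ha
    exact ha.1 v
  · intro v
    refine ge_of_tendsto ((tv v).const_mul C₁) ?_
    filter_upwards [he] with a ha
    exact ha.2 v
  · rw [hcoe]
    exact hh

end Pool.Agent.Lib.BedR
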