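import Pool.Agent.Lib.BedR.SpecC

/-!
# Limits of the parametrisations (MP_6f050a_an, Theorem G)

The statement `S_UlP` of `BedR/SpecC.lean`.
-/

set_option autoImplicit false

open scoped Manifold ContDiff Topology
open Set Filter Metric
open Pool.Agent.Lib Pool.Agent.Lib.Bed

namespace Pool.Agent.Lib.BedR

theorem ulpP : S_UlP := by
  intro E _ _ _ X _ _ nrm f K ι ok ψ χ ρ a₀ b₀ N ρ₀ ρ' C₁ C c k l I U p q i e j e' n v v'
    hf hU hC hp hev he' hte htv hv'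
  have hfN : Continuous (f^[N * n]) := hf.iterate _
  have hx : Tendsto (fun a => f^[N * n] (p a)) U (𝓝 (f^[N * n] q)) :=
    (hfN.tendsto q).comp hp
  have hok : f^[N * n] q ∈ ok (j n) :=
    (hU.closed (j n)).mem_of_tendsto hx (hev.mono fun a h => h.2)
  refine ⟨hok, ?_⟩
  have he2 : Tendsto (fun a => e a n (v a)) U (𝓝 (e' n v')) := by
    have h1 : Tendsto (fun a => (e a n : V k l →L[ℂ] E) (v a)) U
        (𝓝 ((e' n : V k l →L[ℂ] E) v')) :=
      (isBoundedBilinearMap_apply.continuous.tendsto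
        ((e' n : V k l →L[ℂ] E), v')).comp (hte.prodMk_nhds htv)
    exact h1
  have hlt : ‖e' n v'‖ < ρ := by
    have h1 : C₁ * ‖v'‖ < C₁ * ρ₀ := mul_lt_mul_of_pos_left hv' hC.C₁_pos
    exact lt_of_le_of_lt (he' v') (lt_of_lt_of_le h1 hC.C₁_le)
  have hmem : (f^[N * n] q, e' n v') ∈ ok (j n) ×ˢ ball (0 : E) ρ :=
    ⟨hok, mem_ball_zero_iff.2 hlt⟩
  have hcw := hU.cont (j n) _ hmem
  have hpair : Tendsto (fun a => (f^[N * n] (p a), e a n (v a))) U
      (𝓝[ok (j n) ×ˢ ball (0 : E) ρ] (f^[N * n] q, e' n v')) := by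
    refine tendsto_nhdsWithin_iff.2 ⟨hx.prodMk_nhds he2, ?_⟩
    have h2 : ∀ᶠ a in (U : Filter I), e a n (v a) ∈ ball (0 : E) ρ :=
      he2 (isOpen_ball.mem_nhds (mem_ball_zero_iff.2 hlt))
    filter_upwards [hev, h2] with a h3 h4
    exact ⟨h3.2, h4⟩
  have hlim : Tendsto (fun a => ψ (j n) (f^[N * n] (p a)) (e a n (v a))) U
      (𝓝 (ψ (j n) (f^[N * n] q) (e' n v'))) := hcw.tendsto.comp hpair
  refine Tendsto.congr' ?_ hlim
  filter_upwards [hev] with a h3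
  change ψ (j n) (f^[N * n] (p a)) (e a n (v a)) = ψ (i a n) (f^[N * n] (p a)) (e a n (v a))
  rw [h3.1]

end Pool.Agent.Lib.BedR
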