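import Pool.Agent.Lib.BedR.SpecC

/-!
# Theorem G (MP_6f050a_an), Ult: limits of data along an ultrafilter
-/

set_option autoImplicit false

open scoped Manifold ContDiff Topology
open Set Filter Metric
open Pool.Agent.Lib Pool.Agent.Lib.Bed

namespace Pool.Agent.Lib.BedR

namespace UltM

section

variable {E : Type} [NormedAddCommGroup E] [NormedSpace ℂ E] {X : Type} [MetricSpace X]
  [ChartedSpace E X]

theorem iter_diff {g : X → X} (hg : MDifferentiable 𝓘(ℂ, E) 𝓘(ℂ, E) g) (m : ℕ) :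
    MDifferentiable 𝓘(ℂ, E) 𝓘(ℂ, E) (g^[m]) := by
  induction m with
  | zero => exact mdifferentiable_id
  | succ m ih =>
    rw [Function.iterate_succ']
    exact hg.comp ih

end

/-- An ultrafilter limit in a finite type. -/
theorem exists_const {I ι : Type} [Finite ι] (U : Ultrafilter I) (i : I → ι) :
    ∃ s : ι, ∀ᶠ a in (U : Filter I), i a = s := by
  obtain ⟨s, hs⟩ := (U.map i).eq_pure_of_finite
  refine ⟨s, ?_⟩
  have h1 : ({s} : Set ι) ∈ U.map i := by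
    rw [hs]
    exact Ultrafilter.mem_pure.2 rfl
  exact h1

variable {k l : ℕ}

/-- The bound for the linear part `B`. -/
theorem B_bound {H : ℕ → V k l → V k l} {A : ℕ → (Fin k → ℂ) →L[ℂ] (Fin k → ℂ)}
    {B : ℕ → (Fin l → ℂ) →L[ℂ] (Fin l → ℂ)} {ρ C c ρ₀ : ℝ} (h : AdH k l H A B ρ C c) (n : ℕ)
    (hm : ∀ v ∈ ball (0 : V k l) ρ, ‖H n v‖ ≤ ρ₀ / 2) (y : Fin l → ℂ) :
    ‖B n y‖ ≤ (ρ₀ / 2 + C * ρ ^ 2) * (2 / ρ) * ‖y‖ := by
  have hρ := h.ρ_pos
  have hC := h.C_pos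
  rcases eq_or_ne y 0 with rfl | hy
  · simp
  have hy0 : 0 < ‖y‖ := norm_pos_iff.2 hy
  set s : ℝ := ρ / 2 / ‖y‖ with hs
  have hs0 : 0 < s := by positivity
  set y' : Fin l → ℂ := (s : ℂ) • y with hy'
  have hn : ‖y'‖ = ρ / 2 := by
    rw [hy', norm_smul, Complex.norm_real, Real.norm_of_nonneg hs0.le, hs]
    field_simp
  set v : V k l := (0, y') with hv
  have hvn : ‖v‖ = ρ / 2 := by
    rw [hv, Prod.norm_mk, norm_zero, hn]
    exact max_eq_right (by positivity)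
  have hvb : v ∈ ball (0 : V k l) ρ := by
    rw [mem_ball_zero_iff, hvn]
    linarith
  have h0b : (0 : V k l) ∈ ball (0 : V k l) ρ := mem_ball_self hρ
  have h1 := h.quad n v hvb 0 h0b
  have h2 : (A n (0 : V k l).1, B n (0 : V k l).2) = (0 : V k l) := by
    rw [Prod.fst_zero, Prod.snd_zero, map_zero, map_zero]
    rfl
  rw [h2, h.zero n, sub_zero, sub_zero, sub_zero, norm_zero, add_zero, hvn] at h1
  have h3 : ‖(A n v.1, B n v.2)‖ ≤ ρ₀ / 2 + C * ρ ^ 2 := by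
    have h4 : ((A n v.1, B n v.2) : V k l) = H n v - (H n v - (A n v.1, B n v.2)) := by
      rw [sub_sub_cancel]
    rw [h4]
    refine (norm_sub_le _ _).trans ?_
    have h5 := hm v hvb
    have h6 : C * (ρ / 2) * (ρ / 2) ≤ C * ρ ^ 2 := by
      have h7 : 0 < C * ρ ^ 2 := by positivity
      nlinarith
    linarith
  have h4 : ‖B n y'‖ ≤ ρ₀ / 2 + C * ρ ^ 2 := by
    have h5 : ‖B n v.2‖ ≤ ‖((A n v.1, B n v.2) : V k l)‖ := norm_snd_le ((A n v.1, B n v.2) : V k l)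
    exact h5.trans h3
  have h5 : ‖B n y'‖ = s * ‖B n y‖ := by
    rw [hy', map_smul, norm_smul, Complex.norm_real, Real.norm_of_nonneg hs0.le]
  rw [h5] at h4
  have h6 : ‖B n y‖ = s⁻¹ * (s * ‖B n y‖) := by
    rw [inv_mul_cancel_left₀ hs0.ne']
  rw [h6]
  have h7 : s⁻¹ = 2 / ρ * ‖y‖ := by
    rw [hs]
    field_simp
  have h8 : s⁻¹ * (s * ‖B n y‖) ≤ s⁻¹ * (ρ₀ / 2 + C * ρ ^ 2) :=
    mul_le_mul_of_nonneg_left h4 (by positivity)
  refine h8.trans (le_of_eq ?_)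
  rw [h7]
  ring

/-- The Lipschitz constant of `H n`. -/
theorem H_lip {H : ℕ → V k l → V k l} {A : ℕ → (Fin k → ℂ) →L[ℂ] (Fin k → ℂ)}
    {B : ℕ → (Fin l → ℂ) →L[ℂ] (Fin l → ℂ)} {ρ C c M : ℝ} (h : AdH k l H A B ρ C c) (n : ℕ)
    (hM : 0 ≤ M) (hB : ∀ y, ‖B n y‖ ≤ M * ‖y‖) :
    ∀ v ∈ ball (0 : V k l) ρ, ∀ v' ∈ ball (0 : V k l) ρ,
      ‖H n v - H n v'‖ ≤ (1 / 8 + M + C * (ρ + ρ)) * ‖v - v'‖ := by
  intro v hv v' hv'
  have hρ := h.ρ_pos
  have hC := h.C_pos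
  have h1 := h.quad n v hv v' hv'
  rw [mem_ball_zero_iff] at hv hv'
  have h2 : H n v - H n v' = ((H n v - (A n v.1, B n v.2)) - (H n v' - (A n v'.1, B n v'.2))) +
      ((A n (v - v').1, B n (v - v').2) : V k l) := by
    have h3 : ((A n (v - v').1, B n (v - v').2) : V k l) =
        (A n v.1, B n v.2) - (A n v'.1, B n v'.2) := by
      rw [Prod.fst_sub, Prod.snd_sub, map_sub, map_sub]
      rfl
    rw [h3]
    abel
  have h3 : ‖((A n (v - v').1, B n (v - v').2) : V k l)‖ ≤ (1 / 8 + M) * ‖v - v'‖ := by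
    rw [Prod.norm_mk]
    have h4 := h.A_le n (v - v').1
    have h5 := hB (v - v').2
    have h6 := norm_fst_le (v - v')
    have h7 := norm_snd_le (v - v')
    have h8 := norm_nonneg (v - v')
    have h9 := mul_le_mul_of_nonneg_left h7 hM
    have h10 := mul_nonneg hM h8
    apply max_le
    · nlinarith
    · nlinarith
  have h4 : C * (‖v‖ + ‖v'‖) * ‖v - v'‖ ≤ C * (ρ + ρ) * ‖v - v'‖ := by
    apply mul_le_mul_of_nonneg_right _ (norm_nonneg _)
    apply mul_le_mul_of_nonneg_left _ hC.le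
    linarith
  rw [h2]
  refine (norm_add_le _ _).trans ?_
  have h5 : (1 / 8 + M + C * (ρ + ρ)) * ‖v - v'‖ =
      C * (ρ + ρ) * ‖v - v'‖ + (1 / 8 + M) * ‖v - v'‖ := by ring
  rw [h5]
  exact add_le_add (h1.trans h4) h3

end UltM

open UltM

theorem ultP : S_Bdl → S_UlF → S_UlP → S_UlE → S_Ult := by
  intro hBdl hUlF hUlP hUlE E _ _ _ X _ _ nrm f K ι ok ψ χ ρ a₀ b₀ N ρ₀ ρ' C₁ C c k l I U p q i e H A
    B hfin hf hU hc hp hD
  have hρ' := hc.ρ'_pos
  have hρ₀ : 0 < ρ₀ := hρ'.trans_le hc.le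
  have hC₁ := hc.C₁_pos
  have hC := hc.C_pos
  have hfc : Continuous f := hf.continuous
  -- chart indices
  have hj : ∀ n, ∃ s : ι, ∀ᶠ a in (U : Filter I), i a n = s := fun n => exists_const U fun a => i a n
  choose j hj using hj
  have hmem : ∀ n, ∀ᶠ a in (U : Filter I), i a n = j n ∧ f^[N * n] (p a) ∈ ok (j n) := by
    intro n
    filter_upwards [hj n, hD] with a ha hDa
    refine ⟨ha, ?_⟩
    rw [← ha]
    exact hDa.mem n
  -- frames
  have he : ∀ n, ∃ e' : V k l ≃L[ℂ] E, (∀ v, ‖e' v‖ ≤ C₁ * ‖v‖) ∧ (∀ v, ‖v‖ ≤ C₁ * ‖e' v‖) ∧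
      Tendsto (fun a => (e a n : V k l →L[ℂ] E)) U (𝓝 (e' : V k l →L[ℂ] E)) := fun n =>
    hUlF (V k l) E I U (fun a => e a n) C₁ hC₁ (hD.mono fun a h => ⟨h.up n, h.low n⟩)
  choose e' heu hel het using he
  -- linear parts
  have hA : ∀ n, ∃ A' : (Fin k → ℂ) →L[ℂ] (Fin k → ℂ), ‖A'‖ ≤ 1 / 8 ∧
      Tendsto (fun a => A a n) U (𝓝 A') := by
    intro n
    refine hBdl _ I U (fun a => A a n) (1 / 8) (hD.mono fun a h => ?_)
    exact ContinuousLinearMap.opNorm_le_bound _ (by norm_num) (h.adh.A_le n)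
  choose A' hAb hAt using hA
  set M : ℝ := (ρ₀ / 2 + C * ρ' ^ 2) * (2 / ρ') with hMdef
  have hM : 0 ≤ M := by positivity
  have hBd : ∀ n, ∀ᶠ a in (U : Filter I), ∀ y, ‖B a n y‖ ≤ M * ‖y‖ := by
    intro n
    filter_upwards [hD] with a h y
    exact B_bound h.adh n (h.maps n) y
  have hB : ∀ n, ∃ B' : (Fin l → ℂ) →L[ℂ] (Fin l → ℂ), ‖B'‖ ≤ M ∧
      Tendsto (fun a => B a n) U (𝓝 B') := by
    intro n
    refine hBdl _ I U (fun a => B a n) M ((hBd n).mono fun a h => ?_)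
    exact ContinuousLinearMap.opNorm_le_bound _ hM h
  choose B' hBb hBt using hB
  -- the maps
  have hH : ∀ n (v : V k l), ∃ w : V k l, v ∈ ball (0 : V k l) ρ' →
      ‖w‖ ≤ ρ₀ / 2 ∧ Tendsto (fun a => H a n v) U (𝓝 w) := by
    intro n v
    by_cases hv : v ∈ ball (0 : V k l) ρ'
    · obtain ⟨w, hw1, hw2⟩ := hBdl (V k l) I U (fun a => H a n v) (ρ₀ / 2)
        (hD.mono fun a h => h.maps n v hv)
      exact ⟨w, fun _ => ⟨hw1, hw2⟩⟩
    · exact ⟨0, fun h => absurd h hv⟩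
  choose H' hH' using hH
  have hHb : ∀ n, ∀ v ∈ ball (0 : V k l) ρ', ‖H' n v‖ ≤ ρ₀ / 2 := fun n v hv => (hH' n v hv).1
  have hHt : ∀ n, ∀ v ∈ ball (0 : V k l) ρ', Tendsto (fun a => H a n v) U (𝓝 (H' n v)) :=
    fun n v hv => (hH' n v hv).2
  -- pointwise limits of the linear parts
  have hAp : ∀ n x, Tendsto (fun a => A a n x) U (𝓝 (A' n x)) := fun n x =>
    ((ContinuousLinearMap.apply ℂ (Fin k → ℂ) x).continuous.tendsto (A' n)).comp (hAt n)
  have hBp : ∀ n y, Tendsto (fun a => B a n y) U (𝓝 (B' n y)) := fun n y =>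
    ((ContinuousLinearMap.apply ℂ (Fin l → ℂ) y).continuous.tendsto (B' n)).comp (hBt n)
  -- limits of the parametrisations
  have hP : ∀ n (v : I → V k l) (v' : V k l), Tendsto v U (𝓝 v') → ‖v'‖ < ρ₀ →
      f^[N * n] q ∈ ok (j n) ∧
        Tendsto (fun a => Pn f ψ N (p a) (i a) (e a) n (v a)) U (𝓝 (Pn f ψ N q j e' n v')) := by
    intro n v v' hv hv'
    exact hUlP E X nrm f K ι ok ψ χ ρ a₀ b₀ N ρ₀ ρ' C₁ C c k l I U p q i e j e' n v v' hfc hU hc hp
      (hmem n) (heu n) (het n) hv hv'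
  have hok : ∀ n, f^[N * n] q ∈ ok (j n) := by
    intro n
    refine (hP n (fun _ => 0) 0 tendsto_const_nhds ?_).1
    rw [norm_zero]
    exact hρ₀
  have hball : ∀ v ∈ ball (0 : V k l) ρ', ‖v‖ < ρ₀ := fun v hv =>
    (mem_ball_zero_iff.1 hv).trans_le hc.le
  have hcomm : ∀ n, ∀ v ∈ ball (0 : V k l) ρ',
      Pn f ψ N q j e' (n + 1) (H' n v) = f^[N] (Pn f ψ N q j e' n v) := by
    intro n v hv
    have h1 := (hP (n + 1) (fun a => H a n v) (H' n v) (hHt n v hv)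
      ((hHb n v hv).trans_lt (by linarith))).2
    have h2 := (hP n (fun _ => v) v tendsto_const_nhds (hball v hv)).2
    have h3 := (((hfc.iterate N).tendsto (Pn f ψ N q j e' n v)).comp h2)
    refine tendsto_nhds_unique_of_eventuallyEq h1 h3 ?_
    filter_upwards [hD] with a h
    exact h.comm n v hv
  have heρ : ∀ n (v : V k l), ‖v‖ < ρ₀ → e' n v ∈ ball (0 : E) ρ := by
    intro n v hv
    rw [mem_ball_zero_iff]
    calc ‖e' n v‖ ≤ C₁ * ‖v‖ := heu n v
      _ < C₁ * ρ₀ := mul_lt_mul_of_pos_left hv hC₁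
      _ ≤ ρ := hc.C₁_le
  have hdiff : ∀ n, DifferentiableOn ℂ (H' n) (ball 0 ρ') := by
    intro n
    set g : E → E := fun w => χ (j (n + 1)) (f^[N * (n + 1)] q) (f^[N] (ψ (j n) (f^[N * n] q) w)) with hg
    have h1 : ∀ v ∈ ball (0 : V k l) ρ', f^[N] (ψ (j n) (f^[N * n] q) (e' n v)) =
        ψ (j (n + 1)) (f^[N * (n + 1)] q) (e' (n + 1) (H' n v)) := by
      intro v hv
      exact (hcomm n v hv).symm
    have hHρ : ∀ v ∈ ball (0 : V k l) ρ', e' (n + 1) (H' n v) ∈ ball (0 : E) ρ := fun v hv =>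
      heρ (n + 1) (H' n v) ((hHb n v hv).trans_lt (by linarith))
    have h2 : ∀ v ∈ ball (0 : V k l) ρ', g (e' n v) = e' (n + 1) (H' n v) := by
      intro v hv
      change χ (j (n + 1)) (f^[N * (n + 1)] q) (f^[N] (ψ (j n) (f^[N * n] q) (e' n v))) = _
      rw [h1 v hv]
      exact hU.left (j (n + 1)) _ (hok (n + 1)) _ (hHρ v hv)
    have h3 : ∀ v ∈ ball (0 : V k l) ρ', DifferentiableAt ℂ g (e' n v) := by
      intro v hv
      have h4 := hU.diff' (j (n + 1)) _ (hok (n + 1)) _ (hHρ v hv)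
      rw [← h1 v hv] at h4
      have h5 : MDifferentiableAt 𝓘(ℂ, E) 𝓘(ℂ, E) g (e' n v) :=
        h4.comp (e' n v) ((iter_diff hf N _).comp (e' n v)
          (hU.diff (j n) _ (hok n) _ (heρ n v (hball v hv))))
      exact mdifferentiableAt_iff_differentiableAt.1 h5
    have h4 : DifferentiableOn ℂ (fun v => (e' (n + 1)).symm (g (e' n v))) (ball 0 ρ') := by
      intro v hv
      have h5 : DifferentiableAt ℂ (fun v => g (e' n v)) v :=
        (h3 v hv).comp v (e' n).differentiableAt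
      exact ((e' (n + 1)).symm.differentiableAt.comp v h5).differentiableWithinAt
    refine h4.congr fun v hv => ?_
    rw [h2 v hv, ContinuousLinearEquiv.symm_apply_apply]
  have hadh : AdH k l H' A' B' ρ' C c := by
    refine ⟨hρ', hC, hc.c_pos, hdiff, ?_, ?_, ?_, ?_, ?_⟩
    · intro n
      refine tendsto_nhds_unique_of_eventuallyEq (hHt n 0 (mem_ball_self hρ'))
        (tendsto_const_nhds (x := (0 : V k l))) ?_
      filter_upwards [hD] with a h
      exact h.adh.zero n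
    · intro n v hv v' hv'
      have h1 : Tendsto (fun a => ‖(H a n v - (A a n v.1, B a n v.2)) -
          (H a n v' - (A a n v'.1, B a n v'.2))‖) U
          (𝓝 ‖(H' n v - (A' n v.1, B' n v.2)) - (H' n v' - (A' n v'.1, B' n v'.2))‖) :=
        (((hHt n v hv).sub ((hAp n v.1).prodMk_nhds (hBp n v.2))).sub
          ((hHt n v' hv').sub ((hAp n v'.1).prodMk_nhds (hBp n v'.2)))).norm
      refine le_of_tendsto h1 ?_
      filter_upwards [hD] with a h
      exact h.adh.quad n v hv v' hv'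
    · intro n x
      refine le_of_tendsto (hAp n x).norm ?_
      filter_upwards [hD] with a h
      exact h.adh.A_le n x
    · intro n x
      refine ge_of_tendsto (hAp n x).norm ?_
      filter_upwards [hD] with a h
      exact h.adh.A_ge n x
    · intro n y
      refine ge_of_tendsto (hBp n y).norm ?_
      filter_upwards [hD] with a h
      exact h.adh.B_ge n y
  refine ⟨j, e', H', A', B', ⟨hok, heu, hel, hHb, hcomm, hadh⟩, ?_⟩
  intro n
  refine hUlE (V k l) (V k l) I U (fun a => H a n) (H' n) ρ' (1 / 8 + M + C * (ρ' + ρ')) hρ' ?_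
    (hHt n)
  filter_upwards [hD, hBd n] with a h hb
  exact H_lip h.adh n hM hb

end Pool.Agent.Lib.BedR
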