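import Pool.Agent.Lib.BedR.SpecC

/-!
# Theorem G (MP_6f050a_an), module Uni: convergence of the local stable manifolds
-/

set_option autoImplicit false

open scoped Manifold ContDiff Topology
open Set Filter Metric
open Pool.Agent.Lib Pool.Agent.Lib.Bed

namespace Pool.Agent.Lib.BedR

namespace UniM

section

variable {k l : ℕ} {H : ℕ → V k l → V k l} {A : ℕ → (Fin k → ℂ) →L[ℂ] (Fin k → ℂ)}
  {B : ℕ → (Fin l → ℂ) →L[ℂ] (Fin l → ℂ)} {ρ C c r : ℝ} {τ : ℕ → (Fin k → ℂ) → (Fin l → ℂ)}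
  {G : ℕ → V k l → V k l} {T : ℕ → (Fin k → ℂ) → (Fin l → ℂ)}

theorem pt {G : ℕ → V k l → V k l} {T : ℕ → (Fin k → ℂ) → (Fin l → ℂ)} (hG : TG k l r G T) (n : ℕ)
    {x : Fin k → ℂ} (hx : x ∈ ball (0 : Fin k → ℂ) r) : ‖((x, T n x) : V k l)‖ < r := by
  rw [Prod.norm_def]
  exact max_lt (mem_ball_zero_iff.1 hx) (lt_of_le_of_lt (hG.le n x hx) (mem_ball_zero_iff.1 hx))

/-- the quadratic estimate on a vertical line -/
theorem qd (h : AdH k l H A B ρ C c) (hr : r ≤ ρ) (hCr : C * r ≤ 1 / 64) (n : ℕ) (x : Fin k → ℂ)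
    (y y' : Fin l → ℂ) (hv : ‖((x, y) : V k l)‖ < r) (hv' : ‖((x, y') : V k l)‖ < r) :
    ‖(H n (x, y)).1 - (H n (x, y')).1‖ ≤ ‖y - y'‖ / 32 ∧
      ‖((H n (x, y)).2 - (H n (x, y')).2) - B n (y - y')‖ ≤ ‖y - y'‖ / 32 := by
  have hC := h.C_pos
  have h1 := h.quad n (x, y) (mem_ball_zero_iff.2 (lt_of_lt_of_le hv hr)) (x, y')
    (mem_ball_zero_iff.2 (lt_of_lt_of_le hv' hr))
  have hsub : ‖((x, y) : V k l) - (x, y')‖ ≤ ‖y - y'‖ := by
    rw [Prod.norm_def]
    refine max_le ?_ (le_refl _)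
    show ‖x - x‖ ≤ ‖y - y'‖
    rw [sub_self, norm_zero]
    exact norm_nonneg _
  have h2 : C * (‖((x, y) : V k l)‖ + ‖((x, y') : V k l)‖) * ‖((x, y) : V k l) - (x, y')‖ ≤
      C * (r + r) * ‖y - y'‖ := by
    have hr0 : 0 ≤ r := (norm_nonneg _).trans hv.le
    gcongr
  have h3 : C * (r + r) * ‖y - y'‖ ≤ 1 / 32 * ‖y - y'‖ :=
    mul_le_mul_of_nonneg_right (by linarith) (norm_nonneg _)
  have h4 := (h1.trans h2).trans h3
  constructor
  · have h5 := (norm_fst_le _).trans h4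
    have e : ((H n (x, y) - (A n x, B n y)) - (H n (x, y') - (A n x, B n y'))).1 =
        (H n (x, y)).1 - (H n (x, y')).1 := by
      show ((H n (x, y)).1 - A n x) - ((H n (x, y')).1 - A n x) = _
      abel
    rw [← e]
    refine le_trans h5 (le_of_eq ?_)
    ring
  · have h5 := (norm_snd_le _).trans h4
    have e : ((H n (x, y) - (A n x, B n y)) - (H n (x, y') - (A n x, B n y'))).2 =
        ((H n (x, y)).2 - (H n (x, y')).2) - B n (y - y') := by
      show ((H n (x, y)).2 - B n y) - ((H n (x, y')).2 - B n y') = _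
      rw [map_sub]
      abel
    rw [← e]
    refine le_trans h5 (le_of_eq ?_)
    ring

/-- one step -/
theorem step (h : AdH k l H A B ρ C c) (hr : r ≤ ρ) (hCr : C * r ≤ 1 / 64) (hτ : TG k l r H τ)
    (hG : TG k l r G T) (n : ℕ) {d η : ℝ} (hη : ∀ v ∈ ball (0 : V k l) r, ‖G n v - H n v‖ ≤ η)
    (hd : ∀ x ∈ ball (0 : Fin k → ℂ) r, ‖T (n + 1) x - τ (n + 1) x‖ ≤ d)
    {x : Fin k → ℂ} (hx : x ∈ ball (0 : Fin k → ℂ) r) : ‖T n x - τ n x‖ ≤ (d + 2 * η) / 7 := by
  have hv := pt hG n hx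
  have hv' := pt hτ n hx
  obtain ⟨q1, q2⟩ := qd h hr hCr n x (T n x) (τ n x) hv hv'
  have hg := hη (x, T n x) (mem_ball_zero_iff.2 hv)
  have hg1 : ‖(G n (x, T n x)).1 - (H n (x, T n x)).1‖ ≤ η := (norm_fst_le _).trans hg
  have hg2 : ‖(G n (x, T n x)).2 - (H n (x, T n x)).2‖ ≤ η := (norm_snd_le _).trans hg
  have hu1 : ‖(G n (x, T n x)).1 - (H n (x, τ n x)).1‖ ≤ η + ‖T n x - τ n x‖ / 32 := by
    have e : (G n (x, T n x)).1 - (H n (x, τ n x)).1 =
        ((G n (x, T n x)).1 - (H n (x, T n x)).1) + ((H n (x, T n x)).1 - (H n (x, τ n x)).1) := by abel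
    rw [e]
    exact (norm_add_le _ _).trans (add_le_add hg1 q1)
  have hxn := norm_nonneg x
  have hxr : ‖x‖ < r := mem_ball_zero_iff.1 hx
  have hm1 : (G n (x, T n x)).1 ∈ ball (0 : Fin k → ℂ) r := by
    rw [mem_ball_zero_iff]
    have := hG.con n x hx
    linarith
  have hm2 : (H n (x, τ n x)).1 ∈ ball (0 : Fin k → ℂ) r := by
    rw [mem_ball_zero_iff]
    have := hτ.con n x hx
    linarith
  have hu2 : ‖(G n (x, T n x)).2 - (H n (x, τ n x)).2‖ ≤ d + (η + ‖T n x - τ n x‖ / 32) := by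
    rw [hG.inv n x hx, hτ.inv n x hx]
    have e : T (n + 1) (G n (x, T n x)).1 - τ (n + 1) (H n (x, τ n x)).1 =
        (T (n + 1) (G n (x, T n x)).1 - τ (n + 1) (G n (x, T n x)).1) +
          (τ (n + 1) (G n (x, T n x)).1 - τ (n + 1) (H n (x, τ n x)).1) := by abel
    rw [e]
    refine (norm_add_le _ _).trans (add_le_add (hd _ hm1) ?_)
    exact (hτ.lip (n + 1) _ hm1 _ hm2).trans hu1
  have hB := h.B_ge n (T n x - τ n x)
  have hB2 : ‖B n (T n x - τ n x)‖ ≤ d + (η + ‖T n x - τ n x‖ / 32) + η + ‖T n x - τ n x‖ / 32 := by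
    have e : B n (T n x - τ n x) = ((G n (x, T n x)).2 - (H n (x, τ n x)).2) -
        ((G n (x, T n x)).2 - (H n (x, T n x)).2) -
        (((H n (x, T n x)).2 - (H n (x, τ n x)).2) - B n (T n x - τ n x)) := by abel
    rw [e]
    refine (norm_sub_le _ _).trans (add_le_add ((norm_sub_le _ _).trans (add_le_add hu2 hg2)) q2)
  have h0 := norm_nonneg (T n x - τ n x)
  linarith

/-- several steps -/
theorem steps (h : AdH k l H A B ρ C c) (hr : r ≤ ρ) (hCr : C * r ≤ 1 / 64) (hτ : TG k l r H τ)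
    (hG : TG k l r G T) {η : ℝ} (hη0 : 0 ≤ η) (J : ℕ) : ∀ n : ℕ,
    (∀ j < J, ∀ v ∈ ball (0 : V k l) r, ‖G (n + j) v - H (n + j) v‖ ≤ η) →
    ∀ x ∈ ball (0 : Fin k → ℂ) r, ‖T n x - τ n x‖ ≤ (1 / 7) ^ J * (2 * r) + J * η := by
  induction J with
  | zero =>
    intro n _ x hx
    have h1 := hG.le n x hx
    have h2 := hτ.le n x hx
    have h3 := norm_sub_le (T n x) (τ n x)
    have h4 : ‖x‖ < r := mem_ball_zero_iff.1 hx
    simp only [pow_zero, Nat.cast_zero]
    linarith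
  | succ J ih =>
    intro n hn x hx
    have h1 := ih (n + 1) (fun j hj v hv => by
      have := hn (j + 1) (by omega) v hv
      rwa [show n + (j + 1) = n + 1 + j by omega] at this)
    have h2 := step h hr hCr hτ hG n (hn 0 (by omega)) h1 hx
    refine h2.trans ?_
    rw [pow_succ]
    push_cast
    have hJ : (0 : ℝ) ≤ J := Nat.cast_nonneg J
    have h3 : 0 ≤ (J : ℝ) * η := mul_nonneg hJ hη0
    have e : ((1 / 7 : ℝ) ^ J * (2 * r) + J * η + 2 * η) / 7 =
        (1 / 7 : ℝ) ^ J * (1 / 7) * (2 * r) + (J * η + 2 * η) / 7 := by ring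
    rw [e]
    have h4 : ((J : ℝ) * η + 2 * η) / 7 ≤ ((J : ℝ) + 1) * η := by
      have : ((J : ℝ) + 1) * η = J * η + η := by ring
      rw [this]
      linarith
    linarith

end

end UniM

open UniM in
/-- **Uni.** Convergence of the local stable manifolds. -/
theorem uniP : S_Uni := by
  intro I L k l G H A B ρ C c r T τ h hr0 hr hCr hτ hT hGH
  have hfirst : ∀ n, TendstoUniformlyOn (fun a => T a n) (τ n) L (ball 0 r) := by
    intro n
    rw [Metric.tendstoUniformlyOn_iff]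
    intro ε hε
    obtain ⟨J, hJ⟩ : ∃ J : ℕ, (1 / 7 : ℝ) ^ J * (2 * r) < ε / 2 := by
      obtain ⟨J, hJ⟩ := exists_pow_lt_of_lt_one (show (0 : ℝ) < ε / 2 / (2 * r) by positivity)
        (show (1 / 7 : ℝ) < 1 by norm_num)
      exact ⟨J, (lt_div_iff₀ (by positivity)).1 hJ⟩
    have hJ0 : (0 : ℝ) ≤ J := Nat.cast_nonneg J
    have hη : 0 < ε / 2 / (J + 1) := by positivity
    have hall : ∀ᶠ a in L, ∀ j ∈ Finset.range J, ∀ v ∈ ball (0 : V k l) r,
        dist (H (n + j) v) (G a (n + j) v) < ε / 2 / (J + 1) := by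
      rw [Filter.eventually_all_finset]
      intro j _
      exact Metric.tendstoUniformlyOn_iff.1 (hGH (n + j)) _ hη
    filter_upwards [hT, hall] with a ha hb x hx
    have h1 := steps h hr hCr hτ ha hη.le J n (fun j hj v hv => by
      have := hb j (Finset.mem_range.2 hj) v hv
      rw [dist_eq_norm, norm_sub_rev] at this
      exact this.le) x hx
    rw [dist_eq_norm, norm_sub_rev]
    have h2 : (J : ℝ) * (ε / 2 / (J + 1)) ≤ ε / 2 := by
      rw [mul_div_assoc', div_le_iff₀ (by positivity)]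
      nlinarith
    linarith
  refine ⟨hfirst, fun n => ?_⟩
  rw [Metric.tendstoUniformlyOn_iff]
  intro ε hε
  have h1 := Metric.tendstoUniformlyOn_iff.1 (hfirst n) (ε / 2) (by positivity)
  have h2 := Metric.tendstoUniformlyOn_iff.1 (hGH n) (ε / 2) (by positivity)
  filter_upwards [hT, h1, h2] with a ha hb hc x hx
  have hv := pt ha n hx
  have hv' := pt hτ n hx
  obtain ⟨q1, _⟩ := qd h hr hCr n x (T a n x) (τ n x) hv hv'
  have h3 := hb x hx
  have h4 := hc (x, T a n x) (mem_ball_zero_iff.2 hv)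
  rw [dist_eq_norm, norm_sub_rev] at h3 h4
  have h5 : ‖(G a n (x, T a n x)).1 - (H n (x, T a n x)).1‖ < ε / 2 :=
    lt_of_le_of_lt (norm_fst_le (G a n (x, T a n x) - H n (x, T a n x))) h4
  rw [dist_eq_norm, norm_sub_rev]
  show ‖(G a n (x, T a n x)).1 - (H n (x, τ n x)).1‖ < ε
  have e : (G a n (x, T a n x)).1 - (H n (x, τ n x)).1 =
      ((G a n (x, T a n x)).1 - (H n (x, T a n x)).1) +
        ((H n (x, T a n x)).1 - (H n (x, τ n x)).1) := by abel
  rw [e]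
  have h6 := norm_add_le ((G a n (x, T a n x)).1 - (H n (x, T a n x)).1)
    ((H n (x, T a n x)).1 - (H n (x, τ n x)).1)
  have h7 := norm_nonneg (T a n x - τ n x)
  linarith

end Pool.Agent.Lib.BedR
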