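import Pool.Agent.Lib.BedR.SpecA

set_option autoImplicit false

open scoped Manifold ContDiff Topology
open Set Filter Metric
open Pool.Agent.Lib Pool.Agent.Lib.Bed

namespace Pool.Agent.Lib.BedR

/-- coefficients of a polynomial curve in a subspace lie in the subspace -/
theorem vdmP : S_Vdm := by
  intro W _ _ S n c hS j hj
  by_contra hc
  obtain ⟨φ, hφ, hker⟩ := Submodule.exists_le_ker_of_notMem hc
  have hP : (∑ i ∈ Finset.range n, Polynomial.C (φ (c i)) * Polynomial.X ^ i : Polynomial ℂ) = 0 := by
    apply Polynomial.funext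
    intro s
    have h1 : φ (∑ i ∈ Finset.range n, s ^ i • c i) = 0 := hker (hS s)
    rw [Polynomial.eval_finsetSum, Polynomial.eval_zero, ← h1, map_sum]
    apply Finset.sum_congr rfl
    intro i _
    rw [Polynomial.eval_mul, Polynomial.eval_C, Polynomial.eval_pow, Polynomial.eval_X, map_smul,
      smul_eq_mul, mul_comm]
  apply hφ
  have h2 := congrArg (fun p : Polynomial ℂ => p.coeff j) hP
  simp only [Polynomial.finsetSum_coeff, Polynomial.coeff_C_mul_X_pow, Polynomial.coeff_zero] at h2
  rw [Finset.sum_ite_eq, if_pos (Finset.mem_range.2 hj)] at h2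
  exact h2

end Pool.Agent.Lib.BedR
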