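import Pool.Agent.Lib.Bed.Main
import Pool.Agent.Lib.Bed.Main2
import Pool.Agent.Lib.BedF.Main
import Pool.Agent.Lib.BedR.SpecF
import Pool.Agent.Lib.BedR.Vdm
import Pool.Agent.Lib.BedR.Pow
import Pool.Agent.Lib.BedR.Mon
import Pool.Agent.Lib.BedR.Mul
import Pool.Agent.Lib.BedR.Txp
import Pool.Agent.Lib.BedR.Ent
import Pool.Agent.Lib.BedR.Shr
import Pool.Agent.Lib.BedR.Sum
import Pool.Agent.Lib.BedR.Cfs
import Pool.Agent.Lib.BedR.Bil
import Pool.Agent.Lib.BedR.Yes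
import Pool.Agent.Lib.BedR.Der
import Pool.Agent.Lib.BedR.One
import Pool.Agent.Lib.BedR.Ste
import Pool.Agent.Lib.BedR.Gro
import Pool.Agent.Lib.BedR.AL
import Pool.Agent.Lib.BedR.Rg
import Pool.Agent.Lib.BedR.Ap1
import Pool.Agent.Lib.BedR.Mod
import Pool.Agent.Lib.BedR.Cho
import Pool.Agent.Lib.BedR.Lmt
import Pool.Agent.Lib.BedR.Ap2
import Pool.Agent.Lib.BedR.ApC
import Pool.Agent.Lib.BedR.Cnt
import Pool.Agent.Lib.BedR.UAt
import Pool.Agent.Lib.BedR.FrU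
import Pool.Agent.Lib.BedR.AdU
import Pool.Agent.Lib.BedR.DtE
import Pool.Agent.Lib.BedR.DtP
import Pool.Agent.Lib.BedR.TaU
import Pool.Agent.Lib.BedR.Lsm
import Pool.Agent.Lib.BedR.Uni
import Pool.Agent.Lib.BedR.Bdl
import Pool.Agent.Lib.BedR.UlF
import Pool.Agent.Lib.BedR.UlP
import Pool.Agent.Lib.BedR.UlE
import Pool.Agent.Lib.BedR.Ult
import Pool.Agent.Lib.BedR.Dmk
import Pool.Agent.Lib.BedR.Sta
import Pool.Agent.Lib.BedR.Eta
import Pool.Agent.Lib.BedR.Stb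
import Pool.Agent.Lib.BedR.Pkg
import Pool.Agent.Lib.BedR.Low
import Pool.Agent.Lib.BedR.Gd
import Pool.Agent.Lib.BedR.FinG
import Pool.Agent.Lib.BedR.SpU
import Pool.Agent.Lib.BedR.SpL
import Pool.Agent.Lib.BedR.Cut
import Pool.Agent.Lib.BedR.Fil
import Pool.Agent.Lib.BedR.Lfc
import Pool.Agent.Lib.BedR.Tra
import Pool.Agent.Lib.BedR.Cmq
import Pool.Agent.Lib.BedR.Per
import Pool.Agent.Lib.BedR.Ivt

/-!
# Theorem G (MP_6f050a_an): assembly
-/

set_option autoImplicit false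

open Pool.Agent.Lib Pool.Agent.Lib.Bed

namespace Pool.Agent.Lib.BedR

theorem entC : S_Ent := entP (mulP (monP vdmP (powP vdmP))) txpP

theorem alC : S_AL := alP entC (cfsP shrP sumP) bilP yesP derP oneP steP groP

theorem seqCP : SeqC := ⟨ap1P alC rgP BedF.famA, ap2P modP choP sWei lmtP⟩

theorem pkgCP : PkgC :=
  pkgP sWei sUCf sNrC sLoc sBnd sAng sFrame sDm sQuad sHInj sLSM sAsA2 sAsB sAsB2 uatP fruP aduP dteP dtpP tauuP
    lsmP uniP (ultP bdlP (ulfP bdlP) ulpP uleP) dmkP staP (stbP etaP)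

theorem gdCP : GdC := gdP seqCP apcP cntP pkgCP (lowP setupC2 kSeqC sCorA)

theorem perC : PerC := perP sDm (cmqP) (lfcP spUP (spLP spUP) (filP cutP)) traP

/-- Theorem G. -/
theorem bedfordG : BedfordG := finGP gdCP BedF.bedfordF perC

end Pool.Agent.Lib.BedR
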