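import Pool.Agent.Lib.BedR.Defs

/-!
# Theorem G (MP_6f050a_an), part A: approximation by biholomorphic maps of `ℂ^k` (Andersen, Lempert)

CONVENTION.  Statement `S_X` is proved in the file `BedR/X.lean` as `theorem xP : S_X` or `theorem xP : S_Y → S_Z → S_X` (the
statements after USES are explicit hypotheses in that order), auxiliary lemmas in the namespace `Pool.Agent.Lib.BedR.XM`.  All
proofs are complete in the docstrings.  `Pool.Agent.Lib.Osgood` (Cauchy estimates `norm_fderiv_le`, `norm_fderiv_le'`,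
`differentiableOn_fderiv`, `analyticAt`), `Pool.Agent.Lib.Bed.Quad` (`Bed.sQuad`) and `Pool.Agent.Lib.Bed.Wei` (`Bed.sWei`) may be imported.
-/

set_option autoImplicit false

open scoped Manifold ContDiff Topology
open Set Filter Metric
open Pool.Agent.Lib Pool.Agent.Lib.Bed

namespace Pool.Agent.Lib.BedR

/-! ## Fields -/

/-- **Vdm.** Coefficients of a polynomial curve in a subspace.  PROOF.  If `c j ∉ S` there is a linear functional `φ` on `W` with `φ = 0` on `S`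
and `φ (c j) ≠ 0` (`Submodule.exists_le_ker_of_notMem` or `Submodule.exists_dual_map_eq_bot_of_notMem`).  The polynomial
`∑ φ (c j) X^j` vanishes for all `s : ℂ`, so it is `0` (`Polynomial.funext`, `Polynomial.eval_finset_sum`), and its coefficient `φ (c j)` is `0`. -/
def S_Vdm : Prop := ∀ (W : Type) [AddCommGroup W] [Module ℂ W] (S : Submodule ℂ W) (n : ℕ) (c : ℕ → W),
  (∀ s : ℂ, ∑ j ∈ Finset.range n, s ^ j • c j ∈ S) → ∀ j < n, c j ∈ S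

/-- **Pow.** USES `S_Vdm`.  PROOF.  `d = 0`: constant field, `l = 0`, `n = 0` in the definition of `SO`.  `l v = 0`: by definition.
Let `d = D + 1`, `α = l v ≠ 0`.  `2 ≤ finrank` gives `w ≠ 0` with `l w = 0`; `w` is not a multiple of `v` and `v` is not a multiple of `w`, so there is
`ω : E →L[ℂ] ℂ` with `ω v = 0`, `ω w = 1` (finite dimension: every linear functional is continuous).  For all `s : ℂ`:
`(l + s ω)(s v - α w) = s α - α s = 0`, so the field `z ↦ ((l + s ω) z ^ D * l z) • (s v - α w)` is in `SO E` (overshear).  By the binomial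
theorem it is `∑_{j < D + 2} s^j c_j` with (`C` binomial coefficients)
`c_j z = (if j = 0 then 0 else C(D, j-1) (ω z)^(j-1) (l z)^(D-(j-1)) l z) • v - (α C(D, j) (ω z)^j (l z)^(D-j) l z) • w` (`Finset.sum_range_succ'` /
`add_pow`; `C(D, D+1) = 0`).  `S_Vdm` with `j = 1`: `c_1 = l^(D+1) v - α D ω l^(D-1) l w ∈ SO E`.  If `D ≥ 1` then `ω l^(D-1) l = ω l^D`, and
`z ↦ (l z ^ D * ω z) • w` is an overshear (`l w = 0`); so `l^(D+1) v ∈ SO E`.  (`D = 0`: the second term is `0`.) -/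
def S_Pow : Prop := ∀ (E : Type) [NormedAddCommGroup E] [NormedSpace ℂ E] [FiniteDimensional ℂ E], 2 ≤ Module.finrank ℂ E →
  ∀ (l : E →L[ℂ] ℂ) (d : ℕ) (v : E), (fun z => l z ^ d • v) ∈ SO E

/-- **Mon.** USES `S_Vdm`, `S_Pow`.  PROOF.  Induction on the list `L`, for all `l`, `d`.  `[]`: `S_Pow`.  `m :: L`: by the induction hypothesis, for
all `s : ℂ`, with `l + s m` and the exponent `d + 1`, the field `((l + s m)^(d+1) * ∏ L) • v` is in `SO E`; its coefficient of `s^1` is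
`(d + 1) l^d m ∏ L • v` (`add_pow`, `S_Vdm` with `c_j = (C(d+1, j) m^j l^(d+1-j) ∏ L) • v`).  Divide by `d + 1`. -/
def S_Mon : Prop := ∀ (E : Type) [NormedAddCommGroup E] [NormedSpace ℂ E] [FiniteDimensional ℂ E], 2 ≤ Module.finrank ℂ E →
  ∀ (L : List (E →L[ℂ] ℂ)) (l : E →L[ℂ] ℂ) (d : ℕ) (v : E), (fun z => (l z ^ d * (L.map fun m => m z).prod) • v) ∈ SO E

/-- **Mul.** Homogeneous polynomials.  USES `S_Mon`.  PROOF.  Let `b` be a basis of `E` indexed by `Fin d`, `x = ∑ i, b.coord i x • b i`.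
`L (fun _ => x) = ∑_(g : Fin n → Fin d) (∏ j, b.coord (g j) x) • L (fun j => b (g j))` (`MultilinearMap.map_sum`, `map_smul_univ`).  Every summand is
in `SO E` by `S_Mon` with `d = 0` and the list `List.ofFn fun j => (b.coord (g j)).toContinuousLinearMap` (`List.prod_ofFn`). -/
def S_Mul : Prop := ∀ (E : Type) [NormedAddCommGroup E] [NormedSpace ℂ E] [FiniteDimensional ℂ E], 2 ≤ Module.finrank ℂ E →
  ∀ (n : ℕ) (L : ContinuousMultilinearMap ℂ (fun _ : Fin n => E) E), (fun x => L fun _ => x) ∈ SO E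

/-- **Txp.** Taylor polynomials.  PROOF.  Copy of `BedF/Tay.lean` (`BedF.tayP`): there the approximating function is
`∑ k ∈ range N, (k!)⁻¹ • iteratedFDeriv ℂ k p 0 (fun _ => x)`, here this form is part of the statement (`L k = (k!)⁻¹ • iteratedFDeriv ℂ k p 0`). -/
def S_Txp : Prop := ∀ (G W : Type) [NormedAddCommGroup G] [NormedSpace ℂ G] [FiniteDimensional ℂ G]
  [NormedAddCommGroup W] [NormedSpace ℂ W] [CompleteSpace W] (ρ ρ' ε : ℝ) (p : G → W), 0 < ρ' → ρ' < ρ → 0 < ε →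
  DifferentiableOn ℂ p (ball 0 ρ) → ∃ (N : ℕ) (L : (k : ℕ) → ContinuousMultilinearMap ℂ (fun _ : Fin k => G) W),
    ∀ x ∈ ball (0 : G) ρ', ‖∑ k ∈ Finset.range N, L k (fun _ => x) - p x‖ ≤ ε

/-- **Ent.** Entire maps are approximated by elements of `SO E`.  USES `S_Mul`, `S_Txp`.  PROOF.  `S_Txp` with `p = Q`, `ρ' = |M| + 1`,
`ρ = |M| + 2`; the sum is in `SO E` by `S_Mul` (`Submodule.sum_mem`; the sum of functions evaluated at `x`). -/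
def S_Ent : Prop := ∀ (E : Type) [NormedAddCommGroup E] [NormedSpace ℂ E] [FiniteDimensional ℂ E], 2 ≤ Module.finrank ℂ E →
  ∀ (Q : E → E), Differentiable ℂ Q → ∀ M ε : ℝ, 0 < ε → ∃ q ∈ SO E, ∀ z, ‖z‖ ≤ M → ‖q z - Q z‖ ≤ ε

/-- **Shr.** Shears and overshears have flows.  PROOF.  Let `g z = l z ^ n`; `l v = 0`, so `l (z + c v) = l z`, `g (z + c v) = g z` for all `c`.
(1) `Φ s z = z + s g(z) v`, inverse `Φ (-s)`; entire; the difference in `CF` is `0`.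
(2) `κ = m v`.  If `κ = 0`: `Φ s z = z + (s g(z) m(z)) v`, inverse `Φ (-s)` (`m (z + c v) = m z`), difference `0`.  If `κ ≠ 0`:
`Φ s z = z + (((exp (s κ g(z)) - 1) / κ) * m z) v`, then `m (Φ s z) = exp (s κ g z) m z`, `Φ (-s) (Φ s z) = z`.  For `‖z‖ ≤ M`, `0 ≤ s ≤ 1`:
`|κ g z| ≤ B`, `‖exp x - 1 - x‖ ≤ ‖x‖^2 exp ‖x‖` (`Complex.norm_exp_sub_one_sub_id_le` for small `x`, or
`Complex.norm_exp_sub_sum_le_exp_norm_sub_sum`/power series), so the difference is at most `s² B² exp(B) / |κ| * ‖m‖ M ‖v‖`. -/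
def S_Shr : Prop := ∀ (E : Type) [NormedAddCommGroup E] [NormedSpace ℂ E] (l : E →L[ℂ] ℂ) (n : ℕ) (v : E), l v = 0 →
  CF (fun z => l z ^ n • v) ∧ ∀ m : E →L[ℂ] ℂ, CF (fun z => (l z ^ n * m z) • v)

/-- **Sum.** PROOF.  `Φ s = (Φ₁ s).trans (Φ₂ s)` (first `Φ₁`, then `Φ₂`).  Let `‖z‖ ≤ M`, `M ≥ 0`, `z' = Φ₁ s z`, `‖z' - z - s q₁ z‖ ≤ C₁ s²`,
`‖q₁‖ ≤ B₁` on `closedBall 0 M` (continuous, compact), so `‖z' - z‖ ≤ (B₁ + C₁) s`, `‖z'‖ ≤ M' = M + B₁ + C₁`.  `‖Φ₂ s z' - z' - s q₂ z'‖ ≤ C₂ s²`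
(constant for `M'`), and `‖q₂ z' - q₂ z‖ ≤ L ‖z' - z‖` on `closedBall 0 M'` (`q₂` is entire, so `fderiv ℂ q₂` is continuous (analytic,
`Osgood.analyticOnNhd`), bounded on the compact convex ball; `Convex.norm_image_sub_le_of_norm_fderiv_le`).  Sum up:
`C = C₁ + C₂ + L (B₁ + C₁)`. -/
def S_Sum : Prop := ∀ (E : Type) [NormedAddCommGroup E] [NormedSpace ℂ E] [FiniteDimensional ℂ E] (q₁ q₂ : E → E),
  CF q₁ → CF q₂ → CF (fun z => q₁ z + q₂ z)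

/-- **Cfs.** USES `S_Shr`, `S_Sum`.  PROOF.  `Submodule.span_induction` for the predicate `∀ c : ℂ, CF (fun z => c • q z)`: generators:
`c • l^n v = l^n (c v)`, `l (c v) = 0` (`S_Shr`); `0` (`Φ s = id`, or `S_Shr` with `v = 0`); sums (`S_Sum`); scalars `c • (c' • q)`.  Then `c = 1`. -/
def S_Cfs : Prop := ∀ (E : Type) [NormedAddCommGroup E] [NormedSpace ℂ E] [FiniteDimensional ℂ E], ∀ q ∈ SO E, CF q

/-! ## The isotopy `e(tz)/t` -/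

/-- **Bil.** PROOF.  Let `K = closedBall 0 (3r/8) ⊆ ball 0 r`, compact.  Each `x ∈ K` has `e` analytic at `x` (`Osgood.analyticAt`), so strictly
differentiable, the derivative `A` is injective, so (finite dimension) a linear equivalence.
(1) If there is no `Λ` for (1), there are `x_n, y_n ∈ K` with `‖x_n - y_n‖ > n ‖e x_n - e y_n‖`; for a subsequence `x_n → x`, `y_n → y` in `K`,
`e x = e y` because `‖x_n - y_n‖` is bounded, so `x = y`.  `HasStrictFDerivAt` at `x` with `‖A w‖ ≥ c ‖w‖`, `c > 0`: `‖e x_n - e y_n‖ ≥ (c/2) ‖x_n - y_n‖`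
for large `n`, a contradiction (`x_n ≠ y_n`).
(2) from (1) (`Λ > 0`): let `0 < s' < s` with `Λ ‖u - e x‖ < s'` and `D = ball (e x) (s'/Λ)`, `u ∈ D`.  `e '' ball x s'` is open (inverse function theorem:
`HasStrictFDerivAt.map_nhds_eq_of_equiv` at every point).  By (1) (`closedBall x s' ⊆ ball x s ⊆ K`) `e` maps the sphere of radius `s'` to the
complement of `D`, so `e '' ball x s' ∩ D = e '' closedBall x s' ∩ D` is open and closed in the connected set `D` and contains `e x`.  So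
`D ⊆ e '' ball x s'` (`IsPreconnected.subset_of_closure_inter_subset` or `isPreconnected_iff_subset_of_disjoint`). -/
def S_Bil : Prop := ∀ (E : Type) [NormedAddCommGroup E] [NormedSpace ℂ E] [FiniteDimensional ℂ E] (r : ℝ) (e : E → E),
  Emb r e → ∃ Λ : ℝ, BiL r Λ e

/-- **Yes.** Estimates for `yv e`.  PROOF.  `fderiv ℂ e` is holomorphic on `ball 0 r` (`Osgood.differentiableOn_fderiv`), so `yv e` is.  `yv e 0 = 0`, the
derivative at `x` in the direction `w` is `(fderiv ℂ (fderiv ℂ e) x w) x + fderiv ℂ e x w - fderiv ℂ e x w`, which is `0` at `x = 0`.  `yv e` is bounded on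
`ball 0 (3r/4)` (its closure is compact in `ball 0 r`).  `Bed.sQuad` with `ρ = 3r/4` gives (2).  (3): `R x = e x - e 0 - fderiv ℂ e 0 x` is bounded on
`ball 0 (3r/4)`, `fderiv R 0 = 0`, so `‖R x‖ ≤ C ‖x‖²` on `ball 0 (3r/8)` (`Bed.sQuad` with `v' = 0`); `et e t z - (e 0 + fderiv e 0 z) = t⁻¹ R (t z)`,
of norm `≤ C t ‖z‖² ≤ C r² t`. -/
def S_Yes : Prop := ∀ (E : Type) [NormedAddCommGroup E] [NormedSpace ℂ E] [FiniteDimensional ℂ E] (r : ℝ) (e : E → E),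
  Emb r e → DifferentiableOn ℂ (yv e) (ball 0 r) ∧ ∃ C : ℝ, 0 < C ∧
    (∀ x ∈ ball (0 : E) (3 * r / 8), ∀ x' ∈ ball (0 : E) (3 * r / 8), ‖yv e x - yv e x'‖ ≤ C * (‖x‖ + ‖x'‖) * ‖x - x'‖) ∧
    ∀ t : ℝ, 0 < t → t ≤ 1 → ∀ z ∈ ball (0 : E) (r / 4), ‖et e t z - (e 0 + fderiv ℂ e 0 z)‖ ≤ C * t

/-- **Der.** The derivative in `t`.  PROOF.  Fix `z`; `φ s = et e s z` on `[τ, 1]` (real `s`) has the derivative `yt e s z`
(`s ↦ e (s z)` has the derivative `fderiv e (s z) z`; `d/ds [s⁻¹ (e(sz) - e 0)] = s⁻¹ fderiv e (sz) z - s⁻² (e(sz) - e 0) = s⁻² yv e (s z)`).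
`s ↦ yt e s z = s⁻² yv e (s z)` is Lipschitz on `[τ, 1]` with a constant `C` which does not depend on `z`: `yv e` is bounded by `B` and Lipschitz with a
constant `L` on the compact convex set `closedBall 0 (r/4)` (`yv e` is `C^1` on `ball 0 r`), `|s⁻² - s'⁻²| ≤ 2 τ⁻³ |s - s'|`, so `C = 2 τ⁻³ B + τ⁻² L r`.  Then
`ψ s = φ s - (s : ℂ) • yt e t z` has a derivative of norm at most `C h` on `[t - h, t]`, mean value inequality
(`Convex.norm_image_sub_le_of_norm_hasDerivWithin_le` or `norm_image_sub_le_of_norm_deriv_le_segment'`): `‖ψ (t-h) - ψ t‖ ≤ C h²`. -/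
def S_Der : Prop := ∀ (E : Type) [NormedAddCommGroup E] [NormedSpace ℂ E] [FiniteDimensional ℂ E] (r : ℝ) (e : E → E),
  Emb r e → DifferentiableOn ℂ (yv e) (ball 0 r) → ∀ τ : ℝ, 0 < τ → ∃ C : ℝ, 0 ≤ C ∧ ∀ t h : ℝ, 0 ≤ h → τ ≤ t - h → t ≤ 1 →
    ∀ z ∈ ball (0 : E) (r / 4), ‖et e (t - h) z - et e t z + (h : ℂ) • yt e t z‖ ≤ C * h ^ 2

/-- **One.** The fields `qt e Q t` and `yt e t` along the isotopy.  PROOF.  Let `x = t z` (`‖x‖ < t r / 4`), `s = t r / 8`; `ball x s ⊆ ball 0 (3r/8)` as `t ≤ 1`.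
`u = e 0 + t (w - e 0)`; `e x = e 0 + t (et e t z - e 0)` (`t ≠ 0`), so `u - e x = t (w - et e t z)` and `Λ ‖u - e x‖ < t r / 8 = s`.  `BiL` gives `x' ∈ ball x s`
with `e x' = u`; `‖u‖ = ‖e x'‖ ≤ M` as `x' ∈ ball 0 (3r/8) ⊆ ball 0 (r/2)`.  `qt e Q t w - yt e t z = t⁻² [(Q (e x') - yv e x') + (yv e x' - yv e x)]`.
First bracket: `≤ ε τ² ≤ ε t²`.  Second: `≤ C (‖x'‖ + ‖x‖) ‖x' - x‖ ≤ C (t r) Λ ‖e x' - e x‖ = C t r Λ t ‖w - et e t z‖` (`‖x'‖ + ‖x‖ ≤ 3tr/8 + tr/4 ≤ t r`;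
`BiL` first part, both points in the closed ball). -/
def S_One : Prop := ∀ (E : Type) [NormedAddCommGroup E] [NormedSpace ℂ E] (r Λ C M τ ε : ℝ) (e Q : E → E),
  0 < r → BiL r Λ e → 0 < C →
  (∀ x ∈ ball (0 : E) (3 * r / 8), ∀ x' ∈ ball (0 : E) (3 * r / 8), ‖yv e x - yv e x'‖ ≤ C * (‖x‖ + ‖x'‖) * ‖x - x'‖) →
  (∀ x ∈ ball (0 : E) (r / 2), ‖e x‖ ≤ M) → 0 < τ → (∀ x ∈ ball (0 : E) (r / 2), ‖Q (e x) - yv e x‖ ≤ ε * τ ^ 2) →
  ∀ t : ℝ, τ ≤ t → t ≤ 1 → ∀ z ∈ ball (0 : E) (r / 4), ∀ w, Λ * ‖w - et e t z‖ < r / 8 →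
    ‖e 0 + (t : ℂ) • (w - e 0)‖ ≤ M ∧ ‖qt e Q t w - yt e t z‖ ≤ C * r * Λ * ‖w - et e t z‖ + ε

/-- **Ste.** One step of the flow of `- qt e Q t`, as a biholomorphic map.  PROOF.  Let `Φ` be from `CF (fun z => - Q z)`.  `α w = e 0 + t (w - e 0)` is a
biholomorphic map of `E` (`t ≠ 0`), and `σ = α.trans ((Φ (h/t)).trans α.symm)`, so
`σ w = e 0 + t⁻¹ (Φ (h/t) (α w) - e 0) = w + t⁻¹ (Φ (h/t) (α w) - α w)`.  `0 ≤ h/t ≤ 1` as `h ≤ τ ≤ t`.  For `‖α w‖ ≤ M`: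
`‖Φ (h/t) (α w) - α w + (h/t) Q (α w)‖ ≤ C' (h/t)²`, so `‖σ w - w + h qt e Q t w‖ ≤ t⁻¹ C' (h/t)² ≤ C' τ⁻³ h²`. -/
def S_Ste : Prop := ∀ (E : Type) [NormedAddCommGroup E] [NormedSpace ℂ E] (e Q : E → E) (M τ : ℝ), CF (fun z => - Q z) → 0 < τ →
  ∃ C : ℝ, 0 ≤ C ∧ ∀ t h : ℝ, 0 ≤ h → h ≤ τ → τ ≤ t → ∃ σ : E ≃ E, IsA σ ∧ ∀ w, ‖e 0 + (t : ℂ) • (w - e 0)‖ ≤ M →
    ‖σ w - w + (h : ℂ) • qt e Q t w‖ ≤ C * h ^ 2

/-- **Gro.** Discrete Gronwall inequality.  PROOF.  By induction on `j ≤ n`: `δ j ≤ (1 + L h)^j * (j h) * (ε + C h)` and `δ j ≤ exp L * (ε + C h) < η`: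
`(1 + L h)^j ≤ exp (L h j) ≤ exp L` (`Real.add_one_le_exp`, `j h ≤ n h ≤ 1`).  Step: `δ (j+1) ≤ (1 + L h) δ j + h (ε + C h) ≤
(1 + L h)^(j+1) (j h) (ε + C h) + h (ε + C h) ≤ (1 + L h)^(j+1) ((j + 1) h) (ε + C h)`. -/
def S_Gro : Prop := ∀ (n : ℕ) (h L ε C η : ℝ) (δ : ℕ → ℝ), 0 ≤ h → 0 ≤ L → 0 ≤ ε → 0 ≤ C → n * h ≤ 1 →
  Real.exp L * (ε + C * h) < η → δ 0 = 0 → (∀ j < n, δ j < η → δ (j + 1) ≤ (1 + L * h) * δ j + h * ε + C * h ^ 2) →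
  ∀ j ≤ n, δ j ≤ Real.exp L * (ε + C * h)

/-- **AL.** The theorem of Andersen and Lempert, inverse form.  USES `S_Ent`, `S_Cfs`, `S_Bil`, `S_Yes`, `S_Der`, `S_One`, `S_Ste`, `S_Gro`.
PROOF.  `Λ` from `S_Bil`, `C` from `S_Yes`, `L = C r Λ`, `M` a bound of `‖e x‖` on `ball 0 (r/2)` (compact closure in `ball 0 r`), `A = fderiv ℂ e 0`, injective,
so a linear equivalence, `‖A⁻¹‖ ≤ B`, `B > 0`.  `τ ∈ (0, 1/2]` with `B C τ ≤ ε/2`; `ε' > 0` with `exp L * (2 ε') < r / (8 Λ)` and `B exp L (2 ε') ≤ ε/2`.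
Runge (`Rge`) for `p = yv e`: entire `Q₀` with `‖Q₀ (e x) - yv e x‖ ≤ ε' τ² / 2` on `ball 0 (r/2)`; `S_Ent`: `Q ∈ SO E` with `‖Q - Q₀‖ ≤ ε' τ² / 2` on
`closedBall 0 M`; so `‖Q (e x) - yv e x‖ ≤ ε' τ²` on `ball 0 (r/2)`.  `- Q ∈ SO E`, `S_Cfs`, `S_Ste` (constant `C₁`), `S_Der` (constant `C₂`).  `n ≥ 1` large:
`h = (1 - τ)/n ≤ τ`, `(C₁ + C₂) h ≤ ε'`.  `t_j = 1 - j h` (`t_j ≥ τ + h` for `j < n`, `t_n = τ`), `σ_j` from `S_Ste` for `t_j`, `h` (`j < n`);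
`β_0 = id`, `β_(j+1) = β_j.trans σ_j`; all `IsA`.  For `z ∈ ball 0 (r/4)`: `w_j = β_j (e z)`, `δ_j = ‖w_j - et e t_j z‖`; `et e 1 z = e z`, `δ_0 = 0`.  If `δ_j < r/(8Λ)`:
`w_(j+1) - et t_(j+1) z = [σ_j w_j - w_j + h qt w_j] + [w_j - et t_j z] - h [qt w_j - yt t_j z] - [et (t_j - h) z - et t_j z + h yt t_j z]`, so
`δ_(j+1) ≤ C₁ h² + δ_j + h (L δ_j + ε') + C₂ h²` (`S_One`, its first conclusion for `S_Ste`).  `S_Gro`: `δ_n ≤ exp L (2 ε')`.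
`b z = A⁻¹ (β_n z - e 0)`: `IsA`, and `‖b (e z) - z‖ = ‖A⁻¹ (w_n - e 0 - A z)‖ ≤ B (δ_n + C τ) ≤ ε` (`S_Yes`, third part, `t = τ`). -/
def S_AL : Prop := ∀ (E : Type) [NormedAddCommGroup E] [NormedSpace ℂ E] [FiniteDimensional ℂ E], 2 ≤ Module.finrank ℂ E →
  ∀ (r : ℝ) (e : E → E), Emb r e → Rge r e → ∀ ε : ℝ, 0 < ε → ∃ b : E ≃ E, IsA b ∧ ∀ z ∈ ball (0 : E) (r / 4), ‖b (e z) - z‖ ≤ ε

end Pool.Agent.Lib.BedR
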