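import Pool.Agent.Lib.BedR.SpecA

/-!
# Theorem G (MP_6f050a_an), part B: uniformly attracting sequences

Conventions as in `SpecA.lean`.  `Bed.SeqD k r (1/4) C c F A`: `F n` is an injective holomorphic immersion of `ball 0 r`, `‖F n x‖ ≤ ‖x‖ / 4`.
`orb F n i` (`Bed.orb`) maps `ball 0 r` into itself, `‖orb F n i x‖ ≤ ‖x‖ / 4^i`, `orb F n (i + j) x = orb F (n + i) j (orb F n i x)` (`Bed.orb_add` in
`Bed/Basic.lean`), it is holomorphic, injective and immersive on `ball 0 r` (induction).  If `IsTri k r F Ψ` then `Ψ (n + i) (orb F n i x) = Ψ n x`.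
-/

set_option autoImplicit false

open scoped Manifold ContDiff Topology
open Set Filter Metric
open Pool.Agent.Lib Pool.Agent.Lib.Bed

namespace Pool.Agent.Lib.BedR

/-- **Rg.** Runge property of the images `Ψ n (ball 0 r)`.  USES `BedF.S_Fam`.  PROOF.  `BedF.Slw r C c F A` (fields of `SeqD` with `D = 1/4`, `F n 0 = 0` from
`contr`).  `S_Fam` with `m`, `p`, `ε`: a family `P` (`BedF.Fmy (r/2) F P`) with `‖P m x - p x‖ ≤ ε` on `ball 0 (r/2)`.  For `u` there are `n`, `x ∈ ball 0 r`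
with `Ψ n x = u`, so `F n x ∈ ball 0 (r/4)`, `Ψ (n+1) (F n x) = u`; hence `u = Ψ n x` for some `n`, `x ∈ ball 0 (r/2)`; put `Q u = P n x` (choice).
Independent of the choice: if `Ψ n x = Ψ n' x'`, `n' = n + i`, then `orb F n i x = x'` (injectivity of `Ψ n'`), `P n' x' = P n x` (`comp`, induction; the orbit
stays in `ball 0 (r/2)`).  So `Q (Ψ n x) = P n x` for all `n`, `x ∈ ball 0 (r/2)`.  Differentiable at `u = Ψ n x`: `Ψ n` is analytic at `x`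
(`Osgood.analyticAt`), its derivative is injective, so a linear equivalence; local inverse `θ` (`HasStrictFDerivAt.localInverse`), differentiable at `u`,
`Ψ n (θ u') = u'`, `θ u' ∈ ball 0 (r/2)` near `u`, so `Q = P n ∘ θ` near `u`. -/
def S_Rg : Prop := BedF.S_Fam → ∀ (k : ℕ) (r C c : ℝ) (F Ψ : ℕ → Ek k → Ek k), Sml k r C c F → IsTri k r F Ψ → ∀ m : ℕ, Rge r (Ψ m)

/-- **Ap1.** USES `S_AL`, `S_Rg`.  PROOF.  `Ψ` from `BasinCk`; `Emb r (Ψ n)` and `Rge r (Ψ n)` for all `n`; `finrank = k ≥ 2`.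
(1) `a` is uniformly continuous on `closedBall 0 r`: `δ₁ ∈ (0, r/2]` with `‖a x - a z‖ ≤ ε/2` if `‖x - z‖ ≤ δ₁`, `‖z‖ ≤ r/4`.  `b₁` from `S_AL` for `Ψ N`, `δ₁`.
`b = b₁.trans a` (first `b₁`): `‖b (Ψ N z) - a z‖ ≤ ε/2` on `ball 0 (r/4)`.
(2) `K = b.symm '' closedBall 0 M` is compact.  The sets `U_m = Ψ m '' ball 0 (r/32)` are open (local inverse), increasing
(`Ψ m x = Ψ (m+1) (F m x)`), and cover: `u = Ψ n x`, `x ∈ ball 0 r`, then `u = Ψ (n+3) (orb F n 3 x)`, norm `< r/64`.  So `K ⊆ U_m` for all large `m`; take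
`m = N + i`, `i ≥ 1`.
(3) `Ψ m` and `b ∘ Ψ m` are uniformly continuous on `closedBall 0 (r/2)`: `δ ∈ (0, r/64]` with `‖b (Ψ m x) - b (Ψ m x')‖ ≤ ε/2` for `‖x - x'‖ ≤ δ` in this ball.
`b₂` from `S_AL` for `Ψ m`, `δ`.  `g = b₂ ∘ Ψ m = id + h`, `‖h‖ ≤ δ` on `ball 0 (r/4)`, holomorphic.  (4) For `x ∈ ball 0 (r/16)` there is `x'` with
`‖x' - x‖ ≤ δ`, `g x' = x`: `T y = x - h y` maps `closedBall x δ` (`⊆ ball 0 (r/8)`) into itself, Lipschitz constant `≤ δ/(r/8) ≤ 1/8` (Cauchy on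
`ball 0 (r/8)`, `Osgood.norm_fderiv_le'`, mean value), fixed point.
`b' = b₂.symm.trans b`.  Approximation: `z ∈ ball 0 (r/4)`, `x = orb F N i z ∈ ball 0 (r/16)`; `x = b₂ (Ψ m x')`, `b' x = b (Ψ m x')`, within `ε/2` of
`b (Ψ m x) = b (Ψ N z)`, within `ε/2` of `a z`.  Covering: `‖w‖ ≤ M`: `b.symm w = Ψ m x`, `x ∈ ball 0 (r/32)`, `b'.symm w = b₂ (Ψ m x) = x + h x`, norm
`< r/32 + r/64 < r/16`. -/
def S_Ap1 : Prop := S_AL → S_Rg → BedF.S_Fam → ∀ (k : ℕ) (r C c : ℝ) (F : ℕ → Ek k → Ek k), 2 ≤ k → Sml k r C c F → BasinCk k r F →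
  ∀ (N : ℕ) (a : Ek k ≃ Ek k) (ε M : ℝ), IsA a → 0 < ε → Ap k r F N a ε M

/-- **Mod.** PROOF.  `a.symm` is continuous, so uniformly continuous on the compact set `cthickening 1 (a '' closedBall 0 R)`
(or on a large closed ball); `a.symm (a z) = z`. -/
def S_Mod : Prop := ∀ (k : ℕ) (a : Ek k ≃ Ek k) (R η : ℝ), IsA a → 0 < η → ∃ d : ℝ, 0 < d ∧
  ∀ z, ‖z‖ ≤ R → ∀ w, ‖w - a z‖ ≤ d → ‖a.symm w - z‖ ≤ η

/-- **Cho.** The tower of approximations.  USES `S_Mod`.  PROOF.  Recursion: state `(N, a, d, μ)` with `IsA a`, `0 < d`, `d` as in `Tow.mod` for `a`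
(`S_Mod`, `R = r/4`, `η = r/64`), `0 < μ ≤ d` the minimum of all `d` so far.  Start `N = 0`, `a = id`.  Step number `i`: the hypothesis with
`ε = (1/2)^(i+2) μ`, `M = i` gives `i' ≥ 1` and `b`; `N' = N + i'`, `a' = b`, `d'` from `S_Mod`, `μ' = min μ d'`.  `app i j`: `μ_i ≤ d_j` for `j ≤ i`. -/
def S_Cho : Prop := S_Mod → ∀ (k : ℕ) (r : ℝ) (F : ℕ → Ek k → Ek k), 0 < r →
  (∀ (N : ℕ) (a : Ek k ≃ Ek k) (ε M : ℝ), IsA a → 0 < ε → Ap k r F N a ε M) →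
  ∃ (N : ℕ → ℕ) (a : ℕ → Ek k ≃ Ek k) (d : ℕ → ℝ), Tow k r F N a d

/-- **Lmt.** The limit maps of a tower.  USES `Bed.S_Wei`.  PROOF.  For `j ≥ i` let `G_j x = a j (orb F (N i) (N j - N i) x)` on `ball 0 (r/4)`; with
`y = orb F (N i) (N j - N i) x ∈ ball 0 (r/4)`: `G_(j+1) x - G_j x = a (j+1) (orb F (N j) (N (j+1) - N j) y) - a j y`, of norm
`≤ (1/2)^(j+2) d m` for every `m ≤ j` (`app`).  `Bed.S_Wei` (for `j ↦ G_(i+j)`): limit `ψ i`, holomorphic, and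
`‖ψ i x - a i x‖ ≤ ∑_(j ≥ i) (1/2)^(j+2) d i ≤ d i`.  Compatibility: `ψ (i+1) (orb F (N i) (N (i+1) - N i) x) = ψ i x` (the same sequences).
Third part: `h x = (a i).symm (ψ i x) - x`, `‖h x‖ ≤ r/64` on `ball 0 (r/4)` by `mod`; holomorphic; Cauchy: `‖fderiv h‖ ≤ (r/64)/(r/8) = 1/8` on `ball 0 (r/8)`, so
`‖h x - h x'‖ ≤ ‖x - x'‖/8` there; hence `x ↦ x + h x` is injective with injective derivative on `ball 0 (r/8)`, so is `ψ i = a i ∘ (id + h)`.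
Fourth part: `‖w‖ ≤ i`, `i ≥ 1` (index `i + 1` in `cov`): `y = (a (i+1)).symm w ∈ ball 0 (r/16)`; the map `T x = y - h x` (`h` for `i + 1`) is a contraction of
`closedBall y (r/64)` `⊆ ball 0 (r/8)`; its fixed point `x` satisfies `x + h x = y`, `ψ (i+1) x = a (i+1) y = w`. -/
def S_Lmt : Prop := Bed.S_Wei → ∀ (k : ℕ) (r C c : ℝ) (F : ℕ → Ek k → Ek k) (N : ℕ → ℕ) (a : ℕ → Ek k ≃ Ek k) (d : ℕ → ℝ),
  Sml k r C c F → Tow k r F N a d → ∃ ψ : ℕ → Ek k → Ek k,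
    (∀ i, DifferentiableOn ℂ (ψ i) (ball 0 (r / 4))) ∧
    (∀ i, ∀ x ∈ ball (0 : Ek k) (r / 4), ψ (i + 1) (orb F (N i) (N (i + 1) - N i) x) = ψ i x) ∧
    (∀ i, InjOn (ψ i) (ball 0 (r / 8)) ∧ ∀ x ∈ ball (0 : Ek k) (r / 8), ∀ w, fderiv ℂ (ψ i) x w = 0 → w = 0) ∧
    ∀ (i : ℕ) (w : Ek k), ‖w‖ ≤ (i : ℝ) → ∃ x ∈ ball (0 : Ek k) (r / 8), ψ (i + 1) x = w

/-- **Ap2.** USES `S_Cho`, `S_Lmt`.  PROOF.  `Tow` and `ψ`.  For `n` and `i` with `n + 2 ≤ N i` let `Ψ^i_n x = ψ i (orb F n (N i - n) x)` on `ball 0 r`; the argument is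
in `ball 0 (r/16)`.  `Ψ^(i+1)_n = Ψ^i_n` (compatibility of `ψ`, `orb_add`), so independent of `i`; `N i ≥ i`, take `Ψ n = Ψ^(n+2)_n`.  `Ψ (n+1) (F n x) = Ψ n x`
(`orb F n (j+1) x = orb F (n+1) j (F n x)`, the same large `i` for both).  Holomorphic, injective, immersive: compositions (`ψ i` on `ball 0 (r/8)`, `orb`).  Onto: `‖u‖ ≤ i`,
`u = ψ (i+1) x`, `x ∈ ball 0 (r/8)`: with `n = N (i+1)`, `Ψ n x = ψ j (orb F n (N j - n) x) = ψ (i+1) x = u` for large `j`. -/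
def S_Ap2 : Prop := S_Mod → S_Cho → Bed.S_Wei → S_Lmt → ∀ (k : ℕ) (r C c : ℝ) (F : ℕ → Ek k → Ek k), Sml k r C c F →
  (∀ (N : ℕ) (a : Ek k ≃ Ek k) (ε M : ℝ), IsA a → 0 < ε → Ap k r F N a ε M) → BasinCk k r F

/-- **ApC.** The approximation property is open.  PROOF.  By induction on `j`: `orb (G i) N j → orb F N j` uniformly on `ball 0 r` along `l`: all maps send `ball 0 r`
into itself, `‖G_i(y_i) - F(y)‖ ≤ ‖G_i(y_i) - F(y_i)‖ + ‖F(y_i) - F(y)‖` and `F n` is Lipschitz on `ball 0 r` (`quad`, `contrL`: constant `1/4 + 2 C r`).  Let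
`(i₀, b)` be from `Ap` for `F`; `b` is uniformly continuous on `closedBall 0 r`, so for `l`-almost all `i`, `‖b (orb (G i) N i₀ z) - b (orb F N i₀ z)‖ ≤ ε' - ε`. -/
def S_ApC : Prop := ∀ (I : Type) (l : Filter I) (k : ℕ) (r C c : ℝ) (G : I → ℕ → Ek k → Ek k) (F : ℕ → Ek k → Ek k),
  Sml k r C c F → (∀ᶠ i in l, Sml k r C c (G i)) → (∀ n, TendstoUniformlyOn (fun i => G i n) (F n) l (ball 0 r)) →
  ∀ (N : ℕ) (a : Ek k ≃ Ek k) (ε ε' M : ℝ), ε < ε' → Ap k r F N a ε M → ∀ᶠ i in l, Ap k r (G i) N a ε' M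

/-- **Cnt.** A countable set of biholomorphic maps.  PROOF.  `Y = closedBall (0 : Ek k) R` is compact metrizable, `C(Y, Ek k)` is a separable metric space
(second countable: instance for compact metrizable `Y`).  The set of the restrictions of all `a` with `IsA a` is nonempty (`id`) and separable, so it has a countable dense
subset (`TopologicalSpace.exists_countable_dense` of the subtype; `denseSeq`); choose an `a` for each of its elements. -/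
def S_Cnt : Prop := ∀ (k : ℕ) (R : ℝ), ∃ α : ℕ → (Ek k ≃ Ek k), (∀ j, IsA (α j)) ∧
  ∀ a : Ek k ≃ Ek k, IsA a → ∀ ε : ℝ, 0 < ε → ∃ j, ∀ z, ‖z‖ ≤ R → ‖α j z - a z‖ ≤ ε

end Pool.Agent.Lib.BedR
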