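import Pool.Agent.Lib.BedR.SpecB
import Pool.Agent.Lib.Bed.SpecM

/-!
# Theorem G (MP_6f050a_an), part C: hyperbolic sets

Conventions as in `SpecA.lean`.  The setup of `Bed/SpecM.lean` (files `Bed/UC.lean`, `Bed/Frm.lean`, `Bed/Ad.lean`, `Bed/Tau.lean`, ...), with constants which do
not depend on the point, and the limits of such data.
-/

set_option autoImplicit false

open scoped Manifold ContDiff Topology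
open Set Filter Metric
open Pool.Agent.Lib Pool.Agent.Lib.Bed

namespace Pool.Agent.Lib.BedR

section
variable {E : Type} [NormedAddCommGroup E] [NormedSpace ℂ E]
variable {X : Type} [MetricSpace X] [ChartedSpace E X]

/-- A finite uniform atlas near `K`: for `x ∈ ok i` the chart `ψ i x : ball 0 ρ → X`, `ψ i x 0 = x`, with inverse `χ i x`. -/
structure UAt (nrm : (x : X) → TangentSpace 𝓘(ℂ, E) x → ℝ) (K : Set X) (ι : Type) (ok : ι → Set X)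
    (ψ : ι → X → E → X) (χ : ι → X → X → E) (ρ a b : ℝ) : Prop where
  ρ_pos : 0 < ρ
  a_pos : 0 < a
  b_pos : 0 < b
  cover : ∀ x ∈ K, ∃ i, x ∈ ok i
  closed : ∀ i, IsClosed (ok i)
  zero : ∀ i, ∀ x ∈ ok i, ψ i x 0 = x
  diff : ∀ i, ∀ x ∈ ok i, ∀ v ∈ ball (0 : E) ρ, MDifferentiableAt 𝓘(ℂ, E) 𝓘(ℂ, E) (ψ i x) v
  left : ∀ i, ∀ x ∈ ok i, ∀ v ∈ ball (0 : E) ρ, χ i x (ψ i x v) = v
  diff' : ∀ i, ∀ x ∈ ok i, ∀ v ∈ ball (0 : E) ρ, MDifferentiableAt 𝓘(ℂ, E) 𝓘(ℂ, E) (χ i x) (ψ i x v)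
  near : ∀ ε > 0, ∃ δ > 0, ∀ i, ∀ x ∈ ok i, ∀ v ∈ ball (0 : E) ρ, ‖v‖ < δ → dist (ψ i x v) x < ε
  near' : ∀ ε > 0, ∃ δ > 0, ∀ i, ∀ x ∈ ok i, ∀ q, dist q x < δ → ∃ v ∈ ball (0 : E) ρ, ‖v‖ < ε ∧ ψ i x v = q
  low : ∀ i, ∀ x ∈ ok i, ∀ w : E, a * ‖w‖ ≤ nE nrm x (du (ψ i x) 0 w)
  up : ∀ i, ∀ x ∈ ok i, ∀ w : E, nE nrm x (du (ψ i x) 0 w) ≤ b * ‖w‖
  cont : ∀ i, ContinuousOn (fun q : X × E => ψ i q.1 q.2) (ok i ×ˢ ball (0 : E) ρ)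

/-- The adapted parametrisation at the time `n`. -/
noncomputable def Pn {k l : ℕ} {ι : Type} (f : X ≃ X) (ψ : ι → X → E → X) (N : ℕ) (p : X) (i : ℕ → ι) (e : ℕ → V k l ≃L[ℂ] E) (n : ℕ)
    (v : V k l) : X := ψ (i n) (f^[N * n] p) (e n v)

/-- The constants of the data. -/
structure Cst (N : ℕ) (ρ ρ₀ ρ' C₁ C c : ℝ) : Prop where
  N_pos : 0 < N
  ρ'_pos : 0 < ρ'
  le : ρ' ≤ ρ₀
  C₁_pos : 0 < C₁
  C₁_le : C₁ * ρ₀ ≤ ρ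
  C_pos : 0 < C
  c_pos : 0 < c

/-- Uniform data at the point `p`: chart indices `i n`, frames `e n`, the maps `H n` (`f^N` in the parametrisations `Pn`), which are hyperbolic germs. -/
structure Dat (f : X ≃ X) {ι : Type} (ok : ι → Set X) (ψ : ι → X → E → X) (N : ℕ) (ρ₀ ρ' C₁ C c : ℝ) (p : X) (k l : ℕ)
    (i : ℕ → ι) (e : ℕ → V k l ≃L[ℂ] E) (H : ℕ → V k l → V k l) (A : ℕ → (Fin k → ℂ) →L[ℂ] (Fin k → ℂ))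
    (B : ℕ → (Fin l → ℂ) →L[ℂ] (Fin l → ℂ)) : Prop where
  mem : ∀ n, f^[N * n] p ∈ ok (i n)
  up : ∀ n v, ‖e n v‖ ≤ C₁ * ‖v‖
  low : ∀ n v, ‖v‖ ≤ C₁ * ‖e n v‖
  maps : ∀ n, ∀ v ∈ ball (0 : V k l) ρ', ‖H n v‖ ≤ ρ₀ / 2
  comm : ∀ n, ∀ v ∈ ball (0 : V k l) ρ', Pn f ψ N p i e (n + 1) (H n v) = f^[N] (Pn f ψ N p i e n v)
  adh : AdH k l H A B ρ' C c

end

/-- The properties of the local stable manifolds `{(x, τ n x)}` of the germs `H n` in the ball of radius `r` (`Bed.S_Tau`). -/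
structure TG (k l : ℕ) (r : ℝ) (H : ℕ → V k l → V k l) (τ : ℕ → (Fin k → ℂ) → (Fin l → ℂ)) : Prop where
  diff : ∀ n, DifferentiableOn ℂ (τ n) (ball 0 r)
  le : ∀ n, ∀ x ∈ ball (0 : Fin k → ℂ) r, ‖τ n x‖ ≤ ‖x‖
  lip : ∀ n, ∀ x ∈ ball (0 : Fin k → ℂ) r, ∀ y ∈ ball (0 : Fin k → ℂ) r, ‖τ n x - τ n y‖ ≤ ‖x - y‖
  con : ∀ n, ∀ x ∈ ball (0 : Fin k → ℂ) r, ‖(H n (x, τ n x)).1‖ ≤ ‖x‖ / 4
  inv : ∀ n, ∀ x ∈ ball (0 : Fin k → ℂ) r, (H n (x, τ n x)).2 = τ (n + 1) (H n (x, τ n x)).1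

/-- The restriction of `H n` to the local stable manifold. -/
def Fr {k l : ℕ} (H : ℕ → V k l → V k l) (τ : ℕ → (Fin k → ℂ) → (Fin l → ℂ)) (n : ℕ) (x : Fin k → ℂ) : Fin k → ℂ :=
  (H n (x, τ n x)).1

/-- **UAt.** Finite uniform atlas.  USES `Bed.S_NrC`, `Bed.S_UCf`.  PROOF.  As `Bed/UC.lean` (`Bed.sUC`), with the chart centre as an index.
For `x₀ ∈ K` let `φ = chartAt E x₀` and `R > 0` with `closedBall (φ x₀) (2R) ⊆ φ.target`; finitely many `U(x₀) = φ.source ∩ φ⁻¹(ball (φ x₀) R)`, `x₀ ∈ t`, cover `K`; `ρ` is the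
minimum of the `R` (`1` if `t` is empty).  `ι = t` (a finite set as a type), for `c ∈ t`, `φ = chartAt E c`: `ok c = K ∩ φ.symm '' closedBall (φ c) R`
(compact, so closed; on it `φ x ∈ closedBall (φ c) R`, `x ∈ φ.source`), `ψ c x v = φ.symm (φ x + v)`, `χ c x q = φ q - φ x`.  All properties are proved in
`Bed/UC.lean` for one choice `c = c(x)`; the proofs work for every `c ∈ t` with `x ∈ ok c` (`near`, `near'`, `low`, `up`: minimum or maximum over the finite `t`).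
`cont`: `φ` is continuous on `φ.source`, `φ.symm` on `φ.target`. -/
def S_UAt : Prop := Bed.S_NrC → Bed.S_UCf → ∀ (E : Type) [NormedAddCommGroup E] [NormedSpace ℂ E] [FiniteDimensional ℂ E] (X : Type)
  [MetricSpace X] [ChartedSpace E X] [IsManifold 𝓘(ℂ, E) 1 X] (nrm : (x : X) → TangentSpace 𝓘(ℂ, E) x → ℝ),
  IsFinsler nrm → ∀ K : Set X, IsCompact K →
  ∃ (ι : Type) (ok : ι → Set X) (ψ : ι → X → E → X) (χ : ι → X → X → E) (ρ a b : ℝ), Finite ι ∧ (∀ i, ok i ⊆ K) ∧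
    UAt nrm K ι ok ψ χ ρ a b

/-- **FrU.** `Bed.S_Frm` with constants which do not depend on the point.  USES `Bed.S_Frame`, `Bed.S_Dm`.  PROOF.  The proof of `Bed.sFrm` (`Bed/Frm.lean`): there
`N`, `C₁` and `c = ρ₂ / (C₁ * C₁)` are defined before the orbit of `p` is used (they depend on `E, nrm, f, K, C, lam, ψ, χ, ρ, a, b` only); copy the file and move
the introduction of `p` behind the choice of the constants.  (`k = finrank (sE Es p)`, `l = finrank (sE Eu p)`.) -/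
def S_FrU : Prop := Bed.S_Frame → Bed.S_Dm → ∀ (E : Type) [NormedAddCommGroup E] [NormedSpace ℂ E] [FiniteDimensional ℂ E] (X : Type)
  [MetricSpace X] [ChartedSpace E X] [IsManifold 𝓘(ℂ, E) 1 X] (nrm : (x : X) → TangentSpace 𝓘(ℂ, E) x → ℝ) (f : X ≃ X) (K : Set X)
  (Es Eu : (x : X) → Submodule ℂ (TangentSpace 𝓘(ℂ, E) x)) (C lam : ℝ) (ψ : X → E → X) (χ : X → X → E) (ρ a b : ℝ),
  IsFinsler nrm → IsHyp nrm f K Es Eu C lam → UCh nrm K ψ χ ρ a b →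
  (∀ n : ℕ, (∃ ρ', ULoc K ψ χ ρ (f^[n]) ρ' 1) ∧ ∃ ρ', ULoc K ψ χ ρ (f.symm^[n]) ρ' 1) →
  (∃ C' : ℝ, 0 < C' ∧ ∀ x ∈ K, ∀ v ∈ sE Es x, ∀ w ∈ sE Eu x, nE nrm x v ≤ C' * nE nrm x (v + w)) →
  ∃ (N : ℕ) (C₁ c : ℝ), 0 < N ∧ 0 < C₁ ∧ 0 < c ∧ ∀ p ∈ K, ∃ (k l : ℕ) (e : ℕ → V k l ≃L[ℂ] E) (A : ℕ → (Fin k → ℂ) →L[ℂ] (Fin k → ℂ))
    (B : ℕ → (Fin l → ℂ) →L[ℂ] (Fin l → ℂ)), Frm f p (sE Es p) ψ χ N k l e A B C₁ c

/-- **AdU.** `Bed.S_Ad` with explicit `P n` and constants which do not depend on the point.  USES `Bed.S_Quad`.  PROOF.  The proof of `Bed.sAd` (`Bed/Ad.lean`), with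
`ρ₁` from `ULoc` for `ε = ρ / (2 C₁²)`: `ρ₀ = ρ/C₁`, `H n v = (e (n+1))⁻¹ (loc (f^[N]) x_n (e n v))`, `ρ_H = min (ρ₁/C₁) ρ₀`, `ρ' = ρ_H/2`,
`‖H n v‖ ≤ C₁ ‖loc ..‖ ≤ ρ₀/2` for `‖v‖ < ρ_H`, `C` as there (`M = 2 ρ₀`: `C = 32 ρ₀/ρ_H²` plus the bound for the linear part); all constants depend on `ρ`,
`ρ₁`, `C₁` only.  The equation in the conclusion is `ULoc.comm` (`f^[N] (f^[N*n] p) = f^[N*(n+1)] p`). -/
def S_AdU : Prop := Bed.S_Quad → ∀ (E : Type) [NormedAddCommGroup E] [NormedSpace ℂ E] [FiniteDimensional ℂ E] (X : Type)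
  [MetricSpace X] [ChartedSpace E X] (nrm : (x : X) → TangentSpace 𝓘(ℂ, E) x → ℝ) (f : X ≃ X) (K : Set X)
  (Es : (x : X) → Submodule ℂ (TangentSpace 𝓘(ℂ, E) x)) (ψ : X → E → X) (χ : X → X → E) (ρ a b : ℝ) (N : ℕ) (C₁ c : ℝ),
  UCh nrm K ψ χ ρ a b → MapsTo f K K → (∀ ε > 0, ∃ ρ', ULoc K ψ χ ρ (f^[N]) ρ' ε) → 0 < N → 0 < C₁ → 0 < c →
  ∃ (ρ₀ ρ' C : ℝ), Cst N ρ ρ₀ ρ' C₁ C c ∧ ∀ p ∈ K, ∀ (k l : ℕ) (e : ℕ → V k l ≃L[ℂ] E)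
    (A : ℕ → (Fin k → ℂ) →L[ℂ] (Fin k → ℂ)) (B : ℕ → (Fin l → ℂ) →L[ℂ] (Fin l → ℂ)),
    Frm f p (sE Es p) ψ χ N k l e A B C₁ c → ∃ H : ℕ → V k l → V k l, AdH k l H A B ρ' C c ∧
      ∀ n, ∀ v ∈ ball (0 : V k l) ρ', ‖H n v‖ ≤ ρ₀ / 2 ∧
        ψ (f^[N * (n + 1)] p) (e (n + 1) (H n v)) = f^[N] (ψ (f^[N * n] p) (e n v))

/-- **DtE.** Existence of uniform data.  USES `Bed.S_UCf`, `Bed.S_Loc`, `Bed.S_Bnd`, `Bed.S_Ang`, `Bed.S_Frame`, `Bed.S_Dm`, `S_FrU`, `Bed.S_Quad`, `S_AdU`.  PROOF.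
(As the beginning of `Bed.sSet2` in `Bed/Set2.lean`.)  Choose `s : X → ι` with `x ∈ ok (s x)` for `x ∈ K` (if `K` is empty the
statement is trivial, any constants; `ι` may be empty then).  `ψ' x = ψ (s x) x`, `χ' x = χ (s x) x` satisfy `UCh nrm K ψ' χ' ρ a b` (special cases of the fields of
`UAt`).  `S_Loc`, `S_Bnd`, `S_Ang`, `S_FrU`, `S_AdU`.  Data at `p`: `i n = s (f^[N*n] p)`, `e`, `H`, `A`, `B`. -/
def S_DtE : Prop := Bed.S_UCf → Bed.S_Loc → Bed.S_Bnd → Bed.S_Ang → Bed.S_Frame → Bed.S_Dm → S_FrU → Bed.S_Quad → S_AdU →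
  ∀ (E : Type) [NormedAddCommGroup E] [NormedSpace ℂ E] [FiniteDimensional ℂ E] (X : Type)
  [MetricSpace X] [ChartedSpace E X] [IsManifold 𝓘(ℂ, E) 1 X] (nrm : (x : X) → TangentSpace 𝓘(ℂ, E) x → ℝ) (f : X ≃ X) (K : Set X)
  (Es Eu : (x : X) → Submodule ℂ (TangentSpace 𝓘(ℂ, E) x)) (C lam : ℝ) (ι : Type) (ok : ι → Set X) (ψ : ι → X → E → X)
  (χ : ι → X → X → E) (ρ a b : ℝ), IsFinsler nrm → IsHyp nrm f K Es Eu C lam → UAt nrm K ι ok ψ χ ρ a b →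
  ∃ (N : ℕ) (ρ₀ ρ' C₁ C₂ c : ℝ), Cst N ρ ρ₀ ρ' C₁ C₂ c ∧ ∀ p ∈ K, ∃ (k l : ℕ) (i : ℕ → ι) (e : ℕ → V k l ≃L[ℂ] E) (H : ℕ → V k l → V k l)
    (A : ℕ → (Fin k → ℂ) →L[ℂ] (Fin k → ℂ)) (B : ℕ → (Fin l → ℂ) →L[ℂ] (Fin l → ℂ)), Dat f ok ψ N ρ₀ ρ' C₁ C₂ c p k l i e H A B

/-- **DtP.** The data give adapted parametrisations in the sense of `Bed.AdP`.  PROOF.  Write `x_n = f^[N*n] p`.  `diff`: chain rule (`e n v ∈ ball 0 ρ` as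
`‖e n v‖ ≤ C₁ ‖v‖ < C₁ ρ₀ ≤ ρ`).  `inj`: `left`.  `dinj`: `χ ∘ ψ = id` near `e n v` (`left` on the open ball), chain rule, so `mfderiv (ψ ..) (e n v)` is injective, composed with the
injective `e n`.  `zero`: `UAt.zero`.  `near`: `‖e n v‖ ≤ C₁ ‖v‖`.  `near'`: `UAt.near'` for `min (ε/C₁) (ρ₀/C₁)`: `ψ u = q`, `v = (e n)⁻¹ u`, `‖v‖ ≤ C₁ ‖u‖ < min ε ρ₀`.  `maps`: `ρ₀/2 < ρ₀`.
`comm`: given.  `diffH`: `adh.diff`.  (Compare `Bed/Ad.lean`.) -/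
def S_DtP : Prop := ∀ (E : Type) [NormedAddCommGroup E] [NormedSpace ℂ E] [FiniteDimensional ℂ E] (X : Type)
  [MetricSpace X] [ChartedSpace E X] (nrm : (x : X) → TangentSpace 𝓘(ℂ, E) x → ℝ) (f : X ≃ X) (K : Set X)
  (ι : Type) (ok : ι → Set X) (ψ : ι → X → E → X) (χ : ι → X → X → E) (ρ a b : ℝ) (N : ℕ) (ρ₀ ρ' C₁ C c : ℝ) (p : X) (k l : ℕ)
  (i : ℕ → ι) (e : ℕ → V k l ≃L[ℂ] E) (H : ℕ → V k l → V k l) (A : ℕ → (Fin k → ℂ) →L[ℂ] (Fin k → ℂ))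
  (B : ℕ → (Fin l → ℂ) →L[ℂ] (Fin l → ℂ)), UAt nrm K ι ok ψ χ ρ a b → Cst N ρ ρ₀ ρ' C₁ C c → Dat f ok ψ N ρ₀ ρ' C₁ C c p k l i e H A B →
  AdP (E := E) f p N k l (Pn f ψ N p i e) H ρ₀ ρ'

/-- **TaU.** `Bed.S_Tau` with a given radius.  USES `Bed.S_Wei`.  PROOF.  The proof of `Bed.sTau` (`Bed/Tau.lean`) with `r` given instead of `min ρ (1/(64 C))`;
it uses only `0 < r`, `r ≤ ρ`, `C r ≤ 1/64`. -/
def S_TaU : Prop := Bed.S_Wei → ∀ (k l : ℕ) (H : ℕ → V k l → V k l) (A : ℕ → (Fin k → ℂ) →L[ℂ] (Fin k → ℂ))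
    (B : ℕ → (Fin l → ℂ) →L[ℂ] (Fin l → ℂ)) (ρ C c r : ℝ), AdH k l H A B ρ C c → 0 < r → r ≤ ρ → C * r ≤ 1 / 64 →
  ∃ τ : ℕ → (Fin k → ℂ) → (Fin l → ℂ), TG k l r H τ

/-- **Lsm.** USES `Bed.S_HInj`, `Bed.S_LSM`.  PROOF.  `HInj` and `LSM` give `IsLSM k l r C c H A τ F`; by `inv`, `F n x = (H n (x, τ n x)).1 = Fr H τ n x` on `ball 0 r`,
so `F` can be replaced by `Fr H τ` (all conditions are on the ball, `ball 0 r` is open, `fderiv` of functions which agree near a point). -/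
def S_Lsm : Prop := Bed.S_HInj → Bed.S_LSM → ∀ (E : Type) [NormedAddCommGroup E] [NormedSpace ℂ E] (X : Type)
  [MetricSpace X] [ChartedSpace E X] (f : X ≃ X) (p : X) (N k l : ℕ) (P : ℕ → V k l → X) (H : ℕ → V k l → V k l)
  (A : ℕ → (Fin k → ℂ) →L[ℂ] (Fin k → ℂ)) (B : ℕ → (Fin l → ℂ) →L[ℂ] (Fin l → ℂ)) (ρ ρ' C c r : ℝ)
  (τ : ℕ → (Fin k → ℂ) → (Fin l → ℂ)), MDifferentiable 𝓘(ℂ, E) 𝓘(ℂ, E) f → MDifferentiable 𝓘(ℂ, E) 𝓘(ℂ, E) f.symm →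
  AdP (E := E) f p N k l P H ρ ρ' → AdH k l H A B ρ' C c → 0 < r → r ≤ ρ' → C * r ≤ 1 / 64 → TG k l r H τ →
  IsLSM k l r C c H A τ (Fr H τ)

/-- **Uni.** Convergence of the local stable manifolds.  PROOF.  Let `d_n(a) = sup_(x ∈ ball 0 r) ‖τ_a n x - τ n x‖ ≤ 2 r` and `η_n(a) = sup_(v ∈ ball 0 r) ‖G a n v - H n v‖`
(for almost all `a`; `→ 0` along `L` for each `n`).  For `x ∈ ball 0 r`: let `y = τ_a n x`, `y' = τ n x`, `v = (x, y)`, `v' = (x, y')` (norm `≤ ‖x‖ < r`).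
`u = G a n v`, `u' = H n v'`, `u.2 = τ_a (n+1) u.1`, `u'.2 = τ (n+1) u'.1`.  `‖u - H n v‖ ≤ η_n`.  By `quad` for `H`: `‖(H n v - H n v') - (0, B n (y - y'))‖ ≤ 2 C r ‖y - y'‖ ≤ ‖y - y'‖/32`.
So `‖u.1 - u'.1‖ ≤ η_n + ‖y - y'‖/32`, and `8 ‖y - y'‖ ≤ ‖B n (y - y')‖ ≤ ‖u.2 - u'.2‖ + η_n + ‖y - y'‖/32`, while
`‖u.2 - u'.2‖ = ‖τ_a (n+1) u.1 - τ (n+1) u'.1‖ ≤ ‖τ_a (n+1) u.1 - τ (n+1) u.1‖ + ‖u.1 - u'.1‖ ≤ d_(n+1) + η_n + ‖y - y'‖/32` (`lip`; `u.1, u'.1 ∈ ball 0 r` by `con`).  Hence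
`‖y - y'‖ ≤ (d_(n+1) + 2 η_n)/7`, `d_n ≤ d_(n+1)/7 + η_n`, and by iteration `d_n ≤ 7^(-J) 2 r + ∑_(j<J) η_(n+j)`.  Given `ε`, choose `J`, then almost all `a`.
(Avoid suprema: prove by induction on `J`: if `‖G a (n+j) v - H (n+j) v‖ ≤ η` for all `j < J`, `v ∈ ball 0 r`, then `‖τ_a n x - τ n x‖ ≤ 7^(-J) 2 r + J η`.)
Second part: `Fr (G a) τ_a n x - Fr H τ n x` is the first component of `G a n v - H n v'`, at most `η_n + ‖H n v - H n v'‖`, and `‖H n v - H n v'‖ ≤ (‖B n‖ + 1/32) ‖y - y'‖`. -/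
def S_Uni : Prop := ∀ (I : Type) (L : Filter I) (k l : ℕ) (G : I → ℕ → V k l → V k l) (H : ℕ → V k l → V k l)
  (A : ℕ → (Fin k → ℂ) →L[ℂ] (Fin k → ℂ)) (B : ℕ → (Fin l → ℂ) →L[ℂ] (Fin l → ℂ)) (ρ C c r : ℝ)
  (T : I → ℕ → (Fin k → ℂ) → (Fin l → ℂ)) (τ : ℕ → (Fin k → ℂ) → (Fin l → ℂ)), AdH k l H A B ρ C c → 0 < r → r ≤ ρ → C * r ≤ 1 / 64 →
  TG k l r H τ → (∀ᶠ a in L, TG k l r (G a) (T a)) → (∀ n, TendstoUniformlyOn (fun a => G a n) (H n) L (ball 0 r)) →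
  (∀ n, TendstoUniformlyOn (fun a => T a n) (τ n) L (ball 0 r)) ∧
    ∀ n, TendstoUniformlyOn (fun a => Fr (G a) (T a) n) (Fr H τ n) L (ball 0 r)

/-- **Bdl.** Bounded functions have limits along ultrafilters.  PROOF.  The closed ball of radius `B` is compact (`W` is finite dimensional, `FiniteDimensional.proper`),
`IsCompact.ultrafilter_le_nhds` for `U.map g`. -/
def S_Bdl : Prop := ∀ (W : Type) [NormedAddCommGroup W] [NormedSpace ℂ W] [FiniteDimensional ℂ W] (I : Type) (U : Ultrafilter I)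
  (g : I → W) (B : ℝ), (∀ᶠ a in (U : Filter I), ‖g a‖ ≤ B) → ∃ w : W, ‖w‖ ≤ B ∧ Tendsto g U (𝓝 w)

/-- **UlF.** Limits of frames.  USES `S_Bdl`.  PROOF.  `e a` and `(e a).symm` as elements of `W →L[ℂ] E`, `E →L[ℂ] W` are bounded by `C₁`
(`ContinuousLinearMap.opNorm_le_bound`); limits `h`, `g` by `S_Bdl`; `h ∘ g = id`, `g ∘ h = id` (composition is continuous, limits are unique), so
`e' = ContinuousLinearEquiv.equivOfInverse h g`; the inequalities pass to the limit (`ge_of_tendsto`). -/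
def S_UlF : Prop := ∀ (W E : Type) [NormedAddCommGroup W] [NormedSpace ℂ W] [FiniteDimensional ℂ W] [NormedAddCommGroup E]
  [NormedSpace ℂ E] [FiniteDimensional ℂ E] (I : Type) (U : Ultrafilter I) (e : I → W ≃L[ℂ] E) (C₁ : ℝ), 0 < C₁ →
  (∀ᶠ a in (U : Filter I), (∀ v, ‖e a v‖ ≤ C₁ * ‖v‖) ∧ ∀ v, ‖v‖ ≤ C₁ * ‖e a v‖) →
  ∃ e' : W ≃L[ℂ] E, (∀ v, ‖e' v‖ ≤ C₁ * ‖v‖) ∧ (∀ v, ‖v‖ ≤ C₁ * ‖e' v‖) ∧
    Tendsto (fun a => (e a : W →L[ℂ] E)) U (𝓝 (e' : W →L[ℂ] E))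

/-- **UlP.** Limits of the parametrisations.  PROOF.  Let `x_a = f^[N*n] (p a) → x = f^[N*n] q` (`f` is continuous).  For `U`-almost all `a`: `i a n = j n`, so `x_a ∈ ok (j n)`, and
`x ∈ ok (j n)` (`UAt.closed`).  `e a n (v a) → e' n v'` (`‖e a n (v a) - e' n v'‖ ≤ ‖e a n - e' n‖ ‖v a‖ + ‖e' n‖ ‖v a - v'‖`).  `‖e' n v'‖ ≤ C₁ ‖v'‖ < ρ`, so the limit point
`(x, e' n v')` is in `ok (j n) ×ˢ ball 0 ρ`, and so are almost all `(x_a, e a n (v a))`; `UAt.cont`. -/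
def S_UlP : Prop := ∀ (E : Type) [NormedAddCommGroup E] [NormedSpace ℂ E] [FiniteDimensional ℂ E] (X : Type)
  [MetricSpace X] [ChartedSpace E X] (nrm : (x : X) → TangentSpace 𝓘(ℂ, E) x → ℝ) (f : X ≃ X) (K : Set X)
  (ι : Type) (ok : ι → Set X) (ψ : ι → X → E → X) (χ : ι → X → X → E) (ρ a₀ b₀ : ℝ) (N : ℕ) (ρ₀ ρ' C₁ C c : ℝ) (k l : ℕ) (I : Type)
  (U : Ultrafilter I) (p : I → X) (q : X) (i : I → ℕ → ι) (e : I → ℕ → V k l ≃L[ℂ] E) (j : ℕ → ι) (e' : ℕ → V k l ≃L[ℂ] E) (n : ℕ)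
  (v : I → V k l) (v' : V k l), Continuous f → UAt nrm K ι ok ψ χ ρ a₀ b₀ → Cst N ρ ρ₀ ρ' C₁ C c → Tendsto p U (𝓝 q) →
  (∀ᶠ a in (U : Filter I), i a n = j n ∧ f^[N * n] (p a) ∈ ok (j n)) → (∀ v, ‖e' n v‖ ≤ C₁ * ‖v‖) →
  Tendsto (fun a => (e a n : V k l →L[ℂ] E)) U (𝓝 (e' n : V k l →L[ℂ] E)) → Tendsto v U (𝓝 v') → ‖v'‖ < ρ₀ →
  f^[N * n] q ∈ ok (j n) ∧ Tendsto (fun a => Pn f ψ N (p a) (i a) (e a) n (v a)) U (𝓝 (Pn f ψ N q j e' n v'))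

/-- **UlE.** Equicontinuous pointwise convergence is uniform.  PROOF.  May take `L > 0`.  `H` is Lipschitz on `ball 0 ρ` with the constant `L` (limit).  Let `ε > 0`: finitely many points
`v_1, ..., v_m ∈ closedBall 0 (ρ/2)` such that every point of it is at distance `< ε/(4L)` from some `v_i` (compact, `IsCompact.finite_cover_balls`); for `U`-almost all `a`,
`‖G a v_i - H v_i‖ < ε/4` for all `i`; so `‖G a v - H v‖ < ε` on `ball 0 (ρ/2)`. -/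
def S_UlE : Prop := ∀ (V W : Type) [NormedAddCommGroup V] [NormedSpace ℂ V] [FiniteDimensional ℂ V] [NormedAddCommGroup W]
  [NormedSpace ℂ W] (I : Type) (U : Ultrafilter I) (G : I → V → W) (H : V → W) (ρ L : ℝ), 0 < ρ →
  (∀ᶠ a in (U : Filter I), ∀ v ∈ ball (0 : V) ρ, ∀ v' ∈ ball (0 : V) ρ, ‖G a v - G a v'‖ ≤ L * ‖v - v'‖) →
  (∀ v ∈ ball (0 : V) ρ, Tendsto (fun a => G a v) U (𝓝 (H v))) → TendstoUniformlyOn G H U (ball 0 (ρ / 2))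

/-- **Ult.** Limits of data along an ultrafilter.  USES `S_Bdl`, `S_UlF`, `S_UlP`, `S_UlE`.  PROOF.  Bounded sets of a finite dimensional space are relatively compact, so every bounded function `g` on `I` has a limit along `U`
(`IsCompact.ultrafilter_le_nhds`).  Fix `n`.  `x_a = f^[N*n] (p a) → x = f^[N*n] q` (`f` continuous).  `i_a n ∈ ι` finite: there is `j n` with `i_a n = j n` for `U`-almost all `a`
(`Ultrafilter.eventually_exists_iff` or finite unions); `x ∈ ok (j n)` (`closed`).  `e_a n → e' n`, `(e_a n)⁻¹ → g n` in the spaces of continuous linear maps (bounded by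
`up`, `low`); `e' n ∘ g n = id`, `g n ∘ e' n = id`, so they form an equivalence `e n`; the bounds pass to the limit.  `A_a n → A n`, `B_a n → B n` (`‖A_a n‖ ≤ 1/8`;
`‖B_a n v‖ ≤ ‖H_a n (0, v)‖ + C ‖v‖² ≤ ρ₀ + C ρ'^2` for `‖v‖ ≤ ρ'/2`, so `B_a n` is bounded), with the bounds of `AdH`.
For `v ∈ ball 0 ρ'`: `H_a n v` is bounded by `ρ₀/2`; let `H n v` be its limit (`0` outside of the ball).  `Pn` converges: if `v_a → v`, `‖v_a‖ ≤ ρ₀/2` or `v_a = v ∈ ball 0 ρ'`, then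
`Pn .. (p a) .. n v_a = ψ (j n) x_a (e_a n v_a) → ψ (j n) x (e n v)` (`UAt.cont`, the limit point is in `ok (j n) ×ˢ ball 0 ρ`, all points are in `ok (j n) ×ˢ ball 0 ρ`).  So `comm` passes to the
limit.  `quad`, `zero`, `maps`: pointwise limits.  `diff`: by `comm` `e (n+1) (H n v) = χ (j (n+1)) x' (f^[N] (Pn .. q .. n v))`, `x' = f^[N*(n+1)] q` (`left`, `‖e (n+1) (H n v)‖ ≤ C₁ ρ₀/2 < ρ`),
which is holomorphic in `v` (`diff'` at the point `f^[N] (Pn .. n v) = ψ (j (n+1)) x' (e (n+1) (H n v))`, `f^[N]` is holomorphic, `diff`; `mdifferentiableAt_iff_differentiableAt`); compare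
`Bed/Loc.lean`.  Uniform convergence on `ball 0 (ρ'/2)`: `H_a n` and `H n` are Lipschitz on `ball 0 ρ'` with the constant `L = 1/8 + ‖B‖-bound + 2 C ρ'` and converge pointwise; for `ε > 0`
finitely many balls of radius `ε/(4L)` with centres in `ball 0 ρ'` cover `ball 0 (ρ'/2)`. -/
def S_Ult : Prop := ∀ (E : Type) [NormedAddCommGroup E] [NormedSpace ℂ E] [FiniteDimensional ℂ E] (X : Type)
  [MetricSpace X] [ChartedSpace E X] (nrm : (x : X) → TangentSpace 𝓘(ℂ, E) x → ℝ) (f : X ≃ X) (K : Set X)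
  (ι : Type) (ok : ι → Set X) (ψ : ι → X → E → X) (χ : ι → X → X → E) (ρ a₀ b₀ : ℝ) (N : ℕ) (ρ₀ ρ' C₁ C c : ℝ) (k l : ℕ) (I : Type)
  (U : Ultrafilter I) (p : I → X) (q : X) (i : I → ℕ → ι) (e : I → ℕ → V k l ≃L[ℂ] E) (H : I → ℕ → V k l → V k l)
  (A : I → ℕ → (Fin k → ℂ) →L[ℂ] (Fin k → ℂ)) (B : I → ℕ → (Fin l → ℂ) →L[ℂ] (Fin l → ℂ)), Finite ι →
  MDifferentiable 𝓘(ℂ, E) 𝓘(ℂ, E) f → UAt nrm K ι ok ψ χ ρ a₀ b₀ → Cst N ρ ρ₀ ρ' C₁ C c → Tendsto p U (𝓝 q) →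
  (∀ᶠ a in (U : Filter I), Dat f ok ψ N ρ₀ ρ' C₁ C c (p a) k l (i a) (e a) (H a) (A a) (B a)) →
  ∃ (j : ℕ → ι) (e' : ℕ → V k l ≃L[ℂ] E) (H' : ℕ → V k l → V k l) (A' : ℕ → (Fin k → ℂ) →L[ℂ] (Fin k → ℂ))
    (B' : ℕ → (Fin l → ℂ) →L[ℂ] (Fin l → ℂ)), Dat f ok ψ N ρ₀ ρ' C₁ C c q k l j e' H' A' B' ∧
    ∀ n, TendstoUniformlyOn (fun a => H a n) (H' n) U (ball 0 (ρ' / 2))

/-- **Dmk.** The dimension.  USES `Bed.S_Dm`.  PROOF.  `x_n = f^[N*n] p ∈ K`, `D_n = du (ψ (i n) x_n) 0` (bijective by `low`), `D'_n w = D_n (e n w)`, `(a/C₁) ‖w‖ ≤ nE x_n (D'_n w) ≤ b C₁ ‖w‖`.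
`quad` with `v' = 0`: `fderiv ℂ (H n) 0 w = (A n w.1, B n w.2)`.  Differentiate `comm` at `0` (`H n 0 = 0`, `Pn .. n 0 = x_n`): `dg (f^[N]) x_n (D'_n w) = D'_(n+1) (A n w.1, B n w.2)`, so with
`S_Dm` (last part, chain rule) `dg (f^[N*n]) p (D'_0 w) = D'_n (A^(n) w.1, B^(n) w.2)`, `A^(n) = A (n-1) ... A 0`, `‖A^(n) z‖ ≤ 8^(-n) ‖z‖`, `‖B^(n) y‖ ≥ 8^n ‖y‖`.
Claim: `D'_0 (z, y) ∈ sE Es p ↔ y = 0`.  If it is in `Es`: `nE (dg (f^[N*n]) p ..) → 0` (`contr`, `lam < 1`), but it is `≥ (a/C₁) 8^n ‖y‖`; so `y = 0`.  If `y = 0`: write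
`D'_0 (z, 0) = v + w`, `v ∈ Es`, `w ∈ Eu` (`compl`); `nE (dg (f^[N*n]) p (D'_0 (z, 0))) → 0` and `nE (dg .. v) → 0`, so `nE (dg .. w) → 0` (`IsFinsler.add_le`), but
`nE w ≤ C lam^(N*n) nE (dg .. w)` (`expand`), so `w = 0` (`IsFinsler.pos`).  So `z ↦ D'_0 (z, 0)` is an isomorphism of `Fin k → ℂ` onto `sE Es p`. -/
def S_Dmk : Prop := Bed.S_Dm → ∀ (E : Type) [NormedAddCommGroup E] [NormedSpace ℂ E] [FiniteDimensional ℂ E] (X : Type)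
  [MetricSpace X] [ChartedSpace E X] [IsManifold 𝓘(ℂ, E) 1 X] (nrm : (x : X) → TangentSpace 𝓘(ℂ, E) x → ℝ) (f : X ≃ X) (K : Set X)
  (Es Eu : (x : X) → Submodule ℂ (TangentSpace 𝓘(ℂ, E) x)) (C' lam : ℝ)
  (ι : Type) (ok : ι → Set X) (ψ : ι → X → E → X) (χ : ι → X → X → E) (ρ a b : ℝ) (N : ℕ) (ρ₀ ρ' C₁ C c : ℝ) (p : X) (k l : ℕ)
  (i : ℕ → ι) (e : ℕ → V k l ≃L[ℂ] E) (H : ℕ → V k l → V k l) (A : ℕ → (Fin k → ℂ) →L[ℂ] (Fin k → ℂ))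
  (B : ℕ → (Fin l → ℂ) →L[ℂ] (Fin l → ℂ)), IsFinsler nrm → IsHyp nrm f K Es Eu C' lam → UAt nrm K ι ok ψ χ ρ a b → Cst N ρ ρ₀ ρ' C₁ C c →
  p ∈ K → Dat f ok ψ N ρ₀ ρ' C₁ C c p k l i e H A B → Module.finrank ℂ (Es p) = k

/-- **Sta.** USES `Bed.S_UCf`, `Bed.S_AsA2`, `Bed.S_AsB`, `Bed.S_AsB2`.  PROOF.  The part `hCk` of `Bed.sSet2` (`Bed/Set2.lean`), copied. -/
def S_Sta : Prop := Bed.S_UCf → Bed.S_AsA2 → Bed.S_AsB → Bed.S_AsB2 → ∀ (E : Type) [NormedAddCommGroup E] [NormedSpace ℂ E] (X : Type)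
  [MetricSpace X] [ChartedSpace E X] (f : X ≃ X) (K : Set X) (p : X) (N k l : ℕ) (P : ℕ → V k l → X)
  (H : ℕ → V k l → V k l) (A : ℕ → (Fin k → ℂ) →L[ℂ] (Fin k → ℂ)) (τ : ℕ → (Fin k → ℂ) → (Fin l → ℂ))
  (F : ℕ → (Fin k → ℂ) → (Fin k → ℂ)) (ρ ρ' r C c : ℝ), IsCompact K → MapsTo f K K → p ∈ K →
  MDifferentiable 𝓘(ℂ, E) 𝓘(ℂ, E) f → MDifferentiable 𝓘(ℂ, E) 𝓘(ℂ, E) f.symm →
  AdP (E := E) f p N k l P H ρ ρ' → r ≤ ρ' → IsLSM k l r C c H A τ F → BasinCk k r F → StabCk E k f p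

/-- **Eta.** The coordinates of the points `Φ u` at a large time.  USES `Bed.S_UCf`, `Bed.S_AsB` (only its method).  PROOF.  Write `g m ξ = Pn f ψ N p i e m (ξ, τ m ξ)`, `ξ ∈ ball 0 r`.  Let `δ` be from
`AdP.near'` for `ε = r`.  By the locally uniform convergence (last hypothesis on `Φ`) there are an open neighbourhood `W` of `u₀` and `m ≥ n` with `dist (f^[N m'] (Φ u)) (f^[N m'] p) < δ` for all
`m' ≥ m`, `u ∈ W`.  For `u ∈ W` `near'` gives `v_j ∈ ball 0 ρ₀`, `‖v_j‖ < r`, `Pn (m+j) v_j = f^[N (m+j)] (Φ u)`; `Pn (m+j+1) (H (m+j) v_j) = f^[N] (Pn (m+j) v_j) = Pn (m+j+1) v_(j+1)` (`comm`), both points in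
`ball 0 ρ₀` (`maps`), so `v_(j+1) = H (m+j) v_j` (`AdP.inj`); `IsLSM.uniq`: `v_0.2 = τ m v_0.1`.  Let `η u = v_0.1`, so `g m (η u) = f^[N m] (Φ u)`.
`(η u, τ m (η u)) = (e m).symm (χ (i m) x_m (f^[N m] (Φ u)))` (`UAt.left`; `x_m = f^[N*m] p`, the norm of `e m v_0` is `< ρ`), so `η` is holomorphic on `W` (`UAt.diff'` at the point
`f^[N m] (Φ u) = ψ (i m) x_m (e m v_0)`, `f^[N m]` and `Φ` are `MDifferentiable`, `mdifferentiableAt_iff_differentiableAt`).  If `fderiv η u w = 0`, differentiate `g m (η u) = f^[N m] (Φ u)` in the direction `w`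
(equality on the open set `W`): `mfderiv (f^[N m]) (Φ u) (mfderiv Φ u w) = 0`, both derivatives are injective (`f.symm^[N m] ∘ f^[N m] = id`), so `w = 0`. -/
def S_Eta : Prop := ∀ (E : Type) [NormedAddCommGroup E] [NormedSpace ℂ E] [FiniteDimensional ℂ E] (X : Type)
  [MetricSpace X] [ChartedSpace E X] (nrm : (x : X) → TangentSpace 𝓘(ℂ, E) x → ℝ) (f : X ≃ X) (K : Set X)
  (ι : Type) (ok : ι → Set X) (ψ : ι → X → E → X) (χ : ι → X → X → E) (ρ a b : ℝ) (N : ℕ) (ρ₀ ρ' C₁ C c r : ℝ) (p : X) (k l : ℕ)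
  (i : ℕ → ι) (e : ℕ → V k l ≃L[ℂ] E) (H : ℕ → V k l → V k l) (A : ℕ → (Fin k → ℂ) →L[ℂ] (Fin k → ℂ))
  (B : ℕ → (Fin l → ℂ) →L[ℂ] (Fin l → ℂ)) (τ : ℕ → (Fin k → ℂ) → (Fin l → ℂ)) (F : ℕ → (Fin k → ℂ) → (Fin k → ℂ)) (Φ : (Fin k → ℂ) → X),
  MDifferentiable 𝓘(ℂ, E) 𝓘(ℂ, E) f → MDifferentiable 𝓘(ℂ, E) 𝓘(ℂ, E) f.symm →
  UAt nrm K ι ok ψ χ ρ a b → Cst N ρ ρ₀ ρ' C₁ C c → Dat f ok ψ N ρ₀ ρ' C₁ C c p k l i e H A B →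
  AdP (E := E) f p N k l (Pn f ψ N p i e) H ρ₀ ρ' → r ≤ ρ' → IsLSM k l r C c H A τ F →
  MDifferentiable 𝓘(ℂ, Fin k → ℂ) 𝓘(ℂ, E) Φ → (∀ z, Function.Injective (mfderiv 𝓘(ℂ, Fin k → ℂ) 𝓘(ℂ, E) Φ z)) →
  TendstoLocallyUniformly (fun (n : ℕ) (z : Fin k → ℂ) => dist (f^[n] (Φ z)) (f^[n] p)) (fun _ => 0) atTop →
  ∀ (n : ℕ) (u₀ : Fin k → ℂ), ∃ (m : ℕ) (W : Set (Fin k → ℂ)) (η : (Fin k → ℂ) → (Fin k → ℂ)), n ≤ m ∧ IsOpen W ∧ u₀ ∈ W ∧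
    DifferentiableOn ℂ η W ∧ (∀ u ∈ W, η u ∈ ball (0 : Fin k → ℂ) r ∧ Pn f ψ N p i e m (η u, τ m (η u)) = f^[N * m] (Φ u)) ∧
    ∀ u ∈ W, ∀ w, fderiv ℂ η u w = 0 → w = 0

/-- **Stb.** The converse.  USES `S_Eta`, `Bed.S_UCf`, `Bed.S_AsB`.  PROOF.  Let `Φ` be from `StabCk`, `g n ξ = Pn .. n (ξ, τ n ξ)` for `ξ ∈ B = ball 0 r` (injective on `B`).  `S_AsB`:
`stab f p = {q | ∃ n, ∃ ξ ∈ B, g n ξ = f^[N n] q}`.  For `ξ ∈ B`, `q = (f^[N n])⁻¹ (g n ξ) ∈ stab f p = range Φ`; let `Ψ n ξ` be the point with `Φ (Ψ n ξ) = q`, i.e. `f^[N n] (Φ (Ψ n ξ)) = g n ξ`.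
`comp`: `f^[N] (g n ξ) = g (n+1) (F n ξ)` (`AdP.comm`, `IsLSM.inv`) and `Φ`, `f` injective.  `inj`: clear.  Onto: `Φ u ∈ stab f p`, so `f^[N n] (Φ u) = g n ξ` for some `n`, `ξ`, `Ψ n ξ = u`.
Holomorphic immersion at `ξ₀ ∈ B` (time `n`): `u₀ = Ψ n ξ₀`; `m`, `W`, `η` from `S_Eta`.  `g m (orb F n (m-n) ξ₀) = f^[N (m-n)] (g n ξ₀) = f^[N m] (Φ u₀) = g m (η u₀)`, so
`η u₀ = orb F n (m-n) ξ₀ =: y₀`.  `η` is analytic at `u₀` with injective, so invertible derivative (`Osgood.analyticAt`, finite dimension); local inverse `θ` at `y₀` (`HasStrictFDerivAt.localInverse`):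
`θ y ∈ W`, `η (θ y) = y` for `y` near `y₀`, differentiable at `y₀`, the derivative is the inverse of `fderiv η u₀`.  For `ξ` near `ξ₀`,
`y = orb F n (m-n) ξ`, `u = θ y`: `f^[N m] (Φ u) = g m y = f^[N (m-n)] (g n ξ)`, so `f^[N n] (Φ u) = g n ξ`, `Ψ n ξ = u`.  So `Ψ n = θ ∘ orb F n (m-n)` near `ξ₀`: differentiable at `ξ₀` with injective derivative
(`orb F n (m-n)` is an injective immersion). -/
def S_Stb : Prop := Bed.S_UCf → Bed.S_AsB → ∀ (E : Type) [NormedAddCommGroup E] [NormedSpace ℂ E] [FiniteDimensional ℂ E] (X : Type)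
  [MetricSpace X] [ChartedSpace E X] (nrm : (x : X) → TangentSpace 𝓘(ℂ, E) x → ℝ) (f : X ≃ X) (K : Set X)
  (ι : Type) (ok : ι → Set X) (ψ : ι → X → E → X) (χ : ι → X → X → E) (ρ a b : ℝ) (N : ℕ) (ρ₀ ρ' C₁ C c r : ℝ) (p : X) (k l : ℕ)
  (i : ℕ → ι) (e : ℕ → V k l ≃L[ℂ] E) (H : ℕ → V k l → V k l) (A : ℕ → (Fin k → ℂ) →L[ℂ] (Fin k → ℂ))
  (B : ℕ → (Fin l → ℂ) →L[ℂ] (Fin l → ℂ)) (τ : ℕ → (Fin k → ℂ) → (Fin l → ℂ)) (F : ℕ → (Fin k → ℂ) → (Fin k → ℂ)),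
  IsCompact K → MapsTo f K K → p ∈ K → MDifferentiable 𝓘(ℂ, E) 𝓘(ℂ, E) f → MDifferentiable 𝓘(ℂ, E) 𝓘(ℂ, E) f.symm →
  UAt nrm K ι ok ψ χ ρ a b → Cst N ρ ρ₀ ρ' C₁ C c → Dat f ok ψ N ρ₀ ρ' C₁ C c p k l i e H A B →
  AdP (E := E) f p N k l (Pn f ψ N p i e) H ρ₀ ρ' → r ≤ ρ' → IsLSM k l r C c H A τ F → StabCk E k f p → BasinCk k r F

end Pool.Agent.Lib.BedR
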