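import Pool.Agent.Lib.BedR.SpecF

/-!
# Theorem G (MP_6f050a_an, project BedR), part P: periodic points

CONVENTION.  Statement `S_X` is proved in the file `BedR/X.lean` as `theorem xP : S_X` or `theorem xP : S_Y → S_Z → S_X` (the
statements after USES are explicit hypotheses in that order), auxiliary lemmas in the namespace `Pool.Agent.Lib.BedR.XM`.  All
proofs are complete in the docstrings.
-/

set_option autoImplicit false

open scoped Manifold ContDiff Topology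
open Set Filter Metric
open Pool.Agent.Lib Pool.Agent.Lib.Bed

namespace Pool.Agent.Lib.BedR

/-! ## Linear algebra -/

/-- **SpU.** Upper growth bound.  PROOF.  Let `T' : G →L[ℂ] G` be the restriction of `T` to `G` (`LinearMap.restrict`, finite dimension), so `((T'^j) v : V) = (T^j) v`.
A point `μ` of the spectrum of `T'` in the Banach algebra `G →L[ℂ] G` is an eigenvalue (`Module.End.toContinuousLinearMap` is an algebra equivalence,
`AlgEquiv.spectrum_eq`, `Module.End.hasEigenvalue_iff_mem_spectrum`), so `‖μ‖ < a`.  The spectrum is compact, so the spectral radius is less than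
`a` (`spectrum.spectralRadius_lt_of_forall_lt`; it is `0` if the spectrum is empty).  By the formula of Gelfand
(`spectrum.pow_nnnorm_pow_one_div_tendsto_nhds_spectralRadius`) `‖T'^j‖ ≤ a^j` for `j ≥ J`.  `C = 1 + ∑ j < J, ‖T'^j‖ / a^j`. -/
def S_SpU : Prop := ∀ (V : Type) [NormedAddCommGroup V] [NormedSpace ℂ V] [FiniteDimensional ℂ V] (T : V →L[ℂ] V)
  (G : Submodule ℂ V) (a : ℝ), 0 < a → (∀ v ∈ G, T v ∈ G) → (∀ (μ : ℂ) (v : V), v ∈ G → v ≠ 0 → T v = μ • v → ‖μ‖ < a) →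
  ∃ C : ℝ, 0 < C ∧ ∀ j : ℕ, ∀ v ∈ G, ‖(T ^ j) v‖ ≤ C * a ^ j * ‖v‖

/-- **SpL.** Lower growth bound.  USES `S_SpU`.  PROOF.  The restriction `T'` of `T` to `G` is injective, so bijective (finite dimension); let `R` be its inverse, a
continuous linear map of `↥G`.  If `R v = ν • v`, `v ≠ 0`, then `v = ν • T' v`, so `ν ≠ 0`, `T v = ν⁻¹ • v`, `b < ‖ν⁻¹‖`, `‖ν‖ < b⁻¹`.  `S_SpU` for the space
`↥G`, the map `R`, the subspace `⊤` and `a = b⁻¹`: `‖R^j v‖ ≤ C b^(-j) ‖v‖`; apply it to `T'^j v`: `‖v‖ ≤ C b^(-j) ‖T^j v‖`; `c = C⁻¹`. -/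
def S_SpL : Prop := ∀ (V : Type) [NormedAddCommGroup V] [NormedSpace ℂ V] [FiniteDimensional ℂ V] (T : V →L[ℂ] V)
  (G : Submodule ℂ V) (b : ℝ), 0 < b → (∀ v ∈ G, T v ∈ G) → (∀ v ∈ G, T v = 0 → v = 0) →
  (∀ (μ : ℂ) (v : V), v ∈ G → v ≠ 0 → T v = μ • v → b < ‖μ‖) →
  ∃ c : ℝ, 0 < c ∧ ∀ j : ℕ, ∀ v ∈ G, c * b ^ j * ‖v‖ ≤ ‖(T ^ j) v‖

/-- **Cut.** Splitting of an invariant subspace.  PROOF.  `χ = minpoly ℂ T` (or the characteristic polynomial), `χ ≠ 0`, `aeval T χ = 0`,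
`χ = C * ∏ (X - μ)` over the multiset of its roots.  `p₁` = the product of the factors with `P μ`, `p₂` = the product of the other factors (`Multiset.filter`),
so `aeval T (p₁ * p₂) = 0`, and `p₁`, `p₂` are coprime (no common root: `IsCoprime` of products of `X - μ`, `Polynomial.isCoprime_X_sub_C_of_isUnit_sub`, or
`Polynomial.isCoprime_of_..`): `a p₁ + b p₂ = 1`.  `A = S ⊓ ker (aeval T p₁)`, `B = S ⊓ ker (aeval T p₂)`.  Polynomials in `T` map `S`, `A`, `B` into themselves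
(they commute with `T`; `S` is invariant).  `A ⊔ B = S`: `v = (aeval T (b p₂)) v + (aeval T (a p₁)) v`, first summand in `A`, second in `B`.  Disjoint: if `v` is in both,
both summands are `0`.  Eigenvalues: `v ∈ A`, `v ≠ 0`, `T v = μ • v` gives `0 = aeval T p₁ v = p₁(μ) • v` (`Module.End.aeval_apply_of_hasEigenvector`), so
`p₁(μ) = 0`, `P μ`; the same for `B`. -/
def S_Cut : Prop := ∀ (V : Type) [AddCommGroup V] [Module ℂ V] [FiniteDimensional ℂ V] (T : V →ₗ[ℂ] V)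
  (S : Submodule ℂ V) (P : ℂ → Prop), (∀ v ∈ S, T v ∈ S) → ∃ A B : Submodule ℂ V, A ⊔ B = S ∧ Disjoint A B ∧
  (∀ v ∈ A, T v ∈ A) ∧ (∀ v ∈ B, T v ∈ B) ∧ (∀ (μ : ℂ) (v : V), v ∈ A → v ≠ 0 → T v = μ • v → P μ) ∧
  ∀ (μ : ℂ) (v : V), v ∈ B → v ≠ 0 → T v = μ • v → ¬ P μ

/-- A filtration by the moduli `ρ 0 > ρ 1 > ...` of the eigenvalues of `T` on `S`. -/
structure Flt {V : Type} [AddCommGroup V] [Module ℂ V] (T : V →ₗ[ℂ] V) (S : Submodule ℂ V) (r : ℕ)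
    (U W : ℕ → Submodule ℂ V) (ρ : ℕ → ℝ) : Prop where
  bot : U 0 = ⊥
  top : U r = S
  sup : ∀ i < r, U (i + 1) = U i ⊔ W i
  disj : ∀ i < r, Disjoint (U i) (W i)
  invU : ∀ i < r, ∀ v ∈ U i, T v ∈ U i
  invW : ∀ i < r, ∀ v ∈ W i, T v ∈ W i
  leS : ∀ i < r, U i ≤ S ∧ W i ≤ S
  pos : ∀ i < r, 0 < ρ i
  eigW : ∀ i < r, ∀ (μ : ℂ) (v : V), v ∈ W i → v ≠ 0 → T v = μ • v → ‖μ‖ = ρ i
  eigU : ∀ i < r, ∀ (μ : ℂ) (v : V), v ∈ U i → v ≠ 0 → T v = μ • v → ρ i < ‖μ‖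

/-- **Fil.** USES `S_Cut`.  PROOF.  Induction on `finrank S`.  `S = ⊥`: `r = 0`, `U = W = fun _ => ⊥`, `ρ = 1`.  `S ≠ ⊥`: the restriction of `T` to `S` has an
eigenvector (`Module.End.exists_eigenvalue`); the set of the `μ` with an eigenvector in `S` is finite (eigenvalues of `T`, finite dimension) and nonempty, let `μ₀` have the
least norm `ρ₀` among them, with `v₀ ∈ S`; `ρ₀ > 0` by injectivity.  `S_Cut` with `P μ := ρ₀ < ‖μ‖`: `A`, `B`.  Eigenvalues on `B ≤ S` have norm `≤ ρ₀` and `≥ ρ₀`.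
`A ≠ S`: otherwise `v₀ ∈ A` and `ρ₀ < ‖μ₀‖ = ρ₀`.  So `finrank A < finrank S`; the induction hypothesis for `A` gives `r', U', W', ρ'`.  Put `r = r' + 1`,
`U i = if i ≤ r' then U' i else S`, `W i = if i < r' then W' i else B`, `ρ i = if i < r' then ρ' i else ρ₀` (`U' r' = A`). -/
def S_Fil : Prop := ∀ (V : Type) [AddCommGroup V] [Module ℂ V] [FiniteDimensional ℂ V] (T : V →ₗ[ℂ] V)
  (S : Submodule ℂ V), (∀ v ∈ S, T v ∈ S) → (∀ v ∈ S, T v = 0 → v = 0) →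
  ∃ (r : ℕ) (U W : ℕ → Submodule ℂ V) (ρ : ℕ → ℝ), Flt T S r U W ρ

/-- **Lfc.** Condition (F) for the powers of `T`.  USES `S_SpU`, `S_SpL`, `S_Fil`.  PROOF.  `Flt T S r U W ρ` from `S_Fil`.  `top`, `sup`, `disj`: clear.  It suffices to
find the constants of `dom`, `bun` for every single `i < r` (then take `1 +` the sum, or the maximum, of the `C_i` and the minimum of the `η_i`, over `i < r`; `C = η = 1` if `r = 0`).
`dom`: the eigenvalues of `T` are finitely many, so there are `a, b` with `ρ i < a < b` and `b < ‖μ‖` for all eigenvalues `μ` with an eigenvector in `U i` (`eigU`).  `S_SpU` for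
`W i`, `a` and `S_SpL` for `U i`, `b`; for `u ∈ U i`, `w ∈ W i` use them at `T^n w ∈ W i`, `T^n u ∈ U i`:
`‖T^(n+m) w‖ ‖T^n u‖ ≤ C a^m ‖T^n w‖ * (c b^m)⁻¹ ‖T^(n+m) u‖`, `η = log (b/a)`, `exp (-(η m)) = (a/b)^m`.
`bun`: if there is an eigenvector in `W i`, then `ρ i < 1` (`eigW`, `leS`, hypothesis), `ρ i ^2 < ρ i`, and there are `b < ρ i < a` with `0 < b`, `a^2 < b`; if there is none, take
`a = b = 1/2`.  `S_SpU` for `W i`, `a`, `S_SpL` for `W i`, `b`: `‖T^(n+m) v‖^2 ‖T^n w‖ ≤ C^2 a^(2m) ‖T^n v‖^2 * (c b^m)⁻¹ ‖T^(n+m) w‖`, `η = log (b/a^2)`.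
`base`: `U 0 = ⊥`, so `v = 0`; `lam = mu = 1/2`, `C = 1` (`(1/2)^5 < (1/2)^2`), all norms are `0`. -/
def S_Lfc : Prop := ∀ (V : Type) [NormedAddCommGroup V] [NormedSpace ℂ V] [FiniteDimensional ℂ V] (T : V →L[ℂ] V)
  (S : Submodule ℂ V), (∀ v ∈ S, T v ∈ S) → (∀ v ∈ S, T v = 0 → v = 0) →
  (∀ (μ : ℂ) (v : V), v ∈ S → v ≠ 0 → T v = μ • v → ‖μ‖ < 1) →
  ∃ (r : ℕ) (U W : ℕ → Submodule ℂ V), U 0 = ⊥ ∧ BedF.FC (fun j v => ‖(T ^ j) v‖) r U W S

/-- **Tra.** Transfer of the condition (F) to comparable norms.  PROOF.  `top`, `sup`, `disj`: the same.  Let `n = m j + i`, `n + k = m j' + i'` with `i, i' < m`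
(`Nat.div`, `Nat.mod`); `j' = j + l` and `m l ≥ k - m` (as `m (l + 1) > k`).  `exp (-(η l)) ≤ exp η * exp (-((η / m) k))`.
`dom`: `N'(n+k) w * N' n u ≤ β^2 N j' w * N j u ≤ β^2 C exp (-(η l)) N j w * N j' u ≤ (β/α)^2 C exp (-(η l)) N' n w * N'(n+k) u`; the new constants are
`(β/α)^2 C exp η` and `η / m`.  `bun`: the same with `(β/α)^3`.  `base`: `v = 0`, `N' n 0 = 0`, `lam = mu = 1/2`. -/
def S_Tra : Prop := ∀ (V : Type) [AddCommGroup V] [Module ℂ V] (N N' : ℕ → V → ℝ) (m : ℕ) (α β : ℝ) (r : ℕ)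
  (U W : ℕ → Submodule ℂ V) (S : Submodule ℂ V), 0 < m → 0 < α → 0 < β → (∀ j v, 0 ≤ N j v) → (∀ n, N' n 0 = 0) →
  (∀ j i : ℕ, i < m → ∀ v, α * N j v ≤ N' (m * j + i) v ∧ N' (m * j + i) v ≤ β * N j v) → U 0 = ⊥ →
  BedF.FC N r U W S → BedF.FC N' r U W S

/-! ## Periodic points -/

/-- **Cmq.** Comparison of the norms along a periodic orbit.  USES `Bed.S_Dm`.  PROOF.  Let `T = dg (f^[m]) p`; `f^[m * j] p = p` for all `j`.  By `S_Dm`
`dg (f^[m * j]) p v = (T ^ j) v` (induction on `j`; `f^[0] = id`, `dg id p = id`), and `dg (f^[m * j + i]) p v = dg (f^[i]) p ((T ^ j) v)`.  For `i < m` the function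
`g_i v = nE nrm (f^[i] p) (dg (f^[i]) p v)` is continuous on `E` (`IsFinsler.cont` composed with the continuous map of the fibre into the tangent bundle, `FiberBundle.continuous_totalSpaceMk`, and the
continuous linear map `dg (f^[i]) p`), positive for `v ≠ 0` (`IsFinsler.pos`, injectivity in `S_Dm`), and `g_i (t v) = t g_i v` for real `t ≥ 0` (`IsFinsler.smul`).  The unit sphere of `E` is
compact, so there are `α_i, β_i > 0` with `α_i ‖v‖ ≤ g_i v ≤ β_i ‖v‖` (if the sphere is empty then `E` is trivial and all is `0`; `g_i 0 = 0`).  Minimum and maximum over the finitely many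
`i < m`.  Then put `v := (T ^ j) v`. -/
def S_Cmq : Prop := Bed.S_Dm → ∀ (E : Type) [NormedAddCommGroup E] [NormedSpace ℂ E] [FiniteDimensional ℂ E] (X : Type) [MetricSpace X]
  [ChartedSpace E X] [IsManifold 𝓘(ℂ, E) 1 X] (nrm : (x : X) → TangentSpace 𝓘(ℂ, E) x → ℝ) (f : X ≃ X) (K : Set X)
  (Es Eu : (x : X) → Submodule ℂ (TangentSpace 𝓘(ℂ, E) x)) (C lam : ℝ), IsFinsler nrm → IsHyp nrm f K Es Eu C lam → ∀ p ∈ K,
  ∀ m : ℕ, 0 < m → f^[m] p = p → ∃ α β : ℝ, 0 < α ∧ 0 < β ∧ ∀ j i : ℕ, i < m → ∀ v : E,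
    α * ‖(dg (f^[m]) p ^ j) v‖ ≤ nE nrm (f^[m * j + i] p) (dg (f^[m * j + i]) p v) ∧
    nE nrm (f^[m * j + i] p) (dg (f^[m * j + i]) p v) ≤ β * ‖(dg (f^[m]) p ^ j) v‖

/-- **Per.** USES `Bed.S_Dm`, `S_Cmq`, `S_Lfc`, `S_Tra`.  PROOF.  `T = dg (f^[m]) p : E →L[ℂ] E`, `S = sE Es p`, `α`, `β` from `S_Cmq`.  `T` maps `S` into `S` and is injective
(`S_Dm` with `x = p`, `n = m`, `f^[m] p = p`).  Let `T v = μ • v`, `v ∈ S`, `v ≠ 0`: `(T ^ j) v = μ^j • v`, and by `S_Cmq` (`i = 0`, and `j = 0` for the last step) and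
`IsHyp.contr` (`dit f n p = dg (f^[n]) p`)
`α ‖μ‖^j ‖v‖ ≤ nit nrm f p (m j) v ≤ C lam^(m j) nrm p v ≤ C β (lam^m)^j ‖v‖` for all `j`, so `‖μ‖ ≤ lam^m < 1` (otherwise `(‖μ‖ / lam^m)^j → ∞`).  `S_Lfc` gives `r`, `U`, `W` with
`U 0 = ⊥` and `FC` for `N j v = ‖(T ^ j) v‖`; `S_Tra` with `N' = Bed.nit nrm f p` (`N' n 0 = 0`: `IsFinsler.smul` with `r = 0`). -/
def S_Per : Prop := Bed.S_Dm → S_Cmq → S_Lfc → S_Tra → PerC

end Pool.Agent.Lib.BedR
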