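import Pool.Agent.Lib.BedR.SpecC
import Pool.Agent.Lib.Osgood

set_option autoImplicit false

open scoped Manifold ContDiff Topology
open Set Filter Metric
open Pool.Agent.Lib Pool.Agent.Lib.Bed

namespace Pool.Agent.Lib.BedR

namespace StbM

theorem loc_inv {k : ℕ} {W : Set (Fin k → ℂ)} (hW : IsOpen W) {η : (Fin k → ℂ) → (Fin k → ℂ)}
    (hd : DifferentiableOn ℂ η W) {u : Fin k → ℂ} (hu : u ∈ W)
    (hi : ∀ w, fderiv ℂ η u w = 0 → w = 0) :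
    ∃ (θ : (Fin k → ℂ) → (Fin k → ℂ)) (θ' : (Fin k → ℂ) →L[ℂ] (Fin k → ℂ)),
      HasFDerivAt θ θ' (η u) ∧ Function.Injective θ' ∧ θ (η u) = u ∧
      ∀ᶠ y in 𝓝 (η u), θ y ∈ W ∧ η (θ y) = y := by
  have han : AnalyticAt ℂ η u := Osgood.analyticOnNhd hW hd u hu
  have hs := han.hasStrictFDerivAt
  have hinj : Function.Injective (fderiv ℂ η u).toLinearMap := by
    rw [← LinearMap.ker_eq_bot, LinearMap.ker_eq_bot']
    exact hi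
  let e : (Fin k → ℂ) ≃L[ℂ] (Fin k → ℂ) :=
    (LinearEquiv.ofInjectiveEndo (fderiv ℂ η u).toLinearMap hinj).toContinuousLinearEquiv
  have he : (e : (Fin k → ℂ) →L[ℂ] (Fin k → ℂ)) = fderiv ℂ η u := by
    ext1 w
    rfl
  rw [← he] at hs
  refine ⟨hs.localInverse η e u, (e.symm : (Fin k → ℂ) →L[ℂ] (Fin k → ℂ)),
    hs.to_localInverse.hasFDerivAt, e.symm.injective, hs.localInverse_apply_image, ?_⟩
  have h1 : ∀ᶠ y in 𝓝 (η u), hs.localInverse η e u y ∈ W := by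
    refine hs.localInverse_continuousAt.eventually (hW.mem_nhds ?_)
    rw [hs.localInverse_apply_image]
    exact hu
  filter_upwards [h1, hs.eventually_right_inverse] with y hu1 hu2
  exact ⟨hu1, hu2⟩

theorem orb_mem {k : ℕ} {r : ℝ} {F : ℕ → (Fin k → ℂ) → (Fin k → ℂ)}
    (hF : ∀ n, ∀ ξ ∈ ball (0 : Fin k → ℂ) r, F n ξ ∈ ball (0 : Fin k → ℂ) r) (n j : ℕ) :
    ∀ ξ ∈ ball (0 : Fin k → ℂ) r, orb F n j ξ ∈ ball (0 : Fin k → ℂ) r := by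
  intro ξ hξ
  induction j with
  | zero => exact hξ
  | succ j ih => exact hF _ _ ih

theorem orb_imm {k : ℕ} {r : ℝ} {F : ℕ → (Fin k → ℂ) → (Fin k → ℂ)}
    (hF : ∀ n, ∀ ξ ∈ ball (0 : Fin k → ℂ) r, F n ξ ∈ ball (0 : Fin k → ℂ) r)
    (hd : ∀ n, DifferentiableOn ℂ (F n) (ball 0 r))
    (hi : ∀ n, ∀ x ∈ ball (0 : Fin k → ℂ) r, ∀ w, fderiv ℂ (F n) x w = 0 → w = 0) (n j : ℕ) :
    ∀ ξ ∈ ball (0 : Fin k → ℂ) r, DifferentiableAt ℂ (orb F n j) ξ ∧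
      ∀ w, fderiv ℂ (orb F n j) ξ w = 0 → w = 0 := by
  intro ξ hξ
  induction j with
  | zero =>
    have h3 : orb F n 0 = id := rfl
    rw [h3, fderiv_id]
    exact ⟨differentiableAt_id, fun w hw => hw⟩
  | succ j ih =>
    obtain ⟨h1, h2⟩ := ih
    have hm := orb_mem hF n j ξ hξ
    have h4 : DifferentiableAt ℂ (F (n + j)) (orb F n j ξ) :=
      (hd (n + j)).differentiableAt (isOpen_ball.mem_nhds hm)
    have h3 : orb F n (j + 1) = F (n + j) ∘ orb F n j := rfl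
    rw [h3, fderiv_comp ξ h4 h1]
    exact ⟨h4.comp ξ h1, fun w hw => h2 w (hi _ _ hm _ hw)⟩

end StbM

open StbM in
/-- the converse -/
theorem stbP : S_Eta → S_Stb := by
  intro hEta hUCf hAsB E _ _ _ X _ _ nrm f K ι ok ψ χ ρ a b N ρ₀ ρ' C₁ C c r p k l i e H A B τ F
    hK hfK hp hf hfs hUAt hCst hDat hP hr hL hStab
  obtain ⟨Φ, hΦd, hΦi, hΦm, hΦr, hΦt⟩ := hStab
  have hset := hAsB hUCf E X f K p N k l (Pn f ψ N p i e) H A τ F ρ₀ ρ' r C c hK hfK hp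
    hf.continuous hP hr hL
  have hmem' : ∀ n, ∀ ξ ∈ ball (0 : Fin k → ℂ) r, ((ξ, τ n ξ) : V k l) ∈ ball (0 : V k l) ρ' := by
    intro n ξ hξ
    rw [mem_ball_zero_iff, Prod.norm_def]
    have h1 := mem_ball_zero_iff.1 hξ
    have h2 := hL.le n ξ hξ
    exact max_lt (lt_of_lt_of_le h1 hr) (lt_of_le_of_lt h2 (lt_of_lt_of_le h1 hr))
  have hmem : ∀ n, ∀ ξ ∈ ball (0 : Fin k → ℂ) r, ((ξ, τ n ξ) : V k l) ∈ ball (0 : V k l) ρ₀ :=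
    fun n ξ hξ => ball_subset_ball hP.le (hmem' n ξ hξ)
  have hFm : ∀ n, ∀ ξ ∈ ball (0 : Fin k → ℂ) r, F n ξ ∈ ball (0 : Fin k → ℂ) r := by
    intro n ξ hξ
    have h1 := hL.seq.contr n ξ hξ
    rw [mem_ball_zero_iff] at hξ ⊢
    have := norm_nonneg ξ
    linarith
  obtain ⟨g, hg⟩ : ∃ g : ℕ → (Fin k → ℂ) → X, ∀ n ξ, g n ξ = Pn f ψ N p i e n (ξ, τ n ξ) :=
    ⟨_, fun _ _ => rfl⟩
  have hgi : ∀ n, ∀ ξ ∈ ball (0 : Fin k → ℂ) r, ∀ ξ' ∈ ball (0 : Fin k → ℂ) r,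
      g n ξ = g n ξ' → ξ = ξ' := by
    intro n ξ hξ ξ' hξ' h
    rw [hg, hg] at h
    exact congrArg Prod.fst (hP.inj n (hmem n ξ hξ) (hmem n ξ' hξ') h)
  have hgs : ∀ n, ∀ ξ ∈ ball (0 : Fin k → ℂ) r, g (n + 1) (F n ξ) = f^[N] (g n ξ) := by
    intro n ξ hξ
    rw [hg, hg, ← hP.comm n _ (hmem' n ξ hξ), hL.inv n ξ hξ]
  have hgo : ∀ n j, ∀ ξ ∈ ball (0 : Fin k → ℂ) r, g (n + j) (orb F n j ξ) = f^[N * j] (g n ξ) := by
    intro n j ξ hξ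
    induction j with
    | zero => rfl
    | succ j ih =>
      have h1 := hgs (n + j) _ (orb_mem hFm n j ξ hξ)
      rw [ih, ← Function.iterate_add_apply] at h1
      rw [Nat.mul_succ, Nat.add_comm (N * j) N]
      exact h1
  have hfi : ∀ m, Function.Injective (f^[m]) := fun m => f.injective.iterate m
  have hex : ∀ n ξ, ∃ u, ξ ∈ ball (0 : Fin k → ℂ) r → f^[N * n] (Φ u) = g n ξ := by
    intro n ξ
    by_cases hξ : ξ ∈ ball (0 : Fin k → ℂ) r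
    · obtain ⟨q, hq⟩ := (f.surjective.iterate (N * n)) (g n ξ)
      have h1 : q ∈ stab f p := by
        rw [← hset]
        exact ⟨n, ξ, hξ, by rw [hq, hg]⟩
      rw [← hΦr] at h1
      obtain ⟨u, rfl⟩ := h1
      exact ⟨u, fun _ => hq⟩
    · exact ⟨0, fun h => absurd h hξ⟩
  choose Ψ hΨ using hex
  have hloc : ∀ n, ∀ ξ ∈ ball (0 : Fin k → ℂ) r, DifferentiableAt ℂ (Ψ n) ξ ∧
      ∀ w, fderiv ℂ (Ψ n) ξ w = 0 → w = 0 := by
    intro n ξ₀ hξ₀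
    obtain ⟨m, W, η, hnm, hWo, hu₀, hηd, hη, hηi⟩ := hEta E X nrm f K ι ok ψ χ ρ a b N ρ₀ ρ' C₁ C c r p k l
      i e H A B τ F Φ hf hfs hUAt hCst hDat hP hr hL hΦd hΦm hΦt n (Ψ n ξ₀)
    obtain ⟨j, rfl⟩ := Nat.exists_eq_add_of_le hnm
    have hpow : ∀ x, f^[N * (n + j)] x = f^[N * j] (f^[N * n] x) := by
      intro x
      rw [← Function.iterate_add_apply, Nat.mul_add, Nat.add_comm]
    have hη' : ∀ u ∈ W, g (n + j) (η u) = f^[N * (n + j)] (Φ u) := by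
      intro u hu
      rw [hg]
      exact (hη u hu).2
    have hy₀ : η (Ψ n ξ₀) = orb F n j ξ₀ := by
      apply hgi (n + j) _ (hη _ hu₀).1 _ (orb_mem hFm n j ξ₀ hξ₀)
      rw [hη' _ hu₀, hgo n j ξ₀ hξ₀, hpow, hΨ n ξ₀ hξ₀]
    obtain ⟨θ, θ', hθd, hθi, hθ0, hθ⟩ := loc_inv hWo hηd hu₀ (hηi _ hu₀)
    rw [hy₀] at hθd hθ0 hθ
    obtain ⟨ho1, ho2⟩ := orb_imm hFm hL.seq.diff hL.seq.dinj n j ξ₀ hξ₀
    have hev : Ψ n =ᶠ[𝓝 ξ₀] θ ∘ orb F n j := by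
      filter_upwards [ho1.continuousAt.eventually hθ, isOpen_ball.mem_nhds hξ₀] with ξ h1 h2
      obtain ⟨h3, h4⟩ := h1
      apply hΦi
      apply hfi (N * (n + j))
      show f^[N * (n + j)] (Φ (Ψ n ξ)) = f^[N * (n + j)] (Φ (θ (orb F n j ξ)))
      rw [← hη' _ h3, h4, hgo n j ξ h2, hpow, hΨ n ξ h2]
    have hder : HasFDerivAt (θ ∘ orb F n j) (θ'.comp (fderiv ℂ (orb F n j) ξ₀)) ξ₀ :=
      hθd.comp ξ₀ ho1.hasFDerivAt
    have hder' := hder.congr_of_eventuallyEq hev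
    refine ⟨hder'.differentiableAt, fun w hw => ?_⟩
    rw [hder'.fderiv] at hw
    apply ho2
    apply hθi
    rw [map_zero]
    exact hw
  refine ⟨Ψ, ?_, ?_, ?_, ?_, ?_⟩
  · intro n ξ hξ
    exact (hloc n ξ hξ).1.differentiableWithinAt
  · intro n ξ hξ
    apply hΦi
    apply hfi (N * (n + 1))
    rw [hΨ (n + 1) _ (hFm n ξ hξ), hgs n ξ hξ, ← hΨ n ξ hξ, ← Function.iterate_add_apply,
      Nat.mul_succ, Nat.add_comm]
  · intro n ξ hξ ξ' hξ' h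
    apply hgi n ξ hξ ξ' hξ'
    rw [← hΨ n ξ hξ, ← hΨ n ξ' hξ', h]
  · intro n ξ hξ
    exact (hloc n ξ hξ).2
  · intro u
    have h1 : Φ u ∈ stab f p := by
      rw [← hΦr]
      exact ⟨u, rfl⟩
    rw [← hset] at h1
    obtain ⟨n, ξ, hξ, h2⟩ := h1
    refine ⟨n, ξ, hξ, ?_⟩
    apply hΦi
    apply hfi (N * n)
    rw [hΨ n ξ hξ, hg]
    exact h2

end Pool.Agent.Lib.BedR
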