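import Pool.Agent.Lib.BedR.SpecA
import Pool.Agent.Lib.Osgood
import Pool.Agent.Lib.Bed.Quad

/-!
# Theorem G (MP_6f050a_an), task Yes: estimates for the field `yv e`
-/

set_option autoImplicit false

open scoped Manifold ContDiff Topology
open Set Filter Metric
open Pool.Agent.Lib Pool.Agent.Lib.Bed

namespace Pool.Agent.Lib.BedR

namespace YesM

variable {E : Type} [NormedAddCommGroup E] [NormedSpace ℂ E] [FiniteDimensional ℂ E]

/-- A holomorphic map on the ball of radius `r` is bounded on the ball of radius `3r/4`. -/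
lemma bdd {F : Type} [NormedAddCommGroup F] [NormedSpace ℂ F] {r : ℝ} (hr : 0 < r) {g : E → F}
    (hg : DifferentiableOn ℂ g (ball 0 r)) :
    ∃ M : ℝ, 0 < M ∧ ∀ x ∈ ball (0 : E) (3 * r / 4), ‖g x‖ ≤ M := by
  have _hE : ProperSpace E := FiniteDimensional.proper ℂ E
  have hsub : closedBall (0 : E) (3 * r / 4) ⊆ ball 0 r := closedBall_subset_ball (by linarith)
  obtain ⟨M, hM⟩ := (isCompact_closedBall (0 : E) (3 * r / 4)).exists_bound_of_continuousOn
    (hg.continuousOn.mono hsub)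
  exact ⟨|M| + 1, by positivity, fun x hx =>
    ((hM x (ball_subset_closedBall hx)).trans (le_abs_self M)).trans (by linarith)⟩

/-- The quadratic estimate on the ball of radius `3r/8`. -/
lemma quad {r : ℝ} (hr : 0 < r) {g : E → E} (hg : DifferentiableOn ℂ g (ball 0 r))
    (h0 : fderiv ℂ g 0 = 0) :
    ∃ C : ℝ, 0 < C ∧ ∀ x ∈ ball (0 : E) (3 * r / 8), ∀ x' ∈ ball (0 : E) (3 * r / 8),
      ‖g x - g x'‖ ≤ C * (‖x‖ + ‖x'‖) * ‖x - x'‖ := by
  obtain ⟨M, hM0, hM⟩ := bdd hr hg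
  refine ⟨16 * M / (3 * r / 4) ^ 2, by positivity, fun x hx x' hx' => ?_⟩
  have e1 : 3 * r / 4 / 2 = 3 * r / 8 := by ring
  exact sQuad E E (3 * r / 4) M g (by linarith) (hg.mono (ball_subset_ball (by linarith))) hM h0
    x (by rw [e1]; exact hx) x' (by rw [e1]; exact hx')

/-- The field `yv e` is holomorphic and its derivative vanishes at the origin. -/
lemma yv_prop {r : ℝ} (hr : 0 < r) {e : E → E} (he : DifferentiableOn ℂ e (ball 0 r)) :
    DifferentiableOn ℂ (yv e) (ball 0 r) ∧ fderiv ℂ (yv e) 0 = 0 := by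
  have _hE : CompleteSpace E := FiniteDimensional.complete ℂ E
  have hd1 : DifferentiableOn ℂ (fderiv ℂ e) (ball 0 r) :=
    Osgood.differentiableOn_fderiv isOpen_ball he
  have hy : yv e = fun x => fderiv ℂ e x x - e x + e 0 := rfl
  constructor
  · rw [hy]
    exact ((hd1.clm_apply differentiableOn_id).sub he).add_const (e 0)
  · have hm : ball (0 : E) r ∈ 𝓝 (0 : E) := ball_mem_nhds _ hr
    have h1 : HasFDerivAt (fderiv ℂ e) (fderiv ℂ (fderiv ℂ e) 0) 0 :=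
      (hd1.differentiableAt hm).hasFDerivAt
    have h2 : HasFDerivAt e (fderiv ℂ e 0) 0 := (he.differentiableAt hm).hasFDerivAt
    have h3 := ((h1.clm_apply (hasFDerivAt_id (0 : E))).sub h2).add_const (e 0)
    have h4 : fderiv ℂ (yv e) 0 = _ := h3.fderiv
    rw [h4]
    ext w
    simp

omit [FiniteDimensional ℂ E] in
/-- The remainder of `e` at the origin. -/
lemma rem_prop {r : ℝ} (hr : 0 < r) {e : E → E} (he : DifferentiableOn ℂ e (ball 0 r)) :
    DifferentiableOn ℂ (fun x => e x - e 0 - fderiv ℂ e 0 x) (ball 0 r) ∧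
      fderiv ℂ (fun x => e x - e 0 - fderiv ℂ e 0 x) 0 = 0 := by
  constructor
  · exact (he.sub_const (e 0)).sub (fderiv ℂ e 0).differentiable.differentiableOn
  · have hm : ball (0 : E) r ∈ 𝓝 (0 : E) := ball_mem_nhds _ hr
    have h2 : HasFDerivAt e (fderiv ℂ e 0) 0 := (he.differentiableAt hm).hasFDerivAt
    have h3 := (h2.sub_const (e 0)).sub (fderiv ℂ e 0).hasFDerivAt
    exact h3.fderiv.trans (sub_self _)

end YesM

theorem yesP : S_Yes := by
  intro E _ _ _ r e he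
  obtain ⟨hr, hd, -, -⟩ := he
  obtain ⟨hy, hy0⟩ := YesM.yv_prop hr hd
  obtain ⟨C₁, hC₁, h1⟩ := YesM.quad hr hy hy0
  obtain ⟨hR, hR0⟩ := YesM.rem_prop hr hd
  obtain ⟨C₂, hC₂, h2⟩ := YesM.quad hr hR hR0
  refine ⟨hy, C₁ + C₂ * r ^ 2, by positivity, ?_, ?_⟩
  · intro x hx x' hx'
    refine (h1 x hx x' hx').trans ?_
    have h3 : C₁ ≤ C₁ + C₂ * r ^ 2 := by
      have : 0 ≤ C₂ * r ^ 2 := by positivity
      linarith
    gcongr
  · intro t ht ht1 z hz
    rw [mem_ball_zero_iff] at hz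
    have hz0 := norm_nonneg z
    have hn : ‖(t : ℂ) • z‖ = t * ‖z‖ := by
      rw [norm_smul, Complex.norm_real, Real.norm_of_nonneg ht.le]
    have htz : (t : ℂ) • z ∈ ball (0 : E) (3 * r / 8) := by
      rw [mem_ball_zero_iff, hn]
      have h4 : t * ‖z‖ ≤ 1 * ‖z‖ := mul_le_mul_of_nonneg_right ht1 hz0
      linarith
    have h3 := h2 _ htz 0 (mem_ball_self (by linarith))
    have ht' : (t : ℂ) ≠ 0 := by exact_mod_cast ht.ne'
    have e1 : et e t z - (e 0 + fderiv ℂ e 0 z)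
        = (t : ℂ)⁻¹ • (e ((t : ℂ) • z) - e 0 - fderiv ℂ e 0 ((t : ℂ) • z)) := by
      unfold et
      rw [smul_sub _ (e ((t : ℂ) • z) - e 0), map_smul, smul_smul, inv_mul_cancel₀ ht', one_smul]
      abel
    have h4 : ‖e ((t : ℂ) • z) - e 0 - fderiv ℂ e 0 ((t : ℂ) • z)‖ ≤ C₂ * (t * ‖z‖) * (t * ‖z‖) := by
      have h5 : e 0 - e 0 - fderiv ℂ e 0 0 = 0 := by simp
      rw [h5, sub_zero, sub_zero, norm_zero, add_zero, hn] at h3
      exact h3
    rw [e1, norm_smul, norm_inv, Complex.norm_real, Real.norm_of_nonneg ht.le]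
    have h6 : t⁻¹ * ‖e ((t : ℂ) • z) - e 0 - fderiv ℂ e 0 ((t : ℂ) • z)‖
        ≤ t⁻¹ * (C₂ * (t * ‖z‖) * (t * ‖z‖)) := mul_le_mul_of_nonneg_left h4 (by positivity)
    have h7 : t⁻¹ * (C₂ * (t * ‖z‖) * (t * ‖z‖)) = C₂ * ‖z‖ ^ 2 * t := by
      field_simp
    have h8 : ‖z‖ ^ 2 ≤ r ^ 2 := by
      have : ‖z‖ ≤ r := by linarith
      gcongr
    have h9 : C₂ * ‖z‖ ^ 2 * t ≤ (C₁ + C₂ * r ^ 2) * t := by
      have h10 : C₂ * ‖z‖ ^ 2 ≤ C₂ * r ^ 2 := mul_le_mul_of_nonneg_left h8 hC₂.le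
      exact mul_le_mul_of_nonneg_right (by linarith) ht.le
    linarith

end Pool.Agent.Lib.BedR
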